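import Mathlib

/-! # Part A: multiplier estimate for `-v'' - μ v + i y v = f` on the circle (real form). -/

namespace Pool.Agent.Helper34

open MeasureTheory Set intervalIntegral

lemma cs_sq (a b c d : ℝ) : (a * c + b * d) ^ 2 ≤ (a ^ 2 + b ^ 2) * (c ^ 2 + d ^ 2) := by
  nlinarith [sq_nonneg (a * d - b * c)]

lemma cs_sq' (a b c d : ℝ) : (a * d - b * c) ^ 2 ≤ (a ^ 2 + b ^ 2) * (c ^ 2 + d ^ 2) := by
  nlinarith [sq_nonneg (a * c + b * d)]

/-- the pointwise quadratic-form inequality -/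
lemma pw (a b c d F1 F2 al be ga q P r m L N : ℝ) (hm : 0 < m)
    (hal : 1 / 4 ≤ al) (hbe : m / 4 ≤ be) (hga : ga ^ 2 ≤ 4 * (al - 1 / 4) * (be - m / 4))
    (hq : |q| ≤ L) (hPr : |P| + |r| ≤ N) :
    1 / 8 * (c ^ 2 + d ^ 2) + m / 8 * (a ^ 2 + b ^ 2)
        - (2 * L ^ 2 + 2 * N ^ 2 / m) * (F1 ^ 2 + F2 ^ 2) ≤
      al * (c ^ 2 + d ^ 2) + be * (a ^ 2 + b ^ 2) + ga * (a * c + b * d)
        - q * (c * F1 + d * F2) - P * (a * F2 - b * F1) - r * (a * F1 + b * F2) := by
  set A := a ^ 2 + b ^ 2 with hA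
  set C := c ^ 2 + d ^ 2 with hC
  set Φ := F1 ^ 2 + F2 ^ 2 with hΦ
  have hA0 : 0 ≤ A := by positivity
  have hC0 : 0 ≤ C := by positivity
  have hΦ0 : 0 ≤ Φ := by positivity
  -- step 1
  have h1 : 0 ≤ (al - 1 / 4) * C + (be - m / 4) * A + ga * (a * c + b * d) := by
    have hx : 0 ≤ al - 1 / 4 := by linarith
    have hz : 0 ≤ be - m / 4 := by linarith
    have hs : (ga * (a * c + b * d)) ^ 2 ≤ ((al - 1 / 4) * C + (be - m / 4) * A) ^ 2 := by
      have h := cs_sq a b c d
      have h2 : (ga * (a * c + b * d)) ^ 2 ≤ (4 * (al - 1 / 4) * (be - m / 4)) * (A * C) := by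
        rw [mul_pow]
        apply mul_le_mul hga h (sq_nonneg _)
        positivity
      nlinarith [sq_nonneg ((al - 1 / 4) * C - (be - m / 4) * A)]
    have h3 : |ga * (a * c + b * d)| ≤ (al - 1 / 4) * C + (be - m / 4) * A :=
      abs_le_of_sq_le_sq hs (by positivity)
    have := neg_abs_le (ga * (a * c + b * d))
    linarith
  -- step 2
  have hL : 0 ≤ L := le_trans (abs_nonneg _) hq
  have h2 : q * (c * F1 + d * F2) ≤ 1 / 8 * C + 2 * L ^ 2 * Φ := by
    have hcs := cs_sq c d F1 F2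
    have hq2 : q ^ 2 ≤ L ^ 2 := sq_le_sq' (by linarith [neg_abs_le q]) (by linarith [le_abs_self q])
    have hs : (q * (c * F1 + d * F2)) ^ 2 ≤ (1 / 8 * C + 2 * L ^ 2 * Φ) ^ 2 := by
      have : (q * (c * F1 + d * F2)) ^ 2 ≤ L ^ 2 * (C * Φ) := by
        rw [mul_pow]
        apply mul_le_mul hq2 hcs (sq_nonneg _) (by positivity)
      nlinarith [sq_nonneg (1 / 8 * C - 2 * L ^ 2 * Φ)]
    exact le_trans (le_abs_self _) (abs_le_of_sq_le_sq hs (by positivity))
  -- step 3
  have hN : 0 ≤ N := le_trans (by positivity) hPr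
  have h3 : P * (a * F2 - b * F1) + r * (a * F1 + b * F2) ≤ m / 8 * A + 2 * N ^ 2 / m * Φ := by
    have ht1 : |a * F2 - b * F1| ≤ Real.sqrt (A * Φ) := Real.abs_le_sqrt (cs_sq' a b F1 F2)
    have ht2 : |a * F1 + b * F2| ≤ Real.sqrt (A * Φ) := Real.abs_le_sqrt (cs_sq a b F1 F2)
    have hs0 : 0 ≤ Real.sqrt (A * Φ) := Real.sqrt_nonneg _
    have e1 : P * (a * F2 - b * F1) ≤ |P| * Real.sqrt (A * Φ) := by
      calc _ ≤ |P * (a * F2 - b * F1)| := le_abs_self _
        _ = |P| * |a * F2 - b * F1| := abs_mul _ _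
        _ ≤ _ := mul_le_mul_of_nonneg_left ht1 (abs_nonneg _)
    have e2 : r * (a * F1 + b * F2) ≤ |r| * Real.sqrt (A * Φ) := by
      calc _ ≤ |r * (a * F1 + b * F2)| := le_abs_self _
        _ = |r| * |a * F1 + b * F2| := abs_mul _ _
        _ ≤ _ := mul_le_mul_of_nonneg_left ht2 (abs_nonneg _)
    have e3 : N * Real.sqrt (A * Φ) ≤ m / 8 * A + 2 * N ^ 2 / m * Φ := by
      apply le_trans (le_abs_self _)
      apply abs_le_of_sq_le_sq _ (by positivity)
      rw [mul_pow, Real.sq_sqrt (by positivity)]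
      have : (m / 8 * A + 2 * N ^ 2 / m * Φ) ^ 2 - N ^ 2 * (A * Φ)
          = (m / 8 * A - 2 * N ^ 2 / m * Φ) ^ 2 := by
        field_simp
        ring
      nlinarith [sq_nonneg (m / 8 * A - 2 * N ^ 2 / m * Φ)]
    have e4 : (|P| + |r|) * Real.sqrt (A * Φ) ≤ N * Real.sqrt (A * Φ) :=
      mul_le_mul_of_nonneg_right hPr hs0
    linarith [e1, e2, e3, e4]
  have : (2 * L ^ 2 + 2 * N ^ 2 / m) * Φ = 2 * L ^ 2 * Φ + 2 * N ^ 2 / m * Φ := by ring
  linarith [h1, h2, h3]

section sub

variable {a b c d e g y : ℝ → ℝ}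

/-- the energy-type functional -/
noncomputable def GG (a b c d : ℝ → ℝ) (μ κ M : ℝ) (q p r : ℝ → ℝ) (x : ℝ) : ℝ :=
  1 / 2 * q x * ((c x) ^ 2 + (d x) ^ 2 + μ * ((a x) ^ 2 + (b x) ^ 2))
    + κ * q x * ((a x) ^ 2 + (b x) ^ 2)
    + (p x + M) * (a x * d x - b x * c x) + r x * (a x * c x + b x * d x)

lemma GG_deriv {a b c d : ℝ → ℝ} {e g y : ℝ} {μ κ M : ℝ} {q p r : ℝ → ℝ} {q' r' x : ℝ}
    (ha : HasDerivAt a (c x) x) (hb : HasDerivAt b (d x) x)
    (hc : HasDerivAt c e x) (hd : HasDerivAt d g x)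
    (hq : HasDerivAt q q' x) (hp : HasDerivAt p (-(y * q x)) x) (hr : HasDerivAt r r' x) :
    HasDerivAt (GG a b c d μ κ M q p r)
      ((1 / 2 * q' + r x) * ((c x) ^ 2 + (d x) ^ 2)
        + (1 / 2 * μ * q' + κ * q' - μ * r x + (p x + M) * y) * ((a x) ^ 2 + (b x) ^ 2)
        + (2 * κ * q x + r') * (a x * c x + b x * d x)
        - q x * (c x * (-e - μ * a x - y * b x) + d x * (-g - μ * b x + y * a x))
        - (p x + M) * (a x * (-g - μ * b x + y * a x) - b x * (-e - μ * a x - y * b x))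
        - r x * (a x * (-e - μ * a x - y * b x) + b x * (-g - μ * b x + y * a x))) x := by
  unfold GG
  have h1 := ((hq.const_mul (1 / 2)).mul
    (((hc.pow 2).add (hd.pow 2)).add (((ha.pow 2).add (hb.pow 2)).const_mul μ)))
  have h2 := ((hq.const_mul κ).mul ((ha.pow 2).add (hb.pow 2)))
  have h3 := ((hp.add_const M).mul ((ha.mul hd).sub (hb.mul hc)))
  have h4 := (hr.mul ((ha.mul hc).add (hb.mul hd)))
  refine (((h1.add h2).add h3).add h4).congr_deriv ?_
  simp only [Pi.add_apply, Pi.mul_apply, Pi.pow_apply, Pi.sub_apply]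
  push_cast
  ring

/-- lower bound integrand -/
noncomputable def ee (a b c d e g y : ℝ → ℝ) (μ m Λ : ℝ) (x : ℝ) : ℝ :=
  1 / 8 * ((c x) ^ 2 + (d x) ^ 2) + m / 8 * ((a x) ^ 2 + (b x) ^ 2)
    - Λ * ((-e x - μ * a x - y x * b x) ^ 2 + (-g x - μ * b x + y x * a x) ^ 2)

lemma ee_continuous {μ m Λ : ℝ} (ha : Continuous a) (hb : Continuous b)
    (hc : Continuous c) (hd : Continuous d) (he : Continuous e) (hg : Continuous g)
    (hy : Continuous y) : Continuous (ee a b c d e g y μ m Λ) := by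
  unfold ee
  fun_prop

lemma sub_interval {x0 x1 μ κ M m L N : ℝ} (h01 : x0 ≤ x1) (hm : 0 < m)
    (ha : ∀ x, HasDerivAt a (c x) x) (hb : ∀ x, HasDerivAt b (d x) x)
    (hc : ∀ x, HasDerivAt c (e x) x) (hd : ∀ x, HasDerivAt d (g x) x)
    (he : Continuous e) (hg : Continuous g) (hy : Continuous y)
    {q q' p r r' : ℝ → ℝ}
    (hq : ∀ x, HasDerivAt q (q' x) x) (hq' : Continuous q')
    (hp : ∀ x, HasDerivAt p (-(y x * q x)) x)
    (hr : ∀ x, HasDerivAt r (r' x) x) (hr' : Continuous r')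
    (hal : ∀ x ∈ Icc x0 x1, 1 / 4 ≤ 1 / 2 * q' x + r x)
    (hbe : ∀ x ∈ Icc x0 x1,
      m / 4 ≤ 1 / 2 * μ * q' x + κ * q' x - μ * r x + (p x + M) * y x)
    (hga : ∀ x ∈ Icc x0 x1, (2 * κ * q x + r' x) ^ 2 ≤
      4 * (1 / 2 * q' x + r x - 1 / 4) *
        (1 / 2 * μ * q' x + κ * q' x - μ * r x + (p x + M) * y x - m / 4))
    (hqL : ∀ x ∈ Icc x0 x1, |q x| ≤ L)
    (hPN : ∀ x ∈ Icc x0 x1, |p x + M| + |r x| ≤ N) :
    ∫ x in x0..x1, ee a b c d e g y μ m (2 * L ^ 2 + 2 * N ^ 2 / m) x ≤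
      GG a b c d μ κ M q p r x1 - GG a b c d μ κ M q p r x0 := by
  have cona : Continuous a := continuous_iff_continuousAt.2 fun x => (ha x).continuousAt
  have conb : Continuous b := continuous_iff_continuousAt.2 fun x => (hb x).continuousAt
  have conc : Continuous c := continuous_iff_continuousAt.2 fun x => (hc x).continuousAt
  have cond : Continuous d := continuous_iff_continuousAt.2 fun x => (hd x).continuousAt
  have conq : Continuous q := continuous_iff_continuousAt.2 fun x => (hq x).continuousAt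
  have conp : Continuous p := continuous_iff_continuousAt.2 fun x => (hp x).continuousAt
  have conr : Continuous r := continuous_iff_continuousAt.2 fun x => (hr x).continuousAt
  have hG := fun x => GG_deriv (μ := μ) (κ := κ) (M := M) (ha x) (hb x) (hc x) (hd x) (hq x) (hp x)
    (hr x)
  have hint := intervalIntegral.integral_eq_sub_of_hasDerivAt (a := x0) (b := x1)
    (fun x _ => hG x) (Continuous.intervalIntegrable (by fun_prop) _ _)
  rw [← hint]
  apply intervalIntegral.integral_mono_on h01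
  · exact (ee_continuous cona conb conc cond he hg hy).intervalIntegrable _ _
  · exact Continuous.intervalIntegrable (by fun_prop) _ _
  · intro x hx
    have := pw (a x) (b x) (c x) (d x) (-e x - μ * a x - y x * b x) (-g x - μ * b x + y x * a x)
      (1 / 2 * q' x + r x) (1 / 2 * μ * q' x + κ * q' x - μ * r x + (p x + M) * y x)
      (2 * κ * q x + r' x) (q x) (p x + M) (r x) m L N hm (hal x hx) (hbe x hx) (hga x hx)
      (hqL x hx) (hPN x hx)
    unfold ee
    exact this

/-- derivative of `x ↦ C + ∫_x^{x1} f` -/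
lemma hasDerivAt_tail {f : ℝ → ℝ} (hf : Continuous f) (C x1 x : ℝ) :
    HasDerivAt (fun x => C + ∫ t in x..x1, f t) (-(f x)) x := by
  have h := intervalIntegral.integral_hasDerivAt_left (hf.intervalIntegrable x x1)
    (hf.stronglyMeasurableAtFilter _ _) hf.continuousAt
  simpa using h.const_add C

/-- the half-interval estimate -/
lemma half_interval {X l w μ κ K M N P0 : ℝ} (hl : 0 < l) (hw : 0 < w) (hX : l + 2 * w ≤ X)
    (hμ : 0 ≤ μ) (hκ : κ = 1 / (32 * (l + w) ^ 2)) (hK : 0 < K)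
    (hM : M = ((l + w) / w + 1) * (2 * μ + 2 * κ + 2 / w ^ 2) / K)
    (ha : ∀ x, HasDerivAt a (c x) x) (hb : ∀ x, HasDerivAt b (d x) x)
    (hc : ∀ x, HasDerivAt c (e x) x) (hd : ∀ x, HasDerivAt d (g x) x)
    (he : Continuous e) (hg : Continuous g) (hy : Continuous y)
    (hy0 : ∀ x ∈ Icc 0 X, 0 ≤ y x) (hyK : ∀ x ∈ Icc l X, K ≤ y x)
    (hP0 : P0 = (∫ t in (l + w)..(l + 2 * w), y t * ((l + w) / w * (l + 2 * w - t)))
      + ∫ t in (0 : ℝ)..(l + w), y t * t)
    (hN : P0 + M + ((l + w) / w + 1) ≤ N) :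
    ∫ x in (0 : ℝ)..X, ee a b c d e g y μ (μ + 2 * κ) (2 * (l + w) ^ 2 + 2 * N ^ 2 / (μ + 2 * κ)) x ≤
      M * (a X * d X - b X * c X) + ((l + w) / w + 1) * (a X * c X + b X * d X)
        - (P0 + M) * (a 0 * d 0 - b 0 * c 0) := by
  set h := (l + w) / w with hh
  set H := h + 1 with hH
  set m := μ + 2 * κ with hm
  have hlw : 0 < l + w := by positivity
  have hκ0 : 0 < κ := by rw [hκ]; positivity
  have hm0 : 0 < m := by positivity
  have hh1 : 1 ≤ h := by
    rw [hh, le_div_iff₀ hw]; linarith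
  have hhw : h * w = l + w := by rw [hh]; field_simp
  have hH2 : 2 ≤ H := by linarith
  have hMK : M * K = H * (2 * μ + 2 * κ + 2 / w ^ 2) := by rw [hM]; field_simp
  have hM0 : 0 ≤ M := by rw [hM]; positivity
  have hHμ : 2 * μ ≤ H * μ := mul_le_mul_of_nonneg_right hH2 hμ
  have hHκ : 2 * κ ≤ H * κ := mul_le_mul_of_nonneg_right hH2 hκ0.le
  have hHw : 0 ≤ H * (2 / w ^ 2) := by positivity
  have hMK' : M * K = 2 * (H * μ) + 2 * (H * κ) + H * (2 / w ^ 2) := by rw [hMK]; ring
  have hκL : 32 * κ * (l + w) ^ 2 = 1 := by rw [hκ]; field_simp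
  have hκ4 : 4 * κ ^ 2 * (l + w) ^ 2 = κ / 8 := by
    have : 4 * κ ^ 2 * (l + w) ^ 2 = κ / 8 * (32 * κ * (l + w) ^ 2) := by ring
    rw [this, hκL, mul_one]
  have hH0 : 0 ≤ H := by linarith
  have cona : Continuous a := continuous_iff_continuousAt.2 fun x => (ha x).continuousAt
  have conb : Continuous b := continuous_iff_continuousAt.2 fun x => (hb x).continuousAt
  have conc : Continuous c := continuous_iff_continuousAt.2 fun x => (hc x).continuousAt
  have cond : Continuous d := continuous_iff_continuousAt.2 fun x => (hd x).continuousAt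
  -- the functions
  set f3 : ℝ → ℝ := fun t => y t * (h * (l + 2 * w - t)) with hf3
  set f1 : ℝ → ℝ := fun t => y t * t with hf1
  have conf3 : Continuous f3 := by rw [hf3]; fun_prop
  have conf1 : Continuous f1 := by rw [hf1]; fun_prop
  set Q3 := ∫ t in (l + w)..(l + 2 * w), f3 t with hQ3
  have hf3nn : ∀ t ∈ Icc (l + w) (l + 2 * w), 0 ≤ f3 t := by
    intro t ht
    have : 0 ≤ y t := hy0 t ⟨by linarith [ht.1], by linarith [ht.2]⟩
    have h2 : 0 ≤ l + 2 * w - t := by linarith [ht.2]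
    rw [hf3]
    positivity
  have hf1nn : ∀ t ∈ Icc 0 (l + w), 0 ≤ f1 t := by
    intro t ht
    have : 0 ≤ y t := hy0 t ⟨by linarith [ht.1], by linarith [ht.2]⟩
    have h2 : 0 ≤ t := ht.1
    rw [hf1]
    positivity
  have hQ3nn : 0 ≤ Q3 := intervalIntegral.integral_nonneg (by linarith) hf3nn
  -- bounds on tails
  have tail3 : ∀ x ∈ Icc (l + w) (l + 2 * w), 0 ≤ (∫ t in x..(l + 2 * w), f3 t) ∧
      (∫ t in x..(l + 2 * w), f3 t) ≤ Q3 := by
    intro x hx
    constructor
    · exact intervalIntegral.integral_nonneg hx.2 fun t ht => hf3nn t ⟨by linarith [hx.1, ht.1], ht.2⟩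
    · have h1 : 0 ≤ ∫ t in (l + w)..x, f3 t :=
        intervalIntegral.integral_nonneg hx.1 fun t ht => hf3nn t ⟨ht.1, by linarith [hx.2, ht.2]⟩
      have h2 := intervalIntegral.integral_add_adjacent_intervals
        (conf3.intervalIntegrable (μ := volume) (l + w) x)
        (conf3.intervalIntegrable (μ := volume) x (l + 2 * w))
      rw [hQ3]; linarith
  have hP0' : P0 = Q3 + ∫ t in (0 : ℝ)..(l + w), f1 t := hP0
  have tail1 : ∀ x ∈ Icc 0 (l + w), 0 ≤ Q3 + (∫ t in x..(l + w), f1 t) ∧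
      Q3 + (∫ t in x..(l + w), f1 t) ≤ P0 := by
    intro x hx
    constructor
    · have := intervalIntegral.integral_nonneg (μ := volume) hx.2
        fun t ht => hf1nn t ⟨by linarith [hx.1, ht.1], ht.2⟩
      linarith
    · have h1 : 0 ≤ ∫ t in (0 : ℝ)..x, f1 t :=
        intervalIntegral.integral_nonneg hx.1 fun t ht => hf1nn t ⟨ht.1, by linarith [hx.2, ht.2]⟩
      have h2 := intervalIntegral.integral_add_adjacent_intervals
        (conf1.intervalIntegrable (μ := volume) 0 x)
        (conf1.intervalIntegrable (μ := volume) x (l + w))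
      rw [hP0']; linarith
  have hQ3P0 : Q3 ≤ P0 := by
    have := tail1 (l + w) ⟨by linarith, le_refl _⟩
    simpa using this.2
  have hN0 : P0 + M + H ≤ N := hN
  -- region 4
  have R4 := sub_interval (a := a) (b := b) (c := c) (d := d) (e := e) (g := g) (y := y)
    (x0 := l + 2 * w) (x1 := X) (μ := μ) (κ := κ) (M := M) (m := m) (L := l + w) (N := N)
    hX hm0 ha hb hc hd he hg hy
    (q := fun _ => 0) (q' := fun _ => 0) (p := fun _ => 0) (r := fun _ => H) (r' := fun _ => 0)
    (fun x => hasDerivAt_const x 0) continuous_const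
    (fun x => by simpa using hasDerivAt_const x (0 : ℝ))
    (fun x => hasDerivAt_const x H) continuous_const
    (fun x _ => by linarith)
    (fun x hx => by
      have hyx : K ≤ y x := hyK x ⟨by linarith [hx.1], hx.2⟩
      have : M * K ≤ M * y x := mul_le_mul_of_nonneg_left hyx hM0
      have h3 : 0 ≤ 2 / w ^ 2 := by positivity
      linarith)
    (fun x hx => by
      have hyx : K ≤ y x := hyK x ⟨by linarith [hx.1], hx.2⟩
      have : M * K ≤ M * y x := mul_le_mul_of_nonneg_left hyx hM0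
      have h3 : 0 ≤ 2 / w ^ 2 := by positivity
      have hh : 0 ≤ 1 / 2 * μ * 0 + κ * 0 - μ * H + (0 + M) * y x - m / 4 := by
        linarith
      have : 0 ≤ 4 * (1 / 2 * 0 + H - 1 / 4) *
        (1 / 2 * μ * 0 + κ * 0 - μ * H + (0 + M) * y x - m / 4) :=
        mul_nonneg (by linarith) hh
      simpa using this)
    (fun x _ => by simp; linarith)
    (fun x _ => by
      simp only [zero_add]
      rw [abs_of_nonneg hM0, abs_of_nonneg (by linarith)]
      linarith)
  -- region 3
  have R3 := sub_interval (a := a) (b := b) (c := c) (d := d) (e := e) (g := g) (y := y)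
    (x0 := l + w) (x1 := l + 2 * w) (μ := μ) (κ := κ) (M := M) (m := m) (L := l + w) (N := N)
    (by linarith) hm0 ha hb hc hd he hg hy
    (q := fun x => h * (l + 2 * w - x)) (q' := fun _ => -h)
    (p := fun x => 0 + ∫ t in x..(l + 2 * w), f3 t) (r := fun _ => H) (r' := fun _ => 0)
    (fun x => by simpa using ((hasDerivAt_id x).const_sub (l + 2 * w)).const_mul h) continuous_const
    (fun x => hasDerivAt_tail conf3 0 (l + 2 * w) x)
    (fun x => hasDerivAt_const x H) continuous_const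
    (fun x _ => by linarith)
    (fun x hx => by
      have hyx : K ≤ y x := hyK x ⟨by linarith [hx.1], by linarith [hx.2]⟩
      have hyx0 : 0 ≤ y x := by linarith
      have : M * K ≤ M * y x := mul_le_mul_of_nonneg_left hyx hM0
      have h3 : 0 ≤ 2 / w ^ 2 := by positivity
      have ht := (tail3 x hx).1
      have h4 : 0 ≤ (∫ t in x..(l + 2 * w), f3 t) * y x := mul_nonneg ht hyx0
      have h5 : (0 + (∫ t in x..(l + 2 * w), f3 t) + M) * y x
        = (∫ t in x..(l + 2 * w), f3 t) * y x + M * y x := by ring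
      rw [h5]
      linarith)
    (fun x hx => by
      have hyx : K ≤ y x := hyK x ⟨by linarith [hx.1], by linarith [hx.2]⟩
      have hyx0 : 0 ≤ y x := by linarith
      have hMy : M * K ≤ M * y x := mul_le_mul_of_nonneg_left hyx hM0
      have h3 : 0 ≤ 2 / w ^ 2 := by positivity
      have ht := (tail3 x hx).1
      have h4 : 0 ≤ (∫ t in x..(l + 2 * w), f3 t) * y x := mul_nonneg ht hyx0
      have h5 : (0 + (∫ t in x..(l + 2 * w), f3 t) + M) * y x
        = (∫ t in x..(l + 2 * w), f3 t) * y x + M * y x := by ring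
      rw [h5]
      have hh' : 3 / 4 * m ≤ 1 / 2 * μ * (-h) + κ * (-h) - μ * H
          + ((∫ t in x..(l + 2 * w), f3 t) * y x + M * y x) - m / 4 := by
        linarith
      have hq0 : 0 ≤ h * (l + 2 * w - x) := mul_nonneg (by linarith) (by linarith [hx.2])
      have hqL : h * (l + 2 * w - x) ≤ l + w := by
        rw [← hhw]; exact mul_le_mul_of_nonneg_left (by linarith [hx.1]) (by linarith)
      have h6 : (2 * κ * (h * (l + 2 * w - x)) + 0) ^ 2 ≤ κ / 8 := by
        have h7 : (h * (l + 2 * w - x)) ^ 2 ≤ (l + w) ^ 2 := pow_le_pow_left₀ hq0 hqL 2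
        have h8 : (2 * κ * (h * (l + 2 * w - x)) + 0) ^ 2
          = 4 * κ ^ 2 * (h * (l + 2 * w - x)) ^ 2 := by ring
        rw [h8]
        have : 4 * κ ^ 2 * (h * (l + 2 * w - x)) ^ 2 ≤ 4 * κ ^ 2 * (l + w) ^ 2 :=
          mul_le_mul_of_nonneg_left h7 (by positivity)
        rw [hκ4] at this
        exact this
      have h9 : 4 * (3 / 4) * (3 / 4 * m) ≤ 4 * (1 / 2 * (-h) + H - 1 / 4) * (1 / 2 * μ * (-h) + κ * (-h) - μ * H
          + ((∫ t in x..(l + 2 * w), f3 t) * y x + M * y x) - m / 4) := by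
        apply mul_le_mul _ hh' (by positivity) (by linarith)
        linarith
      have h10 : κ / 8 ≤ 4 * (3 / 4) * (3 / 4 * m) := by rw [hm]; linarith
      linarith)
    (fun x hx => by
      have hq0 : 0 ≤ h * (l + 2 * w - x) := mul_nonneg (by linarith) (by linarith [hx.2])
      have hqL : h * (l + 2 * w - x) ≤ l + w := by
        rw [← hhw]; exact mul_le_mul_of_nonneg_left (by linarith [hx.1]) (by linarith)
      rw [abs_of_nonneg hq0]
      exact hqL)
    (fun x hx => by
      have ht := tail3 x hx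
      rw [abs_of_nonneg (by linarith [ht.1]), abs_of_nonneg (by linarith)]
      linarith [ht.2])
  -- region 2
  have R2 := sub_interval (a := a) (b := b) (c := c) (d := d) (e := e) (g := g) (y := y)
    (x0 := l) (x1 := l + w) (μ := μ) (κ := κ) (M := M) (m := m) (L := l + w) (N := N)
    (by linarith) hm0 ha hb hc hd he hg hy
    (q := fun x => x) (q' := fun _ => 1)
    (p := fun x => Q3 + ∫ t in x..(l + w), f1 t) (r := fun x => H * ((x - l) / w) ^ 2)
    (r' := fun x => 2 * H * (x - l) / w ^ 2)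
    (fun x => hasDerivAt_id x) continuous_const
    (fun x => hasDerivAt_tail conf1 Q3 (l + w) x)
    (fun x => by
      have h1 : HasDerivAt (fun x => (x - l) / w) (1 / w) x :=
        ((hasDerivAt_id x).sub_const l).div_const w
      have h2 := (h1.pow 2).const_mul H
      refine h2.congr_deriv ?_
      simp
      field_simp)
    (by fun_prop)
    (fun x hx => by
      have : 0 ≤ H * ((x - l) / w) ^ 2 := by positivity
      linarith)
    (fun x hx => by
      have hyx : K ≤ y x := hyK x ⟨by linarith [hx.1], by linarith [hx.2]⟩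
      have hyx0 : 0 ≤ y x := by linarith
      have hMy : M * K ≤ M * y x := mul_le_mul_of_nonneg_left hyx hM0
      have h3 : 0 ≤ 2 / w ^ 2 := by positivity
      have ht := (tail1 x ⟨by linarith [hx.1], hx.2⟩).1
      have h4 : 0 ≤ (Q3 + ∫ t in x..(l + w), f1 t) * y x := mul_nonneg ht hyx0
      have h5 : (Q3 + (∫ t in x..(l + w), f1 t) + M) * y x
        = (Q3 + ∫ t in x..(l + w), f1 t) * y x + M * y x := by ring
      rw [h5]
      have hs : ((x - l) / w) ^ 2 ≤ 1 := by
        apply pow_le_one₀ (div_nonneg (by linarith [hx.1]) hw.le)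
        rw [div_le_one hw]; linarith [hx.2]
      have hr1 : H * ((x - l) / w) ^ 2 ≤ H := mul_le_of_le_one_right hH0 hs
      have hr2 : μ * (H * ((x - l) / w) ^ 2) ≤ μ * H := mul_le_mul_of_nonneg_left hr1 hμ
      linarith)
    (fun x hx => by
      have hyx : K ≤ y x := hyK x ⟨by linarith [hx.1], by linarith [hx.2]⟩
      have hyx0 : 0 ≤ y x := by linarith
      have hMy : M * K ≤ M * y x := mul_le_mul_of_nonneg_left hyx hM0
      have h3 : 0 ≤ 2 / w ^ 2 := by positivity
      have ht := (tail1 x ⟨by linarith [hx.1], hx.2⟩).1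
      have h4 : 0 ≤ (Q3 + ∫ t in x..(l + w), f1 t) * y x := mul_nonneg ht hyx0
      have h5 : (Q3 + (∫ t in x..(l + w), f1 t) + M) * y x
        = (Q3 + ∫ t in x..(l + w), f1 t) * y x + M * y x := by ring
      rw [h5]
      set s := (x - l) / w with hs'
      have hs0 : 0 ≤ s := div_nonneg (by linarith [hx.1]) hw.le
      have hs : s ^ 2 ≤ 1 := by
        apply pow_le_one₀ hs0
        rw [hs', div_le_one hw]; linarith [hx.2]
      have hr1 : H * s ^ 2 ≤ H := mul_le_of_le_one_right hH0 hs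
      have hr2 : μ * (H * s ^ 2) ≤ μ * H := mul_le_mul_of_nonneg_left hr1 hμ
      have hr' : 2 * H * (x - l) / w ^ 2 = 2 * H * s / w := by rw [hs']; field_simp
      rw [hr']
      set r := H * s ^ 2 with hr
      have hr0 : 0 ≤ r := by positivity
      have hrp : (2 * H * s / w) ^ 2 = 2 * (2 / w ^ 2) * H * r := by
        rw [hr]; field_simp
      -- lower bound of the product
      have hB : m / 4 + (μ * H + 2 * κ * H + H * (2 / w ^ 2)) - μ * H * 0 ≤
          1 / 2 * μ * 1 + κ * 1 - μ * r + ((Q3 + ∫ t in x..(l + w), f1 t) * y x + M * y x) - m / 4 := by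
        rw [hm]
        linarith
      have hprod : 4 * (1 / 2 * 1 + r - 1 / 4) * (m / 4 + (μ * H + 2 * κ * H + H * (2 / w ^ 2)) - μ * H * 0) ≤
          4 * (1 / 2 * 1 + r - 1 / 4) *
          (1 / 2 * μ * 1 + κ * 1 - μ * r + ((Q3 + ∫ t in x..(l + w), f1 t) * y x + M * y x) - m / 4) :=
        mul_le_mul_of_nonneg_left hB (by linarith)
      have hsq : (2 * κ * x + 2 * H * s / w) ^ 2 ≤ κ / 4 + 8 * (1 / w ^ 2) * H * r := by
        have hx0 : 0 ≤ x := by linarith [hx.1]
        have h7 : x ^ 2 ≤ (l + w) ^ 2 := pow_le_pow_left₀ hx0 hx.2 2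
        have h8 : (2 * κ * x) ^ 2 ≤ κ / 8 := by
          have h71 : 4 * κ ^ 2 * x ^ 2 ≤ 4 * κ ^ 2 * (l + w) ^ 2 :=
            mul_le_mul_of_nonneg_left h7 (by positivity)
          rw [hκ4] at h71
          have h72 : (2 * κ * x) ^ 2 = 4 * κ ^ 2 * x ^ 2 := by ring
          rw [h72]; exact h71
        have h9 : (2 * κ * x + 2 * H * s / w) ^ 2 ≤ 2 * (2 * κ * x) ^ 2 + 2 * (2 * H * s / w) ^ 2 := by
          have h91 : 2 * (2 * κ * x) ^ 2 + 2 * (2 * H * s / w) ^ 2 - (2 * κ * x + 2 * H * s / w) ^ 2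
            = (2 * κ * x - 2 * H * s / w) ^ 2 := by ring
          have h92 := sq_nonneg (2 * κ * x - 2 * H * s / w)
          linarith
        rw [hrp] at h9
        have : 2 / w ^ 2 = 2 * (1 / w ^ 2) := by ring
        rw [this] at h9
        linarith
      have hlow : κ / 4 + 8 * (1 / w ^ 2) * H * r ≤
          4 * (1 / 2 * 1 + r - 1 / 4) * (m / 4 + (μ * H + 2 * κ * H + H * (2 / w ^ 2)) - μ * H * 0) := by
        have e1 : 4 * (1 / 2 * 1 + r - 1 / 4) * (m / 4 + (μ * H + 2 * κ * H + H * (2 / w ^ 2)) - μ * H * 0)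
          = (m / 4 + μ * H + 2 * κ * H + H * (2 / w ^ 2)) + 4 * r * (m / 4 + μ * H + 2 * κ * H)
            + 8 * (1 / w ^ 2) * H * r := by ring
        rw [e1]
        have p1 : 0 ≤ μ * H := by positivity
        have p2 : 0 ≤ κ * H := by positivity
        have p3 : 0 ≤ H * (2 / w ^ 2) := by positivity
        have p4 : 0 ≤ 4 * r * (m / 4 + μ * H + 2 * κ * H) := by positivity
        have p5 : m / 4 = μ / 4 + κ / 2 := by rw [hm]; ring
        linarith
      linarith)
    (fun x hx => by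
      rw [abs_of_nonneg (by linarith [hx.1])]
      exact hx.2)
    (fun x hx => by
      have ht := tail1 x ⟨by linarith [hx.1], hx.2⟩
      have hs : ((x - l) / w) ^ 2 ≤ 1 := by
        apply pow_le_one₀ (div_nonneg (by linarith [hx.1]) hw.le)
        rw [div_le_one hw]; linarith [hx.2]
      have hr0 : 0 ≤ H * ((x - l) / w) ^ 2 := by positivity
      have hr1 : H * ((x - l) / w) ^ 2 ≤ H := mul_le_of_le_one_right hH0 hs
      rw [abs_of_nonneg (by linarith [ht.1]), abs_of_nonneg hr0]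
      linarith [ht.2])
  -- region 1
  have R1 := sub_interval (a := a) (b := b) (c := c) (d := d) (e := e) (g := g) (y := y)
    (x0 := 0) (x1 := l) (μ := μ) (κ := κ) (M := M) (m := m) (L := l + w) (N := N)
    hl.le hm0 ha hb hc hd he hg hy
    (q := fun x => x) (q' := fun _ => 1)
    (p := fun x => Q3 + ∫ t in x..(l + w), f1 t) (r := fun x => 0)
    (r' := fun x => 0)
    (fun x => hasDerivAt_id x) continuous_const
    (fun x => hasDerivAt_tail conf1 Q3 (l + w) x)
    (fun x => hasDerivAt_const x 0) continuous_const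
    (fun x hx => by norm_num)
    (fun x hx => by
      have hyx0 : 0 ≤ y x := hy0 x ⟨hx.1, by linarith [hx.2]⟩
      have ht := (tail1 x ⟨by linarith [hx.1], by linarith [hx.2]⟩).1
      have h4 : 0 ≤ (Q3 + (∫ t in x..(l + w), f1 t) + M) * y x := mul_nonneg (by linarith) hyx0
      rw [hm]; linarith)
    (fun x hx => by
      have hyx0 : 0 ≤ y x := hy0 x ⟨hx.1, by linarith [hx.2]⟩
      have ht := (tail1 x ⟨by linarith [hx.1], by linarith [hx.2]⟩).1
      have h4 : 0 ≤ (Q3 + (∫ t in x..(l + w), f1 t) + M) * y x := mul_nonneg (by linarith) hyx0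
      have hx0 : 0 ≤ x := by linarith [hx.1]
      have h7 : x ^ 2 ≤ (l + w) ^ 2 := pow_le_pow_left₀ hx0 (by linarith [hx.2]) 2
      have h8 : (2 * κ * x + 0) ^ 2 ≤ κ / 8 := by
        have h71 : 4 * κ ^ 2 * x ^ 2 ≤ 4 * κ ^ 2 * (l + w) ^ 2 :=
          mul_le_mul_of_nonneg_left h7 (by positivity)
        rw [hκ4] at h71
        have h72 : (2 * κ * x + 0) ^ 2 = 4 * κ ^ 2 * x ^ 2 := by ring
        rw [h72]; exact h71
      have h9 : κ / 2 ≤ (1 / 2 * μ * 1 + κ * 1 - μ * 0 + (Q3 + (∫ t in x..(l + w), f1 t) + M) * y x - m / 4) := by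
        rw [hm]; linarith
      linarith)
    (fun x hx => by
      rw [abs_of_nonneg (by linarith [hx.1])]
      linarith [hx.2])
    (fun x hx => by
      have ht := tail1 x ⟨by linarith [hx.1], by linarith [hx.2]⟩
      rw [abs_of_nonneg (by linarith [ht.1]), abs_of_nonneg (le_refl _)]
      linarith [ht.2])
  -- sum up
  have conee : Continuous (ee a b c d e g y μ m (2 * (l + w) ^ 2 + 2 * N ^ 2 / m)) :=
    ee_continuous cona conb conc cond he hg hy
  have s1 := intervalIntegral.integral_add_adjacent_intervals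
    (conee.intervalIntegrable (μ := volume) 0 l) (conee.intervalIntegrable (μ := volume) l (l + w))
  have s2 := intervalIntegral.integral_add_adjacent_intervals
    (conee.intervalIntegrable (μ := volume) 0 (l + w))
    (conee.intervalIntegrable (μ := volume) (l + w) (l + 2 * w))
  have s3 := intervalIntegral.integral_add_adjacent_intervals
    (conee.intervalIntegrable (μ := volume) 0 (l + 2 * w))
    (conee.intervalIntegrable (μ := volume) (l + 2 * w) X)
  rw [← s3, ← s2, ← s1]
  have g1 : GG a b c d μ κ M (fun x => x) (fun x => Q3 + ∫ t in x..(l + w), f1 t) (fun _ => 0) 0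
      = (P0 + M) * (a 0 * d 0 - b 0 * c 0) := by
    unfold GG; rw [hP0']; simp
  have g2 : GG a b c d μ κ M (fun x => x) (fun x => Q3 + ∫ t in x..(l + w), f1 t) (fun _ => 0) l
      = GG a b c d μ κ M (fun x => x) (fun x => Q3 + ∫ t in x..(l + w), f1 t)
        (fun x => H * ((x - l) / w) ^ 2) l := by
    unfold GG; simp
  have g3 : GG a b c d μ κ M (fun x => x) (fun x => Q3 + ∫ t in x..(l + w), f1 t)
        (fun x => H * ((x - l) / w) ^ 2) (l + w)
      = GG a b c d μ κ M (fun x => h * (l + 2 * w - x)) (fun x => 0 + ∫ t in x..(l + 2 * w), f3 t)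
        (fun _ => H) (l + w) := by
    unfold GG
    have e1 : h * (l + 2 * w - (l + w)) = l + w := by
      have : l + 2 * w - (l + w) = w := by ring
      rw [this, hhw]
    have e2 : (l + w - l) / w = 1 := by field_simp; ring
    simp only [e1, e2, intervalIntegral.integral_same, add_zero, zero_add, one_pow, mul_one, ← hQ3]
  have g4 : GG a b c d μ κ M (fun x => h * (l + 2 * w - x)) (fun x => 0 + ∫ t in x..(l + 2 * w), f3 t)
        (fun _ => H) (l + 2 * w)
      = GG a b c d μ κ M (fun _ => 0) (fun _ => 0) (fun _ => H) (l + 2 * w) := by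
    unfold GG; simp
  have g5 : GG a b c d μ κ M (fun _ => 0) (fun _ => 0) (fun _ => H) X
      = M * (a X * d X - b X * c X) + H * (a X * c X + b X * d X) := by
    unfold GG; simp
  linarith

/-- the full-circle estimate (★) -/
lemma full_circle {X l w μ κ K M N P0 : ℝ} (hl : 0 < l) (hw : 0 < w) (hX : l + 2 * w ≤ X)
    (hμ : 0 ≤ μ) (hκ : κ = 1 / (32 * (l + w) ^ 2)) (hK : 0 < K)
    (hM : M = ((l + w) / w + 1) * (2 * μ + 2 * κ + 2 / w ^ 2) / K)
    (ha : ∀ x, HasDerivAt a (c x) x) (hb : ∀ x, HasDerivAt b (d x) x)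
    (hc : ∀ x, HasDerivAt c (e x) x) (hd : ∀ x, HasDerivAt d (g x) x)
    (he : Continuous e) (hg : Continuous g) (hy : Continuous y)
    (hyeven : ∀ x, y (-x) = y x)
    (hpa : a (-X) = a X) (hpb : b (-X) = b X) (hpc : c (-X) = c X) (hpd : d (-X) = d X)
    (hy0 : ∀ x ∈ Icc 0 X, 0 ≤ y x) (hyK : ∀ x ∈ Icc l X, K ≤ y x)
    (hP0 : P0 = (∫ t in (l + w)..(l + 2 * w), y t * ((l + w) / w * (l + 2 * w - t)))
      + ∫ t in (0 : ℝ)..(l + w), y t * t)
    (hN : P0 + M + ((l + w) / w + 1) ≤ N) :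
    (∫ x in (-X)..X, ((c x) ^ 2 + (d x) ^ 2)) + (μ + 2 * κ) * ∫ x in (-X)..X, ((a x) ^ 2 + (b x) ^ 2)
      ≤ 16 * ((l + w) ^ 2 + N ^ 2 / (μ + 2 * κ)) *
        ∫ x in (-X)..X, ((-e x - μ * a x - y x * b x) ^ 2 + (-g x - μ * b x + y x * a x) ^ 2) := by
  have cona : Continuous a := continuous_iff_continuousAt.2 fun x => (ha x).continuousAt
  have conb : Continuous b := continuous_iff_continuousAt.2 fun x => (hb x).continuousAt
  have conc : Continuous c := continuous_iff_continuousAt.2 fun x => (hc x).continuousAt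
  have cond : Continuous d := continuous_iff_continuousAt.2 fun x => (hd x).continuousAt
  have h1 := half_interval hl hw hX hμ hκ hK hM ha hb hc hd he hg hy hy0 hyK hP0 hN
  have dn : ∀ {f f' : ℝ → ℝ}, (∀ x, HasDerivAt f (f' x) x) →
      ∀ x, HasDerivAt (fun x => f (-x)) (-(f' (-x))) x := by
    intro f f' hf x
    exact ((hf (-x)).scomp x (hasDerivAt_neg x)).congr_deriv (by simp)
  have h2 := half_interval (a := fun x => a (-x)) (b := fun x => b (-x))
    (c := fun x => -(c (-x))) (d := fun x => -(d (-x))) (e := fun x => e (-x))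
    (g := fun x => g (-x)) hl hw hX hμ hκ hK hM (dn ha) (dn hb)
    (fun x => (dn hc x).neg.congr_deriv (by simp)) (fun x => (dn hd x).neg.congr_deriv (by simp))
    (by fun_prop) (by fun_prop) hy hy0 hyK hP0 hN
  set Λ := 2 * (l + w) ^ 2 + 2 * N ^ 2 / (μ + 2 * κ) with hΛ
  set m := μ + 2 * κ with hm
  have conee : Continuous (ee a b c d e g y μ m Λ) :=
    ee_continuous cona conb conc cond he hg hy
  have h3 : (∫ x in (0 : ℝ)..X, ee (fun x => a (-x)) (fun x => b (-x))
      (fun x => -(c (-x))) (fun x => -(d (-x))) (fun x => e (-x)) (fun x => g (-x)) y μ m Λ x)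
      = ∫ x in (-X)..0, ee a b c d e g y μ m Λ x := by
    have := intervalIntegral.integral_comp_neg (a := 0) (b := X) (ee a b c d e g y μ m Λ)
    rw [neg_zero] at this
    rw [← this]
    apply intervalIntegral.integral_congr
    intro x _
    simp only [ee, hyeven]
    ring
  rw [h3] at h2
  have h4 := intervalIntegral.integral_add_adjacent_intervals
    (conee.intervalIntegrable (μ := volume) (-X) 0) (conee.intervalIntegrable (μ := volume) 0 X)
  simp only [neg_zero, hpa, hpb, hpc, hpd] at h2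
  have h5 : ∫ x in (-X)..X, ee a b c d e g y μ m Λ x ≤ 0 := by
    rw [← h4]; linarith
  have h6 : ∫ x in (-X)..X, ee a b c d e g y μ m Λ x
      = 1 / 8 * (∫ x in (-X)..X, ((c x) ^ 2 + (d x) ^ 2))
        + m / 8 * (∫ x in (-X)..X, ((a x) ^ 2 + (b x) ^ 2))
        - Λ * ∫ x in (-X)..X, ((-e x - μ * a x - y x * b x) ^ 2 + (-g x - μ * b x + y x * a x) ^ 2) := by
    simp only [ee]
    rw [intervalIntegral.integral_sub, intervalIntegral.integral_add,
      intervalIntegral.integral_const_mul, intervalIntegral.integral_const_mul,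
      intervalIntegral.integral_const_mul]
    all_goals exact Continuous.intervalIntegrable (by fun_prop) _ _
  rw [h6] at h5
  have h7 : 16 * ((l + w) ^ 2 + N ^ 2 / m) = 8 * Λ := by rw [hΛ]; ring
  rw [h7]
  linarith

end sub

end Pool.Agent.Helper34
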