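import Pool.Agent.Helper34.DW3

/-! # Part B3: the mode-wise resolvent estimate
`∫|v'|² + (τ²+k²)∫|v|² ≤ C(1+k²)∫|f|²`, `f = -v'' + (k²-τ²)v + iτβv`. -/

namespace Pool.Agent.Helper34

open MeasureTheory Set intervalIntegral Real

section

variable {a b c d e g : ℝ → ℝ}

lemma PS.conta (h : PS a b c d e g) : Continuous a :=
  continuous_iff_continuousAt.2 fun x => (h.ha x).continuousAt
lemma PS.contb (h : PS a b c d e g) : Continuous b :=
  continuous_iff_continuousAt.2 fun x => (h.hb x).continuousAt
lemma PS.contc (h : PS a b c d e g) : Continuous c :=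
  continuous_iff_continuousAt.2 fun x => (h.hc x).continuousAt
lemma PS.contd (h : PS a b c d e g) : Continuous d :=
  continuous_iff_continuousAt.2 fun x => (h.hd x).continuousAt

/-- energy identity -/
lemma PS.idA (h : PS a b c d e g) (μ τ : ℝ) :
    IA c d = μ * IA a b + ∫ x in (-π)..π, (a x * (-e x - μ * a x - τ * beta x * b x)
      + b x * (-g x - μ * b x + τ * beta x * a x)) := by
  have ca := h.conta
  have cb := h.contb
  have cc := h.contc
  have cd := h.contd
  have ce := h.he
  have cg := h.hg
  have cβ := beta_continuous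
  have hd : ∀ x, HasDerivAt (fun x => a x * c x + b x * d x)
      ((c x) ^ 2 + (d x) ^ 2 + (a x * e x + b x * g x)) x := by
    intro x
    have := ((h.ha x).mul (h.hc x)).add ((h.hb x).mul (h.hd x))
    exact this.congr_deriv (by ring)
  have hint := intervalIntegral.integral_eq_sub_of_hasDerivAt (a := -π) (b := π)
    (fun x _ => hd x) (Continuous.intervalIntegrable (by fun_prop) _ _)
  rw [h.pa, h.pb, h.pc, h.pd, sub_self] at hint
  have e1 : (∫ x in (-π)..π, (a x * (-e x - μ * a x - τ * beta x * b x)
      + b x * (-g x - μ * b x + τ * beta x * a x))) =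
      ∫ x in (-π)..π, (((c x) ^ 2 + (d x) ^ 2) - μ * ((a x) ^ 2 + (b x) ^ 2)
        - ((c x) ^ 2 + (d x) ^ 2 + (a x * e x + b x * g x))) := by
    apply intervalIntegral.integral_congr
    intro x _
    simp only []
    ring
  rw [e1, intervalIntegral.integral_sub, intervalIntegral.integral_sub,
    intervalIntegral.integral_const_mul, hint]
  · unfold IA; ring
  all_goals exact Continuous.intervalIntegrable (by fun_prop) _ _

lemma PS.cross_le (h : PS a b c d e g) (μ τ δ : ℝ) (hδ : 0 < δ) :
    (∫ x in (-π)..π, (a x * (-e x - μ * a x - τ * beta x * b x)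
      + b x * (-g x - μ * b x + τ * beta x * a x))) ≤
      δ / 2 * IA a b + 1 / (2 * δ) * IF a b e g μ τ := by
  have ca := h.conta
  have cb := h.contb
  have ce := h.he
  have cg := h.hg
  have cβ := beta_continuous
  unfold IA IF
  rw [← intervalIntegral.integral_const_mul, ← intervalIntegral.integral_const_mul,
    ← intervalIntegral.integral_add]
  · apply intervalIntegral.integral_mono_on (by linarith [Real.pi_pos])
    · exact Continuous.intervalIntegrable (by fun_prop) _ _
    · exact Continuous.intervalIntegrable (by fun_prop) _ _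
    · intro x _
      have key : ∀ u v : ℝ, u * v ≤ δ / 2 * u ^ 2 + 1 / (2 * δ) * v ^ 2 := by
        intro u v
        have : δ / 2 * u ^ 2 + 1 / (2 * δ) * v ^ 2 - u * v = (δ * u - v) ^ 2 / (2 * δ) := by
          field_simp; ring
        have h2 : 0 ≤ (δ * u - v) ^ 2 / (2 * δ) := by positivity
        linarith
      have h1 := key (a x) (-e x - μ * a x - τ * beta x * b x)
      have h2 := key (b x) (-g x - μ * b x + τ * beta x * a x)
      linarith
  all_goals exact Continuous.intervalIntegrable (by fun_prop) _ _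

lemma PS.IC_le (h : PS a b c d e g) (μ τ δ : ℝ) (hδ : 0 < δ) :
    IA c d ≤ μ * IA a b + δ / 2 * IA a b + 1 / (2 * δ) * IF a b e g μ τ := by
  have h1 := h.idA μ τ
  have h2 := h.cross_le μ τ δ hδ
  linarith

/-- changing `μ` -/
lemma PS.IF_shift (h : PS a b c d e g) (μ μ' τ : ℝ) :
    IF a b e g μ' τ ≤ 2 * IF a b e g μ τ + 2 * (μ - μ') ^ 2 * IA a b := by
  have ca := h.conta
  have cb := h.contb
  have ce := h.he
  have cg := h.hg
  have cβ := beta_continuous
  unfold IA IF
  rw [← intervalIntegral.integral_const_mul, ← intervalIntegral.integral_const_mul,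
    ← intervalIntegral.integral_add]
  · apply intervalIntegral.integral_mono_on (by linarith [Real.pi_pos])
    · exact Continuous.intervalIntegrable (by fun_prop) _ _
    · exact Continuous.intervalIntegrable (by fun_prop) _ _
    · intro x _
      have key : ∀ u v : ℝ, (u + v) ^ 2 ≤ 2 * u ^ 2 + 2 * v ^ 2 := by
        intro u v; nlinarith [sq_nonneg (u - v)]
      have h1 := key (-e x - μ * a x - τ * beta x * b x) ((μ - μ') * a x)
      have h2 := key (-g x - μ * b x + τ * beta x * a x) ((μ - μ') * b x)
      have e1 : -e x - μ * a x - τ * beta x * b x + (μ - μ') * a x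
        = -e x - μ' * a x - τ * beta x * b x := by ring
      have e2 : -g x - μ * b x + τ * beta x * a x + (μ - μ') * b x
        = -g x - μ' * b x + τ * beta x * a x := by ring
      rw [e1] at h1
      rw [e2] at h2
      linarith
  all_goals exact Continuous.intervalIntegrable (by fun_prop) _ _

/-- a crude Poincaré inequality with respect to the value at the end point -/
lemma poincare {a c : ℝ → ℝ} (ha : ∀ x, HasDerivAt a (c x) x) (hc : Continuous c) :
    ∫ x in (-π)..π, (a x - a (-π)) ^ 2 ≤ 4 * π ^ 2 * ∫ x in (-π)..π, (c x) ^ 2 := by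
  have hπ := Real.pi_pos
  have ca : Continuous a := continuous_iff_continuousAt.2 fun x => (ha x).continuousAt
  have hnn : 0 ≤ ∫ x in (-π)..π, (c x) ^ 2 :=
    intervalIntegral.integral_nonneg (by linarith) fun x _ => by positivity
  have key : ∀ x ∈ Icc (-π) π, (a x - a (-π)) ^ 2 ≤ 2 * π * ∫ x in (-π)..π, (c x) ^ 2 := by
    intro x hx
    rcases hx.1.eq_or_lt with h0 | h0
    · rw [← h0]; simp; positivity
    · have hI : ∫ t in (-π)..x, c t = a x - a (-π) :=
        intervalIntegral.integral_eq_sub_of_hasDerivAt (fun t _ => ha t) (hc.intervalIntegrable _ _)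
      set I := a x - a (-π) with hIdef
      set L := x + π with hL
      have hL0 : 0 < L := by rw [hL]; linarith
      have hL2 : L ≤ 2 * π := by rw [hL]; linarith [hx.2]
      have h1 : 0 ≤ ∫ t in (-π)..x, (c t - I / L) ^ 2 :=
        intervalIntegral.integral_nonneg hx.1 fun x _ => by positivity
      have h2 : ∫ t in (-π)..x, (c t - I / L) ^ 2 = (∫ t in (-π)..x, (c t) ^ 2) - I ^ 2 / L := by
        have e1 : ∀ t, (c t - I / L) ^ 2 = (c t) ^ 2 - (2 * (I / L)) * c t + (I / L) ^ 2 := by
          intro t; ring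
        simp only [e1]
        rw [intervalIntegral.integral_add, intervalIntegral.integral_sub,
          intervalIntegral.integral_const_mul, hI, intervalIntegral.integral_const]
        · have : x - -π = L := by rw [hL]; ring
          rw [this, smul_eq_mul]
          field_simp
          ring
        all_goals exact Continuous.intervalIntegrable (by fun_prop) _ _
      rw [h2] at h1
      have h3 : I ^ 2 ≤ L * ∫ t in (-π)..x, (c t) ^ 2 := by
        have : I ^ 2 / L ≤ ∫ t in (-π)..x, (c t) ^ 2 := by linarith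
        rw [div_le_iff₀ hL0] at this
        linarith
      have h4 : ∫ t in (-π)..x, (c t) ^ 2 ≤ ∫ t in (-π)..π, (c t) ^ 2 := by
        have := intervalIntegral.integral_add_adjacent_intervals (μ := volume)
          (f := fun t => (c t) ^ 2) (a := -π) (b := x) (c := π)
          (Continuous.intervalIntegrable (by fun_prop) _ _)
          (Continuous.intervalIntegrable (by fun_prop) _ _)
        have h5 : 0 ≤ ∫ t in x..π, (c t) ^ 2 :=
          intervalIntegral.integral_nonneg hx.2 fun x _ => by positivity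
        linarith
      have h6 : 0 ≤ ∫ t in (-π)..x, (c t) ^ 2 :=
          intervalIntegral.integral_nonneg hx.1 fun x _ => by positivity
      calc I ^ 2 ≤ L * ∫ t in (-π)..x, (c t) ^ 2 := h3
        _ ≤ (2 * π) * ∫ t in (-π)..π, (c t) ^ 2 := mul_le_mul hL2 h4 h6 (by linarith)
  have h7 := intervalIntegral.integral_mono_on (μ := volume) (a := -π) (b := π) (by linarith)
    (Continuous.intervalIntegrable (by fun_prop) _ _)
    (Continuous.intervalIntegrable (continuous_const) _ _) key
  rw [intervalIntegral.integral_const, smul_eq_mul] at h7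
  have : (π - -π) * (2 * π * ∫ x in (-π)..π, (c x) ^ 2) = 4 * π ^ 2 * ∫ x in (-π)..π, (c x) ^ 2 := by
    ring
  rw [this] at h7
  exact h7

/-- low frequency estimate in the mode `k = 0` -/
lemma PS.low (h : PS a b c d e g) {τ : ℝ} (hτ0 : 0 ≤ τ) (hτ1 : τ ≤ 1) :
    IA c d ≤ 4 * π ^ 2 * (3 * IF a b e g (τ ^ 2) τ + 6 * (τ ^ 2 * IA a b)) := by
  have hπ := Real.pi_pos
  have ca := h.conta
  have cb := h.contb
  have cc := h.contc
  have cd := h.contd
  have ce := h.he
  have cg := h.hg
  have cβ := beta_continuous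
  set a0 := a (-π) with ha0
  set b0 := b (-π) with hb0
  have hd : ∀ x, HasDerivAt (fun x => (a x - a0) * c x + (b x - b0) * d x)
      ((c x) ^ 2 + (d x) ^ 2 + ((a x - a0) * e x + (b x - b0) * g x)) x := by
    intro x
    have := (((h.ha x).sub_const a0).mul (h.hc x)).add (((h.hb x).sub_const b0).mul (h.hd x))
    exact this.congr_deriv (by ring)
  have hint := intervalIntegral.integral_eq_sub_of_hasDerivAt (a := -π) (b := π)
    (fun x _ => hd x) (Continuous.intervalIntegrable (by fun_prop) _ _)
  rw [h.pa, h.pb, h.pc, h.pd, sub_self] at hint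
  rw [intervalIntegral.integral_add (Continuous.intervalIntegrable (by fun_prop) _ _)
    (Continuous.intervalIntegrable (by fun_prop) _ _)] at hint
  -- Poincaré
  have hP1 := poincare h.ha cc
  have hP2 := poincare h.hb cd
  have hP : ∫ x in (-π)..π, ((a x - a0) ^ 2 + (b x - b0) ^ 2) ≤ 4 * π ^ 2 * IA c d := by
    unfold IA
    rw [intervalIntegral.integral_add (Continuous.intervalIntegrable (by fun_prop) _ _)
      (Continuous.intervalIntegrable (by fun_prop) _ _),
      intervalIntegral.integral_add (Continuous.intervalIntegrable (by fun_prop) _ _)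
      (Continuous.intervalIntegrable (by fun_prop) _ _)]
    linarith
  -- pointwise AM-GM
  have hmain : -(∫ x in (-π)..π, ((a x - a0) * e x + (b x - b0) * g x)) ≤
      1 / (8 * π ^ 2) * (∫ x in (-π)..π, ((a x - a0) ^ 2 + (b x - b0) ^ 2))
      + 2 * π ^ 2 * (3 * IF a b e g (τ ^ 2) τ + 6 * (τ ^ 2 * IA a b)) := by
    unfold IA IF
    rw [← intervalIntegral.integral_neg, ← intervalIntegral.integral_const_mul,
      ← intervalIntegral.integral_const_mul, ← intervalIntegral.integral_const_mul,
      ← intervalIntegral.integral_const_mul, ← intervalIntegral.integral_add,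
      ← intervalIntegral.integral_const_mul, ← intervalIntegral.integral_add]
    · apply intervalIntegral.integral_mono_on (by linarith)
      · exact Continuous.intervalIntegrable (by fun_prop) _ _
      · exact Continuous.intervalIntegrable (by fun_prop) _ _
      · intro x _
        have hb0' := beta_nonneg x
        have hb1 := beta_le_one x
        have key : ∀ u v : ℝ, -(u * v) ≤ 1 / (8 * π ^ 2) * u ^ 2 + 2 * π ^ 2 * v ^ 2 := by
          intro u v
          have : 1 / (8 * π ^ 2) * u ^ 2 + 2 * π ^ 2 * v ^ 2 + u * v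
            = (u + 4 * π ^ 2 * v) ^ 2 / (8 * π ^ 2) := by
            field_simp; ring
          have h2 : 0 ≤ (u + 4 * π ^ 2 * v) ^ 2 / (8 * π ^ 2) := by positivity
          linarith
        have key3 : ∀ p q r : ℝ, (p + q + r) ^ 2 ≤ 3 * p ^ 2 + 3 * q ^ 2 + 3 * r ^ 2 := by
          intro p q r
          nlinarith [sq_nonneg (p - q), sq_nonneg (q - r), sq_nonneg (p - r)]
        have h1 := key (a x - a0) (e x)
        have h2 := key (b x - b0) (g x)
        set F1 := -e x - τ ^ 2 * a x - τ * beta x * b x with hF1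
        set F2 := -g x - τ ^ 2 * b x + τ * beta x * a x with hF2
        have h3 := key3 F1 (τ ^ 2 * a x) (τ * beta x * b x)
        have h4 := key3 F2 (τ ^ 2 * b x) (-(τ * beta x * a x))
        have e1 : F1 + τ ^ 2 * a x + τ * beta x * b x = -e x := by rw [hF1]; ring
        have e2 : F2 + τ ^ 2 * b x + -(τ * beta x * a x) = -g x := by rw [hF2]; ring
        rw [e1, neg_sq] at h3
        rw [e2, neg_sq] at h4
        have ht4 : (τ ^ 2) ^ 2 ≤ τ ^ 2 := by
          have : τ ^ 2 ≤ 1 := pow_le_one₀ hτ0 hτ1
          nlinarith [sq_nonneg τ]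
        have htb : (τ * beta x) ^ 2 ≤ τ ^ 2 := by
          have : beta x ^ 2 ≤ 1 := pow_le_one₀ hb0' hb1
          rw [mul_pow]; nlinarith [sq_nonneg τ]
        have h5 : (τ ^ 2 * a x) ^ 2 ≤ τ ^ 2 * a x ^ 2 := by
          rw [mul_pow]; exact mul_le_mul_of_nonneg_right ht4 (sq_nonneg _)
        have h6 : (τ ^ 2 * b x) ^ 2 ≤ τ ^ 2 * b x ^ 2 := by
          rw [mul_pow]; exact mul_le_mul_of_nonneg_right ht4 (sq_nonneg _)
        have h7 : (τ * beta x * b x) ^ 2 ≤ τ ^ 2 * b x ^ 2 := by
          rw [mul_pow]; exact mul_le_mul_of_nonneg_right htb (sq_nonneg _)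
        have h8 : (-(τ * beta x * a x)) ^ 2 ≤ τ ^ 2 * a x ^ 2 := by
          rw [neg_sq, mul_pow]; exact mul_le_mul_of_nonneg_right htb (sq_nonneg _)
        have h9 : e x ^ 2 + g x ^ 2 ≤ 3 * (F1 ^ 2 + F2 ^ 2) + 6 * (τ ^ 2 * (a x ^ 2 + b x ^ 2)) := by
          linarith
        have h10 := mul_le_mul_of_nonneg_left h9 (by positivity : 0 ≤ 2 * π ^ 2)
        linarith
    all_goals exact Continuous.intervalIntegrable (by fun_prop) _ _
  have hIC : IA c d = -(∫ x in (-π)..π, ((a x - a0) * e x + (b x - b0) * g x)) := by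
    unfold IA; linarith
  have h11 : 1 / (8 * π ^ 2) * (∫ x in (-π)..π, ((a x - a0) ^ 2 + (b x - b0) ^ 2))
      ≤ 1 / (8 * π ^ 2) * (4 * π ^ 2 * IA c d) :=
    mul_le_mul_of_nonneg_left hP (by positivity)
  have h12 : 1 / (8 * π ^ 2) * (4 * π ^ 2 * IA c d) = 1 / 2 * IA c d := by
    field_simp; ring
  rw [h12] at h11
  linarith

end

/-- **Mode-wise resolvent estimate** (`τ ≥ 0`). -/
lemma resolvent_nonneg : ∃ C : ℝ, 0 < C ∧ ∀ (a b c d e g : ℝ → ℝ), PS a b c d e g →
    ∀ (k : ℤ) (τ : ℝ), 0 ≤ τ →
    IA c d + (τ ^ 2 + (k : ℝ) ^ 2) * IA a b ≤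
      C * (1 + (k : ℝ) ^ 2) * IF a b e g (τ ^ 2 - (k : ℝ) ^ 2) τ := by
  obtain ⟨CV, hCV, V⟩ := estV
  obtain ⟨CU, hCU, U⟩ := estU
  have hπ := Real.pi_pos
  refine ⟨10 * CU + 2 * CV + 6 + 4 * π ^ 2 * (3 + 6 * CV) + 1, by positivity, ?_⟩
  intro a b c d e g h k τ hτ
  have hIA := IA_nonneg a b
  have hIC := IA_nonneg c d
  set K := (k : ℝ) ^ 2 with hK
  have hK0 : 0 ≤ K := sq_nonneg _
  have hIF := IF_nonneg a b e g (τ ^ 2 - K) τ
  -- it suffices to bound by a smaller constant
  have suff : ∀ D : ℝ, D ≤ 10 * CU + 2 * CV + 6 + 4 * π ^ 2 * (3 + 6 * CV) + 1 →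
      IA c d + (τ ^ 2 + K) * IA a b ≤ D * (1 + K) * IF a b e g (τ ^ 2 - K) τ →
      IA c d + (τ ^ 2 + K) * IA a b ≤
        (10 * CU + 2 * CV + 6 + 4 * π ^ 2 * (3 + 6 * CV) + 1) * (1 + K) * IF a b e g (τ ^ 2 - K) τ := by
    intro D hD hle
    refine le_trans hle ?_
    apply mul_le_mul_of_nonneg_right _ hIF
    exact mul_le_mul_of_nonneg_right hD (by linarith)
  have hp1 : 0 ≤ 4 * π ^ 2 * (3 + 6 * CV) := by positivity
  have hp2 : CV ≤ 4 * π ^ 2 * (3 + 6 * CV) := by
    have h1 : 1 ≤ 4 * π ^ 2 := by nlinarith [Real.pi_gt_three]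
    have h2 : CV ≤ 1 * (3 + 6 * CV) := by linarith
    exact le_trans h2 (mul_le_mul_of_nonneg_right h1 (by linarith))
  by_cases hk : k = 0
  · -- mode zero
    have hK00 : K = 0 := by rw [hK, hk]; simp
    rw [hK00] at suff hIF ⊢
    simp only [add_zero, sub_zero, mul_one] at suff hIF ⊢
    rcases le_total τ 1 with h1 | h1
    · have hlow := h.low hτ h1
      have hV : τ ^ 2 * IA a b ≤ CV * IF a b e g (τ ^ 2) τ := by
        rcases hτ.eq_or_lt with h0 | h0
        · rw [← h0] at hIF ⊢; simp only [ne_eq, OfNat.ofNat_ne_zero, not_false_eq_true, zero_pow, zero_mul] at hIF ⊢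
          positivity
        · exact (V a b c d e g h τ (τ ^ 2) h0 (by nlinarith [sq_nonneg τ]) le_rfl).1
      apply suff (4 * π ^ 2 * (3 + 6 * CV) + CV) (by linarith)
      have h2 : 4 * π ^ 2 * (3 * IF a b e g (τ ^ 2) τ + 6 * (τ ^ 2 * IA a b))
          ≤ 4 * π ^ 2 * (3 * IF a b e g (τ ^ 2) τ + 6 * (CV * IF a b e g (τ ^ 2) τ)) := by
        apply mul_le_mul_of_nonneg_left _ (by positivity)
        linarith
      have e1 : 4 * π ^ 2 * (3 * IF a b e g (τ ^ 2) τ + 6 * (CV * IF a b e g (τ ^ 2) τ))
        = 4 * π ^ 2 * (3 + 6 * CV) * IF a b e g (τ ^ 2) τ := by ring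
      linarith
    · have hV := V a b c d e g h τ (τ ^ 2) (by linarith) (by nlinarith [sq_nonneg τ]) le_rfl
      apply suff (2 * CV) (by linarith)
      have := hV.2 h1
      linarith [hV.1]
  · -- modes `k ≠ 0`
    have hK1 : 1 ≤ K := by
      have h1 : (1 : ℤ) ≤ k ^ 2 := by
        have := Int.one_le_abs hk
        have h2 : |k| ^ 2 = k ^ 2 := sq_abs k
        nlinarith
      rw [hK]
      exact_mod_cast h1
    set μ := τ ^ 2 - K with hμ
    have hKIF : IF a b e g μ τ ≤ (1 + K) * IF a b e g μ τ := by nlinarith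
    have hτ2 : τ ^ 2 = μ + K := by rw [hμ]; ring
    by_cases h1 : τ ^ 2 ≤ K / 2
    · -- elliptic
      have h2 := h.IC_le μ τ (K / 2) (by positivity)
      have hμK : μ ≤ -(K / 2) := by rw [hμ]; linarith
      have h3 : μ * IA a b ≤ -(K / 2) * IA a b := mul_le_mul_of_nonneg_right hμK hIA
      have h4 : 1 / (2 * (K / 2)) * IF a b e g μ τ ≤ IF a b e g μ τ := by
        apply mul_le_of_le_one_left hIF
        rw [div_le_one (by positivity)]; linarith
      have h5 : IA c d + K / 4 * IA a b ≤ IF a b e g μ τ := by linarith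
      have h6 : (τ ^ 2 + K) * IA a b ≤ (6 * (K / 4)) * IA a b :=
        mul_le_mul_of_nonneg_right (by linarith) hIA
      apply suff 6 (by linarith)
      nlinarith
    · push Not at h1
      by_cases h2 : τ ^ 2 ≤ K
      · -- slightly elliptic
        have hτh : 1 / 2 ≤ τ := by
          by_contra hcon
          push Not at hcon
          nlinarith
        have hU := U a b c d e g h τ 0 hτh le_rfl (by positivity)
        have hsh := h.IF_shift μ 0 τ
        rw [sub_zero] at hsh
        have hμ0 : μ ≤ 0 := by rw [hμ]; linarith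
        have hIAb : IA a b ≤ 4 * CU * IF a b e g μ τ := by
          by_cases h3 : μ ^ 2 ≤ 1 / (4 * CU)
          · have h4 : 2 * μ ^ 2 * IA a b ≤ 2 * (1 / (4 * CU)) * IA a b := by
              apply mul_le_mul_of_nonneg_right _ hIA
              linarith
            have h5 : CU * IF a b e g 0 τ ≤ CU * (2 * IF a b e g μ τ + 2 * (1 / (4 * CU)) * IA a b) :=
              mul_le_mul_of_nonneg_left (by linarith) hCU.le
            have e1 : CU * (2 * IF a b e g μ τ + 2 * (1 / (4 * CU)) * IA a b)
              = 2 * CU * IF a b e g μ τ + 1 / 2 * IA a b := by field_simp; ring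
            linarith
          · push Not at h3
            have hμne : μ < 0 := by
              rcases hμ0.eq_or_lt with h0 | h0
              · exfalso
                have h31 : μ ^ 2 = 0 := by rw [h0]; ring
                have : 0 < 1 / (4 * CU) := by positivity
                linarith
              · exact h0
            have h4 := h.IC_le μ τ (-μ) (by linarith)
            have h5 : -μ / 2 * IA a b ≤ 1 / (2 * (-μ)) * IF a b e g μ τ := by
              have e1 : μ * IA a b + -μ / 2 * IA a b = -(-μ / 2 * IA a b) := by ring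
              linarith
            have h6 : IA a b * μ ^ 2 ≤ IF a b e g μ τ := by
              have := mul_le_mul_of_nonneg_left h5 (by linarith : 0 ≤ 2 * (-μ))
              have e1 : 2 * (-μ) * (-μ / 2 * IA a b) = IA a b * μ ^ 2 := by ring
              have e2 : 2 * (-μ) * (1 / (2 * (-μ)) * IF a b e g μ τ) = IF a b e g μ τ := by
                have h21 : 2 * (-μ) ≠ 0 := by intro h22; linarith
                rw [← mul_assoc, mul_one_div_cancel h21, one_mul]
              linarith
            have h7 : IA a b * (1 / (4 * CU)) ≤ IA a b * μ ^ 2 :=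
              mul_le_mul_of_nonneg_left h3.le hIA
            have h8 : IA a b * (1 / (4 * CU)) ≤ IF a b e g μ τ := le_trans h7 h6
            have h9 := mul_le_mul_of_nonneg_left h8 (by positivity : 0 ≤ 4 * CU)
            have e1 : 4 * CU * (IA a b * (1 / (4 * CU))) = IA a b := by field_simp
            linarith
        have h4 := h.IC_le μ τ 1 one_pos
        have h5 : μ * IA a b ≤ 0 := mul_nonpos_of_nonpos_of_nonneg hμ0 hIA
        have h6 : (τ ^ 2 + K) * IA a b ≤ (2 * K) * (4 * CU * IF a b e g μ τ) :=
          mul_le_mul (by linarith) hIAb hIA (by positivity)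
        apply suff (8 * CU + 2 * CU + 1) (by linarith)
        have h7 : (8 * CU + 2 * CU + 1) * (1 + K) * IF a b e g μ τ
          = 8 * CU * K * IF a b e g μ τ + (2 * CU + 1) * IF a b e g μ τ
            + (2 * CU + 1) * K * IF a b e g μ τ + 8 * CU * IF a b e g μ τ := by ring
        have h8 : 0 ≤ (2 * CU + 1) * K * IF a b e g μ τ := by positivity
        have h9 : 0 ≤ 8 * CU * IF a b e g μ τ := by positivity
        rw [h7]
        linarith
      · push Not at h2
        have hμ0 : 0 ≤ μ := by rw [hμ]; linarith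
        have hτ1 : 1 ≤ τ := by
          by_contra hcon
          push Not at hcon
          nlinarith
        by_cases h3 : τ ^ 2 ≤ 4 * K
        · have hU := U a b c d e g h τ μ (by linarith) hμ0 (by rw [hμ]; linarith)
          have h4 := h.IC_le μ τ 1 one_pos
          have hμ3 : μ ≤ 3 * K := by rw [hμ]; linarith
          have h5 : (τ ^ 2 + K) * IA a b ≤ (5 * K) * (CU * IF a b e g μ τ) :=
            mul_le_mul (by linarith) hU hIA (by positivity)
          have h6 : μ * IA a b ≤ (3 * K) * (CU * IF a b e g μ τ) :=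
            mul_le_mul hμ3 hU hIA (by positivity)
          apply suff (8 * CU + CU + 1) (by linarith)
          have h7 : (8 * CU + CU + 1) * (1 + K) * IF a b e g μ τ
            = 8 * CU * K * IF a b e g μ τ + (CU + 1) * IF a b e g μ τ
              + (CU + 1) * K * IF a b e g μ τ + 8 * CU * IF a b e g μ τ := by ring
          have h8 : 0 ≤ (CU + 1) * K * IF a b e g μ τ := by positivity
          have h9 : 0 ≤ 8 * CU * IF a b e g μ τ := by positivity
          have h10 : 0 ≤ CU * IF a b e g μ τ := by positivity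
          rw [h7]
          linarith
        · push Not at h3
          have hV := V a b c d e g h τ μ (by linarith) (by rw [hμ]; linarith) (by rw [hμ]; linarith)
          have h4 := hV.2 hτ1
          have h5 : (τ ^ 2 + K) * IA a b ≤ 2 * (τ ^ 2 * IA a b) := by nlinarith
          apply suff (3 * CV) (by linarith)
          have h6 : 3 * CV * IF a b e g μ τ ≤ 3 * CV * (1 + K) * IF a b e g μ τ := by
            have : 0 ≤ 3 * CV * K * IF a b e g μ τ := by positivity
            linarith
          linarith [hV.1]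

/-- **Mode-wise resolvent estimate.** -/
lemma resolvent_real : ∃ C : ℝ, 0 < C ∧ ∀ (a b c d e g : ℝ → ℝ), PS a b c d e g →
    ∀ (k : ℤ) (τ : ℝ),
    IA c d + (τ ^ 2 + (k : ℝ) ^ 2) * IA a b ≤
      C * (1 + (k : ℝ) ^ 2) * IF a b e g (τ ^ 2 - (k : ℝ) ^ 2) τ := by
  obtain ⟨C, hC, H⟩ := resolvent_nonneg
  refine ⟨C, hC, ?_⟩
  intro a b c d e g h k τ
  rcases le_total 0 τ with h0 | h0
  · exact H a b c d e g h k τ h0
  · have h' : PS a (fun x => -b x) c (fun x => -d x) e (fun x => -g x) :=
      ⟨h.ha, fun x => (h.hb x).neg, h.hc, fun x => (h.hd x).neg, h.he, h.hg.neg, h.pa,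
        by simp [h.pb], h.pc, by simp [h.pd]⟩
    have := H _ _ _ _ _ _ h' k (-τ) (by linarith)
    have e1 : IA a (fun x => -b x) = IA a b := by simp [IA]
    have e2 : IA c (fun x => -d x) = IA c d := by simp [IA]
    have e3 : ∀ μ, IF a (fun x => -b x) e (fun x => -g x) μ (-τ) = IF a b e g μ τ := by
      intro μ
      unfold IF
      apply intervalIntegral.integral_congr
      intro x _
      simp only []
      ring
    rw [e1, e2, e3, neg_sq] at this
    exact this

end Pool.Agent.Helper34
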