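import Pool.Agent.Helper34.DW9
import Pool.Agent.Helper34.DW4

/-! # Multiplication operators on `L²`. -/

namespace Pool.Agent.Helper34

open MeasureTheory Set Filter Topology

open scoped ComplexConjugate InnerProductSpace ENNReal

section mul

variable {X : Type*} [MeasurableSpace X] {μ : Measure X}

lemma memLp_rmul {b : X → ℝ} (hb : Measurable b) {C : ℝ} (hC : ∀ x, |b x| ≤ C) (f : Lp ℂ 2 μ) :
    MemLp (fun x => (b x : ℂ) * f x) 2 μ := by
  refine MemLp.of_le_mul (c := C) (Lp.memLp f) ?_ ?_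
  · exact (Complex.measurable_ofReal.comp hb).aestronglyMeasurable.mul (Lp.aestronglyMeasurable f)
  · refine Eventually.of_forall fun x => ?_
    rw [norm_mul, Complex.norm_real, Real.norm_eq_abs]
    exact mul_le_mul_of_nonneg_right (hC x) (norm_nonneg _)

lemma Lp_norm_sq (f : Lp ℂ 2 μ) : ‖f‖ ^ 2 = ∫ x, ‖f x‖ ^ 2 ∂μ := by
  have h1 : ⟪f, f⟫_ℂ = ((‖f‖ ^ 2 : ℝ) : ℂ) := by
    rw [inner_self_eq_norm_sq_to_K]; simp
  have h2 : ⟪f, f⟫_ℂ = ((∫ x, ‖f x‖ ^ 2 ∂μ : ℝ) : ℂ) := by
    rw [L2.inner_def, ← integral_complex_ofReal]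
    congr 1
    funext x
    rw [inner_self_eq_norm_sq_to_K]; simp
  rw [h1] at h2
  exact_mod_cast h2

/-- multiplication by a bounded real function -/
noncomputable def mulOp (μ : Measure X) (b : X → ℝ) (hb : Measurable b) (C : ℝ) (hC : ∀ x, |b x| ≤ C) :
    Lp ℂ 2 μ →L[ℂ] Lp ℂ 2 μ :=
  LinearMap.mkContinuous
    { toFun := fun f => (memLp_rmul hb hC f).toLp _
      map_add' := by
        intro f g
        rw [← MemLp.toLp_add]
        apply MemLp.toLp_congr
        filter_upwards [Lp.coeFn_add f g] with x hx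
        rw [hx]
        simp only [Pi.add_apply]
        ring
      map_smul' := by
        intro c f
        simp only [RingHom.id_apply]
        rw [← MemLp.toLp_const_smul]
        apply MemLp.toLp_congr
        filter_upwards [Lp.coeFn_smul c f] with x hx
        rw [hx]
        simp only [Pi.smul_apply, smul_eq_mul]
        ring } C (by
    intro f
    apply Lp.norm_le_mul_norm_of_ae_le_mul
    filter_upwards [MemLp.coeFn_toLp (memLp_rmul hb hC f)] with x hx
    simp only [LinearMap.coe_mk, AddHom.coe_mk]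
    rw [hx, norm_mul, Complex.norm_real, Real.norm_eq_abs]
    exact mul_le_mul_of_nonneg_right (hC x) (norm_nonneg _))

variable {b : X → ℝ} {hb : Measurable b} {C : ℝ} {hC : ∀ x, |b x| ≤ C}

lemma coeFn_mulOp (f : Lp ℂ 2 μ) : mulOp μ b hb C hC f =ᵐ[μ] fun x => (b x : ℂ) * f x :=
  MemLp.coeFn_toLp (memLp_rmul hb hC f)

lemma mulOp_norm (h0 : 0 ≤ C) : ‖mulOp μ b hb C hC‖ ≤ C :=
  LinearMap.mkContinuous_norm_le _ h0 _

lemma inner_mulOp (f g : Lp ℂ 2 μ) :
    ⟪f, mulOp μ b hb C hC g⟫_ℂ = ∫ x, (b x : ℂ) * (conj (f x) * g x) ∂μ := by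
  rw [L2.inner_def]
  apply integral_congr_ae
  filter_upwards [coeFn_mulOp (hb := hb) (hC := hC) g] with x hx
  rw [hx, RCLike.inner_apply]
  ring

lemma mulOp_symm (f g : Lp ℂ 2 μ) :
    ⟪mulOp μ b hb C hC f, g⟫_ℂ = ⟪f, mulOp μ b hb C hC g⟫_ℂ := by
  rw [inner_mulOp, L2.inner_def]
  apply integral_congr_ae
  filter_upwards [coeFn_mulOp (hb := hb) (hC := hC) f] with x hx
  rw [hx, RCLike.inner_apply, map_mul, Complex.conj_ofReal]
  ring

lemma re_inner_mulOp (f : Lp ℂ 2 μ) :
    (⟪f, mulOp μ b hb C hC f⟫_ℂ).re = ∫ x, b x * ‖f x‖ ^ 2 ∂μ := by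
  rw [inner_mulOp]
  have : ∀ x, (b x : ℂ) * (conj (f x) * f x) = ((b x * ‖f x‖ ^ 2 : ℝ) : ℂ) := by
    intro x
    rw [Complex.conj_mul']
    push_cast
    ring
  simp only [this]
  rw [integral_complex_ofReal, Complex.ofReal_re]

lemma mulOp_nonneg (h0 : ∀ x, 0 ≤ b x) (f : Lp ℂ 2 μ) :
    0 ≤ (⟪f, mulOp μ b hb C hC f⟫_ℂ).re := by
  rw [re_inner_mulOp]
  exact integral_nonneg fun x => mul_nonneg (h0 x) (sq_nonneg _)

end mul

section circle

open AddCircle

/-- `L²` of the circle -/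
noncomputable abbrev L1 := Lp ℂ 2 (haarAddCircle : Measure UnitAddCircle)

/-- the Hilbert basis of exponentials -/
noncomputable abbrev e1 : HilbertBasis ℤ ℂ L1 := fourierBasis

/-- the profile on the circle -/
noncomputable def betaT (θ : UnitAddCircle) : ℝ := expNegInvGlue (1 - (fourier 1 θ).re)

lemma betaT_continuous : Continuous betaT := by
  unfold betaT
  exact (expNegInvGlue.contDiff (n := 0)).continuous.comp
    (continuous_const.sub (Complex.continuous_re.comp (ContinuousMap.continuous _)))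

lemma fourier_eq (n : ℤ) (x : ℝ) :
    fourier n ((x / (2 * Real.pi) : ℝ) : UnitAddCircle) = Complex.exp (Complex.I * n * x) := by
  rw [fourier_coe_apply]
  congr 1
  have : (Real.pi : ℂ) ≠ 0 := by exact_mod_cast Real.pi_ne_zero
  push_cast
  field_simp

lemma betaT_coe (x : ℝ) : betaT ((x / (2 * Real.pi) : ℝ) : UnitAddCircle) = beta x := by
  unfold betaT beta
  rw [fourier_eq]
  congr 2
  have : Complex.I * ((1 : ℤ) : ℂ) * x = x * Complex.I := by push_cast; ring
  rw [this, Complex.exp_ofReal_mul_I_re]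

lemma betaT_nonneg (θ : UnitAddCircle) : 0 ≤ betaT θ := expNegInvGlue.nonneg _

lemma betaT_le_one (θ : UnitAddCircle) : betaT θ ≤ 1 := expNegInvGlue_le_one _

lemma betaT_abs (θ : UnitAddCircle) : |betaT θ| ≤ 1 := by
  rw [abs_of_nonneg (betaT_nonneg θ)]; exact betaT_le_one θ

/-- multiplication by the profile on the circle -/
noncomputable def M1 : L1 →L[ℂ] L1 := mulOp haarAddCircle betaT betaT_continuous.measurable 1 betaT_abs

/-- change of variables between `[-π, π]` and the circle -/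
lemma circ_int {E : Type*} [NormedAddCommGroup E] [NormedSpace ℝ E] (g : UnitAddCircle → E) :
    ∫ x in (-Real.pi)..Real.pi, g ((x / (2 * Real.pi) : ℝ) : UnitAddCircle)
      = (2 * Real.pi) • ∫ θ, g θ ∂haarAddCircle := by
  have hπ := Real.pi_pos
  have h1 := intervalIntegral.integral_comp_div (a := -Real.pi) (b := Real.pi)
    (fun y : ℝ => g (y : UnitAddCircle)) (c := 2 * Real.pi) (by positivity)
  rw [h1]
  congr 1
  have e1 : -Real.pi / (2 * Real.pi) = -(1/2) := by field_simp
  have e2 : Real.pi / (2 * Real.pi) = -(1/2) + 1 := by field_simp; norm_num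
  rw [e1, e2, UnitAddCircle.intervalIntegral_preimage, AddCircle.volume_eq_smul_haarAddCircle]
  simp

end circle

end Pool.Agent.Helper34
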