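import Pool.Agent.Helper34.DW10

/-! # The resolvent estimate in `L²` of the circle. -/

namespace Pool.Agent.Helper34

open MeasureTheory Set Filter Topology AddCircle

open scoped ComplexConjugate InnerProductSpace ENNReal

/-- trigonometric polynomial, as a function on the circle -/
noncomputable def trigT (s : Finset ℤ) (c : ℤ → ℂ) (θ : UnitAddCircle) : ℂ :=
  ∑ m ∈ s, c m * fourier m θ

/-- trigonometric polynomial, in `L²` -/
noncomputable def trigL (s : Finset ℤ) (c : ℤ → ℂ) : L1 := ∑ m ∈ s, c m • e1 m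

/-- trigonometric polynomial, as a function on the line -/
noncomputable def trigR (s : Finset ℤ) (c : ℤ → ℂ) (x : ℝ) : ℂ :=
  ∑ m ∈ s, c m * Complex.exp (Complex.I * m * x)

lemma trigT_continuous (s : Finset ℤ) (c : ℤ → ℂ) : Continuous (trigT s c) := by
  unfold trigT
  exact continuous_finsetSum _ fun m _ => continuous_const.mul (ContinuousMap.continuous _)

lemma trigT_coe (s : Finset ℤ) (c : ℤ → ℂ) (x : ℝ) :
    trigT s c ((x / (2 * Real.pi) : ℝ) : UnitAddCircle) = trigR s c x := by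
  unfold trigT trigR
  simp only [fourier_eq]

lemma trigL_ae (s : Finset ℤ) (c : ℤ → ℂ) : (trigL s c : UnitAddCircle → ℂ) =ᵐ[haarAddCircle] trigT s c := by
  have h1 : trigL s c = (⟨trigT s c, trigT_continuous s c⟩ : C(UnitAddCircle, ℂ)).toLp 2 haarAddCircle ℂ := by
    have h2 : (⟨trigT s c, trigT_continuous s c⟩ : C(UnitAddCircle, ℂ)) = ∑ m ∈ s, c m • fourier m := by
      ext θ
      simp [trigT]
    rw [h2, map_sum, trigL]
    apply Finset.sum_congr rfl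
    intro m _
    rw [map_smul, coe_fourierBasis]
  rw [h1]
  exact ContinuousMap.coeFn_toLp _ _

lemma trigL_coord (s : Finset ℤ) (c : ℤ → ℂ) (m : ℤ) :
    ⟪e1 m, trigL s c⟫_ℂ = if m ∈ s then c m else 0 := by
  classical
  unfold trigL
  rw [inner_sum]
  simp only [inner_smul_right]
  have : ∀ i ∈ s, c i * ⟪e1 m, e1 i⟫_ℂ = if i = m then c i else 0 := by
    intro i _
    have := orthonormal_iff_ite.1 (e1.orthonormal) m i
    rw [this]
    by_cases h : m = i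
    · subst h; simp
    · rw [if_neg h, if_neg (Ne.symm h)]; simp
  rw [Finset.sum_congr rfl this, Finset.sum_ite_eq']

lemma trigL_norm (s : Finset ℤ) (c : ℤ → ℂ) : ‖trigL s c‖ ^ 2 = ∑ m ∈ s, ‖c m‖ ^ 2 := by
  have h1 := parseval e1 (trigL s c)
  have h2 : HasSum (fun m => ‖⟪e1 m, trigL s c⟫_ℂ‖ ^ 2) (∑ m ∈ s, ‖⟪e1 m, trigL s c⟫_ℂ‖ ^ 2) := by
    apply hasSum_sum_of_ne_finset_zero
    intro m hm
    rw [trigL_coord, if_neg hm]; simp
  rw [h1.unique h2]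
  apply Finset.sum_congr rfl
  intro m hm
  rw [trigL_coord, if_pos hm]

lemma trigR_hasDerivAt (s : Finset ℤ) (c : ℤ → ℂ) (x : ℝ) :
    HasDerivAt (trigR s c) (trigR s (fun m => Complex.I * m * c m) x) x := by
  unfold trigR
  apply HasDerivAt.fun_sum
  intro m _
  have h1 : HasDerivAt (fun x : ℝ => Complex.I * m * (x : ℂ)) (Complex.I * m) x := by
    have := (Complex.ofRealCLM.hasDerivAt (x := x)).const_mul (Complex.I * m)
    simpa using this
  refine (h1.cexp.const_mul (c m)).congr_deriv ?_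
  ring

lemma hasDerivAt_re {f : ℝ → ℂ} {f' : ℂ} {x : ℝ} (h : HasDerivAt f f' x) :
    HasDerivAt (fun x => (f x).re) f'.re x :=
  Complex.reCLM.hasFDerivAt.comp_hasDerivAt x h

lemma hasDerivAt_im {f : ℝ → ℂ} {f' : ℂ} {x : ℝ} (h : HasDerivAt f f' x) :
    HasDerivAt (fun x => (f x).im) f'.im x :=
  Complex.imCLM.hasFDerivAt.comp_hasDerivAt x h

lemma trigR_per (s : Finset ℤ) (c : ℤ → ℂ) : trigR s c (-Real.pi) = trigR s c Real.pi := by
  unfold trigR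
  apply Finset.sum_congr rfl
  intro m _
  congr 1
  rw [Complex.exp_eq_exp_iff_exists_int]
  refine ⟨-m, ?_⟩
  push_cast
  ring

lemma circ_norm_trig (s : Finset ℤ) (c : ℤ → ℂ) :
    IA (fun x => (trigR s c x).re) (fun x => (trigR s c x).im) = 2 * Real.pi * ∑ m ∈ s, ‖c m‖ ^ 2 := by
  unfold IA
  have h1 : ∀ x : ℝ, ((trigR s c x).re) ^ 2 + ((trigR s c x).im) ^ 2
      = ‖trigT s c ((x / (2 * Real.pi) : ℝ) : UnitAddCircle)‖ ^ 2 := by
    intro x
    rw [trigT_coe, ← Complex.normSq_eq_norm_sq, Complex.normSq_apply]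
    ring
  simp only [h1]
  rw [circ_int (fun θ => ‖trigT s c θ‖ ^ 2), ← trigL_norm, Lp_norm_sq, smul_eq_mul]
  congr 1
  apply integral_congr_ae
  filter_upwards [trigL_ae s c] with x hx
  rw [hx]

/-- uniform resolvent estimate for trigonometric polynomials -/
theorem resolvent_trig : ∃ C : ℝ, 0 < C ∧ ∀ (s : Finset ℤ) (c : ℤ → ℂ) (k : ℤ) (τ : ℝ),
    τ ^ 2 * ‖trigL s c‖ ^ 2 + ∑ m ∈ s, ((m : ℝ) ^ 2 + (k : ℝ) ^ 2) * ‖c m‖ ^ 2
      ≤ C * (1 + (k : ℝ) ^ 2) * ‖trigL s (fun m => ((m : ℂ) ^ 2 + (k : ℂ) ^ 2 - (τ : ℂ) ^ 2) * c m)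
        + (Complex.I * τ) • M1 (trigL s c)‖ ^ 2 := by
  obtain ⟨C, hC, hres⟩ := resolvent_real
  refine ⟨C, hC, fun s c k τ => ?_⟩
  set c1 : ℤ → ℂ := fun m => Complex.I * m * c m with hc1
  set c2 : ℤ → ℂ := fun m => Complex.I * m * c1 m with hc2
  have d0 := trigR_hasDerivAt s c
  have d1 := trigR_hasDerivAt s c1
  have cont2 : Continuous (trigR s c2) := by
    unfold trigR; fun_prop
  have hPS : PS (fun x => (trigR s c x).re) (fun x => (trigR s c x).im)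
      (fun x => (trigR s c1 x).re) (fun x => (trigR s c1 x).im)
      (fun x => (trigR s c2 x).re) (fun x => (trigR s c2 x).im) :=
    { ha := fun x => hasDerivAt_re (d0 x)
      hb := fun x => hasDerivAt_im (d0 x)
      hc := fun x => hasDerivAt_re (d1 x)
      hd := fun x => hasDerivAt_im (d1 x)
      he := Complex.continuous_re.comp cont2
      hg := Complex.continuous_im.comp cont2
      pa := by simp only [trigR_per]
      pb := by simp only [trigR_per]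
      pc := by simp only [trigR_per]
      pd := by simp only [trigR_per] }
  have hmain := hres _ _ _ _ _ _ hPS k τ
  rw [circ_norm_trig, circ_norm_trig] at hmain
  set F : L1 := trigL s (fun m => ((m : ℂ) ^ 2 + (k : ℂ) ^ 2 - (τ : ℂ) ^ 2) * c m)
        + (Complex.I * τ) • M1 (trigL s c) with hF
  set G : UnitAddCircle → ℂ := fun θ => trigT s (fun m => ((m : ℂ) ^ 2 + (k : ℂ) ^ 2 - (τ : ℂ) ^ 2) * c m) θ
        + (Complex.I * τ) * (betaT θ * trigT s c θ) with hG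
  have hFG : (F : UnitAddCircle → ℂ) =ᵐ[haarAddCircle] G := by
    filter_upwards [Lp.coeFn_add (trigL s (fun m => ((m : ℂ) ^ 2 + (k : ℂ) ^ 2 - (τ : ℂ) ^ 2) * c m))
      ((Complex.I * τ) • M1 (trigL s c)), Lp.coeFn_smul (Complex.I * (τ : ℂ)) (M1 (trigL s c)),
      trigL_ae s (fun m => ((m : ℂ) ^ 2 + (k : ℂ) ^ 2 - (τ : ℂ) ^ 2) * c m), trigL_ae s c,
      coeFn_mulOp (hb := betaT_continuous.measurable) (hC := betaT_abs) (trigL s c)] with x h1 h2 h3 h4 h5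
    rw [hF, h1, Pi.add_apply, h2, Pi.smul_apply, h3, M1, h5, h4]
    simp [hG]
  have hIF : IF (fun x => (trigR s c x).re) (fun x => (trigR s c x).im)
      (fun x => (trigR s c2 x).re) (fun x => (trigR s c2 x).im) (τ ^ 2 - (k : ℝ) ^ 2) τ
      = 2 * Real.pi * ‖F‖ ^ 2 := by
    unfold IF
    have h1 : ∀ x : ℝ, (-(trigR s c2 x).re - (τ ^ 2 - (k : ℝ) ^ 2) * (trigR s c x).re
          - τ * beta x * (trigR s c x).im) ^ 2 +
        (-(trigR s c2 x).im - (τ ^ 2 - (k : ℝ) ^ 2) * (trigR s c x).im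
          + τ * beta x * (trigR s c x).re) ^ 2
        = ‖G ((x / (2 * Real.pi) : ℝ) : UnitAddCircle)‖ ^ 2 := by
      intro x
      have h2 : G ((x / (2 * Real.pi) : ℝ) : UnitAddCircle)
          = -trigR s c2 x - ((τ ^ 2 - (k : ℝ) ^ 2 : ℝ) : ℂ) * trigR s c x
            + Complex.I * ((τ * beta x : ℝ) : ℂ) * trigR s c x := by
        simp only [hG]
        rw [betaT_coe, trigT_coe, trigT_coe]
        have h3 : trigR s (fun m => ((m : ℂ) ^ 2 + (k : ℂ) ^ 2 - (τ : ℂ) ^ 2) * c m) x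
            = -trigR s c2 x - ((τ ^ 2 - (k : ℝ) ^ 2 : ℝ) : ℂ) * trigR s c x := by
          unfold trigR
          rw [Finset.mul_sum, ← Finset.sum_neg_distrib, ← Finset.sum_sub_distrib]
          apply Finset.sum_congr rfl
          intro m _
          simp only [hc2, hc1]
          push_cast
          have hI : Complex.I ^ 2 = -1 := Complex.I_sq
          linear_combination ((m : ℂ) ^ 2 * c m * Complex.exp (Complex.I * m * x)) * hI
        rw [h3]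
        push_cast
        ring
      rw [h2, ← Complex.normSq_eq_norm_sq, Complex.normSq_apply]
      simp only [Complex.add_re, Complex.sub_re, Complex.neg_re, Complex.mul_re, Complex.ofReal_re,
        Complex.ofReal_im, Complex.I_re, Complex.I_im, Complex.add_im, Complex.sub_im, Complex.neg_im,
        Complex.mul_im]
      ring
    simp only [h1]
    rw [circ_int (fun θ => ‖G θ‖ ^ 2), Lp_norm_sq, smul_eq_mul]
    congr 1
    apply integral_congr_ae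
    filter_upwards [hFG] with x hx
    rw [hx]
  rw [hIF] at hmain
  have hπ : 0 < 2 * Real.pi := by have := Real.pi_pos; linarith
  have hc1n : ∑ m ∈ s, ‖c1 m‖ ^ 2 = ∑ m ∈ s, (m : ℝ) ^ 2 * ‖c m‖ ^ 2 := by
    apply Finset.sum_congr rfl
    intro m _
    simp only [hc1]
    rw [norm_mul, norm_mul, Complex.norm_I, one_mul, mul_pow, Complex.norm_intCast, sq_abs]
  rw [hc1n] at hmain
  have hsum : ∑ m ∈ s, ((m : ℝ) ^ 2 + (k : ℝ) ^ 2) * ‖c m‖ ^ 2
      = ∑ m ∈ s, (m : ℝ) ^ 2 * ‖c m‖ ^ 2 + (k : ℝ) ^ 2 * ∑ m ∈ s, ‖c m‖ ^ 2 := by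
    rw [Finset.mul_sum, ← Finset.sum_add_distrib]
    apply Finset.sum_congr rfl
    intro m _
    ring
  rw [hsum, trigL_norm]
  have h5 : 2 * Real.pi * (τ ^ 2 * ∑ m ∈ s, ‖c m‖ ^ 2 + (∑ m ∈ s, (m : ℝ) ^ 2 * ‖c m‖ ^ 2
      + (k : ℝ) ^ 2 * ∑ m ∈ s, ‖c m‖ ^ 2)) ≤ 2 * Real.pi * (C * (1 + (k : ℝ) ^ 2) * ‖F‖ ^ 2) := by
    calc 2 * Real.pi * (τ ^ 2 * ∑ m ∈ s, ‖c m‖ ^ 2 + (∑ m ∈ s, (m : ℝ) ^ 2 * ‖c m‖ ^ 2
      + (k : ℝ) ^ 2 * ∑ m ∈ s, ‖c m‖ ^ 2))
        = 2 * Real.pi * ∑ m ∈ s, (m : ℝ) ^ 2 * ‖c m‖ ^ 2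
          + (τ ^ 2 + (k : ℝ) ^ 2) * (2 * Real.pi * ∑ m ∈ s, ‖c m‖ ^ 2) := by ring
      _ ≤ C * (1 + (k : ℝ) ^ 2) * (2 * Real.pi * ‖F‖ ^ 2) := hmain
      _ = _ := by ring
  exact le_of_mul_le_mul_left h5 hπ

/-- uniform resolvent estimate in `L²` of the circle -/
theorem resolvent_L2 : ∃ C : ℝ, 0 < C ∧ ∀ (k : ℤ) (τ : ℝ) (V F : L1),
    (∀ m : ℤ, ((((m : ℝ) ^ 2 + (k : ℝ) ^ 2 : ℝ) : ℂ) - (τ : ℂ) ^ 2) * ⟪e1 m, V⟫_ℂ
      + Complex.I * τ * ⟪e1 m, M1 V⟫_ℂ = ⟪e1 m, F⟫_ℂ) →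
    ∀ s : Finset ℤ, τ ^ 2 * ‖V‖ ^ 2 + ∑ m ∈ s, ((m : ℝ) ^ 2 + (k : ℝ) ^ 2) * ‖⟪e1 m, V⟫_ℂ‖ ^ 2
      ≤ C * (1 + (k : ℝ) ^ 2) * ‖F‖ ^ 2 := by
  obtain ⟨C, hC, hres⟩ := resolvent_trig
  refine ⟨C, hC, fun k τ V F hrel s => ?_⟩
  have hsV : Tendsto (fun t : Finset ℤ => trigL t (fun m => ⟪e1 m, V⟫_ℂ)) atTop (𝓝 V) := by
    have := e1.hasSum_repr V
    simp only [e1.repr_apply_apply] at this
    exact this
  have hsF : ∀ G : L1, Tendsto (fun t : Finset ℤ => trigL t (fun m => ⟪e1 m, G⟫_ℂ)) atTop (𝓝 G) := by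
    intro G
    have := e1.hasSum_repr G
    simp only [e1.repr_apply_apply] at this
    exact this
  have hFt : Tendsto (fun t : Finset ℤ => trigL t (fun m => ((m : ℂ) ^ 2 + (k : ℂ) ^ 2 - (τ : ℂ) ^ 2)
      * ⟪e1 m, V⟫_ℂ) + (Complex.I * τ) • M1 (trigL t (fun m => ⟪e1 m, V⟫_ℂ))) atTop (𝓝 F) := by
    have h1 : ∀ t : Finset ℤ, trigL t (fun m => ((m : ℂ) ^ 2 + (k : ℂ) ^ 2 - (τ : ℂ) ^ 2)
      * ⟪e1 m, V⟫_ℂ) = trigL t (fun m => ⟪e1 m, F⟫_ℂ)
        - (Complex.I * τ) • trigL t (fun m => ⟪e1 m, M1 V⟫_ℂ) := by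
      intro t
      unfold trigL
      rw [Finset.smul_sum, ← Finset.sum_sub_distrib]
      apply Finset.sum_congr rfl
      intro m _
      rw [smul_smul, ← sub_smul]
      simp only []
      rw [← hrel m]
      congr 1
      push_cast
      ring
    simp only [h1]
    have h2 := ((hsF F).sub ((hsF (M1 V)).const_smul (Complex.I * (τ : ℂ)))).add
      (((M1.continuous.tendsto V).comp hsV).const_smul (Complex.I * (τ : ℂ)))
    simpa using h2
  have hlim := ((hFt.norm).pow 2).const_mul (C * (1 + (k : ℝ) ^ 2))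
  have hlim2 := (((hsV.norm).pow 2).const_mul (τ ^ 2)).add_const
    (∑ m ∈ s, ((m : ℝ) ^ 2 + (k : ℝ) ^ 2) * ‖⟪e1 m, V⟫_ℂ‖ ^ 2)
  refine le_of_tendsto_of_tendsto hlim2 hlim ?_
  filter_upwards [eventually_ge_atTop s] with t ht
  refine le_trans ?_ (hres t (fun m => ⟪e1 m, V⟫_ℂ) k τ)
  gcongr

end Pool.Agent.Helper34
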