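import Pool.Agent.Helper34.DWDefs
import Pool.Agent.Helper34.DW11

/-! # The two-dimensional torus: basis, multiplication, slices. -/

namespace Pool.Agent.Helper34.DW

open MeasureTheory Set Filter Topology AddCircle Pool.Agent.Helper34

open scoped ComplexConjugate InnerProductSpace ENNReal

/-- the Hilbert basis of exponentials -/
noncomputable def e2 : HilbertBasis (Fin 2 → ℤ) ℂ (Lp ℂ 2 haar) := UnitAddTorus.mFourierBasis

lemma e2_inner (n : Fin 2 → ℤ) (f : Lp ℂ 2 haar) : ⟪e2 n, f⟫_ℂ = coef (fn f) n := by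
  have := UnitAddTorus.mFourierBasis_repr (d := Fin 2) f n
  rw [HilbertBasis.repr_apply_apply] at this
  exact this

lemma e2_ae (n : Fin 2 → ℤ) : (e2 n : Torus → ℂ) =ᵐ[haar] UnitAddTorus.mFourier n := by
  have h := UnitAddTorus.coeFn_mFourierLp (d := Fin 2) 2 n
  have h2 : e2 n = UnitAddTorus.mFourierLp (d := Fin 2) 2 n := by
    show UnitAddTorus.mFourierBasis n = _
    rw [UnitAddTorus.coe_mFourierBasis]
  rw [h2]
  exact h

instance : IsProbabilityMeasure haar := by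
  unfold haar; infer_instance

lemma coef_mulOp {b : Torus → ℝ} (hb : Measurable b) {C : ℝ} (hC : ∀ x, |b x| ≤ C) (f : Lp ℂ 2 haar)
    (n : Fin 2 → ℤ) :
    ⟪e2 n, mulOp haar b hb C hC f⟫_ℂ = coef (fun θ => b θ * fn f θ) n := by
  rw [e2_inner]
  unfold coef fn
  apply integral_congr_ae
  filter_upwards [coeFn_mulOp (hb := hb) (hC := hC) f] with x hx
  rw [hx]

lemma lam_nonneg (n : Fin 2 → ℤ) : 0 ≤ lam n := by unfold lam; positivity

lemma isSolution_iff {b : Torus → ℝ} (hb : Measurable b) {C : ℝ} (hC : ∀ x, |b x| ≤ C)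
    {u v : ℝ → Lp ℂ 2 haar} :
    IsSolution b u v ↔ WSol e2 lam (mulOp haar b hb C hC) u v := by
  constructor
  · intro h
    exact
      { cv := h.cont
        du := h.deriv
        h1 := fun t ht => by simpa only [e2_inner] using h.finite t ht
        dv := fun n t ht => by
          have := h.wave n t ht
          rw [coef_mulOp]
          simp only [e2_inner]
          exact this }
  · intro h
    exact
      { cont := h.cv
        deriv := h.du
        finite := fun t ht => by simpa only [e2_inner] using h.h1 t ht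
        wave := fun n t ht => by
          have := h.dv n t ht
          rw [coef_mulOp] at this
          simp only [e2_inner] at this
          exact this }

lemma energy_eq (u v : Lp ℂ 2 haar) : energy u v = En e2 lam u v / 2 := by
  unfold energy En
  simp only [e2_inner]
  rfl

/-- the slice of frequencies `(m, k)`, `m ∈ ℤ` -/
def sl (k : ℤ) (m : ℤ) : Fin 2 → ℤ := ![m, k]

lemma sl_inj (k : ℤ) : Function.Injective (sl k) := by
  intro m m' h
  have := congrFun h 0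
  simpa [sl] using this

lemma lam_sl (k m : ℤ) : lam (sl k m) = (m : ℝ) ^ 2 + (k : ℝ) ^ 2 := by
  simp [lam, sl]

/-- the damping on the 2-torus -/
noncomputable def bT (θ : Torus) : ℝ := betaT (θ 0)

lemma bT_continuous : Continuous bT := betaT_continuous.comp (continuous_apply 0)

lemma bT_abs (θ : Torus) : |bT θ| ≤ 1 := betaT_abs _

lemma bT_nonneg (θ : Torus) : 0 ≤ bT θ := betaT_nonneg _

/-- multiplication by the damping on the torus -/
noncomputable def M2 : Lp ℂ 2 haar →L[ℂ] Lp ℂ 2 haar := mulOp haar bT bT_continuous.measurable 1 bT_abs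

lemma M2_matrix (n n' : Fin 2 → ℤ) :
    ⟪e2 n, M2 (e2 n')⟫_ℂ = ⟪e1 (n 0), M1 (e1 (n' 0))⟫_ℂ * ⟪e1 (n 1), e1 (n' 1)⟫_ℂ := by
  unfold M2 M1
  rw [inner_mulOp, inner_mulOp, L2.inner_def]
  let F : Fin 2 → UnitAddCircle → ℂ := fun i θ =>
    (if i = 0 then (betaT θ : ℂ) else 1) * (conj (fourier (n i) θ) * fourier (n' i) θ)
  have h1 : ∫ x, (bT x : ℂ) * (conj ((e2 n : Torus → ℂ) x) * (e2 n' : Torus → ℂ) x) ∂haar
      = ∫ x : Torus, ∏ i, F i (x i) ∂haar := by
    apply integral_congr_ae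
    filter_upwards [e2_ae n, e2_ae n'] with x hx hx'
    rw [hx, hx']
    simp only [F, UnitAddTorus.mFourier, ContinuousMap.coe_mk, Fin.prod_univ_two, bT]
    simp only [Fin.isValue, if_true, map_mul]
    have : (1 : Fin 2) ≠ 0 := by decide
    rw [if_neg this]
    ring
  have h3 : ∫ x : Torus, ∏ i, F i (x i) ∂haar = ∏ i, ∫ θ, F i θ ∂haarAddCircle :=
    integral_fintype_prod_eq_prod (𝕜 := ℂ)
      (μ := fun _ : Fin 2 => (haarAddCircle : Measure UnitAddCircle)) F
  rw [h1, h3, Fin.prod_univ_two]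
  have h2 : ∀ m : ℤ, (e1 m : UnitAddCircle → ℂ) =ᵐ[haarAddCircle] fourier m := by
    intro m
    rw [coe_fourierBasis]
    exact coeFn_fourierLp 2 m
  congr 1
  · apply integral_congr_ae
    filter_upwards [h2 (n 0), h2 (n' 0)] with x hx hx'
    rw [hx, hx']
    simp [F]
  · apply integral_congr_ae
    filter_upwards [h2 (n 1), h2 (n' 1)] with x hx hx'
    rw [hx, hx']
    have : (1 : Fin 2) ≠ 0 := by decide
    simp only [F]
    rw [if_neg this, RCLike.inner_apply]
    ring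

/-- the slice operator -/
noncomputable def Sk (k : ℤ) : Lp ℂ 2 haar →L[ℂ] L1 := restrOp e1 e2 (sl_inj k)

lemma Sk_coord (k : ℤ) (x : Lp ℂ 2 haar) (m : ℤ) : ⟪e1 m, Sk k x⟫_ℂ = ⟪e2 (sl k m), x⟫_ℂ :=
  restrOp_coord e1 e2 (sl_inj k) x m

lemma Sk_comm (k : ℤ) (x : Lp ℂ 2 haar) : Sk k (M2 x) = M1 (Sk k x) := by
  apply restrOp_comm
  · exact fun x y => mulOp_symm x y
  · exact fun x y => mulOp_symm x y
  · intro m n hn
    rw [M2_matrix]
    have h1 : n 1 ≠ k := by
      intro h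
      apply hn
      refine ⟨n 0, ?_⟩
      funext i
      fin_cases i
      · simp [sl]
      · simp [sl, h]
    have h2 : ⟪e1 (sl k m 1), e1 (n 1)⟫_ℂ = 0 := by
      have h3 := orthonormal_iff_ite.1 (e1.orthonormal) (sl k m 1) (n 1)
      rw [h3, if_neg]
      simp only [sl, Matrix.cons_val_one, Matrix.cons_val_fin_one]
      exact fun h => h1 h.symm
    rw [h2, mul_zero]
  · intro m m'
    rw [M2_matrix]
    have h2 : ⟪e1 (sl k m 1), e1 (sl k m' 1)⟫_ℂ = 1 := by
      have h3 := orthonormal_iff_ite.1 (e1.orthonormal) (sl k m 1) (sl k m' 1)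
      rw [h3, if_pos]
      simp [sl]
    rw [h2, mul_one]
    simp [sl]

/-- weights of the slice -/
noncomputable def wk (k : ℤ) (m : ℤ) : ℝ := (m : ℝ) ^ 2 + (k : ℝ) ^ 2

lemma wk_nonneg (k m : ℤ) : 0 ≤ wk k m := by unfold wk; positivity

lemma slice_WSol {u v : ℝ → Lp ℂ 2 haar} (h : WSol e2 lam M2 u v) (k : ℤ) :
    WSol e1 (wk k) M1 (fun t => Sk k (u t)) (fun t => Sk k (v t)) :=
  h.restr e1 e2 (sl_inj k) (Sk_comm k) (fun m => lam_sl k m)

/-- frequencies as pairs `(k, m)` -/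
def frq : ℤ × ℤ ≃ (Fin 2 → ℤ) where
  toFun p := sl p.1 p.2
  invFun n := (n 1, n 0)
  left_inv p := by simp [sl]
  right_inv n := by
    funext i
    fin_cases i <;> simp [sl]

lemma M1_nonneg (x : L1) : 0 ≤ (⟪x, M1 x⟫_ℂ).re := mulOp_nonneg betaT_nonneg x

lemma M2_nonneg (x : Lp ℂ 2 haar) : 0 ≤ (⟪x, M2 x⟫_ℂ).re := mulOp_nonneg bT_nonneg x

lemma M1_norm : ‖M1‖ ≤ 1 := mulOp_norm zero_le_one

/-- the energy is the sum of the energies of the slices -/
lemma En_slices (x y : Lp ℂ 2 haar) (hx : Summable fun n => lam n * ‖⟪e2 n, x⟫_ℂ‖ ^ 2) :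
    HasSum (fun k => En e1 (wk k) (Sk k x) (Sk k y)) (En e2 lam x y) := by
  have h1 : HasSum (fun n => lam n * ‖⟪e2 n, x⟫_ℂ‖ ^ 2 + ‖⟪e2 n, y⟫_ℂ‖ ^ 2) (En e2 lam x y) :=
    hx.hasSum.add (parseval e2 y)
  have h2 : HasSum (fun p : ℤ × ℤ => lam (frq p) * ‖⟪e2 (frq p), x⟫_ℂ‖ ^ 2 + ‖⟪e2 (frq p), y⟫_ℂ‖ ^ 2)
      (En e2 lam x y) := (frq.hasSum_iff).2 h1
  refine h2.prod_fiberwise fun k => ?_
  have hs : Summable fun m => wk k m * ‖⟪e1 m, Sk k x⟫_ℂ‖ ^ 2 := by
    have := hx.comp_injective (sl_inj k)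
    refine this.congr fun m => ?_
    simp only [Function.comp, Sk_coord, lam_sl, wk]
  have h3 : HasSum (fun m => wk k m * ‖⟪e1 m, Sk k x⟫_ℂ‖ ^ 2 + ‖⟪e1 m, Sk k y⟫_ℂ‖ ^ 2)
      (En e1 (wk k) (Sk k x) (Sk k y)) := hs.hasSum.add (parseval e1 _)
  refine h3.congr_fun ?_
  intro m
  simp only [frq, Equiv.coe_fn_mk, lam_sl, Sk_coord, wk]

end Pool.Agent.Helper34.DW
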