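import Pool.Agent.Helper34.DW12

/-! # The upper bound: stability at rate `1/t`. -/

namespace Pool.Agent.Helper34.DW

open MeasureTheory Set Filter Topology AddCircle Pool.Agent.Helper34

open scoped ComplexConjugate InnerProductSpace ENNReal

/-- the mean of the profile -/
noncomputable def beta0 : ℝ := ∫ θ, betaT θ * ‖(e1 0 : UnitAddCircle → ℂ) θ‖ ^ 2 ∂haarAddCircle

lemma e1_ae (m : ℤ) : (e1 m : UnitAddCircle → ℂ) =ᵐ[haarAddCircle] fourier m := by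
  rw [coe_fourierBasis]
  exact coeFn_fourierLp 2 m

lemma beta0_eq : beta0 = ∫ θ, betaT θ ∂haarAddCircle := by
  unfold beta0
  apply integral_congr_ae
  filter_upwards [e1_ae 0] with x hx
  rw [hx]
  simp

lemma beta0_pos : 0 < beta0 := by
  rw [beta0_eq]
  rw [integral_pos_iff_support_of_nonneg (fun θ => betaT_nonneg θ)]
  · apply IsOpen.measure_pos
    · exact betaT_continuous.isOpen_support
    · refine ⟨((1 / (2 * Real.pi) : ℝ) : UnitAddCircle), ?_⟩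
      rw [Function.mem_support, betaT_coe]
      have := beta_pos (x := 1) one_pos (by linarith [Real.pi_gt_three])
      exact this.ne'
  · exact betaT_continuous.integrable_of_hasCompactSupport (HasCompactSupport.of_compactSpace _)

lemma inner_M1_e0 : ⟪e1 0, M1 (e1 0)⟫_ℂ = (beta0 : ℂ) := by
  unfold M1 beta0
  rw [inner_mulOp, ← integral_complex_ofReal]
  congr 1
  funext x
  rw [Complex.conj_mul']
  push_cast
  ring

lemma e1_norm (m : ℤ) : ‖e1 m‖ = 1 := e1.orthonormal.1 m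

lemma e1_inner (m m' : ℤ) : ⟪e1 m, e1 m'⟫_ℂ = if m = m' then 1 else 0 :=
  orthonormal_iff_ite.1 (e1.orthonormal) m m'

lemma wk_zero_zero : wk 0 0 = 0 := by simp [wk]

lemma one_le_wk {k m : ℤ} (h : m ≠ 0 ∨ k ≠ 0) : 1 ≤ wk k m := by
  unfold wk
  have h1 : ∀ j : ℤ, j ≠ 0 → (1 : ℝ) ≤ (j : ℝ) ^ 2 := by
    intro j hj
    have h2 : (1 : ℤ) ≤ j ^ 2 := by
      have := pow_pos (abs_pos.2 hj) 2
      rw [sq_abs] at this
      linarith
    exact_mod_cast h2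
  rcases h with h | h
  · nlinarith [h1 m h, sq_nonneg (k : ℝ)]
  · nlinarith [h1 k h, sq_nonneg (m : ℝ)]

/-- Poincaré-type inequality for the zero slice -/
lemma poincare_zero {x y : L1} (hx : Summable fun m => wk 0 m * ‖⟪e1 m, x⟫_ℂ‖ ^ 2)
    (h : ⟪e1 0, y⟫_ℂ + ⟪e1 0, M1 x⟫_ℂ = 0) :
    ‖x‖ ^ 2 ≤ (1 + 2 / beta0 ^ 2) * En e1 (wk 0) x y := by
  have hb := beta0_pos
  set a := ⟪e1 0, x⟫_ℂ with ha
  set w := x - a • e1 0 with hw
  have hwm : ∀ m, ⟪e1 m, w⟫_ℂ = if m = 0 then 0 else ⟪e1 m, x⟫_ℂ := by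
    intro m
    rw [hw, inner_sub_right, inner_smul_right, e1_inner]
    by_cases h0 : m = 0
    · rw [if_pos h0, if_pos h0, h0]; simp [ha]
    · rw [if_neg h0, if_neg h0]; simp
  set D := ∑' m, wk 0 m * ‖⟪e1 m, x⟫_ℂ‖ ^ 2 with hD
  have hDs : HasSum (fun m => wk 0 m * ‖⟪e1 m, x⟫_ℂ‖ ^ 2) D := hx.hasSum
  have h1 : ‖w‖ ^ 2 ≤ D := by
    refine hasSum_le ?_ (parseval e1 w) hDs
    intro m
    rw [hwm]
    by_cases h0 : m = 0
    · rw [if_pos h0, h0, wk_zero_zero]; simp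
    · rw [if_neg h0]
      have := one_le_wk (k := 0) (m := m) (Or.inl h0)
      nlinarith [sq_nonneg ‖⟪e1 m, x⟫_ℂ‖]
  have h2 : ‖x‖ ^ 2 = ‖w‖ ^ 2 + ‖a‖ ^ 2 := by
    have h3 : HasSum (fun m : ℤ => ‖⟪e1 m, w⟫_ℂ‖ ^ 2 + if m = 0 then ‖a‖ ^ 2 else 0) (‖w‖ ^ 2 + ‖a‖ ^ 2) :=
      (parseval e1 w).add (hasSum_ite_eq 0 (‖a‖ ^ 2))
    refine (parseval e1 x).unique ?_
    refine h3.congr_fun ?_
    intro m
    rw [hwm]
    by_cases h0 : m = 0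
    · rw [if_pos h0, if_pos h0, h0]; simp [ha]
    · rw [if_neg h0, if_neg h0]; simp
  have h4 : a * beta0 = -⟪e1 0, y⟫_ℂ - ⟪e1 0, M1 w⟫_ℂ := by
    have h5 : ⟪e1 0, M1 w⟫_ℂ = ⟪e1 0, M1 x⟫_ℂ - a * beta0 := by
      rw [hw, map_sub, map_smul, inner_sub_right, inner_smul_right, inner_M1_e0]
    rw [h5]
    linear_combination h
  have h6 : ‖a‖ * beta0 ≤ ‖y‖ + ‖w‖ := by
    have h7 : ‖a * beta0‖ = ‖a‖ * beta0 := by
      rw [norm_mul, Complex.norm_real, Real.norm_eq_abs, abs_of_pos hb]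
    rw [← h7, h4]
    refine (norm_sub_le _ _).trans ?_
    rw [norm_neg]
    have h8 : ‖⟪e1 0, y⟫_ℂ‖ ≤ ‖y‖ := by
      have := norm_inner_le_norm (𝕜 := ℂ) (e1 0) y
      rwa [e1_norm, one_mul] at this
    have h9 : ‖⟪e1 0, M1 w⟫_ℂ‖ ≤ ‖w‖ := by
      have := norm_inner_le_norm (𝕜 := ℂ) (e1 0) (M1 w)
      rw [e1_norm, one_mul] at this
      refine this.trans ?_
      have h10 := M1.le_of_opNorm_le M1_norm w
      rwa [one_mul] at h10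
    linarith
  have h11 : ‖a‖ ^ 2 * beta0 ^ 2 ≤ 2 * (D + ‖y‖ ^ 2) := by
    have h12 : (‖a‖ * beta0) ^ 2 ≤ (‖y‖ + ‖w‖) ^ 2 := pow_le_pow_left₀ (by positivity) h6 2
    nlinarith [sq_nonneg (‖y‖ - ‖w‖)]
  have h13 : ‖a‖ ^ 2 ≤ 2 / beta0 ^ 2 * (D + ‖y‖ ^ 2) := by
    rw [div_mul_eq_mul_div, le_div_iff₀ (by positivity)]
    exact h11
  have hE : En e1 (wk 0) x y = D + ‖y‖ ^ 2 := rfl
  rw [hE, h2]
  nlinarith [sq_nonneg ‖y‖]

/-- adding constants -/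
lemma shift_WSol {u v : ℝ → L1} (h : WSol e1 (wk 0) M1 u v) (c : ℂ) :
    WSol e1 (wk 0) M1 (fun t => u t - c • e1 0) v ∧
    ∀ t, En e1 (wk 0) (u t - c • e1 0) (v t) = En e1 (wk 0) (u t) (v t) := by
  have hc : ∀ x m, wk 0 m * ‖⟪e1 m, x - c • e1 0⟫_ℂ‖ ^ 2 = wk 0 m * ‖⟪e1 m, x⟫_ℂ‖ ^ 2 := by
    intro x m
    rw [inner_sub_right, inner_smul_right, e1_inner]
    by_cases h0 : m = 0
    · rw [h0, wk_zero_zero]; simp
    · rw [if_neg h0]; simp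
  have hc2 : ∀ x m, (wk 0 m : ℂ) * ⟪e1 m, x - c • e1 0⟫_ℂ = wk 0 m * ⟪e1 m, x⟫_ℂ := by
    intro x m
    rw [inner_sub_right, inner_smul_right, e1_inner]
    by_cases h0 : m = 0
    · rw [h0, wk_zero_zero]; simp
    · rw [if_neg h0]; simp
  constructor
  · exact
      { cv := h.cv
        du := fun t ht => (h.du t ht).sub_const _
        h1 := fun t ht => by
          simp only [hc]
          exact h.h1 t ht
        dv := fun m t ht => by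
          rw [hc2]
          exact h.dv m t ht }
  · intro t
    unfold En
    simp only [hc]

/-- decay of each slice, uniformly in `k` up to the factor `1 + k²` -/
theorem mode_decay : ∃ C : ℝ, 0 < C ∧ ∀ (k : ℤ) (u v : ℝ → L1), WSol e1 (wk k) M1 u v →
    ∀ T : ℝ, 0 < T → En e1 (wk k) (u T) (v T) ≤ C * (1 + (k : ℝ) ^ 2) / T ^ 2 * En e1 (wk k) (u 0) (v 0) := by
  obtain ⟨C0, hC0, hres⟩ := resolvent_L2
  have hb := beta0_pos
  set P : ℝ := 1 + 2 / beta0 ^ 2 with hP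
  have hP1 : 1 ≤ P := by
    have : 0 < 2 / beta0 ^ 2 := by positivity
    linarith
  have hP0 : 0 ≤ P := by linarith
  set C : ℝ := 630 * (4 * C0 * (1 + 9 * P) + P / 2) + 1 with hC
  have hCpos : 0 < C := by positivity
  have hM := M1_norm
  have hM0 : 0 ≤ ‖M1‖ := norm_nonneg _
  -- the conclusion from the Poincaré-type bound
  have key : ∀ (k : ℤ) (u v : ℝ → L1), WSol e1 (wk k) M1 u v →
      (∀ t, 0 ≤ t → ‖u t‖ ^ 2 ≤ P * En e1 (wk k) (u t) (v t)) → ∀ T : ℝ, 1 ≤ T →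
      En e1 (wk k) (u T) (v T) ≤ C * (1 + (k : ℝ) ^ 2) / T ^ 2 * En e1 (wk k) (u 0) (v 0) := by
    intro k u v h hPu T hT
    have hk : 0 ≤ (k : ℝ) ^ 2 := sq_nonneg _
    have h1 := decay_of_resolvent h (wk_nonneg k) M1_nonneg (R := C0 * (1 + (k : ℝ) ^ 2)) (P := P)
      (by positivity) hP0 (fun τ V F hrel s => hres k τ V F hrel s) hPu hT
    refine h1.trans ?_
    apply mul_le_mul_of_nonneg_right _ (En_nonneg (wk_nonneg k) _ _)
    have hT2 : 0 < T ^ 2 := by positivity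
    rw [div_mul_eq_mul_div]
    apply div_le_div_of_nonneg_right _ hT2.le
    have h2 : (2 + ‖M1‖) ^ 2 ≤ 9 := by nlinarith
    have h3 : (2 + ‖M1‖) ^ 2 * P ≤ 9 * P := mul_le_mul_of_nonneg_right h2 hP0
    have h4 : 4 * (C0 * (1 + (k : ℝ) ^ 2)) * (1 + (2 + ‖M1‖) ^ 2 * P)
        ≤ 4 * (C0 * (1 + (k : ℝ) ^ 2)) * (1 + 9 * P) :=
      mul_le_mul_of_nonneg_left (by linarith) (by positivity)
    have h5 : P / 2 ≤ P / 2 * (1 + (k : ℝ) ^ 2) := by nlinarith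
    have h6 : 630 * (4 * (C0 * (1 + (k : ℝ) ^ 2)) * (1 + (2 + ‖M1‖) ^ 2 * P) + P / 2)
        ≤ 630 * (4 * (C0 * (1 + (k : ℝ) ^ 2)) * (1 + 9 * P) + P / 2 * (1 + (k : ℝ) ^ 2)) := by linarith
    refine h6.trans ?_
    have h7 : C * (1 + (k : ℝ) ^ 2) = 630 * (4 * (C0 * (1 + (k : ℝ) ^ 2)) * (1 + 9 * P)
      + P / 2 * (1 + (k : ℝ) ^ 2)) + (1 + (k : ℝ) ^ 2) := by rw [hC]; ring
    rw [h7]
    linarith
  refine ⟨C, hCpos, fun k u v h T hT => ?_⟩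
  rcases le_or_gt T 1 with hT1 | hT1
  · -- small times
    have h1 := h.energy_antitone M1_nonneg le_rfl hT.le
    refine h1.trans ?_
    apply le_mul_of_one_le_left (En_nonneg (wk_nonneg k) _ _)
    rw [le_div_iff₀ (by positivity), one_mul]
    have h2 : T ^ 2 ≤ 1 := pow_le_one₀ hT.le hT1
    have h3 : 1 ≤ C := by
      have : 0 < 630 * (4 * C0 * (1 + 9 * P) + P / 2) := by positivity
      rw [hC]; linarith
    nlinarith [sq_nonneg (k : ℝ)]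
  · by_cases hk : k = 0
    · subst hk
      -- the conserved quantity
      set κ : ℝ → ℂ := fun t => ⟪e1 0, v t⟫_ℂ + ⟪e1 0, M1 (u t)⟫_ℂ with hκ
      have dκ : ∀ t, 0 ≤ t → HasDerivWithinAt κ 0 (Ici 0) t := by
        intro t ht
        have h1 := h.dv 0 t ht
        have h2 : HasDerivWithinAt (fun s => ⟪e1 0, M1 (u s)⟫_ℂ) ⟪e1 0, M1 (v t)⟫_ℂ (Ici 0) t := by
          have h3 : HasDerivWithinAt (fun s => M1 (u s)) (M1 (v t)) (Ici 0) t :=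
            (M1.restrictScalars ℝ).hasFDerivAt.comp_hasDerivWithinAt t (h.du t ht)
          exact ((hasDerivWithinAt_const t _ (e1 0)).inner ℂ h3).congr_deriv (by simp)
        refine (h1.add h2).congr_deriv ?_
        rw [wk_zero_zero]
        simp
      have cκ : ∀ t, 0 ≤ t → κ t = κ 0 := by
        intro t ht
        have := ftc_Ici dκ continuousOn_const le_rfl ht
        rw [intervalIntegral.integral_zero] at this
        exact (sub_eq_zero.1 this.symm)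
      set c : ℂ := κ 0 / beta0 with hc
      obtain ⟨h1, h2⟩ := shift_WSol h c
      have h3 := key 0 _ _ h1 (by
        intro t ht
        apply poincare_zero (h1.h1 t ht)
        have h4 := cκ t ht
        rw [map_sub, map_smul, inner_sub_right, inner_smul_right, inner_M1_e0]
        have hb' : (beta0 : ℂ) ≠ 0 := by exact_mod_cast hb.ne'
        have h5 : c * beta0 = κ 0 := by rw [hc]; field_simp
        rw [h5, ← h4, hκ]
        ring) T hT1.le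
      rw [h2, h2] at h3
      exact h3
    · apply key k u v h _ T hT1.le
      intro t ht
      have h1 : ‖u t‖ ^ 2 ≤ ∑' m, wk k m * ‖⟪e1 m, u t⟫_ℂ‖ ^ 2 := by
        refine hasSum_le ?_ (parseval e1 (u t)) (h.h1 t ht).hasSum
        intro m
        have := one_le_wk (k := k) (m := m) (Or.inr hk)
        nlinarith [sq_nonneg ‖⟪e1 m, u t⟫_ℂ‖]
      have h2 : (∑' m, wk k m * ‖⟪e1 m, u t⟫_ℂ‖ ^ 2) ≤ En e1 (wk k) (u t) (v t) := by
        unfold En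
        nlinarith [sq_nonneg ‖v t‖]
      have h3 := En_nonneg (e := e1) (wk_nonneg k) (u t) (v t)
      nlinarith

/-- **Upper bound** -/
theorem stable_bT : StableAtRate bT (fun t => 1 / t) := by
  obtain ⟨C, hC, hdec⟩ := mode_decay
  refine ⟨C, hC, fun u v hsol hu0 hv0 t ht => ?_⟩
  have h : WSol e2 lam M2 u v := (isSolution_iff bT_continuous.measurable bT_abs).1 hsol
  rw [energy_eq]
  have hs1 := En_slices (u t) (v t) (h.h1 t ht.le)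
  -- weighted sum for the data
  have hx : HasSum (fun n => (1 + lam n) ^ 2 * ‖⟪e2 n, u 0⟫_ℂ‖ ^ 2) (sobSq 2 (u 0)) := by
    simp only [e2_inner]
    exact hu0.hasSum
  have hy : HasSum (fun n => (1 + lam n) ^ 1 * ‖⟪e2 n, v 0⟫_ℂ‖ ^ 2) (sobSq 1 (v 0)) := by
    simp only [e2_inner]
    exact hv0.hasSum
  have hterm : ∀ n : Fin 2 → ℤ, (1 + (n 1 : ℝ) ^ 2) * (lam n * ‖⟪e2 n, u 0⟫_ℂ‖ ^ 2 + ‖⟪e2 n, v 0⟫_ℂ‖ ^ 2)
      ≤ (1 + lam n) ^ 2 * ‖⟪e2 n, u 0⟫_ℂ‖ ^ 2 + (1 + lam n) ^ 1 * ‖⟪e2 n, v 0⟫_ℂ‖ ^ 2 := by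
    intro n
    have h1 : (n 1 : ℝ) ^ 2 ≤ lam n := by unfold lam; nlinarith [sq_nonneg (n 0 : ℝ)]
    have h2 := lam_nonneg n
    have h3 : (1 + (n 1 : ℝ) ^ 2) * lam n ≤ (1 + lam n) ^ 2 := by nlinarith [sq_nonneg (n 1 : ℝ)]
    have h4 := mul_le_mul_of_nonneg_right h3 (sq_nonneg ‖⟪e2 n, u 0⟫_ℂ‖)
    have h5 : (1 + (n 1 : ℝ) ^ 2) * ‖⟪e2 n, v 0⟫_ℂ‖ ^ 2 ≤ (1 + lam n) ^ 1 * ‖⟪e2 n, v 0⟫_ℂ‖ ^ 2 := by
      rw [pow_one]
      exact mul_le_mul_of_nonneg_right (by linarith) (sq_nonneg _)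
    nlinarith
  have hnn : ∀ n : Fin 2 → ℤ, 0 ≤ (1 + (n 1 : ℝ) ^ 2) *
      (lam n * ‖⟪e2 n, u 0⟫_ℂ‖ ^ 2 + ‖⟪e2 n, v 0⟫_ℂ‖ ^ 2) := by
    intro n
    have := lam_nonneg n
    positivity
  have hsum : Summable (fun n : Fin 2 → ℤ => (1 + (n 1 : ℝ) ^ 2) *
      (lam n * ‖⟪e2 n, u 0⟫_ℂ‖ ^ 2 + ‖⟪e2 n, v 0⟫_ℂ‖ ^ 2)) :=
    Summable.of_nonneg_of_le hnn hterm (hx.add hy).summable
  have hle := hasSum_le hterm hsum.hasSum (hx.add hy)
  have hpair := (frq.hasSum_iff).2 hsum.hasSum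
  have hs2 : HasSum (fun k : ℤ => (1 + (k : ℝ) ^ 2) * En e1 (wk k) (Sk k (u 0)) (Sk k (v 0)))
      (∑' n : Fin 2 → ℤ, (1 + (n 1 : ℝ) ^ 2) * (lam n * ‖⟪e2 n, u 0⟫_ℂ‖ ^ 2 + ‖⟪e2 n, v 0⟫_ℂ‖ ^ 2)) := by
    refine hpair.prod_fiberwise fun k => ?_
    have hk := slice_WSol h k
    have h3 : HasSum (fun m => wk k m * ‖⟪e1 m, Sk k (u 0)⟫_ℂ‖ ^ 2 + ‖⟪e1 m, Sk k (v 0)⟫_ℂ‖ ^ 2)
      (En e1 (wk k) (Sk k (u 0)) (Sk k (v 0))) := (hk.h1 0 le_rfl).hasSum.add (parseval e1 _)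
    refine (h3.mul_left (1 + (k : ℝ) ^ 2)).congr_fun ?_
    intro m
    simp only [frq, Equiv.coe_fn_mk, lam_sl, Sk_coord, wk, Function.comp]
    simp [sl]
  have hfin : En e2 lam (u t) (v t) ≤ C / t ^ 2 * (∑' n : Fin 2 → ℤ, (1 + (n 1 : ℝ) ^ 2) *
      (lam n * ‖⟪e2 n, u 0⟫_ℂ‖ ^ 2 + ‖⟪e2 n, v 0⟫_ℂ‖ ^ 2)) := by
    refine hasSum_le ?_ hs1 (hs2.mul_left (C / t ^ 2))
    intro k
    have := hdec k _ _ (slice_WSol h k) t ht
    refine this.trans (le_of_eq ?_)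
    ring
  have h6 : C / t ^ 2 * (∑' n : Fin 2 → ℤ, (1 + (n 1 : ℝ) ^ 2) *
      (lam n * ‖⟪e2 n, u 0⟫_ℂ‖ ^ 2 + ‖⟪e2 n, v 0⟫_ℂ‖ ^ 2)) ≤ C / t ^ 2 * (sobSq 2 (u 0) + sobSq 1 (v 0)) :=
    mul_le_mul_of_nonneg_left hle (by positivity)
  have h7 := En_nonneg (e := e2) (w2 := lam) lam_nonneg (u t) (v t)
  have h8 : C * (1 / t) ^ 2 * (sobSq 2 (u 0) + sobSq 1 (v 0))
      = C / t ^ 2 * (sobSq 2 (u 0) + sobSq 1 (v 0)) := by
    field_simp
  simp only []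
  rw [h8]
  linarith

end Pool.Agent.Helper34.DW
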