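import Pool.Agent.Helper34.DW13

/-! # Functions on `(-π, π]` as elements of `L²` of the circle; gluing. -/

namespace Pool.Agent.Helper34.DW

open MeasureTheory Set Filter Topology AddCircle Pool.Agent.Helper34

open scoped ComplexConjugate InnerProductSpace ENNReal

/-- function on the circle with given values on `(-π, π]` -/
noncomputable def circF (ψ : ℝ → ℂ) : UnitAddCircle → ℂ :=
  AddCircle.liftIoc 1 (-(1/2)) (fun y => ψ (2 * Real.pi * y))

lemma circF_coe (ψ : ℝ → ℂ) {x : ℝ} (hx : x ∈ Ioc (-Real.pi) Real.pi) :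
    circF ψ ((x / (2 * Real.pi) : ℝ) : UnitAddCircle) = ψ x := by
  have hπ := Real.pi_pos
  unfold circF
  rw [AddCircle.liftIoc_coe_apply]
  · congr 1; field_simp
  · constructor
    · rw [lt_div_iff₀ (by positivity)]; linarith [hx.1]
    · rw [div_le_iff₀ (by positivity)]; linarith [hx.2]

lemma circF_measurable {ψ : ℝ → ℂ} (h : Measurable ψ) : Measurable (circF ψ) := by
  have h1 : Measurable (fun y : ℝ => ψ (2 * Real.pi * y)) := h.comp (by fun_prop)
  have h2 : Measurable (AddCircle.equivIoc (1:ℝ) (-(1/2))) :=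
    (AddCircle.measurableEquivIoc 1 (-(1/2))).measurable
  exact (h1.comp measurable_subtype_coe).comp h2

lemma circ_repr (θ : UnitAddCircle) :
    ∃ x ∈ Ioc (-Real.pi) Real.pi, θ = ((x / (2 * Real.pi) : ℝ) : UnitAddCircle) := by
  have hπ := Real.pi_pos
  set y := AddCircle.equivIoc (1:ℝ) (-(1/2)) θ with hy
  have h1 : ((y : ℝ) : UnitAddCircle) = θ := AddCircle.coe_equivIoc
  refine ⟨2 * Real.pi * y, ⟨?_, ?_⟩, ?_⟩
  · have := y.2.1
    nlinarith
  · have := y.2.2
    nlinarith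
  · rw [← h1]
    congr 1
    field_simp

lemma circF_bound {ψ : ℝ → ℂ} {C : ℝ} (h : ∀ x, ‖ψ x‖ ≤ C) (θ : UnitAddCircle) : ‖circF ψ θ‖ ≤ C := by
  obtain ⟨x, hx, rfl⟩ := circ_repr θ
  rw [circF_coe ψ hx]
  exact h x

/-- admissible functions -/
def Adm (ψ : ℝ → ℂ) : Prop := Measurable ψ ∧ ∃ C, ∀ x, ‖ψ x‖ ≤ C

lemma circF_memLp {ψ : ℝ → ℂ} (h : Adm ψ) : MemLp (circF ψ) 2 haarAddCircle := by
  obtain ⟨hm, C, hC⟩ := h
  exact MemLp.of_bound (circF_measurable hm).aestronglyMeasurable C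
    (Eventually.of_forall (circF_bound hC))

/-- the element of `L²` of the circle -/
noncomputable def elt (ψ : ℝ → ℂ) (h : Adm ψ) : L1 := (circF_memLp h).toLp (circF ψ)

lemma elt_ae {ψ : ℝ → ℂ} (h : Adm ψ) : (elt ψ h : UnitAddCircle → ℂ) =ᵐ[haarAddCircle] circF ψ :=
  MemLp.coeFn_toLp _

/-- integrals over the circle of quantities given on `(-π, π]` -/
lemma circ_int' {E : Type*} [NormedAddCommGroup E] [NormedSpace ℝ E] (G : UnitAddCircle → E) (g : ℝ → E)
    (h : ∀ x ∈ Ioc (-Real.pi) Real.pi, G ((x / (2 * Real.pi) : ℝ) : UnitAddCircle) = g x) :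
    (2 * Real.pi) • ∫ θ, G θ ∂haarAddCircle = ∫ x in (-Real.pi)..Real.pi, g x := by
  rw [← circ_int]
  apply intervalIntegral.integral_congr_ae
  refine Eventually.of_forall fun x hx => ?_
  rw [uIoc_of_le (by linarith [Real.pi_pos])] at hx
  exact h x hx

lemma elt_norm {ψ : ℝ → ℂ} (h : Adm ψ) :
    2 * Real.pi * ‖elt ψ h‖ ^ 2 = ∫ x in (-Real.pi)..Real.pi, ‖ψ x‖ ^ 2 := by
  rw [Lp_norm_sq, ← smul_eq_mul]
  have h1 : ∫ θ, ‖(elt ψ h : UnitAddCircle → ℂ) θ‖ ^ 2 ∂haarAddCircle
      = ∫ θ, ‖circF ψ θ‖ ^ 2 ∂haarAddCircle := by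
    apply integral_congr_ae
    filter_upwards [elt_ae h] with x hx
    rw [hx]
  rw [h1]
  apply circ_int'
  intro x hx
  rw [circF_coe ψ hx]

/-- Fourier coefficient -/
noncomputable def fc (ψ : ℝ → ℂ) (m : ℤ) : ℂ :=
  ∫ x in (-Real.pi)..Real.pi, Complex.exp (-(Complex.I * m * x)) * ψ x

lemma elt_coord {ψ : ℝ → ℂ} (h : Adm ψ) (m : ℤ) :
    (2 * Real.pi : ℝ) • ⟪e1 m, elt ψ h⟫_ℂ = fc ψ m := by
  rw [L2.inner_def]
  have h1 : ∫ θ, ⟪(e1 m : UnitAddCircle → ℂ) θ, (elt ψ h : UnitAddCircle → ℂ) θ⟫_ℂ ∂haarAddCircle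
      = ∫ θ, conj (fourier m θ) * circF ψ θ ∂haarAddCircle := by
    apply integral_congr_ae
    filter_upwards [elt_ae h, e1_ae m] with x hx hx'
    rw [hx, hx', RCLike.inner_apply]
    ring
  rw [h1]
  apply circ_int'
  intro x hx
  rw [circF_coe ψ hx, fourier_eq, ← Complex.exp_conj]
  congr 2
  simp

lemma fc_deriv {ψ ψ' : ℝ → ℂ} (hc : Continuous ψ)
    (hd : ∀ x, HasDerivWithinAt ψ (ψ' x) (Ioi x) x)
    (hi : IntervalIntegrable ψ' volume (-Real.pi) Real.pi) (h0 : ψ (-Real.pi) = 0) (h1 : ψ Real.pi = 0)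
    (m : ℤ) : fc ψ' m = Complex.I * m * fc ψ m := by
  have hexp : ∀ x : ℝ, HasDerivAt (fun x : ℝ => Complex.exp (-(Complex.I * m * x)))
      (-(Complex.I * m) * Complex.exp (-(Complex.I * m * x))) x := by
    intro x
    have h1 : HasDerivAt (fun x : ℝ => -(Complex.I * m * (x : ℂ))) (-(Complex.I * m)) x := by
      have := (Complex.ofRealCLM.hasDerivAt (x := x)).const_mul (-(Complex.I * m))
      simpa using this
    refine h1.cexp.congr_deriv ?_
    ring
  have hce : Continuous (fun x : ℝ => Complex.exp (-(Complex.I * m * x))) := by fun_prop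
  have hint1 : IntervalIntegrable (fun x : ℝ => -(Complex.I * m) * Complex.exp (-(Complex.I * m * x)) * ψ x)
      volume (-Real.pi) Real.pi :=
    ((continuous_const.mul hce).mul hc).intervalIntegrable _ _
  have hint2 : IntervalIntegrable (fun x : ℝ => Complex.exp (-(Complex.I * m * x)) * ψ' x)
      volume (-Real.pi) Real.pi := hi.continuousOn_mul hce.continuousOn
  have key := intervalIntegral.integral_eq_sub_of_hasDeriv_right (a := -Real.pi) (b := Real.pi)
    (f := fun x : ℝ => Complex.exp (-(Complex.I * m * x)) * ψ x)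
    (f' := fun x : ℝ => -(Complex.I * m) * Complex.exp (-(Complex.I * m * x)) * ψ x
      + Complex.exp (-(Complex.I * m * x)) * ψ' x)
    (hce.mul hc).continuousOn
    (fun x _ => (hexp x).hasDerivWithinAt.mul (hd x)) (hint1.add hint2)
  rw [intervalIntegral.integral_add hint1 hint2, h0, h1, mul_zero, mul_zero, sub_zero] at key
  unfold fc
  have h2 : ∫ x in (-Real.pi)..Real.pi, -(Complex.I * m) * Complex.exp (-(Complex.I * m * x)) * ψ x
      = -(Complex.I * m) * ∫ x in (-Real.pi)..Real.pi, Complex.exp (-(Complex.I * m * x)) * ψ x := by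
    rw [← intervalIntegral.integral_const_mul]
    congr 1
    funext x
    ring
  rw [h2] at key
  linear_combination key

/-! ### gluing -/

/-- `g` on `[c, ∞)` and `f` on `(-∞, c)` -/
noncomputable def glue (c : ℝ) (g f : ℝ → ℝ) : ℝ → ℝ := fun x => if c ≤ x then g x else f x

lemma glue_right {c : ℝ} {g f : ℝ → ℝ} {x : ℝ} (h : c ≤ x) : glue c g f x = g x := if_pos h

lemma glue_left {c : ℝ} {g f : ℝ → ℝ} {x : ℝ} (h : x < c) : glue c g f x = f x := if_neg (not_le.2 h)

lemma glue_deriv {c : ℝ} {g f g' f' : ℝ → ℝ}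
    (hg : ∀ x, HasDerivWithinAt g (g' x) (Ioi x) x) (hf : ∀ x, HasDerivWithinAt f (f' x) (Ioi x) x)
    (x : ℝ) : HasDerivWithinAt (glue c g f) (glue c g' f' x) (Ioi x) x := by
  rcases le_or_gt c x with h | h
  · rw [glue_right h]
    refine (hg x).congr (fun y hy => glue_right (h.trans (le_of_lt hy))) (glue_right h)
  · rw [glue_left h]
    refine (hf x).congr_of_eventuallyEq ?_ (glue_left h)
    have : Iio c ∈ 𝓝[>] x := mem_nhdsWithin_of_mem_nhds (Iio_mem_nhds h)
    filter_upwards [this] with y hy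
    exact glue_left hy

lemma glue_continuous {c : ℝ} {g f : ℝ → ℝ} (hg : Continuous g) (hf : Continuous f) (h : g c = f c) :
    Continuous (glue c g f) := by
  unfold glue
  exact Continuous.if_le hg hf continuous_const continuous_id (fun x hx => by subst hx; exact h)

lemma glue_measurable {c : ℝ} {g f : ℝ → ℝ} (hg : Measurable g) (hf : Measurable f) :
    Measurable (glue c g f) := Measurable.ite measurableSet_Ici hg hf

end Pool.Agent.Helper34.DW
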