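import Pool.Agent.Helper34.DW14

/-! # The quasimodes concentrated near the undamped geodesic: the test function. -/

namespace Pool.Agent.Helper34.DW

open MeasureTheory Set Filter Topology AddCircle Pool.Agent.Helper34

open scoped ComplexConjugate InnerProductSpace ENNReal

/-- `π/(2l)` -/
noncomputable def aa (l : ℝ) : ℝ := Real.pi / (2 * l)

/-- width of the layer -/
noncomputable def ww (l : ℝ) : ℝ := l ^ 3 / 50

/-- the cubic and its derivatives -/
def q0 (t : ℝ) : ℝ := t * (1 - t) ^ 2
def q1 (t : ℝ) : ℝ := (1 - t) * (1 - 3 * t)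
def q2 (t : ℝ) : ℝ := 6 * t - 4

/-- the test function -/
noncomputable def phi (l : ℝ) : ℝ → ℝ :=
  glue (l + ww l) (fun _ => 0) (glue l (fun x => -(aa l * ww l) * q0 ((x - l) / ww l))
    (glue (-l) (fun x => Real.cos (aa l * x))
      (glue (-l - ww l) (fun x => -(aa l * ww l) * q0 ((-x - l) / ww l)) (fun _ => 0))))

noncomputable def phi1 (l : ℝ) : ℝ → ℝ :=
  glue (l + ww l) (fun _ => 0) (glue l (fun x => -aa l * q1 ((x - l) / ww l))
    (glue (-l) (fun x => -aa l * Real.sin (aa l * x))
      (glue (-l - ww l) (fun x => aa l * q1 ((-x - l) / ww l)) (fun _ => 0))))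

noncomputable def phi2 (l : ℝ) : ℝ → ℝ :=
  glue (l + ww l) (fun _ => 0) (glue l (fun x => -(aa l / ww l) * q2 ((x - l) / ww l))
    (glue (-l) (fun x => -(aa l ^ 2) * Real.cos (aa l * x))
      (glue (-l - ww l) (fun x => -(aa l / ww l) * q2 ((-x - l) / ww l)) (fun _ => 0))))

section

variable {l : ℝ} (hl : 0 < l) (hl2 : l ≤ 1 / 2)

include hl in
lemma ww_pos : 0 < ww l := by unfold ww; positivity

include hl in
lemma aa_pos : 0 < aa l := by unfold aa; have := Real.pi_pos; positivity

include hl in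
lemma aal : aa l * l = Real.pi / 2 := by unfold aa; field_simp

include hl hl2 in
lemma ww_le : ww l ≤ 1 / 400 := by
  unfold ww
  have : l ^ 3 ≤ (1 / 2) ^ 3 := pow_le_pow_left₀ hl.le hl2 3
  norm_num at this ⊢
  linarith

lemma q0_deriv (t : ℝ) : HasDerivAt q0 (q1 t) t := by
  unfold q0
  have h := (hasDerivAt_id t).mul (((hasDerivAt_id t).const_sub 1).pow 2)
  refine h.congr_deriv ?_
  simp [q1]; ring

lemma q1_deriv (t : ℝ) : HasDerivAt q1 (q2 t) t := by
  unfold q1
  have h := ((hasDerivAt_id t).const_sub 1).mul (((hasDerivAt_id t).const_mul 3).const_sub 1)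
  refine h.congr_deriv ?_
  simp [q2]; ring

lemma q0_continuous : Continuous q0 := by unfold q0; fun_prop
lemma q1_continuous : Continuous q1 := by unfold q1; fun_prop
lemma q2_continuous : Continuous q2 := by unfold q2; fun_prop

include hl in
lemma phi_continuous : Continuous (phi l) := by
  have hw := ww_pos hl
  have hq := q0_continuous
  unfold phi
  refine glue_continuous (by fun_prop) (glue_continuous (by fun_prop) (glue_continuous (by fun_prop)
    (glue_continuous (by fun_prop) (by fun_prop) ?_) ?_) ?_) ?_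
  · have : (-(-l - ww l) - l) / ww l = 1 := by field_simp; ring
    rw [this]; simp [q0]
  · rw [glue_right (by linarith)]
    have : (-(-l) - l) / ww l = 0 := by simp
    rw [this]
    have h2 : aa l * -l = -(Real.pi / 2) := by rw [mul_neg, aal hl]
    rw [h2]; simp [q0]
  · rw [glue_right (by linarith)]
    have : (l - l) / ww l = 0 := by simp
    rw [this, aal hl]
    simp [q0]
  · rw [glue_right (by linarith)]
    have : (l + ww l - l) / ww l = 1 := by field_simp; ring
    rw [this]; simp [q0]

include hl in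
lemma phi1_continuous : Continuous (phi1 l) := by
  have hw := ww_pos hl
  have hq := q1_continuous
  unfold phi1
  refine glue_continuous (by fun_prop) (glue_continuous (by fun_prop) (glue_continuous (by fun_prop)
    (glue_continuous (by fun_prop) (by fun_prop) ?_) ?_) ?_) ?_
  · have : (-(-l - ww l) - l) / ww l = 1 := by field_simp; ring
    rw [this]; simp [q1]
  · rw [glue_right (by linarith)]
    have : (-(-l) - l) / ww l = 0 := by simp
    rw [this]
    have h2 : aa l * -l = -(Real.pi / 2) := by rw [mul_neg, aal hl]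
    rw [h2]; simp [q1]
  · rw [glue_right (by linarith)]
    have : (l - l) / ww l = 0 := by simp
    rw [this, aal hl]
    simp [q1]
  · rw [glue_right (by linarith)]
    have : (l + ww l - l) / ww l = 1 := by field_simp; ring
    rw [this]; simp [q1]

include hl in
lemma phi_deriv (x : ℝ) : HasDerivWithinAt (phi l) (phi1 l x) (Ioi x) x := by
  have hw := ww_pos hl
  unfold phi phi1
  refine glue_deriv (fun x => (hasDerivAt_const x _).hasDerivWithinAt) (glue_deriv ?_ (glue_deriv ?_
    (glue_deriv ?_ (fun x => (hasDerivAt_const x _).hasDerivWithinAt)))) x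
  · intro x
    have h1 : HasDerivAt (fun x => (x - l) / ww l) (1 / ww l) x :=
      ((hasDerivAt_id x).sub_const l).div_const _
    refine (((q0_deriv _).comp x h1).const_mul (-(aa l * ww l))).hasDerivWithinAt.congr_deriv ?_
    field_simp
  · intro x
    have h1 : HasDerivAt (fun x => aa l * x) (aa l) x := by
      simpa using (hasDerivAt_id x).const_mul (aa l)
    refine h1.cos.hasDerivWithinAt.congr_deriv ?_
    ring
  · intro x
    have h1 : HasDerivAt (fun x => (-x - l) / ww l) (-1 / ww l) x :=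
      ((hasDerivAt_id x).neg.sub_const l).div_const _
    refine (((q0_deriv _).comp x h1).const_mul (-(aa l * ww l))).hasDerivWithinAt.congr_deriv ?_
    field_simp

include hl in
lemma phi1_deriv (x : ℝ) : HasDerivWithinAt (phi1 l) (phi2 l x) (Ioi x) x := by
  have hw := ww_pos hl
  unfold phi1 phi2
  refine glue_deriv (fun x => (hasDerivAt_const x _).hasDerivWithinAt) (glue_deriv ?_ (glue_deriv ?_
    (glue_deriv ?_ (fun x => (hasDerivAt_const x _).hasDerivWithinAt)))) x
  · intro x
    have h1 : HasDerivAt (fun x => (x - l) / ww l) (1 / ww l) x :=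
      ((hasDerivAt_id x).sub_const l).div_const _
    refine (((q1_deriv _).comp x h1).const_mul (-aa l)).hasDerivWithinAt.congr_deriv ?_
    field_simp
  · intro x
    have h1 : HasDerivAt (fun x => aa l * x) (aa l) x := by
      simpa using (hasDerivAt_id x).const_mul (aa l)
    refine (h1.sin.const_mul (-aa l)).hasDerivWithinAt.congr_deriv ?_
    ring
  · intro x
    have h1 : HasDerivAt (fun x => (-x - l) / ww l) (-1 / ww l) x :=
      ((hasDerivAt_id x).neg.sub_const l).div_const _
    refine (((q1_deriv _).comp x h1).const_mul (aa l)).hasDerivWithinAt.congr_deriv ?_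
    field_simp

lemma phi2_measurable : Measurable (phi2 l) := by
  have hq := q2_continuous
  unfold phi2
  refine glue_measurable (by fun_prop) (glue_measurable ?_ (glue_measurable ?_
    (glue_measurable ?_ (by fun_prop))))
  · exact (by fun_prop : Continuous _).measurable
  · exact (by fun_prop : Continuous _).measurable
  · exact (by fun_prop : Continuous _).measurable

/-- the outer region -/
def Out (l x : ℝ) : Prop := l + ww l ≤ x ∨ x < -l - ww l
/-- the layer -/
def Lay (l x : ℝ) : Prop := (l ≤ x ∧ x < l + ww l) ∨ (-l - ww l ≤ x ∧ x < -l)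
/-- the inner region -/
def Inn (l x : ℝ) : Prop := -l ≤ x ∧ x < l

lemma cases_region (l x : ℝ) : Out l x ∨ Lay l x ∨ Inn l x := by
  unfold Out Lay Inn
  rcases le_or_gt (l + ww l) x with h | h
  · exact Or.inl (Or.inl h)
  · rcases le_or_gt l x with h2 | h2
    · exact Or.inr (Or.inl (Or.inl ⟨h2, h⟩))
    · rcases le_or_gt (-l) x with h3 | h3
      · exact Or.inr (Or.inr ⟨h3, h2⟩)
      · rcases le_or_gt (-l - ww l) x with h4 | h4
        · exact Or.inr (Or.inl (Or.inr ⟨h4, h3⟩))
        · exact Or.inl (Or.inr h4)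

include hl in
lemma out_val {x : ℝ} (h : Out l x) : phi l x = 0 ∧ phi1 l x = 0 ∧ phi2 l x = 0 := by
  have hw := ww_pos hl
  rcases h with h | h
  · unfold phi phi1 phi2
    rw [glue_right h, glue_right h, glue_right h]
    simp
  · unfold phi phi1 phi2
    rw [glue_left (by linarith), glue_left (by linarith), glue_left (by linarith),
      glue_left (by linarith), glue_left (by linarith), glue_left (by linarith),
      glue_left (by linarith), glue_left (by linarith), glue_left (by linarith),
      glue_left (by linarith), glue_left (by linarith), glue_left (by linarith)]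
    simp

include hl in
lemma inn_val {x : ℝ} (h : Inn l x) :
    phi l x = Real.cos (aa l * x) ∧ phi2 l x = -(aa l ^ 2) * Real.cos (aa l * x) := by
  have hw := ww_pos hl
  obtain ⟨h1, h2⟩ := h
  unfold phi phi2
  rw [glue_left (by linarith), glue_left h2, glue_right h1,
    glue_left (by linarith), glue_left h2, glue_right h1]
  exact ⟨rfl, rfl⟩

lemma q0_bound {t : ℝ} (h0 : 0 ≤ t) (h1 : t ≤ 1) : 0 ≤ q0 t ∧ q0 t ≤ 1 := by
  unfold q0
  constructor
  · positivity
  · have h2 : (1 - t) ^ 2 ≤ 1 := by nlinarith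
    have h3 : 0 ≤ (1 - t) ^ 2 := sq_nonneg _
    nlinarith

lemma q2_bound {t : ℝ} (h0 : 0 ≤ t) (h1 : t ≤ 1) : |q2 t| ≤ 4 := by
  unfold q2
  rw [abs_le]
  constructor <;> linarith

include hl in
lemma lay_val {x : ℝ} (h : Lay l x) : ∃ t : ℝ, 0 ≤ t ∧ t ≤ 1 ∧ phi l x = -(aa l * ww l) * q0 t ∧
    phi2 l x = -(aa l / ww l) * q2 t := by
  have hw := ww_pos hl
  rcases h with ⟨h1, h2⟩ | ⟨h1, h2⟩
  · refine ⟨(x - l) / ww l, by apply div_nonneg <;> linarith, by rw [div_le_one hw]; linarith, ?_, ?_⟩
    · unfold phi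
      rw [glue_left h2, glue_right h1]
    · unfold phi2
      rw [glue_left h2, glue_right h1]
  · refine ⟨(-x - l) / ww l, by apply div_nonneg <;> linarith, by rw [div_le_one hw]; linarith, ?_, ?_⟩
    · unfold phi
      rw [glue_left (by linarith), glue_left (by linarith), glue_left h2, glue_right h1]
    · unfold phi2
      rw [glue_left (by linarith), glue_left (by linarith), glue_left h2, glue_right h1]

include hl hl2 in
lemma aw_le_one : aa l * ww l ≤ 1 := by
  have h : aa l * ww l = Real.pi * l ^ 2 / 100 := by unfold aa ww; field_simp; norm_num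
  rw [h]
  have := Real.pi_le_four
  have h2 : l ^ 2 ≤ 1 := by nlinarith
  have := Real.pi_pos
  nlinarith

include hl hl2 in
lemma lay_bound {x : ℝ} (h : Lay l x) : |phi l x| ≤ aa l * ww l ∧ |phi2 l x| ≤ 4 * (aa l / ww l) ∧
    |phi2 l x + aa l ^ 2 * phi l x| ≤ 5 * (aa l / ww l) := by
  have hw := ww_pos hl
  have ha := aa_pos hl
  have haw := aw_le_one hl hl2
  obtain ⟨t, ht0, ht1, h1, h2⟩ := lay_val hl h
  obtain ⟨hq0, hq01⟩ := q0_bound ht0 ht1
  have hq2 := q2_bound ht0 ht1
  have b1 : |phi l x| ≤ aa l * ww l := by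
    rw [h1, abs_mul, abs_neg, abs_of_nonneg (by positivity : 0 ≤ aa l * ww l), abs_of_nonneg hq0]
    exact mul_le_of_le_one_right (by positivity) hq01
  have b2 : |phi2 l x| ≤ 4 * (aa l / ww l) := by
    rw [h2, abs_mul, abs_neg, abs_of_nonneg (by positivity : 0 ≤ aa l / ww l), mul_comm]
    exact mul_le_mul_of_nonneg_right hq2 (by positivity)
  refine ⟨b1, b2, ?_⟩
  refine (abs_add_le _ _).trans ?_
  have b3 : |aa l ^ 2 * phi l x| ≤ aa l / ww l := by
    rw [abs_mul, abs_of_nonneg (by positivity : 0 ≤ aa l ^ 2)]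
    refine (mul_le_mul_of_nonneg_left b1 (by positivity)).trans ?_
    rw [le_div_iff₀ hw]
    have : aa l ^ 2 * (aa l * ww l) * ww l = aa l * (aa l * ww l) * (aa l * ww l) := by ring
    rw [this]
    have h5 : (aa l * ww l) * (aa l * ww l) ≤ 1 := mul_le_one₀ haw (by positivity) haw
    nlinarith
  linarith

include hl hl2 in
lemma lay_beta {x : ℝ} (h : Lay l x) : beta l ≤ beta x ∧ beta x ≤ 3 * beta l := by
  have hw := ww_pos hl
  have hwl := ww_le hl hl2
  have hπ := Real.pi_gt_three
  have key : ∀ y, l ≤ y → y ≤ l + ww l → beta l ≤ beta y ∧ beta y ≤ 3 * beta l := by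
    intro y h1 h2
    constructor
    · exact beta_mono ⟨hl.le, by linarith⟩ ⟨by linarith, by linarith⟩ h1
    · exact beta_layer hl (by linarith) h1 (by unfold ww at h2; exact h2)
  rcases h with ⟨h1, h2⟩ | ⟨h1, h2⟩
  · exact key x h1 h2.le
  · rw [← beta_neg x]
    exact key (-x) (by linarith) (by linarith)

include hl in
lemma inn_bound {x : ℝ} (h : Inn l x) : |phi l x| ≤ aa l * (l - |x|) ∧ |phi l x| ≤ 1 := by
  have ha := aa_pos hl
  rw [(inn_val hl h).1]
  refine ⟨?_, Real.abs_cos_le_one _⟩
  have hx : |x| ≤ l := abs_le.2 ⟨h.1, h.2.le⟩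
  have h1 : Real.cos (aa l * x) = Real.sin (aa l * (l - |x|)) := by
    have h2 : Real.cos (aa l * x) = Real.cos (aa l * |x|) := by
      rcases abs_cases x with ⟨h3, _⟩ | ⟨h3, _⟩
      · rw [h3]
      · rw [h3, mul_neg, Real.cos_neg]
    rw [h2, mul_sub, aal hl, Real.sin_pi_div_two_sub]
  rw [h1]
  have h3 : 0 ≤ aa l * (l - |x|) := mul_nonneg ha.le (by linarith)
  rw [abs_of_nonneg]
  · exact Real.sin_le h3
  · apply Real.sin_nonneg_of_nonneg_of_le_pi h3
    have : aa l * (l - |x|) ≤ aa l * l := mul_le_mul_of_nonneg_left (by linarith [abs_nonneg x]) ha.le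
    rw [aal hl] at this
    linarith [Real.pi_pos]

/-- the defect `φ'' + a² φ` -/
noncomputable def hh (l x : ℝ) : ℝ := phi2 l x + aa l ^ 2 * phi l x

include hl in
lemma hh_zero {x : ℝ} (h : ¬ Lay l x) : hh l x = 0 := by
  unfold hh
  rcases cases_region l x with h1 | h1 | h1
  · obtain ⟨h2, _, h3⟩ := out_val hl h1
    rw [h2, h3]; ring
  · exact absurd h1 h
  · obtain ⟨h2, h3⟩ := inn_val hl h1
    rw [h2, h3]; ring

include hl hl2 in
lemma hh_bound (x : ℝ) : |hh l x| / Real.sqrt (beta x) ≤ 5 * (aa l / ww l) / Real.sqrt (beta l) := by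
  have hw := ww_pos hl
  have ha := aa_pos hl
  have hb : 0 < beta l := beta_pos hl (by linarith [Real.pi_gt_three])
  by_cases h : Lay l x
  · obtain ⟨_, _, h3⟩ := lay_bound hl hl2 h
    have h4 := (lay_beta hl hl2 h).1
    have h5 : Real.sqrt (beta l) ≤ Real.sqrt (beta x) := Real.sqrt_le_sqrt h4
    have h6 : 0 < Real.sqrt (beta l) := Real.sqrt_pos.2 hb
    exact div_le_div₀ (by positivity) h3 h6 h5
  · rw [hh_zero hl h]
    simp
    positivity

/-- the inner weight estimate -/
lemma inner_int {l : ℝ} (hl : 0 < l) (hl2 : l ≤ 1 / 2) :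
    ∫ x in (0 : ℝ)..l, beta x * (l - x) ^ 2 ≤ l ^ 9 * beta l / 4 := by
  have hπ : (3 : ℝ) < Real.pi := Real.pi_gt_three
  have hπ4 : Real.pi ≤ 4 := Real.pi_le_four
  set a := l ^ 3 / 2 with ha
  have ha0 : 0 < a := by positivity
  set Z : ℝ → ℝ := fun x => beta x * (a * (l - x) ^ 2 + 2 * a ^ 2 * (l - x) + 2 * a ^ 3) with hZ
  set Z' : ℝ → ℝ := fun x => (((1 - Real.cos x)⁻¹) ^ 2 * beta x * Real.sin x)
      * (a * (l - x) ^ 2 + 2 * a ^ 2 * (l - x) + 2 * a ^ 3)
      + beta x * (-(2 * a * (l - x)) - 2 * a ^ 2) with hZ'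
  have hd : ∀ x, HasDerivAt Z (Z' x) x := by
    intro x
    have h0 : HasDerivAt (fun x => l - x) (-1) x := by simpa using (hasDerivAt_id x).const_sub l
    have h1 : HasDerivAt (fun x => a * (l - x) ^ 2 + 2 * a ^ 2 * (l - x) + 2 * a ^ 3)
        (-(2 * a * (l - x)) - 2 * a ^ 2) x := by
      refine ((((h0.pow 2).const_mul a).add (h0.const_mul (2 * a ^ 2))).add_const (2 * a ^ 3)).congr_deriv ?_
      norm_num
      ring
    exact (beta_hasDerivAt x).mul h1
  have key : ∀ x ∈ Icc 0 l, beta x * (l - x) ^ 2 ≤ Z' x := by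
    intro x hx
    have hb := beta_nonneg x
    have hlx : 0 ≤ l - x := by linarith [hx.2]
    rcases hx.1.eq_or_lt with h0 | h0
    · rw [← h0]
      have hb0 : beta 0 = 0 := by simp [beta, expNegInvGlue]
      simp only [hZ', hb0]
      simp
    · have hc := one_sub_cos_pos h0 (by linarith [hx.2])
      have hcle := one_sub_cos_le x
      have hs : x / 2 ≤ Real.sin x := by
        have := Real.mul_le_sin h0.le (by linarith [hx.2])
        have h3 : (1 : ℝ) / 2 ≤ 2 / Real.pi := by
          rw [div_le_div_iff₀ (by norm_num) (by positivity)]; linarith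
        nlinarith
      have h1 : 2 / x ^ 2 ≤ (1 - Real.cos x)⁻¹ := by
        rw [div_le_iff₀ (by positivity), ← div_eq_inv_mul, le_div_iff₀ hc]
        linarith
      have h2 : 4 / x ^ 4 ≤ ((1 - Real.cos x)⁻¹) ^ 2 := by
        have : (2 / x ^ 2) ^ 2 ≤ ((1 - Real.cos x)⁻¹) ^ 2 := pow_le_pow_left₀ (by positivity) h1 2
        calc 4 / x ^ 4 = (2 / x ^ 2) ^ 2 := by field_simp; norm_num
          _ ≤ _ := this
      have h3 : 4 / x ^ 4 * (x / 2) ≤ ((1 - Real.cos x)⁻¹) ^ 2 * Real.sin x :=
        mul_le_mul h2 hs (by positivity) (by positivity)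
      have h4 : a⁻¹ ≤ ((1 - Real.cos x)⁻¹) ^ 2 * Real.sin x := by
        refine le_trans ?_ h3
        have e1 : 4 / x ^ 4 * (x / 2) = 2 / x ^ 3 := by field_simp; norm_num
        have e2 : a⁻¹ = 2 / l ^ 3 := by rw [ha]; field_simp
        rw [e1, e2]
        apply div_le_div_of_nonneg_left (by norm_num) (by positivity)
        exact pow_le_pow_left₀ h0.le hx.2 3
      have h5 : 1 ≤ a * (((1 - Real.cos x)⁻¹) ^ 2 * Real.sin x) := by
        have := mul_le_mul_of_nonneg_left h4 ha0.le
        rwa [mul_inv_cancel₀ ha0.ne'] at this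
      have h6 : 0 ≤ beta x * ((l - x) ^ 2 + 2 * a * (l - x) + 2 * a ^ 2) := by positivity
      have h7 := mul_le_mul_of_nonneg_left h5 h6
      have e3 : Z' x = beta x * ((l - x) ^ 2 + 2 * a * (l - x) + 2 * a ^ 2)
          * (a * (((1 - Real.cos x)⁻¹) ^ 2 * Real.sin x))
          + beta x * (-(2 * a * (l - x)) - 2 * a ^ 2) := by
        simp only [hZ']; ring
      rw [e3]
      linarith
  have hcont : Continuous Z' := by
    have h1 : Z' = deriv Z := by
      funext x; exact (hd x).deriv.symm
    rw [h1]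
    have h2 : ContDiff ℝ 1 Z := by
      have : ContDiff ℝ 1 beta := beta_contDiff.of_le (by exact_mod_cast le_top)
      simp only [hZ]
      fun_prop
    exact h2.continuous_deriv le_rfl
  have hint := intervalIntegral.integral_eq_sub_of_hasDerivAt (a := 0) (b := l)
    (fun x _ => hd x) (hcont.intervalIntegrable _ _)
  have hmono := intervalIntegral.integral_mono_on (μ := volume) hl.le
    ((beta_continuous.mul (by fun_prop : Continuous fun x => (l - x) ^ 2)).intervalIntegrable 0 l)
    (hcont.intervalIntegrable 0 l) key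
  rw [hint] at hmono
  have hb0 : beta 0 = 0 := by simp [beta, expNegInvGlue]
  have hZ0 : Z 0 = 0 := by simp only [hZ, hb0]; ring
  have hZl : Z l = l ^ 9 * beta l / 4 := by simp only [hZ, ha]; ring
  rw [hZ0, hZl, sub_zero] at hmono
  exact hmono

end

end Pool.Agent.Helper34.DW
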