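import Pool.Agent.Helper34.DW15

/-! # The quasimodes. -/

namespace Pool.Agent.Helper34.DW

open MeasureTheory Set Filter Topology AddCircle Pool.Agent.Helper34

open scoped ComplexConjugate InnerProductSpace ENNReal

section

variable {l : ℝ} (hl : 0 < l) (hl2 : l ≤ 1 / 2)

/-- the quotient of the residual by the square root of the damping -/
noncomputable def GG2 (l lam : ℝ) (x : ℝ) : ℂ :=
  -((hh l x / Real.sqrt (beta x) : ℝ) : ℂ) - Complex.I * ((lam * Real.sqrt (beta x) * phi l x : ℝ) : ℂ)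

lemma GG2_norm_sq (l lam x : ℝ) :
    ‖GG2 l lam x‖ ^ 2 = hh l x ^ 2 / beta x + lam ^ 2 * (beta x * phi l x ^ 2) := by
  unfold GG2
  rw [← Complex.normSq_eq_norm_sq, Complex.normSq_apply]
  simp only [Complex.sub_re, Complex.neg_re, Complex.ofReal_re, Complex.mul_re, Complex.I_re,
    Complex.ofReal_im, Complex.I_im, Complex.sub_im, Complex.neg_im, Complex.mul_im]
  have h := Real.sq_sqrt (beta_nonneg x)
  have e1 : (hh l x / Real.sqrt (beta x)) ^ 2 = hh l x ^ 2 / beta x := by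
    rw [div_pow, h]
  have e2 : (lam * Real.sqrt (beta x) * phi l x) ^ 2 = lam ^ 2 * (beta x * phi l x ^ 2) := by
    rw [mul_pow, mul_pow, h]; ring
  rw [← e1, ← e2]
  ring

include hl in
lemma phi_measurable : Measurable (phi l) := (phi_continuous hl).measurable

include hl hl2 in
lemma phi_bound (x : ℝ) : |phi l x| ≤ 1 := by
  rcases cases_region l x with h | h | h
  · rw [(out_val hl h).1]; simp
  · exact (lay_bound hl hl2 h).1.trans (aw_le_one hl hl2)
  · exact (inn_bound hl h).2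

include hl hl2 in
lemma phi2_bound (x : ℝ) : |phi2 l x| ≤ 4 * (aa l / ww l) + aa l ^ 2 := by
  have hw := ww_pos hl
  have ha := aa_pos hl
  rcases cases_region l x with h | h | h
  · rw [(out_val hl h).2.2]; simp; positivity
  · have := (lay_bound hl hl2 h).2.1
    have h2 : 0 ≤ aa l ^ 2 := by positivity
    linarith
  · rw [(inn_val hl h).2, abs_mul, abs_neg, abs_of_nonneg (by positivity : 0 ≤ aa l ^ 2)]
    have h1 : aa l ^ 2 * |Real.cos (aa l * x)| ≤ aa l ^ 2 :=
      mul_le_of_le_one_right (by positivity) (Real.abs_cos_le_one _)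
    have h2 : 0 ≤ 4 * (aa l / ww l) := by positivity
    linarith

include hl hl2 in
lemma adm_phi : Adm (fun x => (phi l x : ℂ)) := by
  refine ⟨Complex.measurable_ofReal.comp (phi_measurable hl), 1, fun x => ?_⟩
  rw [Complex.norm_real, Real.norm_eq_abs]
  exact phi_bound hl hl2 x

include hl hl2 in
lemma adm_phi2 : Adm (fun x => (phi2 l x : ℂ)) := by
  refine ⟨Complex.measurable_ofReal.comp phi2_measurable, 4 * (aa l / ww l) + aa l ^ 2, fun x => ?_⟩
  rw [Complex.norm_real, Real.norm_eq_abs]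
  exact phi2_bound hl hl2 x

include hl hl2 in
lemma adm_GG2 (lam : ℝ) : Adm (GG2 l lam) := by
  have hm : Measurable (hh l) := phi2_measurable.add ((phi_measurable hl).const_mul _)
  have hb : Measurable beta := beta_continuous.measurable
  have hp := phi_measurable hl
  refine ⟨?_, 5 * (aa l / ww l) / Real.sqrt (beta l) + |lam|, fun x => ?_⟩
  · unfold GG2
    fun_prop
  · unfold GG2
    refine (norm_sub_le _ _).trans ?_
    rw [norm_neg, Complex.norm_real, norm_mul, Complex.norm_I, one_mul, Complex.norm_real,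
      Real.norm_eq_abs, Real.norm_eq_abs, abs_div, abs_of_nonneg (Real.sqrt_nonneg (beta x)),
      abs_mul, abs_mul, abs_of_nonneg (Real.sqrt_nonneg (beta x))]
    have h1 := hh_bound hl hl2 x
    have h2 : Real.sqrt (beta x) ≤ 1 := Real.sqrt_le_one.2 (beta_le_one x)
    have h3 := phi_bound hl hl2 x
    have h4 : |lam| * Real.sqrt (beta x) * |phi l x| ≤ |lam| := by
      have h5 : |lam| * Real.sqrt (beta x) ≤ |lam| := mul_le_of_le_one_right (abs_nonneg _) h2
      have h6 : |lam| * Real.sqrt (beta x) * |phi l x| ≤ |lam| * Real.sqrt (beta x) :=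
        mul_le_of_le_one_right (by positivity) h3
      linarith
    linarith

/-- the quasimode -/
noncomputable def Vq : L1 := elt (fun x => (phi l x : ℂ)) (adm_phi hl hl2)
/-- its second derivative -/
noncomputable def V2q : L1 := elt (fun x => (phi2 l x : ℂ)) (adm_phi2 hl hl2)
noncomputable def Gq (lam : ℝ) : L1 := elt (GG2 l lam) (adm_GG2 hl hl2 lam)

include hl hl2 in
lemma out_pi : Out l Real.pi ∧ Out l (-Real.pi) := by
  have h1 := ww_le hl hl2
  have h2 := ww_pos hl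
  have h3 := Real.pi_gt_three
  constructor
  · left; linarith
  · right; linarith

lemma hasDerivWithinAt_ofReal {f : ℝ → ℝ} {f' : ℝ} {s : Set ℝ} {x : ℝ} (h : HasDerivWithinAt f f' s x) :
    HasDerivWithinAt (fun x => (f x : ℂ)) (f' : ℂ) s x :=
  Complex.ofRealCLM.hasFDerivAt.comp_hasDerivWithinAt x h

include hl hl2 in
lemma phi2_intervalIntegrable (a b : ℝ) : IntervalIntegrable (fun x => (phi2 l x : ℂ)) volume a b := by
  rw [intervalIntegrable_iff]
  have h1 : volume (uIoc a b) ≠ ∞ := by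
    rw [uIoc]; exact measure_Ioc_lt_top.ne
  refine Measure.integrableOn_of_bounded (M := 4 * (aa l / ww l) + aa l ^ 2) h1
    (Complex.measurable_ofReal.comp phi2_measurable).aestronglyMeasurable
    (Eventually.of_forall fun x => ?_)
  rw [Complex.norm_real, Real.norm_eq_abs]
  exact phi2_bound hl hl2 x

include hl hl2 in
lemma fc_phi2 (m : ℤ) : fc (fun x => (phi2 l x : ℂ)) m = -((m : ℂ) ^ 2) * fc (fun x => (phi l x : ℂ)) m := by
  obtain ⟨o1, o2⟩ := out_pi hl hl2
  obtain ⟨p1, p2, _⟩ := out_val hl o1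
  obtain ⟨r1, r2, _⟩ := out_val hl o2
  have h1 := fc_deriv (ψ := fun x => (phi l x : ℂ)) (ψ' := fun x => (phi1 l x : ℂ))
    (Complex.continuous_ofReal.comp (phi_continuous hl))
    (fun x => hasDerivWithinAt_ofReal (phi_deriv hl x))
    ((Complex.continuous_ofReal.comp (phi1_continuous hl)).intervalIntegrable _ _)
    (by simp only [r1]; simp) (by simp only [p1]; simp) m
  have h2 := fc_deriv (ψ := fun x => (phi1 l x : ℂ)) (ψ' := fun x => (phi2 l x : ℂ))
    (Complex.continuous_ofReal.comp (phi1_continuous hl))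
    (fun x => hasDerivWithinAt_ofReal (phi1_deriv hl x))
    (phi2_intervalIntegrable hl hl2 _ _)
    (by simp only [r2]; simp) (by simp only [p2]; simp) m
  rw [h2, h1]
  have hI : Complex.I ^ 2 = -1 := Complex.I_sq
  linear_combination ((m : ℂ) ^ 2 * fc (fun x => (phi l x : ℂ)) m) * hI

lemma V2q_coord (m : ℤ) : ⟪e1 m, V2q hl hl2⟫_ℂ = -((m : ℂ) ^ 2) * ⟪e1 m, Vq hl hl2⟫_ℂ := by
  have h1 := elt_coord (adm_phi2 hl hl2) m
  have h2 := elt_coord (adm_phi hl hl2) m
  rw [fc_phi2 hl hl2, ← h2] at h1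
  have hπ : (2 * Real.pi : ℝ) ≠ 0 := by have := Real.pi_pos; positivity
  have h3 : (2 * Real.pi : ℝ) • ⟪e1 m, V2q hl hl2⟫_ℂ
      = (2 * Real.pi : ℝ) • (-((m : ℂ) ^ 2) * ⟪e1 m, Vq hl hl2⟫_ℂ) := by
    rw [V2q, Vq, h1, mul_smul_comm]
  exact smul_right_injective ℂ hπ h3

/-- the residual -/
noncomputable def gq (lam : ℝ) : L1 :=
  -V2q hl hl2 - ((aa l ^ 2 : ℝ) : ℂ) • Vq hl hl2 - (Complex.I * lam) • M1 (Vq hl hl2)

lemma gq_coord (k : ℤ) {lam : ℝ} (hlam : lam ^ 2 = (k : ℝ) ^ 2 + aa l ^ 2) (m : ℤ) :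
    ((wk k m : ℂ) - (lam : ℂ) ^ 2) * ⟪e1 m, Vq hl hl2⟫_ℂ
      - Complex.I * lam * ⟪e1 m, M1 (Vq hl hl2)⟫_ℂ = ⟪e1 m, gq hl hl2 lam⟫_ℂ := by
  unfold gq
  rw [inner_sub_right, inner_sub_right, inner_neg_right, inner_smul_right, inner_smul_right,
    V2q_coord]
  have h : (lam : ℂ) ^ 2 = (k : ℂ) ^ 2 + ((aa l ^ 2 : ℝ) : ℂ) := by
    rw [← Complex.ofReal_pow, hlam]; push_cast; ring
  rw [h]
  unfold wk
  push_cast
  ring

lemma gq_ae (lam : ℝ) : (gq hl hl2 lam : UnitAddCircle → ℂ) =ᵐ[haarAddCircle]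
    fun θ => (Real.sqrt (betaT θ) : ℂ) * (Gq hl hl2 lam : UnitAddCircle → ℂ) θ := by
  have hb0 : 0 < beta l := beta_pos hl (by linarith [Real.pi_gt_three])
  filter_upwards [Lp.coeFn_sub (-V2q hl hl2 - ((aa l ^ 2 : ℝ) : ℂ) • Vq hl hl2)
      ((Complex.I * lam) • M1 (Vq hl hl2)),
    Lp.coeFn_sub (-V2q hl hl2) (((aa l ^ 2 : ℝ) : ℂ) • Vq hl hl2), Lp.coeFn_neg (V2q hl hl2),
    Lp.coeFn_smul ((aa l ^ 2 : ℝ) : ℂ) (Vq hl hl2), Lp.coeFn_smul (Complex.I * (lam : ℂ)) (M1 (Vq hl hl2)),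
    coeFn_mulOp (hb := betaT_continuous.measurable) (hC := betaT_abs) (Vq hl hl2),
    elt_ae (adm_phi hl hl2), elt_ae (adm_phi2 hl hl2), elt_ae (adm_GG2 hl hl2 lam)]
    with θ h1 h2 h3 h4 h5 h6 h7 h8 h9
  unfold gq
  rw [h1, Pi.sub_apply, h2, Pi.sub_apply, h3, Pi.neg_apply, h4, Pi.smul_apply, h5, Pi.smul_apply, M1, h6]
  rw [Vq, V2q, Gq, h7, h8, h9]
  obtain ⟨x, hx, rfl⟩ := circ_repr θ
  rw [circF_coe _ hx, circF_coe _ hx, circF_coe _ hx, betaT_coe]
  simp only [smul_eq_mul]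
  unfold GG2
  have hs : Real.sqrt (beta x) * Real.sqrt (beta x) = beta x := Real.mul_self_sqrt (beta_nonneg x)
  have hhs : Real.sqrt (beta x) * (hh l x / Real.sqrt (beta x)) = hh l x := by
    by_cases h : Lay l x
    · have hb := (lay_beta hl hl2 h).1
      have : 0 < Real.sqrt (beta x) := Real.sqrt_pos.2 (by linarith)
      field_simp
    · rw [hh_zero hl h]; simp
  have e1 : (Real.sqrt (beta x) : ℂ) * (-((hh l x / Real.sqrt (beta x) : ℝ) : ℂ)
      - Complex.I * ((lam * Real.sqrt (beta x) * phi l x : ℝ) : ℂ))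
      = -((Real.sqrt (beta x) * (hh l x / Real.sqrt (beta x)) : ℝ) : ℂ)
        - Complex.I * ((lam * (Real.sqrt (beta x) * Real.sqrt (beta x)) * phi l x : ℝ) : ℂ) := by
    push_cast; ring
  rw [e1, hhs, hs]
  unfold hh
  push_cast
  ring

/-- Cauchy–Schwarz with the weight -/
lemma gq_CS (lam : ℝ) (X : L1) :
    ‖⟪gq hl hl2 lam, X⟫_ℂ‖ ^ 2 ≤ ‖Gq hl hl2 lam‖ ^ 2 * (⟪X, M1 X⟫_ℂ).re := by
  -- the function `√β X`
  have hsm : Measurable (fun θ => Real.sqrt (betaT θ)) :=
    (Real.continuous_sqrt.comp betaT_continuous).measurable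
  have hsb : ∀ θ, |Real.sqrt (betaT θ)| ≤ 1 := by
    intro θ
    rw [abs_of_nonneg (Real.sqrt_nonneg _)]
    exact Real.sqrt_le_one.2 (betaT_le_one θ)
  set Xs : L1 := mulOp haarAddCircle _ hsm 1 hsb X with hXs
  have h1 : ⟪gq hl hl2 lam, X⟫_ℂ = ⟪Gq hl hl2 lam, Xs⟫_ℂ := by
    rw [L2.inner_def, L2.inner_def]
    apply integral_congr_ae
    filter_upwards [gq_ae hl hl2 lam, coeFn_mulOp (hb := hsm) (hC := hsb) X] with θ h2 h3
    rw [h2, hXs, h3, RCLike.inner_apply, RCLike.inner_apply, map_mul, Complex.conj_ofReal]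
    ring
  have h4 : ‖Xs‖ ^ 2 = (⟪X, M1 X⟫_ℂ).re := by
    rw [M1, re_inner_mulOp, Lp_norm_sq]
    apply integral_congr_ae
    filter_upwards [coeFn_mulOp (hb := hsm) (hC := hsb) X] with θ h3
    rw [hXs, h3, norm_mul, mul_pow, Complex.norm_real, Real.norm_eq_abs, sq_abs,
      Real.sq_sqrt (betaT_nonneg θ)]
  rw [h1, ← h4, ← mul_pow]
  exact pow_le_pow_left₀ (norm_nonneg _) (norm_inner_le_norm _ _) 2

include hl hl2 in
lemma Vq_norm : l ≤ 2 * Real.pi * ‖Vq hl hl2‖ ^ 2 := by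
  have hπ := Real.pi_gt_three
  have ha := aa_pos hl
  unfold Vq
  rw [elt_norm]
  have h0 : ∀ x, ‖(phi l x : ℂ)‖ ^ 2 = phi l x ^ 2 := by
    intro x
    rw [Complex.norm_real, Real.norm_eq_abs, sq_abs]
  simp only [h0]
  have hc : Continuous (fun x => phi l x ^ 2) := (phi_continuous hl).pow 2
  have hi : ∀ a b, IntervalIntegrable (fun x => phi l x ^ 2) volume a b := fun a b =>
    hc.intervalIntegrable a b
  have h1 : ∫ x in (-l)..l, phi l x ^ 2 ≤ ∫ x in (-Real.pi)..Real.pi, phi l x ^ 2 := by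
    apply intervalIntegral.integral_mono_interval (by linarith) (by linarith) (by linarith)
    · exact Eventually.of_forall fun x => sq_nonneg _
    · exact hi _ _
  refine le_trans ?_ h1
  have h2 : ∫ x in (-l)..l, phi l x ^ 2 = ∫ x in (-l)..l, Real.cos (aa l * x) ^ 2 := by
    apply le_antisymm
    · apply intervalIntegral.integral_mono_on_of_le_Ioo (by linarith) (hi _ _)
        ((by fun_prop : Continuous fun x => Real.cos (aa l * x) ^ 2).intervalIntegrable _ _)
      intro x hx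
      rw [(inn_val hl ⟨hx.1.le, hx.2⟩).1]
    · apply intervalIntegral.integral_mono_on_of_le_Ioo (by linarith)
        ((by fun_prop : Continuous fun x => Real.cos (aa l * x) ^ 2).intervalIntegrable _ _) (hi _ _)
      intro x hx
      rw [(inn_val hl ⟨hx.1.le, hx.2⟩).1]
  rw [h2]
  have h3 : ∫ x in (-l)..l, Real.cos (aa l * x) ^ 2 = l := by
    have hd : ∀ x, HasDerivAt (fun x => x / 2 + Real.sin (aa l * x) * Real.cos (aa l * x) / (2 * aa l))
        (Real.cos (aa l * x) ^ 2) x := by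
      intro x
      have g0 : HasDerivAt (fun x => aa l * x) (aa l) x := by
        simpa using (hasDerivAt_id x).const_mul (aa l)
      have g1 := ((hasDerivAt_id x).div_const 2).add ((g0.sin.mul g0.cos).div_const (2 * aa l))
      refine g1.congr_deriv ?_
      have g2 := Real.sin_sq_add_cos_sq (aa l * x)
      field_simp
      linear_combination (-1 : ℝ) * g2
    rw [intervalIntegral.integral_eq_sub_of_hasDerivAt (fun x _ => hd x)
      ((by fun_prop : Continuous fun x => Real.cos (aa l * x) ^ 2).intervalIntegrable _ _)]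
    have h4 : aa l * -l = -(Real.pi / 2) := by rw [mul_neg, aal hl]
    rw [h4, aal hl]
    simp
    ring
  rw [h3]

end

end Pool.Agent.Helper34.DW
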