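import Pool.Agent.Helper34.DW16

/-! # The lower bound: no rate better than `1/t`. -/

namespace Pool.Agent.Helper34.DW

open MeasureTheory Set Filter Topology AddCircle Pool.Agent.Helper34

open scoped ComplexConjugate InnerProductSpace ENNReal

section

variable {l : ℝ} (hl : 0 < l) (hl2 : l ≤ 1 / 2)

include hl hl2 in
lemma GG2_int (lam a b : ℝ) : IntervalIntegrable (fun x => ‖GG2 l lam x‖ ^ 2) volume a b := by
  obtain ⟨hm, C, hC⟩ := adm_GG2 hl hl2 lam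
  rw [intervalIntegrable_iff]
  have h1 : volume (uIoc a b) ≠ ∞ := by
    rw [uIoc]; exact measure_Ioc_lt_top.ne
  refine Measure.integrableOn_of_bounded (M := C ^ 2) h1
    (hm.norm.pow_const 2).aestronglyMeasurable
    (Eventually.of_forall fun x => ?_)
  rw [Real.norm_eq_abs, abs_of_nonneg (sq_nonneg _)]
  exact pow_le_pow_left₀ (norm_nonneg _) (hC x) 2

include hl in
lemma GG2_out (lam : ℝ) {x : ℝ} (h : Out l x) : ‖GG2 l lam x‖ ^ 2 ≤ 0 := by
  rw [GG2_norm_sq, hh, (out_val hl h).1, (out_val hl h).2.2]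
  simp

include hl hl2 in
lemma GG2_lay (lam : ℝ) {x : ℝ} (h : Lay l x) : ‖GG2 l lam x‖ ^ 2 ≤
    (5 * (aa l / ww l)) ^ 2 / beta l + lam ^ 2 * (3 * beta l * (aa l * ww l) ^ 2) := by
  have hb : 0 < beta l := beta_pos hl (by linarith [Real.pi_gt_three])
  obtain ⟨h1, _, h3⟩ := lay_bound hl hl2 h
  obtain ⟨h4, h5⟩ := lay_beta hl hl2 h
  rw [GG2_norm_sq]
  have h6 : hh l x ^ 2 ≤ (5 * (aa l / ww l)) ^ 2 := by
    rw [← sq_abs (hh l x)]
    exact pow_le_pow_left₀ (abs_nonneg _) h3 2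
  have h7 : phi l x ^ 2 ≤ (aa l * ww l) ^ 2 := by
    rw [← sq_abs (phi l x)]
    exact pow_le_pow_left₀ (abs_nonneg _) h1 2
  have h8 : hh l x ^ 2 / beta x ≤ (5 * (aa l / ww l)) ^ 2 / beta l :=
    div_le_div₀ (sq_nonneg _) h6 hb h4
  have h9 : beta x * phi l x ^ 2 ≤ 3 * beta l * (aa l * ww l) ^ 2 :=
    mul_le_mul h5 h7 (sq_nonneg _) (by positivity)
  have h10 := mul_le_mul_of_nonneg_left h9 (sq_nonneg lam)
  linarith

include hl in
lemma GG2_inn (lam : ℝ) {x : ℝ} (h : Inn l x) : ‖GG2 l lam x‖ ^ 2 ≤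
    lam ^ 2 * aa l ^ 2 * (beta x * (l - |x|) ^ 2) := by
  rw [GG2_norm_sq]
  have h0 : hh l x = 0 := by
    unfold hh
    obtain ⟨h2, h3⟩ := inn_val hl h
    rw [h2, h3]; ring
  rw [h0]
  have h7 : phi l x ^ 2 ≤ (aa l * (l - |x|)) ^ 2 := by
    rw [← sq_abs (phi l x)]
    exact pow_le_pow_left₀ (abs_nonneg _) (inn_bound hl h).1 2
  have h9 := mul_le_mul_of_nonneg_left h7 (beta_nonneg x)
  have h10 := mul_le_mul_of_nonneg_left h9 (sq_nonneg lam)
  have e : lam ^ 2 * (beta x * (aa l * (l - |x|)) ^ 2) = lam ^ 2 * aa l ^ 2 * (beta x * (l - |x|) ^ 2) := by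
    ring
  rw [e] at h10
  simpa using h10

lemma Gq_norm_le (lam : ℝ) : 2 * Real.pi * ‖Gq hl hl2 lam‖ ^ 2 ≤
    2 * (ww l * ((5 * (aa l / ww l)) ^ 2 / beta l + lam ^ 2 * (3 * beta l * (aa l * ww l) ^ 2)))
      + 2 * (lam ^ 2 * aa l ^ 2 * (l ^ 9 * beta l / 4)) := by
  have hπ := Real.pi_gt_three
  have hw := ww_pos hl
  have hwl := ww_le hl hl2
  unfold Gq
  rw [elt_norm]
  have hi := GG2_int hl hl2 lam
  set J := fun x => ‖GG2 l lam x‖ ^ 2 with hJ
  set K := (5 * (aa l / ww l)) ^ 2 / beta l + lam ^ 2 * (3 * beta l * (aa l * ww l) ^ 2) with hK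
  have split : ∫ x in (-Real.pi)..Real.pi, J x = (∫ x in (-Real.pi)..(-l - ww l), J x)
      + (∫ x in (-l - ww l)..(-l), J x) + (∫ x in (-l)..0, J x) + (∫ x in (0:ℝ)..l, J x)
      + (∫ x in l..(l + ww l), J x) + ∫ x in (l + ww l)..Real.pi, J x := by
    rw [intervalIntegral.integral_add_adjacent_intervals (hi _ _) (hi _ _),
      intervalIntegral.integral_add_adjacent_intervals (hi _ _) (hi _ _),
      intervalIntegral.integral_add_adjacent_intervals (hi _ _) (hi _ _),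
      intervalIntegral.integral_add_adjacent_intervals (hi _ _) (hi _ _),
      intervalIntegral.integral_add_adjacent_intervals (hi _ _) (hi _ _)]
  rw [split]
  have p1 : ∫ x in (-Real.pi)..(-l - ww l), J x ≤ 0 := by
    have := intervalIntegral.integral_mono_on_of_le_Ioo (μ := volume) (a := -Real.pi) (b := -l - ww l)
      (by linarith) (hi _ _) (intervalIntegrable_const (c := (0:ℝ)))
      (fun x hx => GG2_out hl lam (Or.inr hx.2))
    simpa using this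
  have p6 : ∫ x in (l + ww l)..Real.pi, J x ≤ 0 := by
    have := intervalIntegral.integral_mono_on_of_le_Ioo (μ := volume) (a := l + ww l) (b := Real.pi)
      (by linarith) (hi _ _) (intervalIntegrable_const (c := (0:ℝ)))
      (fun x hx => GG2_out hl lam (Or.inl hx.1.le))
    simpa using this
  have p2 : ∫ x in (-l - ww l)..(-l), J x ≤ ww l * K := by
    have := intervalIntegral.integral_mono_on_of_le_Ioo (μ := volume) (a := -l - ww l) (b := -l)
      (by linarith) (hi _ _) (intervalIntegrable_const (c := K))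
      (fun x hx => GG2_lay hl hl2 lam (Or.inr ⟨hx.1.le, hx.2⟩))
    simpa using this
  have p5 : ∫ x in l..(l + ww l), J x ≤ ww l * K := by
    have := intervalIntegral.integral_mono_on_of_le_Ioo (μ := volume) (a := l) (b := l + ww l)
      (by linarith) (hi _ _) (intervalIntegrable_const (c := K))
      (fun x hx => GG2_lay hl hl2 lam (Or.inl ⟨hx.1.le, hx.2⟩))
    simpa using this
  have hab : 0 ≤ lam ^ 2 * aa l ^ 2 := by positivity
  have hcb := beta_continuous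
  have p4 : ∫ x in (0:ℝ)..l, J x ≤ lam ^ 2 * aa l ^ 2 * (l ^ 9 * beta l / 4) := by
    have h1 := intervalIntegral.integral_mono_on_of_le_Ioo (μ := volume) (a := 0) (b := l)
      hl.le (hi _ _) (g := fun x => lam ^ 2 * aa l ^ 2 * (beta x * (l - x) ^ 2))
      ((by fun_prop : Continuous fun x => lam ^ 2 * aa l ^ 2 * (beta x * (l - x) ^ 2)).intervalIntegrable _ _)
      (fun x hx => by
        have := GG2_inn hl lam (x := x) ⟨by linarith [hx.1], hx.2⟩
        rwa [abs_of_pos hx.1] at this)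
    rw [intervalIntegral.integral_const_mul] at h1
    exact h1.trans (mul_le_mul_of_nonneg_left (inner_int hl hl2) hab)
  have p3 : ∫ x in (-l)..0, J x ≤ lam ^ 2 * aa l ^ 2 * (l ^ 9 * beta l / 4) := by
    have h1 := intervalIntegral.integral_mono_on_of_le_Ioo (μ := volume) (a := -l) (b := 0)
      (by linarith) (hi _ _) (g := fun x => lam ^ 2 * aa l ^ 2 * (beta (-x) * (l - (-x)) ^ 2))
      ((by fun_prop : Continuous fun x =>
        lam ^ 2 * aa l ^ 2 * (beta (-x) * (l - (-x)) ^ 2)).intervalIntegrable _ _)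
      (fun x hx => by
        have := GG2_inn hl lam (x := x) ⟨hx.1.le, by linarith [hx.2]⟩
        rwa [abs_of_neg hx.2, ← beta_neg x] at this)
    have h2 := intervalIntegral.integral_comp_neg (a := -l) (b := 0)
      (fun x => lam ^ 2 * aa l ^ 2 * (beta x * (l - x) ^ 2))
    rw [h2, neg_zero, neg_neg, intervalIntegral.integral_const_mul] at h1
    exact h1.trans (mul_le_mul_of_nonneg_left (inner_int hl hl2) hab)
  linarith

include hl hl2 in
/-- **Quasimodes** -/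
theorem quasimode : ∃ (k : ℤ) (lam : ℝ) (V g : L1) (Q : ℝ), 1 / l ^ 6 ≤ lam ∧ 0 < ‖V‖ ∧ 0 ≤ Q ∧
    Q ≤ 7000 * lam * ‖V‖ ^ 2 ∧
    (∀ m, ((wk k m : ℂ) - (lam : ℂ) ^ 2) * ⟪e1 m, V⟫_ℂ - Complex.I * lam * ⟪e1 m, M1 V⟫_ℂ
      = ⟪e1 m, g⟫_ℂ) ∧
    (∀ X : L1, ‖⟪g, X⟫_ℂ‖ ^ 2 ≤ Q * (⟪X, M1 X⟫_ℂ).re) := by
  have hπ := Real.pi_gt_three
  have hπ4 := Real.pi_lt_d2
  have hw := ww_pos hl
  have ha := aa_pos hl
  have hb : 0 < beta l := beta_pos hl (by linarith)
  have hb1 := beta_le_one l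
  set b := beta l with hbdef
  have hl6 : 0 < l ^ 6 := by positivity
  have hl61 : l ^ 6 ≤ 1 := pow_le_one₀ hl.le (by linarith)
  set N : ℝ := 1 / (l ^ 6 * b) with hN
  have hNpos : 0 < N := by positivity
  have hN1 : 1 / l ^ 6 ≤ N := by
    rw [hN]
    apply one_div_le_one_div_of_le (by positivity)
    nlinarith
  set k : ℤ := ⌈N⌉ with hk
  have hk1 : N ≤ k := Int.le_ceil N
  have hk2 : (k : ℝ) < N + 1 := Int.ceil_lt_add_one N
  set lam := Real.sqrt ((k : ℝ) ^ 2 + aa l ^ 2) with hlam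
  have hlam2 : lam ^ 2 = (k : ℝ) ^ 2 + aa l ^ 2 := Real.sq_sqrt (by positivity)
  have hlam0 : 0 ≤ lam := Real.sqrt_nonneg _
  have hklam : (k : ℝ) ≤ lam := by
    apply Real.le_sqrt_of_sq_le
    nlinarith
  -- a² l² ≤ 5/2
  have hA : aa l ^ 2 * l ^ 2 ≤ 5 / 2 := by
    have h1 : aa l ^ 2 * l ^ 2 = (aa l * l) ^ 2 := by ring
    rw [h1, aal hl]
    nlinarith
  have hl4 : 16 * l ^ 4 ≤ 1 := by
    have : l ^ 4 ≤ (1 / 2) ^ 4 := pow_le_pow_left₀ hl.le hl2 4
    norm_num at this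
    linarith
  have hA2 : aa l ^ 2 ≤ 2 * k + 1 := by
    have h1 : aa l ^ 2 ≤ 1 / l ^ 6 := by
      rw [le_div_iff₀ hl6]
      have h2 : aa l ^ 2 * l ^ 6 = (aa l ^ 2 * l ^ 2) * l ^ 4 := by ring
      rw [h2]
      have h3 : 0 ≤ l ^ 4 := by positivity
      have h4 := mul_le_mul_of_nonneg_right hA h3
      linarith
    have : 0 < 1 / l ^ 6 := by positivity
    linarith
  have hlamk : lam ≤ k + 1 := by
    rw [hlam, Real.sqrt_le_left (by linarith)]
    nlinarith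
  have hlamN : lam ≤ N + 2 := by linarith
  have hNlam : N ≤ lam := hk1.trans hklam
  -- λ b l⁶ ≤ 3
  have hl6b : lam * (b * l ^ 6) ≤ 3 := by
    have h1 : lam * (b * l ^ 6) ≤ (N + 2) * (b * l ^ 6) := mul_le_mul_of_nonneg_right hlamN (by positivity)
    have h2 : (N + 2) * (b * l ^ 6) = 1 + 2 * (b * l ^ 6) := by
      rw [hN]; field_simp
    have h3 : b * l ^ 6 ≤ 1 := mul_le_one₀ hb1 hl6.le hl61
    linarith
  have hV := Vq_norm hl hl2
  have hG := Gq_norm_le hl hl2 lam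
  -- numerical estimate
  have hnum : 2 * (ww l * ((5 * (aa l / ww l)) ^ 2 / b + lam ^ 2 * (3 * b * (aa l * ww l) ^ 2)))
      + 2 * (lam ^ 2 * aa l ^ 2 * (l ^ 9 * b / 4)) ≤ 7000 * lam * l := by
    have t1 : 2 * (ww l * ((5 * (aa l / ww l)) ^ 2 / b)) = 2500 * (aa l ^ 2 * l ^ 2) * (l * N) := by
      rw [hN]; unfold ww; field_simp; norm_num
    have t2 : 2 * (ww l * (lam ^ 2 * (3 * b * (aa l * ww l) ^ 2)))
        = (6 / 125000) * (aa l ^ 2 * l ^ 2) * (lam * l * (lam * (b * l ^ 6))) := by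
      unfold ww; ring
    have t3 : 2 * (lam ^ 2 * aa l ^ 2 * (l ^ 9 * b / 4))
        = (1 / 2) * (aa l ^ 2 * l ^ 2) * (lam * l * (lam * (b * l ^ 6))) := by ring
    have hlN : 0 ≤ l * N := by positivity
    have hll : 0 ≤ lam * l := by positivity
    have s1 : 2500 * (aa l ^ 2 * l ^ 2) * (l * N) ≤ 6250 * (lam * l) := by
      have h1 : (aa l ^ 2 * l ^ 2) * (l * N) ≤ 5 / 2 * (l * N) := mul_le_mul_of_nonneg_right hA hlN
      have h2 : l * N ≤ lam * l := by rw [mul_comm lam l]; exact mul_le_mul_of_nonneg_left hNlam hl.le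
      linarith
    have s0 : lam * l * (lam * (b * l ^ 6)) ≤ lam * l * 3 := mul_le_mul_of_nonneg_left hl6b hll
    have s00 : 0 ≤ lam * l * (lam * (b * l ^ 6)) := by positivity
    have s2 : (aa l ^ 2 * l ^ 2) * (lam * l * (lam * (b * l ^ 6))) ≤ 5 / 2 * (lam * l * 3) :=
      mul_le_mul hA s0 s00 (by norm_num)
    have e : 2 * (ww l * ((5 * (aa l / ww l)) ^ 2 / b + lam ^ 2 * (3 * b * (aa l * ww l) ^ 2)))
      = 2 * (ww l * ((5 * (aa l / ww l)) ^ 2 / b)) + 2 * (ww l * (lam ^ 2 * (3 * b * (aa l * ww l) ^ 2))) := by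
      ring
    rw [e, t1, t2, t3]
    linarith
  have hQ : 2 * Real.pi * ‖Gq hl hl2 lam‖ ^ 2 ≤ 2 * Real.pi * (7000 * lam * ‖Vq hl hl2‖ ^ 2) := by
    have h1 := hG.trans hnum
    have h2 : 7000 * lam * l ≤ 7000 * lam * (2 * Real.pi * ‖Vq hl hl2‖ ^ 2) :=
      mul_le_mul_of_nonneg_left hV (by positivity)
    linarith
  have hQ' := le_of_mul_le_mul_left hQ (by linarith)
  refine ⟨k, lam, Vq hl hl2, gq hl hl2 lam, ‖Gq hl hl2 lam‖ ^ 2, hN1.trans hNlam, ?_, sq_nonneg _, hQ',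
    gq_coord hl hl2 k hlam2, gq_CS hl hl2 lam⟩
  by_contra hcon
  have h0 : ‖Vq hl hl2‖ = 0 := le_antisymm (not_lt.1 hcon) (norm_nonneg _)
  rw [h0] at hV
  norm_num at hV
  linarith

end

/-- the data in `L²` of the torus carried by a slice -/
lemma exists_lift (k : ℤ) (V : L1) : ∃ U : Lp ℂ 2 haar, (∀ m, ⟪e2 (sl k m), U⟫_ℂ = ⟪e1 m, V⟫_ℂ) ∧
    ∀ n, n ∉ range (sl k) → ⟪e2 n, U⟫_ℂ = 0 := by
  classical
  have hsum : Summable fun n : Fin 2 → ℤ => ‖(if n 1 = k then ⟪e1 (n 0), V⟫_ℂ else 0 : ℂ)‖ ^ 2 := by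
    rw [← (sl_inj k).summable_iff]
    · refine (parseval e1 V).summable.congr fun m => ?_
      simp [sl]
    · intro n hn
      have : n 1 ≠ k := by
        intro h
        apply hn
        refine ⟨n 0, ?_⟩
        funext i
        fin_cases i
        · simp [sl]
        · simp [sl, h]
      rw [if_neg this]; simp
  obtain ⟨U, hU⟩ := exists_of_coords e2 _ hsum
  refine ⟨U, fun m => ?_, fun n hn => ?_⟩
  · rw [hU]; simp [sl]
  · rw [hU, if_neg]
    intro h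
    apply hn
    refine ⟨n 0, ?_⟩
    funext i
    fin_cases i
    · simp [sl]
    · simp [sl, h]

/-- **Lower bound** -/
theorem not_stable {f : ℝ → ℝ} (hf : Tendsto (fun t => t * f t) atTop (𝓝 0)) : ¬ StableAtRate bT f := by
  rintro ⟨C, hC, hst⟩
  set K : ℝ := 248 * C * 14000 ^ 2 with hK
  have hK0 : 0 < K := by positivity
  obtain ⟨t0, ht0⟩ := Filter.eventually_atTop.1 ((Metric.tendsto_nhds.1 hf) (1 / (K + 1)) (by positivity))
  -- choice of l
  set l : ℝ := 1 / (2 + 14000 * |t0|) with hldef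
  have hden : 0 < 2 + 14000 * |t0| := by positivity
  have hl : 0 < l := by positivity
  have hl2 : l ≤ 1 / 2 := by
    rw [hldef]
    apply one_div_le_one_div_of_le (by norm_num)
    linarith [abs_nonneg t0]
  obtain ⟨k, lam, V, g, Q, hlam, hV, hQ0, hQ, hrel, hCS⟩ := quasimode hl hl2
  have hl6 : 64 ≤ 1 / l ^ 6 := by
    rw [le_div_iff₀ (by positivity)]
    have : l ^ 6 ≤ (1 / 2) ^ 6 := pow_le_pow_left₀ hl.le hl2 6
    norm_num at this
    linarith
  have hlam64 : 64 ≤ lam := hl6.trans hlam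
  have hlampos : 0 < lam := by linarith
  have hll : 1 / l ≤ 1 / l ^ 6 := by
    apply one_div_le_one_div_of_le (by positivity)
    have h1 : l ^ 6 = l * l ^ 5 := by ring
    rw [h1]
    exact mul_le_of_le_one_right hl.le (pow_le_one₀ hl.le (by linarith))
  have hlamt : 14000 * |t0| ≤ lam := by
    have h1 : 1 / l = 2 + 14000 * |t0| := by rw [hldef]; field_simp
    linarith
  -- the vector W
  set W : L1 := (lam : ℂ) ^ 2 • V + (Complex.I * lam) • M1 V + g with hWdef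
  have hW : ∀ m, ⟪e1 m, W⟫_ℂ = wk k m * ⟪e1 m, V⟫_ℂ := by
    intro m
    rw [hWdef, inner_add_right, inner_add_right, inner_smul_right, inner_smul_right, ← hrel m]
    ring
  have hMx : ∀ X : L1, ‖M1 X‖ ≤ ‖X‖ := fun X => by
    have := M1.le_of_opNorm_le M1_norm X
    rwa [one_mul] at this
  have hgQ : ‖g‖ ^ 2 ≤ Q := by
    rcases eq_or_ne g 0 with h0 | h0
    · rw [h0]; simpa using hQ0
    · have h1 := hCS g
      have h2 : ‖⟪g, g⟫_ℂ‖ = ‖g‖ ^ 2 := by
        rw [inner_self_eq_norm_sq_to_K]; simp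
      have h3 : (⟪g, M1 g⟫_ℂ).re ≤ ‖g‖ ^ 2 := by
        refine (Complex.re_le_norm _).trans ((norm_inner_le_norm _ _).trans ?_)
        have := mul_le_mul_of_nonneg_left (hMx g) (norm_nonneg g)
        nlinarith
      have h4 : 0 < ‖g‖ ^ 2 := by
        have := norm_pos_iff.2 h0
        positivity
      rw [h2] at h1
      have h5 := mul_le_mul_of_nonneg_left h3 hQ0
      have h6 : ‖g‖ ^ 2 * ‖g‖ ^ 2 ≤ Q * ‖g‖ ^ 2 := by nlinarith
      exact le_of_mul_le_mul_right h6 h4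
  set A := ‖V‖ ^ 2 with hAdef
  have hA0 : 0 < A := by positivity
  have hWn : ‖W‖ ^ 2 ≤ 9 * lam ^ 4 * A := by
    have h1 : ‖W‖ ≤ lam ^ 2 * ‖V‖ + lam * ‖V‖ + ‖g‖ := by
      rw [hWdef]
      refine (norm_add_le _ _).trans ?_
      have h2 : ‖(lam : ℂ) ^ 2 • V + (Complex.I * lam) • M1 V‖ ≤ lam ^ 2 * ‖V‖ + lam * ‖V‖ := by
        refine (norm_add_le _ _).trans ?_
        rw [norm_smul, norm_smul, norm_mul, norm_pow, Complex.norm_I, Complex.norm_real,
          Real.norm_eq_abs, abs_of_pos hlampos, one_mul]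
        have := mul_le_mul_of_nonneg_left (hMx V) hlampos.le
        linarith
      linarith
    have h3 : ‖W‖ ^ 2 ≤ (lam ^ 2 * ‖V‖ + lam * ‖V‖ + ‖g‖) ^ 2 := pow_le_pow_left₀ (norm_nonneg _) h1 2
    have h4 : (lam ^ 2 * ‖V‖ + lam * ‖V‖ + ‖g‖) ^ 2
        ≤ 3 * (lam ^ 4 * A + lam ^ 2 * A + ‖g‖ ^ 2) := by
      rw [hAdef]
      nlinarith [sq_nonneg (lam ^ 2 * ‖V‖ - lam * ‖V‖), sq_nonneg (lam ^ 2 * ‖V‖ - ‖g‖),
        sq_nonneg (lam * ‖V‖ - ‖g‖)]
    have h5 : lam ^ 2 ≤ lam ^ 4 := pow_le_pow_right₀ (by linarith) (by norm_num)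
    have h6 : 7000 * lam ≤ lam ^ 4 := by
      have h7 : (64 : ℝ) ^ 3 ≤ lam ^ 3 := pow_le_pow_left₀ (by norm_num) hlam64 3
      have h8 : lam ^ 4 = lam ^ 3 * lam := by ring
      rw [h8]
      apply mul_le_mul_of_nonneg_right _ hlampos.le
      norm_num at h7
      linarith
    have h9 : ‖g‖ ^ 2 ≤ lam ^ 4 * A := by
      refine hgQ.trans (hQ.trans ?_)
      exact mul_le_mul_of_nonneg_right h6 hA0.le
    have h10 := mul_le_mul_of_nonneg_right h5 hA0.le
    linarith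
  -- data on the torus
  obtain ⟨U, hU1, hU2⟩ := exists_lift k V
  set U1 : Lp ℂ 2 haar := (Complex.I * lam) • U with hU1def
  have hparV := parseval e1 V
  have hparW := parseval e1 W
  have hWsq : ∀ m, ‖⟪e1 m, W⟫_ℂ‖ ^ 2 = wk k m ^ 2 * ‖⟪e1 m, V⟫_ℂ‖ ^ 2 := by
    intro m
    rw [hW, norm_mul, mul_pow, Complex.norm_real, Real.norm_eq_abs, sq_abs]
  -- sums over a slice
  have transfer : ∀ (F : (Fin 2 → ℤ) → ℝ) (G : ℤ → ℝ) (a : ℝ), (∀ m, F (sl k m) = G m) →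
      (∀ n, n ∉ range (sl k) → F n = 0) → HasSum G a → HasSum F a := by
    intro F G a h1 h2 h3
    rw [← (sl_inj k).hasSum_iff h2]
    refine h3.congr_fun ?_
    intro m
    exact h1 m
  have hs2 : Summable fun m => (1 + wk k m) ^ 2 * ‖⟪e1 m, V⟫_ℂ‖ ^ 2 := by
    refine Summable.of_nonneg_of_le (fun m => by have := wk_nonneg k m; positivity) (fun m => ?_)
      ((hparV.mul_left 2).add (hparW.mul_left 2)).summable
    rw [hWsq]
    have h1 : (1 + wk k m) ^ 2 ≤ 2 + 2 * wk k m ^ 2 := by nlinarith [sq_nonneg (1 - wk k m)]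
    have := mul_le_mul_of_nonneg_right h1 (sq_nonneg ‖⟪e1 m, V⟫_ℂ‖)
    linarith
  have hs2le : (∑' m, (1 + wk k m) ^ 2 * ‖⟪e1 m, V⟫_ℂ‖ ^ 2) ≤ 20 * lam ^ 4 * A := by
    have h0 : (∑' m, (1 + wk k m) ^ 2 * ‖⟪e1 m, V⟫_ℂ‖ ^ 2) ≤ 2 * A + 2 * ‖W‖ ^ 2 := by
      refine hasSum_le (fun m => ?_) hs2.hasSum ((hparV.mul_left 2).add (hparW.mul_left 2))
      rw [hWsq]
      have h1 : (1 + wk k m) ^ 2 ≤ 2 + 2 * wk k m ^ 2 := by nlinarith [sq_nonneg (1 - wk k m)]
      have := mul_le_mul_of_nonneg_right h1 (sq_nonneg ‖⟪e1 m, V⟫_ℂ‖)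
      linarith
    have h1 : A ≤ lam ^ 4 * A := by
      apply le_mul_of_one_le_left hA0.le
      exact one_le_pow₀ (by linarith)
    linarith
  have hs1 : Summable fun m => (1 + wk k m) ^ 1 * (lam ^ 2 * ‖⟪e1 m, V⟫_ℂ‖ ^ 2) := by
    refine Summable.of_nonneg_of_le (fun m => by have := wk_nonneg k m; positivity) (fun m => ?_)
      ((hs2.hasSum.mul_left (1/2)).add (hparV.mul_left (lam ^ 4 / 2))).summable
    have h1 : (1 + wk k m) ^ 1 * lam ^ 2 ≤ 1 / 2 * (1 + wk k m) ^ 2 + lam ^ 4 / 2 := by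
      nlinarith [sq_nonneg (1 + wk k m - lam ^ 2)]
    have := mul_le_mul_of_nonneg_right h1 (sq_nonneg ‖⟪e1 m, V⟫_ℂ‖)
    linarith
  have hs1le : (∑' m, (1 + wk k m) ^ 1 * (lam ^ 2 * ‖⟪e1 m, V⟫_ℂ‖ ^ 2)) ≤ 11 * lam ^ 4 * A := by
    have h0 : (∑' m, (1 + wk k m) ^ 1 * (lam ^ 2 * ‖⟪e1 m, V⟫_ℂ‖ ^ 2))
        ≤ 1 / 2 * (∑' m, (1 + wk k m) ^ 2 * ‖⟪e1 m, V⟫_ℂ‖ ^ 2) + lam ^ 4 / 2 * A := by
      refine hasSum_le (fun m => ?_) hs1.hasSum ((hs2.hasSum.mul_left (1/2)).add (hparV.mul_left (lam ^ 4 / 2)))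
      have h1 : (1 + wk k m) ^ 1 * lam ^ 2 ≤ 1 / 2 * (1 + wk k m) ^ 2 + lam ^ 4 / 2 := by
        nlinarith [sq_nonneg (1 + wk k m - lam ^ 2)]
      have := mul_le_mul_of_nonneg_right h1 (sq_nonneg ‖⟪e1 m, V⟫_ℂ‖)
      linarith
    have h1 : 0 ≤ lam ^ 4 * A := by positivity
    linarith
  have hsumU2 : HasSum (fun n => (1 + DW.lam n) ^ 2 * ‖coef (fn U) n‖ ^ 2)
      (∑' m, (1 + wk k m) ^ 2 * ‖⟪e1 m, V⟫_ℂ‖ ^ 2) := by
    apply transfer _ _ _ _ _ hs2.hasSum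
    · intro m
      rw [← e2_inner, hU1, lam_sl]; rfl
    · intro n hn
      rw [← e2_inner, hU2 n hn]; simp
  have hsumU1 : HasSum (fun n => (1 + DW.lam n) ^ 1 * ‖coef (fn U1) n‖ ^ 2)
      (∑' m, (1 + wk k m) ^ 1 * (lam ^ 2 * ‖⟪e1 m, V⟫_ℂ‖ ^ 2)) := by
    apply transfer _ _ _ _ _ hs1.hasSum
    · intro m
      rw [← e2_inner, hU1def, inner_smul_right, hU1, lam_sl, norm_mul, norm_mul, Complex.norm_I, one_mul,
        Complex.norm_real, mul_pow, Real.norm_eq_abs, sq_abs]; rfl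
    · intro n hn
      rw [← e2_inner, hU1def, inner_smul_right, hU2 n hn]; simp
  -- the solution
  have hfin : Summable fun n => DW.lam n * ‖⟪e2 n, U⟫_ℂ‖ ^ 2 := by
    refine Summable.of_nonneg_of_le (fun n => by have := lam_nonneg n; positivity) (fun n => ?_)
      hsumU2.summable
    rw [e2_inner]
    apply mul_le_mul_of_nonneg_right _ (sq_nonneg _)
    nlinarith [lam_nonneg n]
  obtain ⟨u, v, hws, hu0, hv0⟩ := exists_WSol e2 DW.lam lam_nonneg M2 U U1 hfin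
  have hsol : IsSolution bT u v := (isSolution_iff bT_continuous.measurable bT_abs).2 hws
  set T : ℝ := lam / 14000 with hT
  have hTpos : 0 < T := by positivity
  have hup := hst u v hsol (by rw [hu0]; exact hsumU2.summable) (by rw [hv0]; exact hsumU1.summable)
    T hTpos
  have hdata : sobSq 2 (u 0) + sobSq 1 (v 0) ≤ 31 * lam ^ 4 * A := by
    have h1 : sobSq 2 (u 0) = ∑' m, (1 + wk k m) ^ 2 * ‖⟪e1 m, V⟫_ℂ‖ ^ 2 := by
      rw [hu0]; exact hsumU2.tsum_eq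
    have h2 : sobSq 1 (v 0) = ∑' m, (1 + wk k m) ^ 1 * (lam ^ 2 * ‖⟪e1 m, V⟫_ℂ‖ ^ 2) := by
      rw [hv0]; exact hsumU1.tsum_eq
    rw [h1, h2]
    linarith
  -- the slice
  have hsl := slice_WSol hws k
  have hSu : Sk k (u 0) = V := by
    apply coord_ext e1
    intro m
    rw [Sk_coord, hu0, hU1]
  have hSv : Sk k (v 0) = (Complex.I * lam) • V := by
    apply coord_ext e1
    intro m
    rw [Sk_coord, hv0, hU1def, inner_smul_right, hU1, inner_smul_right]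
  have hSvn : ‖Sk k (v 0)‖ ^ 2 = lam ^ 2 * A := by
    rw [hSv, norm_smul, norm_mul, Complex.norm_I, one_mul, Complex.norm_real, mul_pow,
      Real.norm_eq_abs, sq_abs]
  have hE0 := norm_sq_le_En (e := e1) (wk_nonneg k) (Sk k (u 0)) (Sk k (v 0))
  rw [hSvn] at hE0
  have hlow := lower_bound hsl (wk_nonneg k) (fun x y => mulOp_symm x y) M1_nonneg hSu hSv hrel hQ0
    (fun x => hCS x) hTpos.le (by
      refine le_trans ?_ hE0
      have h1 : 2 * Q * T ≤ 2 * (7000 * lam * A) * T := by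
        apply mul_le_mul_of_nonneg_right _ hTpos.le
        linarith
      refine h1.trans (le_of_eq ?_)
      rw [hT]; ring)
  have hsl2 := En_slices (u T) (v T) (hws.h1 T hTpos.le)
  have hge : En e1 (wk k) (Sk k (u T)) (Sk k (v T)) ≤ En e2 DW.lam (u T) (v T) :=
    le_hasSum hsl2 k (fun j _ => En_nonneg (wk_nonneg j) _ _)
  rw [energy_eq] at hup
  have hmain : lam ^ 2 * A / 8 ≤ C * f T ^ 2 * (31 * lam ^ 4 * A) := by
    have h1 : C * f T ^ 2 * (sobSq 2 (u 0) + sobSq 1 (v 0)) ≤ C * f T ^ 2 * (31 * lam ^ 4 * A) :=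
      mul_le_mul_of_nonneg_left hdata (by positivity)
    linarith
  have hTf : (lam * f T) ^ 2 = 14000 ^ 2 * (T * f T) ^ 2 := by
    rw [hT]; ring
  have hmain2 : 1 ≤ K * (T * f T) ^ 2 := by
    have h1 : lam ^ 2 * A * 1 ≤ lam ^ 2 * A * (K * (T * f T) ^ 2) := by
      have h2 : lam ^ 2 * A * (K * (T * f T) ^ 2) = 248 * C * A * lam ^ 2 * (lam * f T) ^ 2 := by
        rw [hTf, hK]; ring
      rw [h2]
      have h3 : 8 * (C * f T ^ 2 * (31 * lam ^ 4 * A)) = 248 * C * A * lam ^ 2 * (lam * f T) ^ 2 := by ring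
      rw [← h3]
      linarith
    exact le_of_mul_le_mul_left h1 (by positivity)
  have hTt0 : t0 ≤ T := by
    have : |t0| ≤ T := by rw [hT, le_div_iff₀ (by norm_num)]; linarith
    exact (le_abs_self t0).trans this
  have hsmall := ht0 T hTt0
  rw [Real.dist_eq, sub_zero] at hsmall
  have h1 : (T * f T) ^ 2 < (1 / (K + 1)) ^ 2 := by
    rw [← sq_abs (T * f T)]
    exact pow_lt_pow_left₀ hsmall (abs_nonneg _) (by norm_num)
  have h2 : K * (T * f T) ^ 2 < K * (1 / (K + 1)) ^ 2 := mul_lt_mul_of_pos_left h1 hK0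
  have h3 : K * (1 / (K + 1)) ^ 2 < 1 := by
    rw [div_pow, one_pow, mul_one_div, div_lt_one (by positivity)]
    nlinarith
  linarith

end Pool.Agent.Helper34.DW
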