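import Pool.Agent.Helper34.DW17

/-! # Well-posedness, and properties of the damping. -/

namespace Pool.Agent.Helper34.DW

open MeasureTheory Set Filter Topology AddCircle Pool.Agent.Helper34

open scoped ComplexConjugate InnerProductSpace ENNReal

lemma isDamping_bT : IsDamping bT := by
  refine ⟨bT_continuous.measurable, bT_nonneg, ⟨1, fun θ => betaT_le_one _⟩, fun h => ?_⟩
  have h1 : haar {θ | ¬ bT θ = 0} = 0 := h
  have h2 : IsOpen {θ : Torus | ¬ bT θ = 0} := isOpen_ne_fun bT_continuous continuous_const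
  have h3 : ({θ : Torus | ¬ bT θ = 0}).Nonempty := by
    refine ⟨fun _ => ((1 / (2 * Real.pi) : ℝ) : UnitAddCircle), ?_⟩
    show ¬ betaT _ = 0
    rw [betaT_coe]
    exact (beta_pos one_pos (by linarith [Real.pi_gt_three])).ne'
  have h4 : haar.IsOpenPosMeasure := by unfold haar; infer_instance
  exact (h2.measure_pos haar h3).ne' h1

lemma bT_formula (x : Fin 2 → ℝ) :
    bT (fun i => (x i : UnitAddCircle)) = expNegInvGlue (1 - Real.cos (2 * Real.pi * x 0)) := by
  have hπ := Real.pi_pos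
  have h := betaT_coe (2 * Real.pi * x 0)
  have h2 : 2 * Real.pi * x 0 / (2 * Real.pi) = x 0 := by field_simp
  rw [h2] at h
  exact h

/-- **Well-posedness** in the energy space -/
theorem wellposed {b : Torus → ℝ} (hb : IsDamping b) (u₀ u₁ : L2) (hu₀ : MemSob 1 u₀) :
    ∃ u v : ℝ → L2, IsSolution b u v ∧ u 0 = u₀ ∧ v 0 = u₁ ∧
      ∀ u' v' : ℝ → L2, IsSolution b u' v' → u' 0 = u₀ → v' 0 = u₁ →
        ∀ t : ℝ, 0 ≤ t → u' t = u t ∧ v' t = v t := by
  obtain ⟨hm, h0, ⟨C, hC⟩, _⟩ := hb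
  have hC' : ∀ θ, |b θ| ≤ C := fun θ => by rw [abs_of_nonneg (h0 θ)]; exact hC θ
  have hsum : Summable fun n => lam n * ‖⟪e2 n, u₀⟫_ℂ‖ ^ 2 := by
    refine Summable.of_nonneg_of_le (fun n => by have := lam_nonneg n; positivity) (fun n => ?_) hu₀
    rw [e2_inner, pow_one]
    apply mul_le_mul_of_nonneg_right _ (sq_nonneg _)
    linarith [lam_nonneg n]
  obtain ⟨u, v, hw, hu, hv⟩ := exists_WSol e2 lam lam_nonneg (mulOp haar b hm C hC') u₀ u₁ hsum
  refine ⟨u, v, (isSolution_iff hm hC').2 hw, hu, hv, fun u' v' hs' hu' hv' t ht => ?_⟩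
  have hw' := (isSolution_iff hm hC').1 hs'
  have := hw.unique lam_nonneg (fun x => mulOp_nonneg h0 x) hw' (hu.trans hu'.symm)
    (hv.trans hv'.symm) ht
  exact ⟨this.1.symm, this.2.symm⟩

end Pool.Agent.Helper34.DW
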