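import Pool.Agent.Helper34.DW1

/-! # Part B: the damping profile `β(x) = exp(-1/(1 - cos x))` and the uniform resolvent estimate. -/

namespace Pool.Agent.Helper34

open MeasureTheory Set intervalIntegral Real

/-- the damping profile -/
noncomputable def beta (x : ℝ) : ℝ := expNegInvGlue (1 - Real.cos x)

lemma beta_contDiff : ContDiff ℝ (⊤ : ℕ∞) beta := by
  unfold beta
  exact expNegInvGlue.contDiff.comp (contDiff_const.sub Real.contDiff_cos)

lemma beta_continuous : Continuous beta := beta_contDiff.continuous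

lemma beta_neg (x : ℝ) : beta (-x) = beta x := by simp [beta]

lemma beta_nonneg (x : ℝ) : 0 ≤ beta x := expNegInvGlue.nonneg _

lemma expNegInvGlue_le_one (x : ℝ) : expNegInvGlue x ≤ 1 := by
  unfold expNegInvGlue
  split_ifs with h
  · norm_num
  · push Not at h
    rw [Real.exp_le_one_iff]
    have : 0 < x⁻¹ := inv_pos.2 h
    linarith

lemma beta_le_one (x : ℝ) : beta x ≤ 1 := expNegInvGlue_le_one _

lemma beta_mono : MonotoneOn beta (Icc 0 π) := by
  intro x hx y hy hxy
  apply expNegInvGlue.monotone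
  have := Real.strictAntiOn_cos.antitoneOn hx hy hxy
  linarith

lemma one_sub_cos_pos {x : ℝ} (h0 : 0 < x) (hπ : x ≤ π) : 0 < 1 - Real.cos x := by
  have h := Real.cos_le_one_sub_mul_cos_sq (x := x) (by rw [abs_of_pos h0]; exact hπ)
  have : 0 < 2 / π ^ 2 * x ^ 2 := by positivity
  linarith

lemma beta_pos {x : ℝ} (h0 : 0 < x) (hπ : x ≤ π) : 0 < beta x :=
  expNegInvGlue.pos_of_pos (one_sub_cos_pos h0 hπ)

lemma beta_eq_exp {x : ℝ} (h0 : 0 < x) (hπ : x ≤ π) :
    beta x = Real.exp (-(1 - Real.cos x)⁻¹) := by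
  have := one_sub_cos_pos h0 hπ
  simp [beta, expNegInvGlue, not_le.2 this]

lemma one_sub_cos_ge {x : ℝ} (hx : |x| ≤ π) : x ^ 2 / 5 ≤ 1 - Real.cos x := by
  have h := Real.cos_le_one_sub_mul_cos_sq (x := x) hx
  have hp : π ^ 2 ≤ 10 := by
    have := Real.pi_lt_d2
    nlinarith [Real.pi_pos]
  have : x ^ 2 / 5 ≤ 2 / π ^ 2 * x ^ 2 := by
    have h2 : (1 : ℝ) / 5 ≤ 2 / π ^ 2 := by
      rw [div_le_div_iff₀ (by norm_num) (by positivity)]; linarith
    nlinarith [sq_nonneg x]
  linarith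

lemma one_sub_cos_le (x : ℝ) : 1 - Real.cos x ≤ x ^ 2 / 2 := by
  have := Real.one_sub_sq_div_two_le_cos (x := x)
  linarith

lemma beta_hasDerivAt (x : ℝ) :
    HasDerivAt beta (((1 - Real.cos x)⁻¹) ^ 2 * beta x * Real.sin x) x := by
  have h1 := expNegInvGlue.hasDerivAt_polynomial_eval_inv_mul 1 (1 - Real.cos x)
  simp only [Polynomial.eval_one, one_mul, Polynomial.derivative_one, sub_zero, mul_one,
    Polynomial.eval_pow, Polynomial.eval_X] at h1
  have h2 : HasDerivAt (fun x => 1 - Real.cos x) (Real.sin x) x := by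
    simpa using (Real.hasDerivAt_cos x).const_sub 1
  exact h1.comp x h2

/-- comparison of `β` on the boundary layer -/
lemma beta_layer {l x : ℝ} (hl : 0 < l) (hl1 : l ≤ 1) (hlx : l ≤ x) (hx : x ≤ l + l ^ 3 / 50) :
    beta x ≤ 3 * beta l := by
  have hl3 : l ^ 3 ≤ l := by
    have : l ^ 3 = l * (l * l) := by ring
    rw [this]
    have : l * l ≤ 1 := by nlinarith
    nlinarith
  have hx2 : x ≤ 2 * l := by linarith
  have hπ : (3 : ℝ) < π := Real.pi_gt_three
  have hx0 : 0 < x := by linarith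
  rw [beta_eq_exp hx0 (by linarith), beta_eq_exp hl (by linarith)]
  have hcl := one_sub_cos_pos hl (by linarith)
  have hcx := one_sub_cos_pos hx0 (by linarith)
  have hcl' := one_sub_cos_ge (x := l) (by rw [abs_of_pos hl]; linarith)
  have hcx' := one_sub_cos_ge (x := x) (by rw [abs_of_pos hx0]; linarith)
  set u := 1 - Real.cos l with hu
  set v := 1 - Real.cos x with hv
  have hvu : v - u ≤ (x - l) * (x + l) / 2 := by
    have h1 : v - u = Real.cos l - Real.cos x := by rw [hu, hv]; ring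
    rw [h1, Real.cos_sub_cos]
    have h2 : Real.sin ((l - x) / 2) = - Real.sin ((x - l) / 2) := by
      rw [← Real.sin_neg]; congr 1; ring
    rw [h2]
    have h3 : Real.sin ((l + x) / 2) ≤ (l + x) / 2 := Real.sin_le (by linarith)
    have h4 : Real.sin ((x - l) / 2) ≤ (x - l) / 2 := Real.sin_le (by linarith)
    have h5 : 0 ≤ Real.sin ((l + x) / 2) := Real.sin_nonneg_of_nonneg_of_le_pi (by linarith) (by linarith)
    have h6 : 0 ≤ Real.sin ((x - l) / 2) := Real.sin_nonneg_of_nonneg_of_le_pi (by linarith) (by linarith)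
    have h7 : Real.sin ((l + x) / 2) * Real.sin ((x - l) / 2) ≤ (l + x) / 2 * ((x - l) / 2) :=
      mul_le_mul h3 h4 h6 (by linarith)
    linarith
  have hxl : (x - l) * (x + l) / 2 ≤ 3 * l ^ 4 / 100 := by
    have h1 : (x - l) * (x + l) ≤ (l ^ 3 / 50) * (3 * l) :=
      mul_le_mul (by linarith) (by linarith) (by linarith) (by positivity)
    nlinarith
  have huv : l ^ 4 / 25 ≤ u * v := by
    have h1 : l ^ 2 / 5 ≤ v := by
      have : l ^ 2 ≤ x ^ 2 := pow_le_pow_left₀ hl.le hlx 2
      linarith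
    have h2 : (l ^ 2 / 5) * (l ^ 2 / 5) ≤ u * v :=
      mul_le_mul hcl' h1 (by positivity) hcl.le
    nlinarith
  have hexp : -v⁻¹ ≤ 1 + -u⁻¹ := by
    have h1 : u⁻¹ - v⁻¹ = (v - u) / (u * v) := by field_simp
    have h2 : (v - u) / (u * v) ≤ 1 := by
      rw [div_le_one (by positivity)]
      have : 0 < l ^ 4 := by positivity
      linarith
    linarith
  calc Real.exp (-v⁻¹) ≤ Real.exp (1 + -u⁻¹) := Real.exp_le_exp.2 hexp
    _ = Real.exp 1 * Real.exp (-u⁻¹) := Real.exp_add _ _
    _ ≤ 3 * Real.exp (-u⁻¹) := by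
      apply mul_le_mul_of_nonneg_right _ (Real.exp_pos _).le
      exact Real.exp_one_lt_three.le

/-- the weighted mass of `β` near its zero -/
lemma integral_beta_mul_le {a : ℝ} (ha : 0 < a) (ha2 : a ≤ 3 / 2) :
    ∫ x in (0 : ℝ)..a, beta x * x ≤ a ^ 4 * beta a / 2 := by
  have hπ : (3 : ℝ) < π := Real.pi_gt_three
  have hπ4 : π ≤ 4 := Real.pi_le_four
  have hd : ∀ x, HasDerivAt (fun x => x ^ 4 * beta x / 2)
      ((4 * x ^ 3 * beta x + x ^ 4 * (((1 - Real.cos x)⁻¹) ^ 2 * beta x * Real.sin x)) / 2) x := by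
    intro x
    have h1 := ((hasDerivAt_pow 4 x).mul (beta_hasDerivAt x)).div_const 2
    exact h1.congr_deriv (by norm_num)
  have key : ∀ x ∈ Icc 0 a, beta x * x ≤
      (4 * x ^ 3 * beta x + x ^ 4 * (((1 - Real.cos x)⁻¹) ^ 2 * beta x * Real.sin x)) / 2 := by
    intro x hx
    rcases hx.1.eq_or_lt with h0 | h0
    · rw [← h0]; simp
    · have hb := beta_nonneg x
      have hc := one_sub_cos_pos h0 (by linarith [hx.2])
      have hcle := one_sub_cos_le x
      have hs : x / 2 ≤ Real.sin x := by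
        have := Real.mul_le_sin h0.le (by linarith [hx.2])
        have h3 : (1 : ℝ) / 2 ≤ 2 / π := by
          rw [div_le_div_iff₀ (by norm_num) (by positivity)]; linarith
        nlinarith
      have h1 : 2 / x ^ 2 ≤ (1 - Real.cos x)⁻¹ := by
        rw [div_le_iff₀ (by positivity), ← div_eq_inv_mul, le_div_iff₀ hc]
        linarith
      have h2 : 4 / x ^ 4 ≤ ((1 - Real.cos x)⁻¹) ^ 2 := by
        have : (2 / x ^ 2) ^ 2 ≤ ((1 - Real.cos x)⁻¹) ^ 2 := pow_le_pow_left₀ (by positivity) h1 2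
        calc 4 / x ^ 4 = (2 / x ^ 2) ^ 2 := by field_simp; norm_num
          _ ≤ _ := this
      have h3 : 4 / x ^ 4 * (x / 2) ≤ ((1 - Real.cos x)⁻¹) ^ 2 * Real.sin x :=
        mul_le_mul h2 hs (by positivity) (by positivity)
      have h4 : x ^ 4 * (4 / x ^ 4 * (x / 2)) ≤ x ^ 4 * (((1 - Real.cos x)⁻¹) ^ 2 * Real.sin x) :=
        mul_le_mul_of_nonneg_left h3 (by positivity)
      have h5 : x ^ 4 * (4 / x ^ 4 * (x / 2)) = 2 * x := by field_simp; norm_num
      rw [h5] at h4
      have h6 : beta x * (2 * x) ≤ beta x * (x ^ 4 * (((1 - Real.cos x)⁻¹) ^ 2 * Real.sin x)) :=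
        mul_le_mul_of_nonneg_left h4 hb
      have h7 : 0 ≤ 4 * x ^ 3 * beta x := by positivity
      linarith
  -- the derivative is continuous
  have hcont : Continuous (fun x =>
      (4 * x ^ 3 * beta x + x ^ 4 * (((1 - Real.cos x)⁻¹) ^ 2 * beta x * Real.sin x)) / 2) := by
    have h1 : (fun x => (4 * x ^ 3 * beta x + x ^ 4 * (((1 - Real.cos x)⁻¹) ^ 2 * beta x * Real.sin x)) / 2)
        = deriv (fun x => x ^ 4 * beta x / 2) := by
      funext x; exact (hd x).deriv.symm
    rw [h1]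
    have h2 : ContDiff ℝ 1 (fun x => x ^ 4 * beta x / 2) := by
      have : ContDiff ℝ 1 beta := beta_contDiff.of_le (by exact_mod_cast le_top)
      fun_prop
    exact h2.continuous_deriv le_rfl
  have hint := intervalIntegral.integral_eq_sub_of_hasDerivAt (a := 0) (b := a)
    (fun x _ => hd x) (hcont.intervalIntegrable _ _)
  have hmono := intervalIntegral.integral_mono_on (μ := volume) ha.le
    ((beta_continuous.mul continuous_id).intervalIntegrable 0 a)
    (hcont.intervalIntegrable 0 a) key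
  rw [hint] at hmono
  simpa using hmono

end Pool.Agent.Helper34
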