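import Pool.Agent.Helper34.DW2

/-! # Part B2: uniform bounds (U), (V) and the full mode-wise resolvent estimate. -/

namespace Pool.Agent.Helper34

open MeasureTheory Set intervalIntegral Real

/-- `v = a + i b` is a `2π`-periodic `C²` function with `v' = c + i d`, `v'' = e + i g`. -/
structure PS (a b c d e g : ℝ → ℝ) : Prop where
  ha : ∀ x, HasDerivAt a (c x) x
  hb : ∀ x, HasDerivAt b (d x) x
  hc : ∀ x, HasDerivAt c (e x) x
  hd : ∀ x, HasDerivAt d (g x) x
  he : Continuous e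
  hg : Continuous g
  pa : a (-π) = a π
  pb : b (-π) = b π
  pc : c (-π) = c π
  pd : d (-π) = d π

/-- `∫ |v|²` -/
noncomputable def IA (a b : ℝ → ℝ) : ℝ := ∫ x in (-π)..π, ((a x) ^ 2 + (b x) ^ 2)

/-- `∫ |f|²`, `f = -v'' - μ v + i τ β v` -/
noncomputable def IF (a b e g : ℝ → ℝ) (μ τ : ℝ) : ℝ :=
  ∫ x in (-π)..π, ((-e x - μ * a x - τ * beta x * b x) ^ 2 + (-g x - μ * b x + τ * beta x * a x) ^ 2)

lemma IA_nonneg (a b : ℝ → ℝ) : 0 ≤ IA a b :=
  intervalIntegral.integral_nonneg (by linarith [Real.pi_pos]) fun x _ => by positivity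

lemma IF_nonneg (a b e g : ℝ → ℝ) (μ τ : ℝ) : 0 ≤ IF a b e g μ τ :=
  intervalIntegral.integral_nonneg (by linarith [Real.pi_pos]) fun x _ => by positivity

/-- estimate (★) for the profile `β`. -/
lemma star_beta {a b c d e g : ℝ → ℝ} (h : PS a b c d e g) {l w μ τ P M N : ℝ}
    (hl : 0 < l) (hw : 0 < w) (hX : l + 2 * w ≤ π) (hμ : 0 ≤ μ) (hτ : 0 < τ)
    (hM : ((l + w) / w + 1) * (2 * μ + 2 * (1 / (32 * (l + w) ^ 2)) + 2 / w ^ 2) / (τ * beta l) ≤ M)
    (hP : τ * (∫ t in (0 : ℝ)..(l + 2 * w), beta t * t) ≤ P)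
    (hN : P + M + ((l + w) / w + 1) ≤ N) :
    IA c d + (μ + 2 * (1 / (32 * (l + w) ^ 2))) * IA a b
      ≤ 16 * ((l + w) ^ 2 + N ^ 2 / (μ + 2 * (1 / (32 * (l + w) ^ 2)))) * IF a b e g μ τ := by
  have hπ := Real.pi_pos
  have hβl : 0 < beta l := beta_pos hl (by linarith)
  have hcont : Continuous (fun x => τ * beta x) := continuous_const.mul beta_continuous
  have hcb := beta_continuous
  have hlw : 0 < l + w := by linarith
  -- the constant P0
  have hP0 : (∫ t in (l + w)..(l + 2 * w), (τ * beta t) * ((l + w) / w * (l + 2 * w - t)))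
      + (∫ t in (0 : ℝ)..(l + w), (τ * beta t) * t) ≤ P := by
    have h1 : (∫ t in (l + w)..(l + 2 * w), (τ * beta t) * ((l + w) / w * (l + 2 * w - t)))
        ≤ ∫ t in (l + w)..(l + 2 * w), τ * (beta t * t) := by
      apply intervalIntegral.integral_mono_on (by linarith)
      · exact Continuous.intervalIntegrable (by fun_prop) _ _
      · exact Continuous.intervalIntegrable (by fun_prop) _ _
      · intro t ht
        have hq : (l + w) / w * (l + 2 * w - t) ≤ t := by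
          rw [div_mul_eq_mul_div, div_le_iff₀ hw]
          nlinarith [ht.1, ht.2]
        have : (τ * beta t) * ((l + w) / w * (l + 2 * w - t)) ≤ (τ * beta t) * t :=
          mul_le_mul_of_nonneg_left hq (mul_nonneg hτ.le (beta_nonneg t))
        linarith
    have h2 : (∫ t in (0 : ℝ)..(l + w), (τ * beta t) * t) = ∫ t in (0 : ℝ)..(l + w), τ * (beta t * t) := by
      apply intervalIntegral.integral_congr
      intro t _
      simp only []
      ring
    have h3 := intervalIntegral.integral_add_adjacent_intervals (μ := volume)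
      (f := fun t => τ * (beta t * t)) (a := 0) (b := l + w) (c := l + 2 * w)
      (Continuous.intervalIntegrable (by fun_prop) _ _)
      (Continuous.intervalIntegrable (by fun_prop) _ _)
    rw [intervalIntegral.integral_const_mul] at h3
    rw [h2]
    rw [intervalIntegral.integral_const_mul] at h1 ⊢
    rw [intervalIntegral.integral_const_mul, intervalIntegral.integral_const_mul] at h3
    linarith
  have main := full_circle (a := a) (b := b) (c := c) (d := d) (e := e) (g := g)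
    (y := fun x => τ * beta x) (X := π) (l := l) (w := w) (μ := μ)
    (κ := 1 / (32 * (l + w) ^ 2)) (K := τ * beta l)
    (M := ((l + w) / w + 1) * (2 * μ + 2 * (1 / (32 * (l + w) ^ 2)) + 2 / w ^ 2) / (τ * beta l))
    (N := N) hl hw hX hμ rfl (by positivity) rfl h.ha h.hb h.hc h.hd h.he h.hg hcont
    (fun x => by simp only [beta_neg]) h.pa h.pb h.pc h.pd
    (fun x _ => mul_nonneg hτ.le (beta_nonneg x))
    (fun x hx => mul_le_mul_of_nonneg_left
      (beta_mono ⟨hl.le, by linarith⟩ ⟨by linarith [hx.1], hx.2⟩ hx.1) hτ.le)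
    rfl (by linarith)
  exact main

/-- fixed scale `l = w = 1` -/
lemma star_fixed {a b c d e g : ℝ → ℝ} (h : PS a b c d e g) {μ τ : ℝ}
    (hμ : 0 ≤ μ) (hτ : 0 < τ) :
    IA c d + (μ + 1 / 64) * IA a b
      ≤ 16 * (4 + (5 * τ + 9 * (μ + 1) / (τ * beta 1) + 3) ^ 2 / (μ + 1 / 64)) * IF a b e g μ τ := by
  have hπ : (3 : ℝ) < π := Real.pi_gt_three
  have hβ : 0 < beta 1 := beta_pos one_pos (by linarith)
  have hcb := beta_continuous
  have hP : τ * (∫ t in (0 : ℝ)..(1 + 2 * 1), beta t * t) ≤ 5 * τ := by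
    have h1 : ∫ t in (0 : ℝ)..(1 + 2 * 1), beta t * t ≤ ∫ t in (0 : ℝ)..(1 + 2 * 1), t := by
      apply intervalIntegral.integral_mono_on (by norm_num)
      · exact Continuous.intervalIntegrable (by fun_prop) _ _
      · exact Continuous.intervalIntegrable (by fun_prop) _ _
      · intro t ht
        exact mul_le_of_le_one_left ht.1 (beta_le_one t)
    have h2 : ∫ t in (0 : ℝ)..(1 + 2 * 1), t = 9 / 2 := by
      rw [integral_id]; norm_num
    rw [h2] at h1
    have h3 := mul_le_mul_of_nonneg_left h1 hτ.le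
    exact le_trans h3 (by linarith)
  have hM : ((1 + 1) / 1 + 1) * (2 * μ + 2 * (1 / (32 * ((1 : ℝ) + 1) ^ 2)) + 2 / 1 ^ 2) / (τ * beta 1)
      ≤ 9 * (μ + 1) / (τ * beta 1) := by
    apply div_le_div_of_nonneg_right _ (by positivity)
    norm_num
    linarith
  have main := star_beta h (l := 1) (w := 1) (μ := μ) (τ := τ) one_pos one_pos (by linarith) hμ hτ
    hM hP (N := 5 * τ + 9 * (μ + 1) / (τ * beta 1) + 3) (by norm_num)
  have e1 : 2 * (1 / (32 * ((1 : ℝ) + 1) ^ 2)) = 1 / 64 := by norm_num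
  have e2 : ((1 : ℝ) + 1) ^ 2 = 4 := by norm_num
  rw [e1, e2] at main
  exact main

/-- (V): high frequencies -/
lemma estV : ∃ C : ℝ, 0 < C ∧ ∀ (a b c d e g : ℝ → ℝ), PS a b c d e g → ∀ τ μ : ℝ, 0 < τ →
    3 / 4 * τ ^ 2 ≤ μ → μ ≤ τ ^ 2 →
    τ ^ 2 * IA a b ≤ C * IF a b e g μ τ ∧ (1 ≤ τ → IA c d ≤ C * IF a b e g μ τ) := by
  have hπ : (3 : ℝ) < π := Real.pi_gt_three
  have hβ : 0 < beta 1 := beta_pos one_pos (by linarith)
  have hβ1 : beta 1 ≤ 1 := beta_le_one 1
  set B := 16 / beta 1 with hB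
  have hB0 : 0 < B := by positivity
  refine ⟨16 * (8 + 8192 * B ^ 2), by positivity, ?_⟩
  intro a b c d e g h τ μ hτ hμ1 hμ2
  have hμ : 0 ≤ μ := le_trans (by positivity) hμ1
  have main := star_fixed h hμ hτ
  set N := 5 * τ + 9 * (μ + 1) / (τ * beta 1) + 3 with hN
  set m := μ + 1 / 64 with hm
  have hm0 : 0 < m := by positivity
  have hIA := IA_nonneg a b
  have hIC := IA_nonneg c d
  have hIF := IF_nonneg a b e g μ τ
  have hN0 : 0 ≤ N := by positivity
  have hNB : N ≤ B * (τ + 1 / τ) := by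
    have h1 : 9 * (μ + 1) / (τ * beta 1) ≤ 9 * (τ ^ 2 + 1) / (τ * beta 1) := by
      apply div_le_div_of_nonneg_right _ (by positivity)
      linarith
    have h2 : 9 * (τ ^ 2 + 1) / (τ * beta 1) = 9 / beta 1 * (τ + 1 / τ) := by
      field_simp
    have h3 : 1 ≤ 1 / beta 1 := by rw [le_div_iff₀ hβ]; linarith
    have h4 : 2 ≤ τ + 1 / τ := by
      have : τ + 1 / τ - 2 = (τ - 1) ^ 2 / τ := by field_simp; ring
      have h5 : 0 ≤ (τ - 1) ^ 2 / τ := by positivity
      linarith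
    have h5 : 0 < 1 / τ := by positivity
    have h6 : 5 * τ + 3 ≤ 7 * (τ + 1 / τ) := by linarith
    have h7 : 7 * (τ + 1 / τ) ≤ 7 / beta 1 * (τ + 1 / τ) := by
      have : (7 : ℝ) ≤ 7 / beta 1 := by rw [le_div_iff₀ hβ]; linarith
      exact mul_le_mul_of_nonneg_right this (by linarith)
    have h8 : B * (τ + 1 / τ) = 9 / beta 1 * (τ + 1 / τ) + 7 / beta 1 * (τ + 1 / τ) := by
      rw [hB]; ring
    rw [h8]
    linarith
  have hN2 : N ^ 2 * τ ^ 2 ≤ 2 * B ^ 2 * (τ ^ 4 + 1) := by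
    have h1 : N * τ ≤ B * (τ ^ 2 + 1) := by
      have := mul_le_mul_of_nonneg_right hNB hτ.le
      have e : B * (τ + 1 / τ) * τ = B * (τ ^ 2 + 1) := by field_simp
      linarith
    have h2 : (N * τ) ^ 2 ≤ (B * (τ ^ 2 + 1)) ^ 2 := pow_le_pow_left₀ (by positivity) h1 2
    have h3 : (B * (τ ^ 2 + 1)) ^ 2 = B ^ 2 * (τ ^ 2 + 1) ^ 2 := by ring
    have h4 : (τ ^ 2 + 1) ^ 2 ≤ 2 * (τ ^ 4 + 1) := by nlinarith [sq_nonneg (τ ^ 2 - 1)]
    have h5 : B ^ 2 * (τ ^ 2 + 1) ^ 2 ≤ B ^ 2 * (2 * (τ ^ 4 + 1)) :=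
      mul_le_mul_of_nonneg_left h4 (by positivity)
    calc N ^ 2 * τ ^ 2 = (N * τ) ^ 2 := by ring
      _ ≤ B ^ 2 * (τ ^ 2 + 1) ^ 2 := by rw [← h3]; exact h2
      _ ≤ B ^ 2 * (2 * (τ ^ 4 + 1)) := h5
      _ = _ := by ring
  have hmτ : 3 / 4 * τ ^ 2 ≤ m := by rw [hm]; linarith
  constructor
  · have h1 : m * IA a b ≤ 16 * (4 + N ^ 2 / m) * IF a b e g μ τ := by linarith
    have h2 : τ ^ 2 * IA a b ≤ (τ ^ 2 / m) * (16 * (4 + N ^ 2 / m) * IF a b e g μ τ) := by
      have := mul_le_mul_of_nonneg_left h1 (by positivity : 0 ≤ τ ^ 2 / m)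
      have e : τ ^ 2 / m * (m * IA a b) = τ ^ 2 * IA a b := by field_simp
      linarith
    have h3 : (τ ^ 2 / m) * (16 * (4 + N ^ 2 / m)) ≤ 16 * (8 + 8192 * B ^ 2) := by
      have e : (τ ^ 2 / m) * (16 * (4 + N ^ 2 / m)) = 16 * (4 * (τ ^ 2 / m) + N ^ 2 * τ ^ 2 / m ^ 2) := by
        field_simp
      rw [e]
      have h4 : τ ^ 2 / m ≤ 4 / 3 := by
        rw [div_le_iff₀ hm0]; linarith
      have h5 : N ^ 2 * τ ^ 2 / m ^ 2 ≤ 8192 * B ^ 2 := by
        rw [div_le_iff₀ (by positivity)]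
        have h6 : (τ ^ 4 + 1) / 4096 ≤ m ^ 2 := by
          have h7 : (3 / 4 * τ ^ 2 + 1 / 64) ^ 2 ≤ m ^ 2 :=
            pow_le_pow_left₀ (by positivity) (by rw [hm]; linarith) 2
          nlinarith [sq_nonneg τ, sq_nonneg (τ ^ 2)]
        have h8 : 2 * B ^ 2 * (τ ^ 4 + 1) ≤ 8192 * B ^ 2 * m ^ 2 := by
          have := mul_le_mul_of_nonneg_left h6 (by positivity : 0 ≤ 8192 * B ^ 2)
          linarith
        linarith
      linarith
    have h9 := mul_le_mul_of_nonneg_right h3 hIF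
    have e2 : (τ ^ 2 / m) * (16 * (4 + N ^ 2 / m) * IF a b e g μ τ)
      = (τ ^ 2 / m) * (16 * (4 + N ^ 2 / m)) * IF a b e g μ τ := by ring
    linarith
  · intro hτ1
    have h1 : IA c d ≤ 16 * (4 + N ^ 2 / m) * IF a b e g μ τ := by
      have : 0 ≤ m * IA a b := by positivity
      linarith
    have h2 : N ^ 2 / m ≤ 6 * B ^ 2 := by
      rw [div_le_iff₀ hm0]
      have h3 : τ ^ 4 + 1 ≤ 2 * τ ^ 4 := by
        have : 1 ≤ τ ^ 4 := one_le_pow₀ hτ1
        linarith
      have h4 : N ^ 2 * τ ^ 2 ≤ (4 * B ^ 2 * τ ^ 2) * τ ^ 2 := by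
        have := mul_le_mul_of_nonneg_left h3 (by positivity : 0 ≤ 2 * B ^ 2)
        calc N ^ 2 * τ ^ 2 ≤ 2 * B ^ 2 * (τ ^ 4 + 1) := hN2
          _ ≤ 2 * B ^ 2 * (2 * τ ^ 4) := this
          _ = _ := by ring
      have h5 : N ^ 2 ≤ 4 * B ^ 2 * τ ^ 2 := le_of_mul_le_mul_right h4 (by positivity)
      have h6 : 6 * B ^ 2 * (3 / 4 * τ ^ 2) ≤ 6 * B ^ 2 * m :=
        mul_le_mul_of_nonneg_left hmτ (by positivity)
      have h7 : 0 ≤ B ^ 2 * τ ^ 2 := by positivity
      linarith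
    have h3 : 16 * (4 + N ^ 2 / m) ≤ 16 * (8 + 8192 * B ^ 2) := by
      have : 0 ≤ B ^ 2 := by positivity
      linarith
    have := mul_le_mul_of_nonneg_right h3 hIF
    linarith

/-- (U): uniform bound at all frequencies -/
lemma estU : ∃ C : ℝ, 0 < C ∧ ∀ (a b c d e g : ℝ → ℝ), PS a b c d e g → ∀ τ μ : ℝ, 1 / 2 ≤ τ →
    0 ≤ μ → μ ≤ τ ^ 2 → IA a b ≤ C * IF a b e g μ τ := by
  have hπ : (3 : ℝ) < π := Real.pi_gt_three
  have hβ : 0 < beta 1 := beta_pos one_pos (by linarith)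
  have hβh : 0 < beta (1 / 2) := beta_pos (by norm_num) (by linarith)
  set τ0 := 64 / beta (1 / 2) with hτ0
  have hτ0p : 0 < τ0 := by positivity
  set N0 := 5 * τ0 + 9 * (τ0 ^ 2 + 1) / (1 / 2 * beta 1) + 3 with hN0
  have hN0p : 0 < N0 := by positivity
  refine ⟨64 * (16 * (4 + 64 * N0 ^ 2)) + 16 * (16 + (2 * 10 ^ 8) ^ 2), by positivity, ?_⟩
  intro a b c d e g h τ μ hτ hμ hμ2
  have hIA := IA_nonneg a b
  have hIC := IA_nonneg c d
  have hIF := IF_nonneg a b e g μ τ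
  have hτp : 0 < τ := by linarith
  rcases le_total τ τ0 with hle | hge
  · have main := star_fixed h hμ hτp
    set N := 5 * τ + 9 * (μ + 1) / (τ * beta 1) + 3 with hN
    set m := μ + 1 / 64 with hm
    have hm0 : 0 < m := by positivity
    have hm64 : 1 / 64 ≤ m := by rw [hm]; linarith
    have hNN : N ≤ N0 := by
      have h1 : 9 * (μ + 1) / (τ * beta 1) ≤ 9 * (τ0 ^ 2 + 1) / (1 / 2 * beta 1) := by
        apply div_le_div₀ (by positivity) _ (by positivity)
        · exact mul_le_mul_of_nonneg_right hτ hβ.le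
        · have : τ ^ 2 ≤ τ0 ^ 2 := pow_le_pow_left₀ hτp.le hle 2
          linarith
      rw [hN, hN0]; linarith
    have hNp : 0 ≤ N := by positivity
    have hN2 : N ^ 2 ≤ N0 ^ 2 := pow_le_pow_left₀ hNp hNN 2
    have h1 : m * IA a b ≤ 16 * (4 + N ^ 2 / m) * IF a b e g μ τ := by linarith
    have h2 : N ^ 2 / m ≤ 64 * N0 ^ 2 := by
      rw [div_le_iff₀ hm0]
      have : N0 ^ 2 * 1 ≤ 64 * N0 ^ 2 * m := by
        have := mul_le_mul_of_nonneg_left hm64 (by positivity : 0 ≤ 64 * N0 ^ 2)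
        linarith
      linarith
    have h3 : 16 * (4 + N ^ 2 / m) * IF a b e g μ τ ≤ 16 * (4 + 64 * N0 ^ 2) * IF a b e g μ τ :=
      mul_le_mul_of_nonneg_right (by linarith) hIF
    have h4 : 1 / 64 * IA a b ≤ m * IA a b := mul_le_mul_of_nonneg_right hm64 hIA
    have h5 : 0 ≤ 16 * (16 + (2 * 10 ^ 8) ^ 2) * IF a b e g μ τ := by positivity
    have h6 : IA a b ≤ 64 * (16 * (4 + 64 * N0 ^ 2) * IF a b e g μ τ) := by linarith
    linarith
  · -- large frequency: choose the scale `l`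
    have hτ1 : 1 ≤ τ * beta (1 / 2) * (1 / 2) ^ 6 := by
      have : 64 ≤ τ * beta (1 / 2) := by
        rw [hτ0, div_le_iff₀ hβh] at hge
        exact hge
      norm_num
      linarith
    have hcb := beta_continuous
    obtain ⟨l, hl, hl6⟩ : ∃ l ∈ Icc (0 : ℝ) (1 / 2), τ * beta l * l ^ 6 = 1 := by
      have hc : ContinuousOn (fun l => τ * beta l * l ^ 6) (Icc (0 : ℝ) (1 / 2)) :=
        Continuous.continuousOn (by fun_prop)
      have := intermediate_value_Icc (by norm_num : (0 : ℝ) ≤ 1 / 2) hc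
      exact this ⟨by norm_num, hτ1⟩
    have hl0 : 0 < l := by
      rcases hl.1.eq_or_lt with h0 | h0
      · rw [← h0] at hl6; norm_num at hl6
      · exact h0
    have hlh : l ≤ 1 / 2 := hl.2
    have hβl : 0 < beta l := beta_pos hl0 (by linarith)
    set w := l ^ 3 / 100 with hw
    have hw0 : 0 < w := by positivity
    have hl3 : l ^ 3 ≤ l := by
      have e : l ^ 3 = l * (l * l) := by ring
      rw [e]
      have : l * l ≤ 1 := by nlinarith
      nlinarith
    have hwl : w ≤ l := by rw [hw]; linarith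
    have hlw2 : l + w ≤ 2 * l := by linarith
    -- the quantity s = 1/l²
    set s := 1 / l ^ 2 with hs
    have hs4 : 4 ≤ s := by
      rw [hs, le_div_iff₀ (by positivity)]; nlinarith
    have hsl : s * l ^ 2 = 1 := by rw [hs]; field_simp
    set κ2 := 2 * (1 / (32 * (l + w) ^ 2)) with hκ2
    have hκ2a : s / 64 ≤ κ2 := by
      have h1 : (l + w) ^ 2 ≤ (2 * l) ^ 2 := pow_le_pow_left₀ (by positivity) hlw2 2
      have e : κ2 = 1 / (16 * (l + w) ^ 2) := by rw [hκ2]; field_simp; norm_num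
      rw [e, hs, div_div, div_le_div_iff₀ (by positivity) (by positivity)]
      nlinarith
    have hκ2b : κ2 ≤ s / 16 := by
      have h1 : l ^ 2 ≤ (l + w) ^ 2 := pow_le_pow_left₀ (by positivity) (by linarith) 2
      have e : κ2 = 1 / (16 * (l + w) ^ 2) := by rw [hκ2]; field_simp; norm_num
      rw [e, hs, div_div, div_le_div_iff₀ (by positivity) (by positivity)]
      nlinarith
    have hκ2p : 0 < κ2 := by positivity
    have hτβ : τ * beta l = s ^ 3 := by
      have : s ^ 3 = 1 / l ^ 6 := by rw [hs]; field_simp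
      rw [this, eq_div_iff (by positivity)]; exact hl6
    have hw2 : 2 / w ^ 2 = 20000 * s ^ 3 := by
      rw [hw, hs]; field_simp; norm_num
    have hH : (l + w) / w + 1 = 100 * s + 2 := by
      rw [hw, hs]; field_simp; ring
    have hM : ((l + w) / w + 1) * (2 * μ + κ2 + 2 / w ^ 2) / (τ * beta l) ≤ 2100000 * (μ + s) := by
      rw [hH, hw2, hτβ, div_le_iff₀ (by positivity)]
      have h1 : 100 * s + 2 ≤ 101 * s := by linarith
      have h2 : 2 * μ + κ2 + 20000 * s ^ 3 ≤ 2 * μ + s / 16 + 20000 * s ^ 3 := by linarith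
      have h3 : (100 * s + 2) * (2 * μ + κ2 + 20000 * s ^ 3)
          ≤ (101 * s) * (2 * μ + s / 16 + 20000 * s ^ 3) :=
        mul_le_mul h1 h2 (by positivity) (by positivity)
      have h4 : s ≤ s ^ 3 := by
        have : s ^ 3 = s * (s * s) := by ring
        rw [this]; nlinarith
      have h5 : s * μ ≤ s ^ 3 * μ := mul_le_mul_of_nonneg_right h4 hμ
      have h6 : s * s ≤ s ^ 3 * s := mul_le_mul_of_nonneg_right h4 (by linarith)
      have h7 : 0 ≤ s ^ 3 * μ := by positivity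
      have h8 : 0 ≤ s ^ 3 * s := by positivity
      nlinarith
    have hP : τ * (∫ t in (0 : ℝ)..(l + 2 * w), beta t * t) ≤ 24 * s := by
      have ha2 : l + 2 * w ≤ 2 * l := by rw [hw]; linarith
      have h1 := integral_beta_mul_le (a := l + 2 * w) (by positivity) (by linarith)
      have h2 : beta (l + 2 * w) ≤ 3 * beta l :=
        beta_layer hl0 (by linarith) (by linarith) (by rw [hw]; linarith)
      have h3 : (l + 2 * w) ^ 4 ≤ (2 * l) ^ 4 := pow_le_pow_left₀ (by positivity) ha2 4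
      have h4 : (l + 2 * w) ^ 4 * beta (l + 2 * w) ≤ (2 * l) ^ 4 * (3 * beta l) :=
        mul_le_mul h3 h2 (beta_nonneg _) (by positivity)
      have h5 : τ * (∫ t in (0 : ℝ)..(l + 2 * w), beta t * t) ≤ τ * ((2 * l) ^ 4 * (3 * beta l) / 2) :=
        mul_le_mul_of_nonneg_left (by linarith) hτp.le
      have h6 : τ * ((2 * l) ^ 4 * (3 * beta l) / 2) = 24 * (l ^ 4 * (τ * beta l)) := by ring
      have h7 : l ^ 4 * s ^ 3 = s := by
        have : l ^ 4 * s ^ 3 = (s * l ^ 2) ^ 2 * s := by ring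
        rw [this, hsl]; ring
      rw [h6, hτβ, h7] at h5
      exact h5
    have main := star_beta h (l := l) (w := w) (μ := μ) (τ := τ) hl0 hw0
      (by have : l + 2 * w ≤ 3 * l := by linarith
          linarith) hμ hτp hM hP (N := 2100200 * (μ + s)) (by rw [hH]; nlinarith)
    rw [← hκ2] at main
    set m := μ + κ2 with hm
    have hm0 : 0 < m := by positivity
    have hm1 : 1 / 16 ≤ m := by rw [hm]; linarith
    have hμs : μ + s ≤ 64 * m := by rw [hm]; linarith
    have hNm : 2100200 * (μ + s) ≤ (2 * 10 ^ 8) * m := by linarith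
    have h1 : (l + w) ^ 2 ≤ 1 := by
      apply pow_le_one₀ (by positivity); linarith
    have h2 : (2100200 * (μ + s)) ^ 2 / m ≤ (2 * 10 ^ 8) ^ 2 * m := by
      rw [div_le_iff₀ hm0]
      have := pow_le_pow_left₀ (by positivity) hNm 2
      calc (2100200 * (μ + s)) ^ 2 ≤ ((2 * 10 ^ 8) * m) ^ 2 := this
        _ = _ := by ring
    have h3 : m * IA a b ≤ 16 * (1 + (2 * 10 ^ 8) ^ 2 * m) * IF a b e g μ τ := by
      have := mul_le_mul_of_nonneg_right
        (by linarith : 16 * ((l + w) ^ 2 + (2100200 * (μ + s)) ^ 2 / m)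
          ≤ 16 * (1 + (2 * 10 ^ 8) ^ 2 * m)) hIF
      linarith
    have h4 : IA a b ≤ 16 * (16 + (2 * 10 ^ 8) ^ 2) * IF a b e g μ τ := by
      have h5 : 16 * (1 + (2 * 10 ^ 8) ^ 2 * m) * IF a b e g μ τ
          ≤ m * (16 * (16 + (2 * 10 ^ 8) ^ 2) * IF a b e g μ τ) := by
        have : 16 * (1 + (2 * 10 ^ 8) ^ 2 * m) ≤ m * (16 * (16 + (2 * 10 ^ 8) ^ 2)) := by linarith
        have := mul_le_mul_of_nonneg_right this hIF
        linarith
      exact le_of_mul_le_mul_left (le_trans h3 h5) hm0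
    have h5 : 0 ≤ 64 * (16 * (4 + 64 * N0 ^ 2)) * IF a b e g μ τ := by positivity
    linarith

end Pool.Agent.Helper34
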