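import Mathlib

/-! # Abstract damped wave equation `u'' + A u + B u' = 0` in a Hilbert space with a Hilbert basis
diagonalising `A`: energy identity and uniqueness. -/

namespace Pool.Agent.Helper34

open MeasureTheory Set intervalIntegral

open scoped ComplexConjugate InnerProductSpace

variable {ι : Type*} {H : Type*} [NormedAddCommGroup H] [InnerProductSpace ℂ H]

/-- finite energy weak solution of `u'' + A u + B u' = 0`, `A e_i = w2 i • e_i`, `v = u'`. -/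
structure WSol (e : HilbertBasis ι ℂ H) (w2 : ι → ℝ) (B : H →L[ℂ] H) (u v : ℝ → H) : Prop where
  cv : ContinuousOn v (Ici 0)
  du : ∀ t, 0 ≤ t → HasDerivWithinAt u (v t) (Ici 0) t
  h1 : ∀ t, 0 ≤ t → Summable fun i => w2 i * ‖⟪e i, u t⟫_ℂ‖ ^ 2
  dv : ∀ i, ∀ t, 0 ≤ t → HasDerivWithinAt (fun s => ⟪e i, v s⟫_ℂ)
    (-((w2 i : ℂ) * ⟪e i, u t⟫_ℂ) - ⟪e i, B (v t)⟫_ℂ) (Ici 0) t

/-- energy (twice the usual one) -/
noncomputable def En (e : HilbertBasis ι ℂ H) (w2 : ι → ℝ) (x y : H) : ℝ :=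
  ∑' i, w2 i * ‖⟪e i, x⟫_ℂ‖ ^ 2 + ‖y‖ ^ 2

lemma parseval (e : HilbertBasis ι ℂ H) (x : H) : HasSum (fun i => ‖⟪e i, x⟫_ℂ‖ ^ 2) (‖x‖ ^ 2) := by
  have h := e.hasSum_inner_mul_inner x x
  have key : ∀ i, ⟪x, e i⟫_ℂ * ⟪e i, x⟫_ℂ = (((‖⟪e i, x⟫_ℂ‖ ^ 2 : ℝ)) : ℂ) := by
    intro i
    rw [← inner_conj_symm x (e i), Complex.conj_mul']
    simp
  have key2 : ⟪x, x⟫_ℂ = (((‖x‖ ^ 2 : ℝ)) : ℂ) := by
    rw [inner_self_eq_norm_sq_to_K]; simp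
  simp only [key] at h
  rw [key2] at h
  exact_mod_cast h

lemma inner_hasSum (e : HilbertBasis ι ℂ H) (x y : H) :
    HasSum (fun i => conj ⟪e i, x⟫_ℂ * ⟪e i, y⟫_ℂ) ⟪x, y⟫_ℂ := by
  have h := e.hasSum_inner_mul_inner x y
  have key : ∀ i, ⟪x, e i⟫_ℂ = conj ⟪e i, x⟫_ℂ := by
    intro i
    rw [inner_conj_symm]
  simp only [key] at h
  exact h

variable {e : HilbertBasis ι ℂ H} {w2 : ι → ℝ} {B : H →L[ℂ] H} {u v : ℝ → H}

lemma WSol.cu (h : WSol e w2 B u v) : ContinuousOn u (Ici 0) :=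
  fun t ht => (h.du t ht).continuousWithinAt

lemma WSol.cBv (h : WSol e w2 B u v) : ContinuousOn (fun t => B (v t)) (Ici 0) :=
  B.continuous.comp_continuousOn h.cv

lemma WSol.mode_deriv (h : WSol e w2 B u v) (i : ι) {t : ℝ} (ht : 0 ≤ t) :
    HasDerivWithinAt (fun s => w2 i * ‖⟪e i, u s⟫_ℂ‖ ^ 2 + ‖⟪e i, v s⟫_ℂ‖ ^ 2)
      (-(2 * (conj ⟪e i, v t⟫_ℂ * ⟪e i, B (v t)⟫_ℂ).re)) (Ici 0) t := by
  have hu : HasDerivWithinAt (fun s => ⟪e i, u s⟫_ℂ) (⟪e i, v t⟫_ℂ) (Ici 0) t :=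
    ((hasDerivWithinAt_const t _ (e i)).inner ℂ (h.du t ht)).congr_deriv (by simp)
  have h1 := (hu.norm_sq).const_mul (w2 i)
  have h2 := (h.dv i t ht).norm_sq
  refine (h1.add h2).congr_deriv ?_
  simp only [Complex.inner]
  set a := ⟪e i, u t⟫_ℂ
  set b := ⟪e i, v t⟫_ℂ
  set c := ⟪e i, B (v t)⟫_ℂ
  simp [Complex.mul_re]
  ring

lemma ftc_Ici {E : Type*} [NormedAddCommGroup E] [NormedSpace ℝ E] [CompleteSpace E]
    {f f' : ℝ → E} (hf : ∀ t, 0 ≤ t → HasDerivWithinAt f (f' t) (Ici 0) t)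
    (hc : ContinuousOn f' (Ici 0)) {s t : ℝ} (hs : 0 ≤ s) (hst : s ≤ t) :
    ∫ r in s..t, f' r = f t - f s := by
  apply intervalIntegral.integral_eq_sub_of_hasDerivAt_of_le hst
  · intro r hr
    exact ((hf r (hs.trans hr.1)).continuousWithinAt).mono (fun x hx => hs.trans hx.1)
  · intro r hr
    exact (hf r (hs.trans hr.1.le)).hasDerivAt (Ici_mem_nhds (lt_of_le_of_lt hs hr.1))
  · apply ContinuousOn.intervalIntegrable
    rw [uIcc_of_le hst]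
    exact hc.mono (fun x hx => hs.trans hx.1)

/-- **Energy identity** -/
lemma WSol.energy [Countable ι] (h : WSol e w2 B u v) {s t : ℝ} (hs : 0 ≤ s) (hst : s ≤ t) :
    En e w2 (u t) (v t) = En e w2 (u s) (v s) - 2 * ∫ r in s..t, (⟪v r, B (v r)⟫_ℂ).re := by
  have ht : 0 ≤ t := hs.trans hst
  have hsub : uIcc s t ⊆ Ici 0 := by
    rw [uIcc_of_le hst]; exact fun x hx => hs.trans hx.1
  have hcc : ∀ i, ContinuousOn (fun r => (conj ⟪e i, v r⟫_ℂ * ⟪e i, B (v r)⟫_ℂ).re) (Ici 0) := by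
    intro i
    have h1 : ContinuousOn (fun r => ⟪e i, v r⟫_ℂ) (Ici 0) :=
      (innerSL ℂ (e i)).continuous.comp_continuousOn h.cv
    have h2 : ContinuousOn (fun r => ⟪e i, B (v r)⟫_ℂ) (Ici 0) :=
      (innerSL ℂ (e i)).continuous.comp_continuousOn h.cBv
    have h3 : ContinuousOn (fun r => conj ⟪e i, v r⟫_ℂ) (Ici 0) :=
      Complex.continuous_conj.comp_continuousOn h1
    exact Complex.continuous_re.comp_continuousOn (h3.mul h2)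
  -- per mode
  have hmode : ∀ i, w2 i * ‖⟪e i, u t⟫_ℂ‖ ^ 2 + ‖⟪e i, v t⟫_ℂ‖ ^ 2
      = (w2 i * ‖⟪e i, u s⟫_ℂ‖ ^ 2 + ‖⟪e i, v s⟫_ℂ‖ ^ 2)
        - 2 * ∫ r in s..t, (conj ⟪e i, v r⟫_ℂ * ⟪e i, B (v r)⟫_ℂ).re := by
    intro i
    have h1 := ftc_Ici (fun t ht => h.mode_deriv i ht) (((hcc i).const_smul (2:ℝ)).neg) hs hst
    rw [intervalIntegral.integral_neg, intervalIntegral.integral_const_mul] at h1
    linarith
  -- sums
  have hsumt : HasSum (fun i => w2 i * ‖⟪e i, u t⟫_ℂ‖ ^ 2 + ‖⟪e i, v t⟫_ℂ‖ ^ 2)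
      (En e w2 (u t) (v t)) := (h.h1 t ht).hasSum.add (parseval e (v t))
  have hsums : HasSum (fun i => w2 i * ‖⟪e i, u s⟫_ℂ‖ ^ 2 + ‖⟪e i, v s⟫_ℂ‖ ^ 2)
      (En e w2 (u s) (v s)) := (h.h1 s hs).hasSum.add (parseval e (v s))
  have hint : HasSum (fun i => ∫ r in s..t, (conj ⟪e i, v r⟫_ℂ * ⟪e i, B (v r)⟫_ℂ).re)
      (∫ r in s..t, (⟪v r, B (v r)⟫_ℂ).re) := by
    apply intervalIntegral.hasSum_integral_of_dominated_convergence
      (fun i r => (‖⟪e i, v r⟫_ℂ‖ ^ 2 + ‖⟪e i, B (v r)⟫_ℂ‖ ^ 2))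
    · intro i
      apply ContinuousOn.aestronglyMeasurable _ measurableSet_uIoc
      exact (hcc i).mono (uIoc_subset_uIcc.trans hsub)
    · intro i
      refine Filter.Eventually.of_forall fun r _ => ?_
      rw [Real.norm_eq_abs]
      refine (Complex.abs_re_le_norm _).trans ?_
      rw [norm_mul, RCLike.norm_conj]
      nlinarith [sq_nonneg (‖⟪e i, v r⟫_ℂ‖ - ‖⟪e i, B (v r)⟫_ℂ‖), sq_nonneg (‖⟪e i, v r⟫_ℂ‖),
        sq_nonneg (‖⟪e i, B (v r)⟫_ℂ‖)]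
    · refine Filter.Eventually.of_forall fun r _ => ?_
      exact ((parseval e (v r)).add (parseval e (B (v r)))).summable
    · have : (fun r => ∑' i, (‖⟪e i, v r⟫_ℂ‖ ^ 2 + ‖⟪e i, B (v r)⟫_ℂ‖ ^ 2))
          = fun r => ‖v r‖ ^ 2 + ‖B (v r)‖ ^ 2 := by
        funext r
        exact ((parseval e (v r)).add (parseval e (B (v r)))).tsum_eq
      rw [this]
      apply ContinuousOn.intervalIntegrable
      exact ((h.cv.norm.pow 2).add (h.cBv.norm.pow 2)).mono hsub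
    · refine Filter.Eventually.of_forall fun r _ => ?_
      exact Complex.hasSum_re (inner_hasSum e (v r) (B (v r)))
  have hfin := (hsums.sub (hint.mul_left 2))
  have heq : (fun i => (w2 i * ‖⟪e i, u s⟫_ℂ‖ ^ 2 + ‖⟪e i, v s⟫_ℂ‖ ^ 2)
        - 2 * ∫ r in s..t, (conj ⟪e i, v r⟫_ℂ * ⟪e i, B (v r)⟫_ℂ).re)
      = fun i => w2 i * ‖⟪e i, u t⟫_ℂ‖ ^ 2 + ‖⟪e i, v t⟫_ℂ‖ ^ 2 := by
    funext i; rw [hmode i]
  rw [heq] at hfin
  exact hsumt.unique hfin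

lemma WSol.energy_antitone [Countable ι] (h : WSol e w2 B u v)
    (hB : ∀ x, 0 ≤ (⟪x, B x⟫_ℂ).re) {s t : ℝ} (hs : 0 ≤ s) (hst : s ≤ t) :
    En e w2 (u t) (v t) ≤ En e w2 (u s) (v s) := by
  rw [h.energy hs hst]
  have : 0 ≤ ∫ r in s..t, (⟪v r, B (v r)⟫_ℂ).re :=
    intervalIntegral.integral_nonneg hst fun r _ => hB _
  linarith

lemma En_nonneg (hw : ∀ i, 0 ≤ w2 i) (x y : H) : 0 ≤ En e w2 x y := by
  unfold En
  have : 0 ≤ ∑' i, w2 i * ‖⟪e i, x⟫_ℂ‖ ^ 2 := tsum_nonneg fun i => by have := hw i; positivity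
  positivity

lemma norm_sq_le_En (hw : ∀ i, 0 ≤ w2 i) (x y : H) : ‖y‖ ^ 2 ≤ En e w2 x y := by
  unfold En
  have : 0 ≤ ∑' i, w2 i * ‖⟪e i, x⟫_ℂ‖ ^ 2 := tsum_nonneg fun i => by have := hw i; positivity
  linarith

lemma summable_w2_sub {e : HilbertBasis ι ℂ H} {w2 : ι → ℝ} (hw : ∀ i, 0 ≤ w2 i) {x y : H}
    (hx : Summable fun i => w2 i * ‖⟪e i, x⟫_ℂ‖ ^ 2)
    (hy : Summable fun i => w2 i * ‖⟪e i, y⟫_ℂ‖ ^ 2) :
    Summable fun i => w2 i * ‖⟪e i, x - y⟫_ℂ‖ ^ 2 := by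
  refine Summable.of_nonneg_of_le (fun i => by have := hw i; positivity) (fun i => ?_)
    ((hx.mul_left 2).add (hy.mul_left 2))
  rw [inner_sub_right]
  have h1 : ‖⟪e i, x⟫_ℂ - ⟪e i, y⟫_ℂ‖ ≤ ‖⟪e i, x⟫_ℂ‖ + ‖⟪e i, y⟫_ℂ‖ := norm_sub_le _ _
  have h2 : ‖⟪e i, x⟫_ℂ - ⟪e i, y⟫_ℂ‖ ^ 2 ≤ 2 * ‖⟪e i, x⟫_ℂ‖ ^ 2 + 2 * ‖⟪e i, y⟫_ℂ‖ ^ 2 := by
    have h3 := pow_le_pow_left₀ (norm_nonneg _) h1 2
    nlinarith [sq_nonneg (‖⟪e i, x⟫_ℂ‖ - ‖⟪e i, y⟫_ℂ‖)]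
  have := mul_le_mul_of_nonneg_left h2 (hw i)
  linarith

lemma WSol.sub (hw : ∀ i, 0 ≤ w2 i) {u' v' : ℝ → H} (h : WSol e w2 B u v)
    (h' : WSol e w2 B u' v') :
    WSol e w2 B (fun t => u t - u' t) (fun t => v t - v' t) where
  cv := h.cv.sub h'.cv
  du := fun t ht => (h.du t ht).sub (h'.du t ht)
  h1 := fun t ht => summable_w2_sub hw (h.h1 t ht) (h'.h1 t ht)
  dv := by
    intro i t ht
    have := (h.dv i t ht).sub (h'.dv i t ht)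
    simp only [inner_sub_right, map_sub]
    refine this.congr_deriv ?_
    ring

/-- **Uniqueness** -/
lemma WSol.unique [Countable ι] [CompleteSpace H] (hw : ∀ i, 0 ≤ w2 i) (hB : ∀ x, 0 ≤ (⟪x, B x⟫_ℂ).re)
    {u' v' : ℝ → H} (h : WSol e w2 B u v)
    (h' : WSol e w2 B u' v') (hu : u 0 = u' 0) (hv : v 0 = v' 0) {t : ℝ} (ht : 0 ≤ t) :
    u t = u' t ∧ v t = v' t := by
  have hs := h.sub hw h'
  have hv0 : ∀ r, 0 ≤ r → v r - v' r = 0 := by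
    intro r hr
    have h1 := hs.energy_antitone hB le_rfl hr
    have h2 : En e w2 (u 0 - u' 0) (v 0 - v' 0) = 0 := by
      rw [hu, hv, sub_self, sub_self]; simp [En]
    have h3 := norm_sq_le_En (e := e) hw (u r - u' r) (v r - v' r)
    have h4 : ‖v r - v' r‖ ^ 2 ≤ 0 := by linarith
    have h5 : ‖v r - v' r‖ = 0 := by nlinarith [norm_nonneg (v r - v' r)]
    exact norm_eq_zero.1 h5
  constructor
  · have := ftc_Ici (f := fun t => u t - u' t) (f' := fun t => v t - v' t) hs.du hs.cv le_rfl ht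
    have h0 : ∫ r in (0 : ℝ)..t, (v r - v' r) = 0 := by
      rw [← intervalIntegral.integral_zero (a := (0 : ℝ)) (b := t) (E := H)]
      apply intervalIntegral.integral_congr
      intro r hr
      rw [uIcc_of_le ht] at hr
      exact hv0 r hr.1
    rw [h0, hu, sub_self, sub_zero] at this
    exact (sub_eq_zero.1 this.symm)
  · exact sub_eq_zero.1 (hv0 t ht)

end Pool.Agent.Helper34
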