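import Pool.Agent.Helper34.DW5

/-! # Global existence for linear ODEs with strongly continuous bounded coefficients. -/

namespace Pool.Agent.Helper34

open MeasureTheory Set intervalIntegral Filter Topology

open scoped BoundedContinuousFunction

variable {E : Type*} [NormedAddCommGroup E] [NormedSpace ℝ E]

lemma continuous_apply_strong (A : ℝ → E →L[ℝ] E) {C : ℝ} (hC : ∀ t, ‖A t‖ ≤ C)
    (hA : ∀ x, Continuous fun t => A t x) {z : ℝ → E} (hz : Continuous z) :
    Continuous fun t => A t (z t) := by
  rw [continuous_iff_continuousAt]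
  intro t0
  have h1 : Tendsto (fun t => A t (z t - z t0)) (𝓝 t0) (𝓝 0) := by
    apply squeeze_zero_norm (a := fun t => C * ‖z t - z t0‖)
    · intro t
      exact ((A t).le_opNorm _).trans (mul_le_mul_of_nonneg_right (hC t) (norm_nonneg _))
    · have : Tendsto (fun t => C * ‖z t - z t0‖) (𝓝 t0) (𝓝 (C * ‖z t0 - z t0‖)) :=
        ((hz.tendsto t0).sub_const (z t0)).norm.const_mul C
      simpa using this
  have h2 : Tendsto (fun t => A t (z t0)) (𝓝 t0) (𝓝 (A t0 (z t0))) := (hA (z t0)).tendsto t0
  have h3 := h1.add h2
  simp only [map_sub, sub_add_cancel, zero_add] at h3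
  exact h3

/-- weighted Volterra operator -/
lemma linODE [CompleteSpace E] (A : ℝ → E →L[ℝ] E) {C : ℝ} (hC0 : 0 ≤ C) (hC : ∀ t, ‖A t‖ ≤ C)
    (hA : ∀ x, Continuous fun t => A t x) (x0 : E) :
    ∃ z : ℝ → E, Continuous z ∧ z 0 = x0 ∧
      ∀ t, 0 ≤ t → HasDerivWithinAt z (A t (z t)) (Ici 0) t := by
  set L := C + 1 with hL
  have hLpos : 0 < L := by positivity
  -- the integral part
  let J : (ℝ →ᵇ E) → ℝ → E := fun z p => ∫ s in (0 : ℝ)..p, Real.exp (-(L * (p - s))) • A s (z s)
  have hcont : ∀ z : ℝ →ᵇ E, Continuous fun s => A s (z s) := fun z =>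
    continuous_apply_strong A hC hA z.continuous
  have hJ : ∀ z p, J z p = Real.exp (-(L * p)) • ∫ s in (0 : ℝ)..p, Real.exp (L * s) • A s (z s) := by
    intro z p
    simp only [J]
    rw [← intervalIntegral.integral_smul]
    apply intervalIntegral.integral_congr
    intro s _
    simp only []
    rw [smul_smul, ← Real.exp_add]
    congr 2
    ring
  have hJc : ∀ z : ℝ →ᵇ E, Continuous (J z) := by
    intro z
    have e : J z = fun p => Real.exp (-(L * p)) • ∫ s in (0 : ℝ)..p, Real.exp (L * s) • A s (z s) :=
      funext fun p => hJ z p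
    rw [e]
    apply Continuous.smul (by fun_prop)
    apply intervalIntegral.continuous_primitive
    intro a b
    exact (Continuous.smul (by fun_prop) (hcont z)).intervalIntegrable _ _
  -- norm bounds
  have hexpint : ∀ p, 0 ≤ p → ∫ s in (0 : ℝ)..p, Real.exp (-(L * (p - s))) ≤ 1 / L := by
    intro p hp
    have h1 : ∀ s, HasDerivAt (fun s => Real.exp (-(L * (p - s))) / L) (Real.exp (-(L * (p - s)))) s := by
      intro s
      have h2 : HasDerivAt (fun s => -(L * (p - s))) L s := by
        have := (((hasDerivAt_id s).const_sub p).const_mul L).neg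
        exact this.congr_deriv (by simp)
      have h3 := (h2.exp).div_const L
      refine h3.congr_deriv ?_
      field_simp
    have h4 := intervalIntegral.integral_eq_sub_of_hasDerivAt (a := 0) (b := p)
      (fun s _ => h1 s) (Continuous.intervalIntegrable (by fun_prop) _ _)
    rw [h4]
    simp only [sub_self, mul_zero, neg_zero, Real.exp_zero, sub_zero]
    have : 0 ≤ Real.exp (-(L * p)) / L := by positivity
    linarith
  have hbound : ∀ (z : ℝ → E) (D : ℝ), Continuous (fun s => A s (z s)) → (∀ s, ‖z s‖ ≤ D) → 0 ≤ D →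
      ∀ p, 0 ≤ p → ‖∫ s in (0 : ℝ)..p, Real.exp (-(L * (p - s))) • A s (z s)‖ ≤ C / L * D := by
    intro z D hz hzD hD p hp
    have h1 : ‖∫ s in (0 : ℝ)..p, Real.exp (-(L * (p - s))) • A s (z s)‖
        ≤ ∫ s in (0 : ℝ)..p, Real.exp (-(L * (p - s))) * (C * D) := by
      apply intervalIntegral.norm_integral_le_of_norm_le hp
      · refine Eventually.of_forall fun s _ => ?_
        rw [norm_smul, Real.norm_eq_abs, abs_of_pos (Real.exp_pos _)]
        apply mul_le_mul_of_nonneg_left _ (Real.exp_pos _).le
        exact ((A s).le_opNorm _).trans (mul_le_mul (hC s) (hzD s) (norm_nonneg _) hC0)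
      · exact Continuous.intervalIntegrable (by fun_prop) _ _
    rw [intervalIntegral.integral_mul_const] at h1
    calc _ ≤ (∫ s in (0 : ℝ)..p, Real.exp (-(L * (p - s)))) * (C * D) := h1
      _ ≤ 1 / L * (C * D) := mul_le_mul_of_nonneg_right (hexpint p hp) (by positivity)
      _ = C / L * D := by ring
  -- the map
  have hFc : ∀ z : ℝ →ᵇ E, Continuous fun t : ℝ =>
      Real.exp (-(L * max t 0)) • x0 + J z (max t 0) := by
    intro z
    have hm : Continuous fun t : ℝ => max t 0 := continuous_id.max continuous_const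
    exact (Continuous.smul (by fun_prop) continuous_const).add ((hJc z).comp hm)
  let F : (ℝ →ᵇ E) → (ℝ →ᵇ E) := fun z =>
    BoundedContinuousFunction.ofNormedAddCommGroup
      (fun t : ℝ => Real.exp (-(L * max t 0)) • x0 + J z (max t 0)) (hFc z)
      (‖x0‖ + C / L * ‖z‖) (by
        intro t
        have hp : 0 ≤ max t 0 := le_max_right _ _
        refine (norm_add_le _ _).trans (add_le_add ?_ ?_)
        · rw [norm_smul, Real.norm_eq_abs, abs_of_pos (Real.exp_pos _)]
          apply mul_le_of_le_one_left (norm_nonneg _)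
          rw [Real.exp_le_one_iff]
          have : 0 ≤ L * max t 0 := by positivity
          linarith
        · exact hbound z ‖z‖ (hcont z) (fun s => z.norm_coe_le_norm s) (norm_nonneg _) _ hp)
  have hFapp : ∀ z t, F z t = Real.exp (-(L * max t 0)) • x0 + J z (max t 0) := fun z t => rfl
  have hCL : C / L < 1 := by rw [div_lt_one hLpos]; linarith
  have hcontr : ContractingWith (⟨C / L, by positivity⟩ : NNReal) F := by
    refine ⟨by exact_mod_cast hCL, ?_⟩
    apply LipschitzWith.of_dist_le_mul
    intro z z'
    rw [BoundedContinuousFunction.dist_le (by positivity)]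
    intro t
    have hp : 0 ≤ max t 0 := le_max_right _ _
    rw [hFapp, hFapp, dist_add_left, dist_eq_norm]
    have h1 : J z (max t 0) - J z' (max t 0)
        = ∫ s in (0 : ℝ)..(max t 0), Real.exp (-(L * (max t 0 - s))) • A s ((z - z') s) := by
      simp only [J]
      rw [← intervalIntegral.integral_sub]
      · apply intervalIntegral.integral_congr
        intro s _
        simp only [BoundedContinuousFunction.coe_sub, Pi.sub_apply, map_sub, smul_sub]
      · exact (Continuous.smul (by fun_prop) (hcont z)).intervalIntegrable _ _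
      · exact (Continuous.smul (by fun_prop) (hcont z')).intervalIntegrable _ _
    rw [h1]
    have := hbound (z - z' : ℝ →ᵇ E) ‖z - z'‖ (hcont (z - z'))
      (fun s => (z - z').norm_coe_le_norm s) (norm_nonneg _) _ hp
    rw [dist_eq_norm z z']
    exact this
  obtain ⟨z, hz⟩ : ∃ z, F z = z := ⟨_, hcontr.fixedPoint_isFixedPt⟩
  have hzt : ∀ t, 0 ≤ t → Real.exp (L * t) • z t
      = x0 + ∫ s in (0 : ℝ)..t, A s (Real.exp (L * s) • z s) := by
    intro t ht
    have h1 : z t = Real.exp (-(L * t)) • x0 + J z t := by
      conv_lhs => rw [← hz]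
      rw [hFapp, max_eq_left ht]
    rw [h1, hJ, ← smul_add, smul_smul, ← Real.exp_add]
    simp only [add_neg_cancel, Real.exp_zero, one_smul]
    congr 1
    apply intervalIntegral.integral_congr
    intro s _
    simp only [map_smul]
  have hAc : Continuous fun s => A s (Real.exp (L * s) • z s) :=
    continuous_apply_strong A hC hA (Continuous.smul (by fun_prop) z.continuous)
  refine ⟨fun t => Real.exp (L * t) • z t, Continuous.smul (by fun_prop) z.continuous, ?_, ?_⟩
  · have := hzt 0 le_rfl
    simpa using this
  · intro t ht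
    have h1 : HasDerivAt (fun t => x0 + ∫ s in (0 : ℝ)..t, A s (Real.exp (L * s) • z s))
        (A t (Real.exp (L * t) • z t)) t := by
      have := intervalIntegral.integral_hasDerivAt_right (hAc.intervalIntegrable 0 t)
        (hAc.stronglyMeasurableAtFilter _ _) hAc.continuousAt
      simpa using this.const_add x0
    refine h1.hasDerivWithinAt.congr ?_ ?_
    · intro s hs
      exact hzt s hs
    · exact hzt t ht

end Pool.Agent.Helper34
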