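import Pool.Agent.Helper34.DW6

/-! # Existence of finite energy solutions of the abstract damped wave equation. -/

namespace Pool.Agent.Helper34

open MeasureTheory Set intervalIntegral Filter Topology

open scoped ComplexConjugate InnerProductSpace

variable {ι : Type*} {H : Type*} [NormedAddCommGroup H] [InnerProductSpace ℂ H]

lemma coord_ext (e : HilbertBasis ι ℂ H) {x y : H} (h : ∀ i, ⟪e i, x⟫_ℂ = ⟪e i, y⟫_ℂ) : x = y := by
  apply e.repr.injective
  ext i
  rw [e.repr_apply_apply, e.repr_apply_apply]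
  exact h i

/-- a vector with prescribed square-summable coordinates -/
lemma exists_of_coords (e : HilbertBasis ι ℂ H) (a : ι → ℂ) (ha : Summable fun i => ‖a i‖ ^ 2) :
    ∃ x : H, ∀ i, ⟪e i, x⟫_ℂ = a i := by
  have hm : Memℓp a 2 := by
    apply memℓp_gen
    simpa using ha
  refine ⟨e.repr.symm ⟨a, hm⟩, fun i => ?_⟩
  rw [← e.repr_apply_apply]
  simp

lemma summable_diag (e : HilbertBasis ι ℂ H) (d : ι → ℝ) (hd : ∀ i, |d i| ≤ 1) (x : H) :
    Summable fun i => ‖(d i : ℂ) * ⟪e i, x⟫_ℂ‖ ^ 2 := by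
  refine Summable.of_nonneg_of_le (fun i => by positivity) (fun i => ?_) (parseval e x).summable
  rw [norm_mul, mul_pow]
  apply mul_le_of_le_one_left (by positivity)
  apply pow_le_one₀ (norm_nonneg _)
  rw [Complex.norm_real]
  exact hd i

/-- the diagonal operator -/
noncomputable def diagFun (e : HilbertBasis ι ℂ H) (d : ι → ℝ) (hd : ∀ i, |d i| ≤ 1) (x : H) : H :=
  (exists_of_coords e (fun i => (d i : ℂ) * ⟪e i, x⟫_ℂ) (summable_diag e d hd x)).choose

lemma diagFun_coord (e : HilbertBasis ι ℂ H) (d : ι → ℝ) (hd : ∀ i, |d i| ≤ 1) (x : H) (i : ι) :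
    ⟪e i, diagFun e d hd x⟫_ℂ = (d i : ℂ) * ⟪e i, x⟫_ℂ :=
  (exists_of_coords e (fun i => (d i : ℂ) * ⟪e i, x⟫_ℂ) (summable_diag e d hd x)).choose_spec i

lemma diagFun_norm (e : HilbertBasis ι ℂ H) (d : ι → ℝ) (hd : ∀ i, |d i| ≤ 1) (x : H) :
    ‖diagFun e d hd x‖ ≤ ‖x‖ := by
  have h1 := parseval e (diagFun e d hd x)
  have h2 := parseval e x
  have h3 : ‖diagFun e d hd x‖ ^ 2 ≤ ‖x‖ ^ 2 := by
    apply hasSum_le _ h1 h2
    intro i
    rw [diagFun_coord, norm_mul, mul_pow]
    apply mul_le_of_le_one_left (by positivity)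
    apply pow_le_one₀ (norm_nonneg _)
    rw [Complex.norm_real]
    exact hd i
  exact le_of_sq_le_sq h3 (norm_nonneg _) |>.trans le_rfl

/-- the diagonal operator as a continuous linear map -/
noncomputable def diagOp (e : HilbertBasis ι ℂ H) (d : ι → ℝ) (hd : ∀ i, |d i| ≤ 1) : H →L[ℂ] H :=
  LinearMap.mkContinuous
    { toFun := diagFun e d hd
      map_add' := by
        intro x y
        apply coord_ext e
        intro i
        rw [inner_add_right, diagFun_coord, diagFun_coord, diagFun_coord, inner_add_right, mul_add]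
      map_smul' := by
        intro c x
        apply coord_ext e
        intro i
        simp only [RingHom.id_apply]
        rw [inner_smul_right, diagFun_coord, diagFun_coord, inner_smul_right]
        ring } 1 (by
    intro x
    rw [one_mul]
    exact diagFun_norm e d hd x)

lemma diagOp_coord (e : HilbertBasis ι ℂ H) (d : ι → ℝ) (hd : ∀ i, |d i| ≤ 1) (x : H) (i : ι) :
    ⟪e i, diagOp e d hd x⟫_ℂ = (d i : ℂ) * ⟪e i, x⟫_ℂ :=
  diagFun_coord e d hd x i

lemma diagOp_norm (e : HilbertBasis ι ℂ H) (d : ι → ℝ) (hd : ∀ i, |d i| ≤ 1) (x : H) :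
    ‖diagOp e d hd x‖ ≤ ‖x‖ := diagFun_norm e d hd x

lemma diagOp_continuous (e : HilbertBasis ι ℂ H) (d : ℝ → ι → ℝ) (hd : ∀ t i, |d t i| ≤ 1)
    (hc : ∀ i, Continuous fun t => d t i) (x : H) :
    Continuous fun t => diagOp e (d t) (hd t) x := by
  rw [continuous_iff_continuousAt]
  intro t0
  rw [ContinuousAt, tendsto_iff_norm_sub_tendsto_zero]
  have h1 : ∀ t, ‖diagOp e (d t) (hd t) x - diagOp e (d t0) (hd t0) x‖ ^ 2
      = ∑' i, (|d t i - d t0 i|) ^ 2 * ‖⟪e i, x⟫_ℂ‖ ^ 2 := by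
    intro t
    rw [← (parseval e _).tsum_eq]
    apply tsum_congr
    intro i
    rw [inner_sub_right, diagOp_coord, diagOp_coord, ← sub_mul, norm_mul, mul_pow,
      ← Complex.ofReal_sub, Complex.norm_real, Real.norm_eq_abs]
  have h2 : Tendsto (fun t => ∑' i, (|d t i - d t0 i|) ^ 2 * ‖⟪e i, x⟫_ℂ‖ ^ 2) (𝓝 t0)
      (𝓝 (∑' i : ι, (0 : ℝ))) := by
    apply tendsto_tsum_of_dominated_convergence (bound := fun i => 4 * ‖⟪e i, x⟫_ℂ‖ ^ 2)
    · exact (parseval e x).summable.mul_left 4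
    · intro i
      have : Tendsto (fun t => (|d t i - d t0 i|) ^ 2 * ‖⟪e i, x⟫_ℂ‖ ^ 2) (𝓝 t0)
          (𝓝 ((|d t0 i - d t0 i|) ^ 2 * ‖⟪e i, x⟫_ℂ‖ ^ 2)) :=
        (((((hc i).tendsto t0).sub_const _).abs).pow 2).mul_const _
      simpa using this
    · refine Eventually.of_forall fun t i => ?_
      rw [Real.norm_eq_abs, abs_of_nonneg (by positivity)]
      apply mul_le_mul_of_nonneg_right _ (by positivity)
      have h3 : |d t i - d t0 i| ≤ 2 := by
        have := abs_sub (d t i) (d t0 i)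
        linarith [hd t i, hd t0 i]
      have := pow_le_pow_left₀ (abs_nonneg _) h3 2
      linarith
  rw [tsum_zero] at h2
  have h3 : Tendsto (fun t => Real.sqrt (‖diagOp e (d t) (hd t) x - diagOp e (d t0) (hd t0) x‖ ^ 2))
      (𝓝 t0) (𝓝 (Real.sqrt 0)) := by
    apply (Real.continuous_sqrt.tendsto 0).comp
    simp only [h1]
    exact h2
  simpa using h3

/-- **Existence of finite energy solutions** -/
theorem exists_WSol [CompleteSpace H] (e : HilbertBasis ι ℂ H) (w2 : ι → ℝ) (hw : ∀ i, 0 ≤ w2 i)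
    (B : H →L[ℂ] H) (u0 u1 : H) (hu0 : Summable fun i => w2 i * ‖⟪e i, u0⟫_ℂ‖ ^ 2) :
    ∃ u v : ℝ → H, WSol e w2 B u v ∧ u 0 = u0 ∧ v 0 = u1 := by
  -- frequencies
  set ω : ι → ℝ := fun i => Real.sqrt (w2 i) with hω
  have hω2 : ∀ i, ω i ^ 2 = w2 i := fun i => Real.sq_sqrt (hw i)
  have hcosb : ∀ (t : ℝ) (i : ι), |Real.cos (ω i * t)| ≤ 1 := fun t i => Real.abs_cos_le_one _
  have hsinb : ∀ (t : ℝ) (i : ι), |Real.sin (ω i * t)| ≤ 1 := fun t i => Real.abs_sin_le_one _
  let Co : ℝ → H →L[ℂ] H := fun t => diagOp e (fun i => Real.cos (ω i * t)) (hcosb t)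
  let Si : ℝ → H →L[ℂ] H := fun t => diagOp e (fun i => Real.sin (ω i * t)) (hsinb t)
  have hCo : ∀ t x i, ⟪e i, Co t x⟫_ℂ = (Real.cos (ω i * t) : ℂ) * ⟪e i, x⟫_ℂ :=
    fun t x i => diagOp_coord e _ _ x i
  have hSi : ∀ t x i, ⟪e i, Si t x⟫_ℂ = (Real.sin (ω i * t) : ℂ) * ⟪e i, x⟫_ℂ :=
    fun t x i => diagOp_coord e _ _ x i
  have hCoN : ∀ t x, ‖Co t x‖ ≤ ‖x‖ := fun t x => diagOp_norm e _ _ x
  have hSiN : ∀ t x, ‖Si t x‖ ≤ ‖x‖ := fun t x => diagOp_norm e _ _ x
  have hCoC : ∀ x, Continuous fun t => Co t x := fun x =>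
    diagOp_continuous e (fun t i => Real.cos (ω i * t)) hcosb (fun i => by fun_prop) x
  have hSiC : ∀ x, Continuous fun t => Si t x := fun x =>
    diagOp_continuous e (fun t i => Real.sin (ω i * t)) hsinb (fun i => by fun_prop) x
  have hCoC' : ∀ z : ℝ → H, Continuous z → Continuous fun t => Co t (z t) := by
    intro z hz
    exact continuous_apply_strong (fun t => (Co t).restrictScalars ℝ) (C := 1)
      (fun t => ContinuousLinearMap.opNorm_le_bound _ zero_le_one
        (fun x => by rw [one_mul]; exact hCoN t x)) hCoC hz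
  have hSiC' : ∀ z : ℝ → H, Continuous z → Continuous fun t => Si t (z t) := by
    intro z hz
    exact continuous_apply_strong (fun t => (Si t).restrictScalars ℝ) (C := 1)
      (fun t => ContinuousLinearMap.opNorm_le_bound _ zero_le_one
        (fun x => by rw [one_mul]; exact hSiN t x)) hSiC hz
  -- the interaction picture generator
  let V : ℝ → (H × H) →L[ℂ] H := fun t =>
    (Co t).comp (ContinuousLinearMap.snd ℂ H H) - (Si t).comp (ContinuousLinearMap.fst ℂ H H)
  have hV : ∀ t z, V t z = Co t z.2 - Si t z.1 := fun t z => rfl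
  let A : ℝ → (H × H) →L[ℝ] (H × H) := fun t =>
    ((((Si t).comp B).comp (V t)).prod (-(((Co t).comp B).comp (V t)))).restrictScalars ℝ
  have hA : ∀ t z, A t z = (Si t (B (V t z)), -(Co t (B (V t z)))) := fun t z => rfl
  have hVn : ∀ t z, ‖V t z‖ ≤ 2 * ‖z‖ := by
    intro t z
    rw [hV]
    refine (norm_sub_le _ _).trans ?_
    have h1 := (hCoN t z.2).trans (norm_snd_le z)
    have h2 := (hSiN t z.1).trans (norm_fst_le z)
    linarith
  have hAn : ∀ t, ‖A t‖ ≤ 2 * ‖B‖ := by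
    intro t
    apply ContinuousLinearMap.opNorm_le_bound _ (by positivity)
    intro z
    rw [hA, Prod.norm_def]
    have h1 : ‖B (V t z)‖ ≤ 2 * ‖B‖ * ‖z‖ := by
      refine (B.le_opNorm _).trans ?_
      have := mul_le_mul_of_nonneg_left (hVn t z) (norm_nonneg B)
      linarith
    apply max_le
    · exact (hSiN t _).trans h1
    · simp only [norm_neg]
      exact (hCoN t _).trans h1
  have hVc : ∀ z : ℝ → H × H, Continuous z → Continuous fun t => V t (z t) := by
    intro z hz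
    simp only [hV]
    exact (hCoC' _ (continuous_snd.comp hz)).sub (hSiC' _ (continuous_fst.comp hz))
  have hAc : ∀ x, Continuous fun t => A t x := by
    intro x
    simp only [hA]
    have h1 : Continuous fun t => B (V t x) := B.continuous.comp (hVc (fun _ => x) continuous_const)
    exact (hSiC' _ h1).prodMk (hCoC' _ h1).neg
  -- initial data
  obtain ⟨p0, hp0⟩ := exists_of_coords e (fun i => (ω i : ℂ) * ⟪e i, u0⟫_ℂ) (by
    refine hu0.congr fun i => ?_
    rw [norm_mul, mul_pow, Complex.norm_real, Real.norm_eq_abs, sq_abs, hω2])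
  obtain ⟨z, hzc, hz0, hz⟩ := linODE A (by positivity) hAn hAc (p0, u1)
  -- the velocity
  set v : ℝ → H := fun t => V t (z t) with hvdef
  have hvc : Continuous v := hVc z hzc
  have hv0 : v 0 = u1 := by
    apply coord_ext e
    intro i
    simp only [v, hV, hz0, inner_sub_right, hCo, hSi]
    simp
  set u : ℝ → H := fun t => u0 + ∫ s in (0 : ℝ)..t, v s with hudef
  have hu : ∀ t, HasDerivAt u (v t) t := by
    intro t
    have := intervalIntegral.integral_hasDerivAt_right (hvc.intervalIntegrable 0 t)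
      (hvc.stronglyMeasurableAtFilter _ _) hvc.continuousAt
    exact this.const_add u0
  have hu00 : u 0 = u0 := by simp [hudef]
  -- coordinates
  have hP : ∀ i t, 0 ≤ t → HasDerivWithinAt (fun s => ⟪e i, (z s).1⟫_ℂ)
      ((Real.sin (ω i * t) : ℂ) * ⟪e i, B (v t)⟫_ℂ) (Ici 0) t := by
    intro i t ht
    have h1 : HasDerivWithinAt (fun s => (z s).1) (Si t (B (v t))) (Ici 0) t := by
      have := (hz t ht)
      rw [hA] at this
      exact this.fst
    have := ((hasDerivWithinAt_const t _ (e i)).inner ℂ h1)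
    refine this.congr_deriv ?_
    rw [hSi]; simp
  have hW : ∀ i t, 0 ≤ t → HasDerivWithinAt (fun s => ⟪e i, (z s).2⟫_ℂ)
      (-((Real.cos (ω i * t) : ℂ) * ⟪e i, B (v t)⟫_ℂ)) (Ici 0) t := by
    intro i t ht
    have h1 : HasDerivWithinAt (fun s => (z s).2) (-(Co t (B (v t)))) (Ici 0) t := by
      have := (hz t ht)
      rw [hA] at this
      exact this.snd
    have := ((hasDerivWithinAt_const t _ (e i)).inner ℂ h1)
    refine this.congr_deriv ?_
    rw [inner_neg_right, hCo]; simp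
  have hcosd : ∀ i t, HasDerivAt (fun t : ℝ => (Real.cos (ω i * t) : ℂ))
      (-((ω i : ℂ) * (Real.sin (ω i * t) : ℂ))) t := by
    intro i t
    have h1 : HasDerivAt (fun t => Real.cos (ω i * t)) (-Real.sin (ω i * t) * ω i) t := by
      have := ((hasDerivAt_id t).const_mul (ω i)).cos
      simpa using this
    have := h1.ofReal_comp
    refine this.congr_deriv ?_
    push_cast; ring
  have hsind : ∀ i t, HasDerivAt (fun t : ℝ => (Real.sin (ω i * t) : ℂ))
      ((ω i : ℂ) * (Real.cos (ω i * t) : ℂ)) t := by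
    intro i t
    have h1 : HasDerivAt (fun t => Real.sin (ω i * t)) (Real.cos (ω i * t) * ω i) t := by
      have := ((hasDerivAt_id t).const_mul (ω i)).sin
      simpa using this
    have := h1.ofReal_comp
    refine this.congr_deriv ?_
    push_cast; ring
  -- p = cos P + sin W
  have hp : ∀ i t, 0 ≤ t → HasDerivWithinAt
      (fun s => (Real.cos (ω i * s) : ℂ) * ⟪e i, (z s).1⟫_ℂ + (Real.sin (ω i * s) : ℂ) * ⟪e i, (z s).2⟫_ℂ)
      ((ω i : ℂ) * ⟪e i, v t⟫_ℂ) (Ici 0) t := by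
    intro i t ht
    have := (((hcosd i t).hasDerivWithinAt (s := Ici 0)).mul (hP i t ht)).add
      (((hsind i t).hasDerivWithinAt (s := Ici 0)).mul (hW i t ht))
    refine this.congr_deriv ?_
    simp only [v, hV, inner_sub_right, hCo, hSi]
    ring
  have hui : ∀ i t, 0 ≤ t → HasDerivWithinAt (fun s => (ω i : ℂ) * ⟪e i, u s⟫_ℂ)
      ((ω i : ℂ) * ⟪e i, v t⟫_ℂ) (Ici 0) t := by
    intro i t ht
    have := (((hasDerivWithinAt_const t (Ici (0:ℝ)) (e i)).inner ℂ (hu t).hasDerivWithinAt)).const_mul (ω i : ℂ)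
    refine this.congr_deriv ?_
    simp
  have hpu : ∀ i t, 0 ≤ t → (Real.cos (ω i * t) : ℂ) * ⟪e i, (z t).1⟫_ℂ
      + (Real.sin (ω i * t) : ℂ) * ⟪e i, (z t).2⟫_ℂ = (ω i : ℂ) * ⟪e i, u t⟫_ℂ := by
    intro i t ht
    have hvi : ContinuousOn (fun t => (ω i : ℂ) * ⟪e i, v t⟫_ℂ) (Ici 0) := by
      apply Continuous.continuousOn
      exact continuous_const.mul (continuous_const.inner hvc)
    have h1 := ftc_Ici (hp i) hvi le_rfl ht
    have h2 := ftc_Ici (hui i) hvi le_rfl ht
    rw [h1] at h2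
    simp only [mul_zero, Real.cos_zero, Real.sin_zero, Complex.ofReal_one, Complex.ofReal_zero,
      one_mul, zero_mul, add_zero, hz0, hp0, hu00] at h2
    exact sub_left_inj.1 h2
  refine ⟨u, v, ⟨hvc.continuousOn, fun t _ => (hu t).hasDerivWithinAt, ?_, ?_⟩, hu00, hv0⟩
  · intro t ht
    have h1 := (parseval e (Co t (z t).1 + Si t (z t).2)).summable
    refine h1.congr fun i => ?_
    rw [inner_add_right, hCo, hSi, hpu i t ht, norm_mul, mul_pow, Complex.norm_real,
      Real.norm_eq_abs, sq_abs, hω2]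
  · intro i t ht
    have h1 : (fun s => ⟪e i, v s⟫_ℂ) = fun s => (Real.cos (ω i * s) : ℂ) * ⟪e i, (z s).2⟫_ℂ
        - (Real.sin (ω i * s) : ℂ) * ⟪e i, (z s).1⟫_ℂ := by
      funext s
      simp only [v, hV, inner_sub_right, hCo, hSi]
    rw [h1]
    have := (((hcosd i t).hasDerivWithinAt (s := Ici 0)).mul (hW i t ht)).sub
      (((hsind i t).hasDerivWithinAt (s := Ici 0)).mul (hP i t ht))
    refine this.congr_deriv ?_
    have h2 := hpu i t ht
    have h3 : (w2 i : ℂ) * ⟪e i, u t⟫_ℂ = (ω i : ℂ) * ((Real.cos (ω i * t) : ℂ) * ⟪e i, (z t).1⟫_ℂ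
      + (Real.sin (ω i * t) : ℂ) * ⟪e i, (z t).2⟫_ℂ) := by
      rw [h2, ← mul_assoc, ← hω2 i]
      push_cast; ring
    rw [h3]
    have h4 : (Real.cos (ω i * t) : ℂ) ^ 2 + (Real.sin (ω i * t) : ℂ) ^ 2 = 1 := by
      exact_mod_cast Real.cos_sq_add_sin_sq (ω i * t)
    linear_combination (-⟪e i, B (v t)⟫_ℂ) * h4

end Pool.Agent.Helper34
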