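import Pool.Agent.Helper34.DW7

/-! # Decay of the energy from a resolvent estimate (Plancherel in time). -/

namespace Pool.Agent.Helper34

open MeasureTheory Set intervalIntegral Filter Topology

open scoped ComplexConjugate InnerProductSpace

section time

variable {H : Type*} [NormedAddCommGroup H] [InnerProductSpace ℂ H]

lemma memLp_of_continuousOn {f : ℝ → ℂ} {a b : ℝ} (hf : ContinuousOn f (Icc a b)) :
    MemLp f 2 (volume.restrict (Ioc a b)) := by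
  obtain ⟨C, hC⟩ := isCompact_Icc.exists_bound_of_continuousOn hf
  apply MemLp.of_bound ((hf.mono Ioc_subset_Icc_self).aestronglyMeasurable measurableSet_Ioc) C
  filter_upwards [ae_restrict_mem measurableSet_Ioc] with x hx
  exact hC x (Ioc_subset_Icc_self hx)

lemma continuous_fourier_real (T : ℝ) (n : ℤ) :
    Continuous (fun t : ℝ => (fourier n (t : AddCircle T) : ℂ)) :=
  (map_continuous (fourier n)).comp (AddCircle.continuous_mk' T)

/-- Fourier coefficients commute with continuous linear maps. -/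
lemma fourierCoeffOn_clm [CompleteSpace H] {G : Type*} [NormedAddCommGroup G] [NormedSpace ℂ G] [CompleteSpace G]
    (L : H →L[ℂ] G) {T : ℝ} (hT : 0 < T) {g : ℝ → H} (hg : ContinuousOn g (Icc 0 T)) (j : ℤ) :
    L (fourierCoeffOn hT g j) = fourierCoeffOn hT (fun t => L (g t)) j := by
  rw [fourierCoeffOn_eq_integral, fourierCoeffOn_eq_integral]
  have hi : IntervalIntegrable (fun x => (fourier (-j) (x : AddCircle (T - 0)) : ℂ) • g x) volume 0 T := by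
    apply ContinuousOn.intervalIntegrable
    rw [uIcc_of_le hT.le]
    exact (continuous_fourier_real _ _).continuousOn.smul hg
  have h1 := ContinuousLinearMap.intervalIntegral_comp_comm (L.restrictScalars ℝ) hi
  simp only [ContinuousLinearMap.coe_restrictScalars', map_smul] at h1
  rw [h1]
  have : L ((1 / (T - 0)) • ∫ x in (0:ℝ)..T, (fourier (-j) (x : AddCircle (T - 0)) : ℂ) • g x)
      = (1 / (T - 0)) • L (∫ x in (0:ℝ)..T, (fourier (-j) (x : AddCircle (T - 0)) : ℂ) • g x) :=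
    (L.restrictScalars ℝ).map_smul _ _
  rw [this]

lemma fourierCoeffOn_inner [CompleteSpace H] (x : H) {T : ℝ} (hT : 0 < T) {g : ℝ → H}
    (hg : ContinuousOn g (Icc 0 T)) (j : ℤ) :
    ⟪x, fourierCoeffOn hT g j⟫_ℂ = fourierCoeffOn hT (fun t => ⟪x, g t⟫_ℂ) j :=
  fourierCoeffOn_clm (innerSL ℂ x) hT hg j

/-- Fourier coefficients of a derivative -/
lemma fourierCoeffOn_deriv {T : ℝ} (hT : 0 < T) {f f' : ℝ → ℂ}
    (hf : ∀ t, 0 ≤ t → HasDerivWithinAt f (f' t) (Ici 0) t)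
    (hf' : ContinuousOn f' (Ici 0)) (h0 : f 0 = 0) (hTT : f T = 0) (j : ℤ) :
    fourierCoeffOn hT f' j = Complex.I * ((2 * Real.pi * j / T : ℝ) : ℂ) * fourierCoeffOn hT f j := by
  have hcont : ContinuousOn f (Ici 0) := fun t ht => (hf t ht).continuousWithinAt
  by_cases hj : j = 0
  · subst hj
    rw [fourierCoeffOn_eq_integral]
    simp only [neg_zero, fourier_zero, one_smul]
    rw [ftc_Ici hf hf' le_rfl hT.le, h0, hTT]
    simp
  · have h1 := fourierCoeffOn_of_hasDerivAt_Ioo (f := f) (f' := f') hT hj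
      (by rw [uIcc_of_le hT.le]; exact hcont.mono Icc_subset_Ici_self)
      (by
        intro x hx
        rw [min_eq_left hT.le, max_eq_right hT.le] at hx
        exact (hf x hx.1.le).hasDerivAt (Ici_mem_nhds hx.1))
      (by
        apply ContinuousOn.intervalIntegrable
        rw [uIcc_of_le hT.le]
        exact hf'.mono Icc_subset_Ici_self)
    rw [h0, hTT] at h1
    rw [h1]
    have hTc : (T : ℂ) ≠ 0 := by exact_mod_cast hT.ne'
    have hjc : (j : ℂ) ≠ 0 := by exact_mod_cast hj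
    have hπ : (Real.pi : ℂ) ≠ 0 := by exact_mod_cast Real.pi_ne_zero
    have hI := Complex.I_ne_zero
    push_cast
    field_simp
    simp

end time

section main

variable {ι : Type*} {H : Type*} [NormedAddCommGroup H] [InnerProductSpace ℂ H]
variable {e : HilbertBasis ι ℂ H} {w2 : ι → ℝ} {B : H →L[ℂ] H} {u v : ℝ → H}

/-- Bessel/Parseval for `H`-valued functions. -/
lemma summable_fourierCoeffOn_sq [Countable ι] [CompleteSpace H] (e : HilbertBasis ι ℂ H) {T : ℝ} (hT : 0 < T)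
    {g : ℝ → H} (hg : ContinuousOn g (Icc 0 T)) (J : Finset ℤ) :
    ∑ j ∈ J, ‖fourierCoeffOn hT g j‖ ^ 2 ≤ T⁻¹ * ∫ t in (0:ℝ)..T, ‖g t‖ ^ 2 := by
  have hgi : ∀ i, ContinuousOn (fun t => ⟪e i, g t⟫_ℂ) (Icc 0 T) := fun i =>
    (innerSL ℂ (e i)).continuous.comp_continuousOn hg
  -- sum over modes
  have h1 : HasSum (fun i => ∑ j ∈ J, ‖fourierCoeffOn hT (fun t => ⟪e i, g t⟫_ℂ) j‖ ^ 2)
      (∑ j ∈ J, ‖fourierCoeffOn hT g j‖ ^ 2) := by
    apply hasSum_sum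
    intro j _
    have := parseval e (fourierCoeffOn hT g j)
    simp only [fourierCoeffOn_inner _ hT hg] at this
    exact this
  have h2 : HasSum (fun i => ∫ t in (0:ℝ)..T, ‖⟪e i, g t⟫_ℂ‖ ^ 2) (∫ t in (0:ℝ)..T, ‖g t‖ ^ 2) := by
    apply intervalIntegral.hasSum_integral_of_dominated_convergence
      (fun i r => ‖⟪e i, g r⟫_ℂ‖ ^ 2)
    · intro i
      apply ContinuousOn.aestronglyMeasurable _ measurableSet_uIoc
      rw [uIoc_of_le hT.le]
      exact ((hgi i).norm.pow 2).mono Ioc_subset_Icc_self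
    · intro i
      refine Filter.Eventually.of_forall fun r _ => ?_
      rw [Real.norm_eq_abs, abs_of_nonneg (by positivity)]
    · exact Filter.Eventually.of_forall fun r _ => (parseval e (g r)).summable
    · have : (fun r => ∑' i, ‖⟪e i, g r⟫_ℂ‖ ^ 2) = fun r => ‖g r‖ ^ 2 := by
        funext r
        exact (parseval e (g r)).tsum_eq
      rw [this]
      apply ContinuousOn.intervalIntegrable
      rw [uIcc_of_le hT.le]
      exact hg.norm.pow 2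
    · exact Filter.Eventually.of_forall fun r _ => parseval e (g r)
  refine hasSum_le ?_ h1 (h2.mul_left T⁻¹)
  intro i
  have h3 := hasSum_sq_fourierCoeffOn hT (memLp_of_continuousOn (hgi i))
  have h4 := sum_le_hasSum J (fun j _ => by positivity) h3
  rw [sub_zero, smul_eq_mul] at h4
  exact h4

lemma fourierCoeffOn_add {T : ℝ} (hT : 0 < T) {f g : ℝ → ℂ} (hf : ContinuousOn f (Icc 0 T))
    (hg : ContinuousOn g (Icc 0 T)) (j : ℤ) :
    fourierCoeffOn hT (fun t => f t + g t) j = fourierCoeffOn hT f j + fourierCoeffOn hT g j := by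
  rw [fourierCoeffOn_eq_integral, fourierCoeffOn_eq_integral, fourierCoeffOn_eq_integral, ← smul_add,
    ← intervalIntegral.integral_add]
  · simp only [smul_add]
  · apply ContinuousOn.intervalIntegrable
    rw [uIcc_of_le hT.le]
    exact (continuous_fourier_real _ _).continuousOn.smul hf
  · apply ContinuousOn.intervalIntegrable
    rw [uIcc_of_le hT.le]
    exact (continuous_fourier_real _ _).continuousOn.smul hg

lemma WSol.En_continuousOn [Countable ι] (h : WSol e w2 B u v) {T : ℝ} (hT : 0 ≤ T) :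
    ContinuousOn (fun t => En e w2 (u t) (v t)) (Icc 0 T) := by
  have h1 : ContinuousOn (fun r => (⟪v r, B (v r)⟫_ℂ).re) (Icc 0 T) :=
    Complex.continuous_re.comp_continuousOn
      ((h.cv.inner h.cBv).mono Icc_subset_Ici_self)
  have h2 : ContinuousOn (fun t => ∫ r in (0:ℝ)..t, (⟪v r, B (v r)⟫_ℂ).re) (Icc 0 T) := by
    have := intervalIntegral.continuousOn_primitive_interval (μ := volume) (a := 0) (b := T)
      (f := fun r => (⟪v r, B (v r)⟫_ℂ).re)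
      (by rw [uIcc_of_le hT]; exact h1.integrableOn_Icc)
    rwa [uIcc_of_le hT] at this
  have h3 : ContinuousOn (fun t => En e w2 (u 0) (v 0) - 2 * ∫ r in (0:ℝ)..t, (⟪v r, B (v r)⟫_ℂ).re)
      (Icc 0 T) := continuousOn_const.sub (h2.const_smul (2:ℝ))
  exact h3.congr fun t ht => h.energy le_rfl ht.1

/-- **Decay from the resolvent estimate.** -/
theorem decay_of_resolvent [Countable ι] [CompleteSpace H] (h : WSol e w2 B u v)
    (hw : ∀ i, 0 ≤ w2 i) (hB : ∀ x, 0 ≤ (⟪x, B x⟫_ℂ).re) {R P : ℝ} (hR : 0 ≤ R) (hP : 0 ≤ P)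
    (hRE : ∀ (τ : ℝ) (V F : H),
      (∀ i, ((w2 i : ℂ) - (τ : ℂ) ^ 2) * ⟪e i, V⟫_ℂ + Complex.I * τ * ⟪e i, B V⟫_ℂ = ⟪e i, F⟫_ℂ) →
      ∀ s : Finset ι, τ ^ 2 * ‖V‖ ^ 2 + ∑ i ∈ s, w2 i * ‖⟪e i, V⟫_ℂ‖ ^ 2 ≤ R * ‖F‖ ^ 2)
    (hPu : ∀ t, 0 ≤ t → ‖u t‖ ^ 2 ≤ P * En e w2 (u t) (v t)) {T : ℝ} (hT1 : 1 ≤ T) :
    En e w2 (u T) (v T) ≤
      630 / T ^ 2 * (4 * R * (1 + (2 + ‖B‖) ^ 2 * P) + P / 2) * En e w2 (u 0) (v 0) := by
  have hT : 0 < T := by linarith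
  have hTc : (T : ℂ) ≠ 0 := by exact_mod_cast hT.ne'
  set E0 := En e w2 (u 0) (v 0) with hE0
  have hE0nn : 0 ≤ E0 := En_nonneg hw _ _
  -- cut-off functions
  set χ : ℝ → ℝ := fun t => (t / T) ^ 2 * (1 - t / T) ^ 2 with hχ
  set χ1 : ℝ → ℝ := fun t => 2 * (t / T) * (1 - t / T) * (1 - 2 * (t / T)) / T with hχ1
  set χ2 : ℝ → ℝ := fun t => (2 - 12 * (t / T) + 12 * (t / T) ^ 2) / T ^ 2 with hχ2
  have dχ : ∀ t, HasDerivAt χ (χ1 t) t := by
    intro t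
    have h1 : HasDerivAt (fun t => t / T) (1 / T) t := (hasDerivAt_id t).div_const T
    have h2 := (h1.pow 2).mul ((h1.const_sub 1).pow 2)
    refine h2.congr_deriv ?_
    simp only [hχ1]
    simp
    ring
  have dχ1 : ∀ t, HasDerivAt χ1 (χ2 t) t := by
    intro t
    have h1 : HasDerivAt (fun t => t / T) (1 / T) t := (hasDerivAt_id t).div_const T
    have h2 := (((h1.const_mul 2).mul (h1.const_sub 1)).mul ((h1.const_mul 2).const_sub 1)).div_const T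
    refine h2.congr_deriv ?_
    simp only [hχ2]
    simp
    ring
  have cχ : Continuous χ := by rw [hχ]; fun_prop
  have cχ1 : Continuous χ1 := by rw [hχ1]; fun_prop
  have cχ2 : Continuous χ2 := by rw [hχ2]; fun_prop
  have χ0 : χ 0 = 0 := by simp [hχ]
  have χT : χ T = 0 := by simp [hχ, hT.ne']
  have χ10 : χ1 0 = 0 := by simp [hχ1]
  have χ1T : χ1 T = 0 := by simp [hχ1, hT.ne']
  have bχ1 : ∀ t ∈ Icc 0 T, |χ1 t| ≤ 1 / (2 * T) := by
    intro t ht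
    have hs0 : 0 ≤ t / T := div_nonneg ht.1 hT.le
    have hs1 : t / T ≤ 1 := (div_le_one hT).2 ht.2
    set s := t / T
    have h1 : |2 * s * (1 - s) * (1 - 2 * s)| ≤ 1 / 2 := by
      rw [abs_mul, abs_of_nonneg (by nlinarith : 0 ≤ 2 * s * (1 - s))]
      have h2 : 2 * s * (1 - s) ≤ 1 / 2 := by nlinarith [sq_nonneg (s - 1 / 2)]
      have h3 : |1 - 2 * s| ≤ 1 := by rw [abs_le]; constructor <;> linarith
      calc 2 * s * (1 - s) * |1 - 2 * s| ≤ 1 / 2 * 1 :=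
            mul_le_mul h2 h3 (abs_nonneg _) (by norm_num)
        _ = 1 / 2 := by norm_num
    simp only [hχ1]
    rw [abs_div, abs_of_pos hT, div_le_div_iff₀ hT (by positivity)]
    calc |2 * s * (1 - s) * (1 - 2 * s)| * (2 * T) ≤ 1 / 2 * (2 * T) :=
          mul_le_mul_of_nonneg_right h1 (by positivity)
      _ = 1 * T := by ring
  have bχ2 : ∀ t ∈ Icc 0 T, |χ2 t| ≤ 2 / T ^ 2 := by
    intro t ht
    have hs0 : 0 ≤ t / T := div_nonneg ht.1 hT.le
    have hs1 : t / T ≤ 1 := (div_le_one hT).2 ht.2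
    simp only [hχ2]
    set s := t / T
    rw [abs_div, abs_of_pos (by positivity : 0 < T ^ 2)]
    apply div_le_div_of_nonneg_right _ (by positivity)
    rw [abs_le]
    constructor <;> nlinarith [sq_nonneg (s - 1 / 2)]
  -- the functions
  set V : ℝ → H := fun t => (χ t : ℂ) • u t with hV
  set W : ℝ → H := fun t => (χ t : ℂ) • v t + (χ1 t : ℂ) • u t with hW
  set F : ℝ → H := fun t => (2 * χ1 t : ℂ) • v t + (χ2 t : ℂ) • u t + (χ1 t : ℂ) • B (u t) with hF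
  have cu := h.cu
  have cv := h.cv
  have cBu : ContinuousOn (fun t => B (u t)) (Ici 0) := B.continuous.comp_continuousOn cu
  have cχc : Continuous fun t => (χ t : ℂ) := Complex.continuous_ofReal.comp cχ
  have cχ1c : Continuous fun t => (χ1 t : ℂ) := Complex.continuous_ofReal.comp cχ1
  have cχ2c : Continuous fun t => (χ2 t : ℂ) := Complex.continuous_ofReal.comp cχ2
  have cV : ContinuousOn V (Ici 0) := cχc.continuousOn.smul cu
  have cW : ContinuousOn W (Ici 0) := (cχc.continuousOn.smul cv).add (cχ1c.continuousOn.smul cu)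
  have cF : ContinuousOn F (Ici 0) :=
    (((continuous_const.mul cχ1c).continuousOn.smul cv).add (cχ2c.continuousOn.smul cu)).add
      (cχ1c.continuousOn.smul cBu)
  have cBW : ContinuousOn (fun t => B (W t)) (Ici 0) := B.continuous.comp_continuousOn cW
  have icc : Icc 0 T ⊆ Ici 0 := Icc_subset_Ici_self
  have ci : ∀ {g : ℝ → H}, ContinuousOn g (Ici 0) → ∀ i, ContinuousOn (fun t => ⟪e i, g t⟫_ℂ) (Ici 0) :=
    fun hg i => (innerSL ℂ (e i)).continuous.comp_continuousOn hg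
  have dχc : ∀ t, HasDerivWithinAt (fun t => (χ t : ℂ)) (χ1 t : ℂ) (Ici 0) t :=
    fun t => ((dχ t).ofReal_comp).hasDerivWithinAt
  have dχ1c : ∀ t, HasDerivWithinAt (fun t => (χ1 t : ℂ)) (χ2 t : ℂ) (Ici 0) t :=
    fun t => ((dχ1 t).ofReal_comp).hasDerivWithinAt
  have dui : ∀ i t, 0 ≤ t → HasDerivWithinAt (fun s => ⟪e i, u s⟫_ℂ) (⟪e i, v t⟫_ℂ) (Ici 0) t := by
    intro i t ht
    exact ((hasDerivWithinAt_const t _ (e i)).inner ℂ (h.du t ht)).congr_deriv (by simp)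
  have dVi : ∀ i t, 0 ≤ t → HasDerivWithinAt (fun s => ⟪e i, V s⟫_ℂ) (⟪e i, W t⟫_ℂ) (Ici 0) t := by
    intro i t ht
    have h1 : (fun s => ⟪e i, V s⟫_ℂ) = fun s => (χ s : ℂ) * ⟪e i, u s⟫_ℂ := by
      funext s; simp only [hV, inner_smul_right]
    rw [h1]
    refine ((dχc t).mul (dui i t ht)).congr_deriv ?_
    simp only [hW, inner_add_right, inner_smul_right]
    ring
  have dWi : ∀ i t, 0 ≤ t → HasDerivWithinAt (fun s => ⟪e i, W s⟫_ℂ)
      (-((w2 i : ℂ) * ⟪e i, V t⟫_ℂ) + (-⟪e i, B (W t)⟫_ℂ + ⟪e i, F t⟫_ℂ)) (Ici 0) t := by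
    intro i t ht
    have h1 : (fun s => ⟪e i, W s⟫_ℂ) = fun s => (χ s : ℂ) * ⟪e i, v s⟫_ℂ + (χ1 s : ℂ) * ⟪e i, u s⟫_ℂ := by
      funext s; simp only [hW, inner_smul_right, inner_add_right]
    rw [h1]
    refine (((dχc t).mul (h.dv i t ht)).add ((dχ1c t).mul (dui i t ht))).congr_deriv ?_
    simp only [hW, hV, hF, inner_add_right, inner_smul_right, map_add, map_smul]
    ring
  -- Fourier coefficients in time
  set τ : ℤ → ℝ := fun j => 2 * Real.pi * j / T with hτ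
  set Vj : ℤ → H := fun j => fourierCoeffOn hT V j with hVj
  set Wj : ℤ → H := fun j => fourierCoeffOn hT W j with hWj
  set Fj : ℤ → H := fun j => fourierCoeffOn hT F j with hFj
  have eVj : ∀ i j, ⟪e i, Vj j⟫_ℂ = fourierCoeffOn hT (fun t => ⟪e i, V t⟫_ℂ) j :=
    fun i j => fourierCoeffOn_inner _ hT (cV.mono icc) j
  have eWj : ∀ i j, ⟪e i, Wj j⟫_ℂ = fourierCoeffOn hT (fun t => ⟪e i, W t⟫_ℂ) j :=
    fun i j => fourierCoeffOn_inner _ hT (cW.mono icc) j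
  have eFj : ∀ i j, ⟪e i, Fj j⟫_ℂ = fourierCoeffOn hT (fun t => ⟪e i, F t⟫_ℂ) j :=
    fun i j => fourierCoeffOn_inner _ hT (cF.mono icc) j
  have hVi0 : ∀ i, ⟪e i, V 0⟫_ℂ = 0 := by intro i; simp [hV, χ0]
  have hViT : ∀ i, ⟪e i, V T⟫_ℂ = 0 := by intro i; simp [hV, χT]
  have hWi0 : ∀ i, ⟪e i, W 0⟫_ℂ = 0 := by intro i; simp [hW, χ0, χ10]
  have hWiT : ∀ i, ⟪e i, W T⟫_ℂ = 0 := by intro i; simp [hW, χT, χ1T]
  have rel1 : ∀ i j, ⟪e i, Wj j⟫_ℂ = Complex.I * (τ j : ℂ) * ⟪e i, Vj j⟫_ℂ := by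
    intro i j
    rw [eWj, eVj]
    exact fourierCoeffOn_deriv hT (dVi i) (ci cW i) (hVi0 i) (hViT i) j
  have relW : ∀ j, Wj j = (Complex.I * (τ j : ℂ)) • Vj j := by
    intro j
    apply coord_ext e
    intro i
    rw [rel1, inner_smul_right]
  have rel2 : ∀ i j, -((w2 i : ℂ) * ⟪e i, Vj j⟫_ℂ) + (-⟪e i, B (Wj j)⟫_ℂ + ⟪e i, Fj j⟫_ℂ)
      = Complex.I * (τ j : ℂ) * ⟪e i, Wj j⟫_ℂ := by
    intro i j
    have h1 := fourierCoeffOn_deriv hT (dWi i)
      (((ci cV i).const_smul (w2 i : ℂ)).neg.add ((ci cBW i).neg.add (ci cF i))) (hWi0 i) (hWiT i) j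
    rw [eWj, ← h1]
    have g1 : ContinuousOn (fun t => -((w2 i : ℂ) * ⟪e i, V t⟫_ℂ)) (Icc 0 T) :=
      ((ci cV i).const_smul (w2 i : ℂ)).neg.mono icc
    have g2 : ContinuousOn (fun t => -⟪e i, B (W t)⟫_ℂ) (Icc 0 T) := (ci cBW i).neg.mono icc
    have g3 : ContinuousOn (fun t => ⟪e i, F t⟫_ℂ) (Icc 0 T) := (ci cF i).mono icc
    have g4 : ContinuousOn (fun t => -⟪e i, B (W t)⟫_ℂ + ⟪e i, F t⟫_ℂ) (Icc 0 T) := g2.add g3
    rw [fourierCoeffOn_add hT g1 g4, fourierCoeffOn_add hT g2 g3]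
    have e1 : fourierCoeffOn hT (fun t => -((w2 i : ℂ) * ⟪e i, V t⟫_ℂ)) j
        = -((w2 i : ℂ) * ⟪e i, Vj j⟫_ℂ) := by
      rw [eVj]
      have : (fun t => -((w2 i : ℂ) * ⟪e i, V t⟫_ℂ)) = fun t => (-(w2 i : ℂ)) * ⟪e i, V t⟫_ℂ := by
        funext t; ring
      rw [this, fourierCoeffOn.const_mul]; ring
    have e2 : fourierCoeffOn hT (fun t => -⟪e i, B (W t)⟫_ℂ) j = -⟪e i, B (Wj j)⟫_ℂ := by
      have h2 : ⟪e i, B (Wj j)⟫_ℂ = fourierCoeffOn hT (fun t => ⟪e i, B (W t)⟫_ℂ) j :=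
        fourierCoeffOn_clm ((innerSL ℂ (e i)).comp B) hT (cW.mono icc) j
      rw [h2]
      have : (fun t => -⟪e i, B (W t)⟫_ℂ) = fun t => (-1 : ℂ) * ⟪e i, B (W t)⟫_ℂ := by
        funext t; ring
      rw [this, fourierCoeffOn.const_mul]; ring
    rw [e1, e2, eFj]
  have rel3 : ∀ j i, ((w2 i : ℂ) - (τ j : ℂ) ^ 2) * ⟪e i, Vj j⟫_ℂ
      + Complex.I * (τ j) * ⟪e i, B (Vj j)⟫_ℂ = ⟪e i, Fj j⟫_ℂ := by
    intro j i
    have h2 := rel2 i j
    rw [rel1, relW, map_smul, inner_smul_right] at h2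
    have hI : Complex.I ^ 2 = -1 := Complex.I_sq
    linear_combination (-1 : ℂ) * h2 - ((τ j : ℂ) ^ 2 * ⟪e i, Vj j⟫_ℂ) * hI
  have hWn : ∀ j, ‖Wj j‖ ^ 2 = (τ j) ^ 2 * ‖Vj j‖ ^ 2 := by
    intro j
    rw [relW, norm_smul, norm_mul, Complex.norm_I, one_mul, Complex.norm_real, mul_pow,
      Real.norm_eq_abs, sq_abs]
  -- finite sets of modes
  have fin1 : ∀ s : Finset ι, ∑ i ∈ s, ∫ t in (0:ℝ)..T, (‖⟪e i, W t⟫_ℂ‖ ^ 2 + w2 i * ‖⟪e i, V t⟫_ℂ‖ ^ 2)
      ≤ R * ∫ t in (0:ℝ)..T, ‖F t‖ ^ 2 := by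
    intro s
    have hs : HasSum (fun j => ∑ i ∈ s, (‖⟪e i, Wj j⟫_ℂ‖ ^ 2 + w2 i * ‖⟪e i, Vj j⟫_ℂ‖ ^ 2))
        (∑ i ∈ s, T⁻¹ * ∫ t in (0:ℝ)..T, (‖⟪e i, W t⟫_ℂ‖ ^ 2 + w2 i * ‖⟪e i, V t⟫_ℂ‖ ^ 2)) := by
      apply hasSum_sum
      intro i _
      have a1 := hasSum_sq_fourierCoeffOn hT (memLp_of_continuousOn ((ci cW i).mono icc))
      have a2 := (hasSum_sq_fourierCoeffOn hT (memLp_of_continuousOn ((ci cV i).mono icc))).mul_left (w2 i)
      have a3 := a1.add a2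
      simp only [← eWj, ← eVj, sub_zero, smul_eq_mul] at a3
      convert a3 using 1
      rw [intervalIntegral.integral_add, intervalIntegral.integral_const_mul]
      · ring
      · apply ContinuousOn.intervalIntegrable
        rw [uIcc_of_le hT.le]
        exact (((ci cW i).norm.pow 2).mono icc)
      · apply ContinuousOn.intervalIntegrable
        rw [uIcc_of_le hT.le]
        exact ((((ci cV i).norm.pow 2).const_smul (w2 i)).mono icc)
    have hle : ∀ J : Finset ℤ, ∑ j ∈ J, ∑ i ∈ s, (‖⟪e i, Wj j⟫_ℂ‖ ^ 2 + w2 i * ‖⟪e i, Vj j⟫_ℂ‖ ^ 2)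
        ≤ R * (T⁻¹ * ∫ t in (0:ℝ)..T, ‖F t‖ ^ 2) := by
      intro J
      have b1 : ∑ j ∈ J, ∑ i ∈ s, (‖⟪e i, Wj j⟫_ℂ‖ ^ 2 + w2 i * ‖⟪e i, Vj j⟫_ℂ‖ ^ 2)
          ≤ ∑ j ∈ J, R * ‖Fj j‖ ^ 2 := by
        apply Finset.sum_le_sum
        intro j _
        rw [Finset.sum_add_distrib]
        have b2 : ∑ i ∈ s, ‖⟪e i, Wj j⟫_ℂ‖ ^ 2 ≤ ‖Wj j‖ ^ 2 :=
          sum_le_hasSum s (fun i _ => by positivity) (parseval e (Wj j))
        have b3 := hRE (τ j) (Vj j) (Fj j) (rel3 j) s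
        rw [hWn] at b2
        linarith
      rw [← Finset.mul_sum] at b1
      have b4 := summable_fourierCoeffOn_sq e hT (cF.mono icc) J
      exact b1.trans (mul_le_mul_of_nonneg_left b4 hR)
    have hfin := hasSum_le_of_sum_le hs hle
    rw [← Finset.mul_sum] at hfin
    have hfin2 := mul_le_mul_of_nonneg_left hfin hT.le
    have c1 : T * (T⁻¹ * ∑ i ∈ s, ∫ t in (0:ℝ)..T, (‖⟪e i, W t⟫_ℂ‖ ^ 2 + w2 i * ‖⟪e i, V t⟫_ℂ‖ ^ 2))
        = ∑ i ∈ s, ∫ t in (0:ℝ)..T, (‖⟪e i, W t⟫_ℂ‖ ^ 2 + w2 i * ‖⟪e i, V t⟫_ℂ‖ ^ 2) := by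
      field_simp
    have c2 : T * (R * (T⁻¹ * ∫ t in (0:ℝ)..T, ‖F t‖ ^ 2)) = R * ∫ t in (0:ℝ)..T, ‖F t‖ ^ 2 := by
      field_simp
    rw [c1, c2] at hfin2
    exact hfin2
  -- bounds for the right-hand side
  have hEn : ∀ t ∈ Icc 0 T, En e w2 (u t) (v t) ≤ E0 := fun t ht => h.energy_antitone hB le_rfl ht.1
  have hFb : ∀ t ∈ Icc 0 T, ‖F t‖ ^ 2 ≤ 2 / T ^ 2 * (1 + (2 + ‖B‖) ^ 2 * P) * E0 := by
    intro t ht
    have n1 : ‖F t‖ ≤ 1 / T * (‖v t‖ + (2 + ‖B‖) * ‖u t‖) := by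
      have m1 : ‖(2 * χ1 t : ℂ) • v t‖ ≤ 1 / T * ‖v t‖ := by
        rw [norm_smul]
        apply mul_le_mul_of_nonneg_right _ (norm_nonneg _)
        rw [norm_mul, Complex.norm_real, Real.norm_eq_abs]
        have := bχ1 t ht
        have e2 : ‖(2 : ℂ)‖ = 2 := by simp
        rw [e2]
        calc 2 * |χ1 t| ≤ 2 * (1 / (2 * T)) := by linarith
          _ = 1 / T := by field_simp
      have m2 : ‖(χ2 t : ℂ) • u t‖ ≤ 2 / T * ‖u t‖ := by
        rw [norm_smul]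
        apply mul_le_mul_of_nonneg_right _ (norm_nonneg _)
        rw [Complex.norm_real, Real.norm_eq_abs]
        refine (bχ2 t ht).trans ?_
        rw [div_le_div_iff₀ (by positivity) hT]
        nlinarith
      have m3 : ‖(χ1 t : ℂ) • B (u t)‖ ≤ 1 / T * ‖B‖ * ‖u t‖ := by
        rw [norm_smul, Complex.norm_real, Real.norm_eq_abs, mul_assoc]
        apply mul_le_mul _ (B.le_opNorm _) (norm_nonneg _) (by positivity)
        refine (bχ1 t ht).trans ?_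
        rw [div_le_div_iff₀ (by positivity) hT]
        linarith
      have m4 : ‖F t‖ ≤ ‖(2 * χ1 t : ℂ) • v t‖ + ‖(χ2 t : ℂ) • u t‖ + ‖(χ1 t : ℂ) • B (u t)‖ := by
        simp only [hF]
        exact norm_add₃_le
      have e3 : 1 / T * (‖v t‖ + (2 + ‖B‖) * ‖u t‖)
        = 1 / T * ‖v t‖ + 2 / T * ‖u t‖ + 1 / T * ‖B‖ * ‖u t‖ := by ring
      rw [e3]; linarith
    have n2 := pow_le_pow_left₀ (norm_nonneg _) n1 2
    have n3 : (‖v t‖ + (2 + ‖B‖) * ‖u t‖) ^ 2 ≤ 2 * ‖v t‖ ^ 2 + 2 * ((2 + ‖B‖) ^ 2 * ‖u t‖ ^ 2) := by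
      nlinarith [sq_nonneg (‖v t‖ - (2 + ‖B‖) * ‖u t‖)]
    have n4 : ‖v t‖ ^ 2 ≤ E0 := (norm_sq_le_En hw _ _).trans (hEn t ht)
    have n5 : ‖u t‖ ^ 2 ≤ P * E0 := (hPu t ht.1).trans (mul_le_mul_of_nonneg_left (hEn t ht) hP)
    have n6 : (2 + ‖B‖) ^ 2 * ‖u t‖ ^ 2 ≤ (2 + ‖B‖) ^ 2 * (P * E0) :=
      mul_le_mul_of_nonneg_left n5 (by positivity)
    calc ‖F t‖ ^ 2 ≤ (1 / T * (‖v t‖ + (2 + ‖B‖) * ‖u t‖)) ^ 2 := n2
      _ = 1 / T ^ 2 * (‖v t‖ + (2 + ‖B‖) * ‖u t‖) ^ 2 := by ring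
      _ ≤ 1 / T ^ 2 * (2 * E0 + 2 * ((2 + ‖B‖) ^ 2 * (P * E0))) := by
          apply mul_le_mul_of_nonneg_left _ (by positivity)
          linarith
      _ = 2 / T ^ 2 * (1 + (2 + ‖B‖) ^ 2 * P) * E0 := by ring
  have hFint : ∫ t in (0:ℝ)..T, ‖F t‖ ^ 2 ≤ 2 / T * (1 + (2 + ‖B‖) ^ 2 * P) * E0 := by
    have := intervalIntegral.integral_mono_on (μ := volume) hT.le
      (by
        apply ContinuousOn.intervalIntegrable
        rw [uIcc_of_le hT.le]
        exact (cF.norm.pow 2).mono icc)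
      (intervalIntegrable_const) hFb
    rw [intervalIntegral.integral_const, sub_zero, smul_eq_mul] at this
    refine this.trans (le_of_eq ?_)
    field_simp
  have huint : ∫ t in (0:ℝ)..T, (χ1 t) ^ 2 * ‖u t‖ ^ 2 ≤ P / (4 * T) * E0 := by
    have hub : ∀ t ∈ Icc 0 T, (χ1 t) ^ 2 * ‖u t‖ ^ 2 ≤ 1 / (4 * T ^ 2) * (P * E0) := by
      intro t ht
      have n5 : ‖u t‖ ^ 2 ≤ P * E0 := (hPu t ht.1).trans (mul_le_mul_of_nonneg_left (hEn t ht) hP)
      have n6 : (χ1 t) ^ 2 ≤ 1 / (4 * T ^ 2) := by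
        rw [← sq_abs]
        have := pow_le_pow_left₀ (abs_nonneg _) (bχ1 t ht) 2
        refine this.trans (le_of_eq ?_)
        field_simp; norm_num
      exact mul_le_mul n6 n5 (by positivity) (by positivity)
    have := intervalIntegral.integral_mono_on (μ := volume) hT.le
      (by
        apply ContinuousOn.intervalIntegrable
        rw [uIcc_of_le hT.le]
        exact (((cχ1.continuousOn.pow 2).mul (cu.norm.pow 2))).mono icc)
      (intervalIntegrable_const) hub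
    rw [intervalIntegral.integral_const, sub_zero, smul_eq_mul] at this
    refine this.trans (le_of_eq ?_)
    field_simp
  -- finite sets of modes, energy form
  have fin2 : ∀ s : Finset ι, ∑ i ∈ s, ∫ t in (0:ℝ)..T,
      (χ t) ^ 2 * (w2 i * ‖⟪e i, u t⟫_ℂ‖ ^ 2 + ‖⟪e i, v t⟫_ℂ‖ ^ 2)
      ≤ (4 * R * (1 + (2 + ‖B‖) ^ 2 * P) + P / 2) / T * E0 := by
    intro s
    have key : ∀ t ∈ Icc 0 T, ∑ i ∈ s, (χ t) ^ 2 * (w2 i * ‖⟪e i, u t⟫_ℂ‖ ^ 2 + ‖⟪e i, v t⟫_ℂ‖ ^ 2)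
        ≤ 2 * (∑ i ∈ s, (‖⟪e i, W t⟫_ℂ‖ ^ 2 + w2 i * ‖⟪e i, V t⟫_ℂ‖ ^ 2)) + 2 * ((χ1 t) ^ 2 * ‖u t‖ ^ 2) := by
      intro t _
      have k1 : ∀ i ∈ s, (χ t) ^ 2 * (w2 i * ‖⟪e i, u t⟫_ℂ‖ ^ 2 + ‖⟪e i, v t⟫_ℂ‖ ^ 2)
          ≤ 2 * (‖⟪e i, W t⟫_ℂ‖ ^ 2 + w2 i * ‖⟪e i, V t⟫_ℂ‖ ^ 2) + 2 * ((χ1 t) ^ 2 * ‖⟪e i, u t⟫_ℂ‖ ^ 2) := by
        intro i _
        have k2 : ‖⟪e i, V t⟫_ℂ‖ ^ 2 = (χ t) ^ 2 * ‖⟪e i, u t⟫_ℂ‖ ^ 2 := by
          simp only [hV, inner_smul_right, norm_mul, mul_pow, Complex.norm_real, Real.norm_eq_abs,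
            sq_abs]
        have k3 : (χ t) ^ 2 * ‖⟪e i, v t⟫_ℂ‖ ^ 2
            ≤ 2 * ‖⟪e i, W t⟫_ℂ‖ ^ 2 + 2 * ((χ1 t) ^ 2 * ‖⟪e i, u t⟫_ℂ‖ ^ 2) := by
          have k4 : ‖(χ t : ℂ) * ⟪e i, v t⟫_ℂ‖ ≤ ‖⟪e i, W t⟫_ℂ‖ + ‖(χ1 t : ℂ) * ⟪e i, u t⟫_ℂ‖ := by
            have : (χ t : ℂ) * ⟪e i, v t⟫_ℂ = ⟪e i, W t⟫_ℂ - (χ1 t : ℂ) * ⟪e i, u t⟫_ℂ := by
              simp only [hW, inner_add_right, inner_smul_right]; ring
            rw [this]
            exact norm_sub_le _ _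
          have k5 := pow_le_pow_left₀ (norm_nonneg _) k4 2
          have k6 : ‖(χ t : ℂ) * ⟪e i, v t⟫_ℂ‖ ^ 2 = (χ t) ^ 2 * ‖⟪e i, v t⟫_ℂ‖ ^ 2 := by
            rw [norm_mul, mul_pow, Complex.norm_real, Real.norm_eq_abs, sq_abs]
          have k7 : ‖(χ1 t : ℂ) * ⟪e i, u t⟫_ℂ‖ ^ 2 = (χ1 t) ^ 2 * ‖⟪e i, u t⟫_ℂ‖ ^ 2 := by
            rw [norm_mul, mul_pow, Complex.norm_real, Real.norm_eq_abs, sq_abs]
          rw [k6] at k5
          rw [← k7]
          have k8 : ∀ x y : ℝ, (x + y) ^ 2 ≤ 2 * x ^ 2 + 2 * y ^ 2 := by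
            intro x y; nlinarith [sq_nonneg (x - y)]
          exact k5.trans (k8 _ _)
        rw [k2]
        have k9 : 0 ≤ w2 i * ((χ t) ^ 2 * ‖⟪e i, u t⟫_ℂ‖ ^ 2) := by
          have := hw i; positivity
        linarith
      refine (Finset.sum_le_sum k1).trans ?_
      rw [Finset.sum_add_distrib, ← Finset.mul_sum, ← Finset.mul_sum, ← Finset.mul_sum]
      have k10 : ∑ i ∈ s, ‖⟪e i, u t⟫_ℂ‖ ^ 2 ≤ ‖u t‖ ^ 2 :=
        sum_le_hasSum s (fun i _ => by positivity) (parseval e (u t))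
      have k11 := mul_le_mul_of_nonneg_left k10 (sq_nonneg (χ1 t))
      linarith
    have ii1 : ∀ i, IntervalIntegrable (fun t => (χ t) ^ 2 * (w2 i * ‖⟪e i, u t⟫_ℂ‖ ^ 2 + ‖⟪e i, v t⟫_ℂ‖ ^ 2))
        volume 0 T := by
      intro i
      apply ContinuousOn.intervalIntegrable
      rw [uIcc_of_le hT.le]
      exact ((cχ.continuousOn.pow 2).mul ((((ci cu i).norm.pow 2).const_smul (w2 i)).add
        ((ci cv i).norm.pow 2))).mono icc
    have ii2 : ∀ i, IntervalIntegrable (fun t => ‖⟪e i, W t⟫_ℂ‖ ^ 2 + w2 i * ‖⟪e i, V t⟫_ℂ‖ ^ 2)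
        volume 0 T := by
      intro i
      apply ContinuousOn.intervalIntegrable
      rw [uIcc_of_le hT.le]
      exact (((ci cW i).norm.pow 2).add (((ci cV i).norm.pow 2).const_smul (w2 i))).mono icc
    have ii3 : IntervalIntegrable (fun t => (χ1 t) ^ 2 * ‖u t‖ ^ 2) volume 0 T := by
      apply ContinuousOn.intervalIntegrable
      rw [uIcc_of_le hT.le]
      exact (((cχ1.continuousOn.pow 2).mul (cu.norm.pow 2))).mono icc
    have ii4 : IntervalIntegrable (fun t => ∑ i ∈ s, (‖⟪e i, W t⟫_ℂ‖ ^ 2 + w2 i * ‖⟪e i, V t⟫_ℂ‖ ^ 2))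
        volume 0 T := by
      apply ContinuousOn.intervalIntegrable
      rw [uIcc_of_le hT.le]
      exact continuousOn_finsetSum _ fun i _ =>
        (((ci cW i).norm.pow 2).add (((ci cV i).norm.pow 2).const_smul (w2 i))).mono icc
    have ii5 : IntervalIntegrable (fun t => ∑ i ∈ s, (χ t) ^ 2 * (w2 i * ‖⟪e i, u t⟫_ℂ‖ ^ 2 + ‖⟪e i, v t⟫_ℂ‖ ^ 2))
        volume 0 T := by
      apply ContinuousOn.intervalIntegrable
      rw [uIcc_of_le hT.le]
      exact continuousOn_finsetSum _ fun i _ =>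
        ((cχ.continuousOn.pow 2).mul ((((ci cu i).norm.pow 2).const_smul (w2 i)).add
        ((ci cv i).norm.pow 2))).mono icc
    have hmono := intervalIntegral.integral_mono_on (μ := volume) hT.le ii5
      ((ii4.const_mul 2).add (ii3.const_mul 2)) key
    rw [intervalIntegral.integral_finsetSum (fun i _ => ii1 i),
      intervalIntegral.integral_add (ii4.const_mul 2) (ii3.const_mul 2),
      intervalIntegral.integral_const_mul, intervalIntegral.integral_const_mul,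
      intervalIntegral.integral_finsetSum (fun i _ => ii2 i)] at hmono
    have f1 := fin1 s
    have f2 : R * ∫ t in (0:ℝ)..T, ‖F t‖ ^ 2 ≤ R * (2 / T * (1 + (2 + ‖B‖) ^ 2 * P) * E0) :=
      mul_le_mul_of_nonneg_left hFint hR
    have f3 : (4 * R * (1 + (2 + ‖B‖) ^ 2 * P) + P / 2) / T * E0
        = 2 * (R * (2 / T * (1 + (2 + ‖B‖) ^ 2 * P) * E0)) + 2 * (P / (4 * T) * E0) := by
      field_simp; ring
    rw [f3]
    linarith
  -- sum over all modes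
  have cEn := h.En_continuousOn hT.le
  have hall : HasSum (fun i => ∫ t in (0:ℝ)..T,
      (χ t) ^ 2 * (w2 i * ‖⟪e i, u t⟫_ℂ‖ ^ 2 + ‖⟪e i, v t⟫_ℂ‖ ^ 2))
      (∫ t in (0:ℝ)..T, (χ t) ^ 2 * En e w2 (u t) (v t)) := by
    have hsum : ∀ t ∈ Set.uIoc 0 T, HasSum (fun i => (χ t) ^ 2 * (w2 i * ‖⟪e i, u t⟫_ℂ‖ ^ 2 + ‖⟪e i, v t⟫_ℂ‖ ^ 2))
        ((χ t) ^ 2 * En e w2 (u t) (v t)) := by
      intro t ht
      rw [uIoc_of_le hT.le] at ht
      exact ((h.h1 t ht.1.le).hasSum.add (parseval e (v t))).mul_left _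
    apply intervalIntegral.hasSum_integral_of_dominated_convergence
      (fun i t => (χ t) ^ 2 * (w2 i * ‖⟪e i, u t⟫_ℂ‖ ^ 2 + ‖⟪e i, v t⟫_ℂ‖ ^ 2))
    · intro i
      apply ContinuousOn.aestronglyMeasurable _ measurableSet_uIoc
      rw [uIoc_of_le hT.le]
      exact ((cχ.continuousOn.pow 2).mul ((((ci cu i).norm.pow 2).const_smul (w2 i)).add
        ((ci cv i).norm.pow 2))).mono (Ioc_subset_Icc_self.trans icc)
    · intro i
      refine Filter.Eventually.of_forall fun r _ => ?_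
      rw [Real.norm_eq_abs, abs_of_nonneg]
      have := hw i; positivity
    · exact Filter.Eventually.of_forall fun r hr => (hsum r hr).summable
    · have : IntervalIntegrable (fun t => (χ t) ^ 2 * En e w2 (u t) (v t)) volume 0 T := by
        apply ContinuousOn.intervalIntegrable
        rw [uIcc_of_le hT.le]
        exact (cχ.continuousOn.pow 2).mul cEn
      refine this.congr_ae ?_
      rw [Filter.EventuallyEq, ae_restrict_iff' measurableSet_uIoc]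
      exact Filter.Eventually.of_forall fun r hr => (hsum r hr).tsum_eq.symm
    · exact Filter.Eventually.of_forall fun r hr => hsum r hr
  have hQ := hasSum_le_of_sum_le hall fin2
  -- lower bound of the left-hand side
  have hchi : ∫ t in (0:ℝ)..T, (χ t) ^ 2 = T / 630 := by
    have hd : ∀ t, HasDerivAt (fun t => T * ((t / T) ^ 5 / 5 - 2 * (t / T) ^ 6 / 3 + 6 * (t / T) ^ 7 / 7
        - (t / T) ^ 8 / 2 + (t / T) ^ 9 / 9)) ((χ t) ^ 2) t := by
      intro t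
      have h1 : HasDerivAt (fun t => t / T) (1 / T) t := (hasDerivAt_id t).div_const T
      have h2 := (((((h1.pow 5).div_const 5).sub (((h1.pow 6).const_mul 2).div_const 3)).add
        (((h1.pow 7).const_mul 6).div_const 7)).sub ((h1.pow 8).div_const 2)).add
        ((h1.pow 9).div_const 9)
      refine (h2.const_mul T).congr_deriv ?_
      simp only [hχ]
      simp
      field_simp
      ring
    have := intervalIntegral.integral_eq_sub_of_hasDerivAt (a := 0) (b := T) (fun t _ => hd t)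
      ((cχ.pow 2).intervalIntegrable _ _)
    rw [this, div_self hT.ne']
    ring
  have hlow : En e w2 (u T) (v T) * (T / 630) ≤ ∫ t in (0:ℝ)..T, (χ t) ^ 2 * En e w2 (u t) (v t) := by
    rw [← hchi, ← intervalIntegral.integral_const_mul]
    apply intervalIntegral.integral_mono_on hT.le
    · exact ((continuous_const.mul (cχ.pow 2))).intervalIntegrable _ _
    · apply ContinuousOn.intervalIntegrable
      rw [uIcc_of_le hT.le]
      exact (cχ.continuousOn.pow 2).mul cEn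
    · intro t ht
      rw [mul_comm]
      exact mul_le_mul_of_nonneg_left (h.energy_antitone hB ht.1 ht.2) (sq_nonneg _)
  have hfinal := hlow.trans hQ
  have hm := mul_le_mul_of_nonneg_left hfinal (by positivity : 0 ≤ 630 / T)
  have e1 : 630 / T * (En e w2 (u T) (v T) * (T / 630)) = En e w2 (u T) (v T) := by field_simp
  have e2 : 630 / T * ((4 * R * (1 + (2 + ‖B‖) ^ 2 * P) + P / 2) / T * E0)
      = 630 / T ^ 2 * (4 * R * (1 + (2 + ‖B‖) ^ 2 * P) + P / 2) * E0 := by field_simp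
  rw [e1, e2] at hm
  exact hm

end main

end Pool.Agent.Helper34
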