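import Pool.Agent.Helper34.DW8

/-! # Restriction to a subset of modes, and the abstract lower bound (quasimodes). -/

namespace Pool.Agent.Helper34

open MeasureTheory Set intervalIntegral Filter Topology

open scoped ComplexConjugate InnerProductSpace

section restr

variable {ι κ : Type*} {H₁ H₂ : Type*} [NormedAddCommGroup H₁] [InnerProductSpace ℂ H₁]
  [NormedAddCommGroup H₂] [InnerProductSpace ℂ H₂]

lemma summable_restr (f : HilbertBasis κ ℂ H₂) {σ : ι → κ} (hσ : Function.Injective σ) (x : H₂) :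
    Summable fun i => ‖⟪f (σ i), x⟫_ℂ‖ ^ 2 :=
  (parseval f x).summable.comp_injective hσ

/-- the vector with coordinates `x_{σ i}` -/
noncomputable def restrFun (e : HilbertBasis ι ℂ H₁) (f : HilbertBasis κ ℂ H₂) {σ : ι → κ}
    (hσ : Function.Injective σ) (x : H₂) : H₁ :=
  (exists_of_coords e (fun i => ⟪f (σ i), x⟫_ℂ) (summable_restr f hσ x)).choose

lemma restrFun_coord (e : HilbertBasis ι ℂ H₁) (f : HilbertBasis κ ℂ H₂) {σ : ι → κ}
    (hσ : Function.Injective σ) (x : H₂) (i : ι) :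
    ⟪e i, restrFun e f hσ x⟫_ℂ = ⟪f (σ i), x⟫_ℂ :=
  (exists_of_coords e (fun i => ⟪f (σ i), x⟫_ℂ) (summable_restr f hσ x)).choose_spec i

lemma restrFun_norm (e : HilbertBasis ι ℂ H₁) (f : HilbertBasis κ ℂ H₂) {σ : ι → κ}
    (hσ : Function.Injective σ) (x : H₂) : ‖restrFun e f hσ x‖ ≤ ‖x‖ := by
  have h1 := parseval e (restrFun e f hσ x)
  have h2 := parseval f x
  have h3 : ‖restrFun e f hσ x‖ ^ 2 ≤ ‖x‖ ^ 2 := by
    rw [← h1.tsum_eq, ← h2.tsum_eq]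
    simp only [restrFun_coord]
    exact tsum_comp_le_tsum_of_inj h2.summable (fun i => by positivity) hσ
  exact le_of_sq_le_sq h3 (norm_nonneg _)

/-- the partial isometry onto the modes `σ i` -/
noncomputable def restrOp (e : HilbertBasis ι ℂ H₁) (f : HilbertBasis κ ℂ H₂) {σ : ι → κ}
    (hσ : Function.Injective σ) : H₂ →L[ℂ] H₁ :=
  LinearMap.mkContinuous
    { toFun := restrFun e f hσ
      map_add' := by
        intro x y
        apply coord_ext e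
        intro i
        rw [inner_add_right, restrFun_coord, restrFun_coord, restrFun_coord, inner_add_right]
      map_smul' := by
        intro c x
        apply coord_ext e
        intro i
        simp only [RingHom.id_apply]
        rw [inner_smul_right, restrFun_coord, restrFun_coord, inner_smul_right] } 1 (by
    intro x
    rw [one_mul]
    exact restrFun_norm e f hσ x)

lemma restrOp_coord (e : HilbertBasis ι ℂ H₁) (f : HilbertBasis κ ℂ H₂) {σ : ι → κ}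
    (hσ : Function.Injective σ) (x : H₂) (i : ι) :
    ⟪e i, restrOp e f hσ x⟫_ℂ = ⟪f (σ i), x⟫_ℂ :=
  restrFun_coord e f hσ x i

/-- If the modes `σ i` decouple from the others for `B₂` and `B₂` acts on them like `B₁` then
the restriction intertwines `B₂` and `B₁`. -/
lemma restrOp_comm (e : HilbertBasis ι ℂ H₁) (f : HilbertBasis κ ℂ H₂) {σ : ι → κ}
    (hσ : Function.Injective σ) {B₁ : H₁ →L[ℂ] H₁} {B₂ : H₂ →L[ℂ] H₂}
    (hs₁ : ∀ x y, ⟪B₁ x, y⟫_ℂ = ⟪x, B₁ y⟫_ℂ) (hs₂ : ∀ x y, ⟪B₂ x, y⟫_ℂ = ⟪x, B₂ y⟫_ℂ)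
    (hd : ∀ i, ∀ n, n ∉ range σ → ⟪f (σ i), B₂ (f n)⟫_ℂ = 0)
    (hm : ∀ i j, ⟪f (σ i), B₂ (f (σ j))⟫_ℂ = ⟪e i, B₁ (e j)⟫_ℂ) (x : H₂) :
    restrOp e f hσ (B₂ x) = B₁ (restrOp e f hσ x) := by
  apply coord_ext e
  intro i
  rw [restrOp_coord, ← hs₂, ← hs₁]
  have h1 := f.hasSum_inner_mul_inner (B₂ (f (σ i))) x
  have h2 := e.hasSum_inner_mul_inner (B₁ (e i)) (restrOp e f hσ x)
  have h3 : HasSum (fun j => ⟪B₂ (f (σ i)), f (σ j)⟫_ℂ * ⟪f (σ j), x⟫_ℂ) ⟪B₂ (f (σ i)), x⟫_ℂ := by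
    refine (hσ.hasSum_iff ?_).2 h1
    intro n hn
    rw [hs₂, hd i n hn, zero_mul]
  have h4 : (fun j => ⟪B₂ (f (σ i)), f (σ j)⟫_ℂ * ⟪f (σ j), x⟫_ℂ)
      = fun j => ⟪B₁ (e i), e j⟫_ℂ * ⟪e j, restrOp e f hσ x⟫_ℂ := by
    funext j
    rw [hs₂, hm, hs₁, restrOp_coord]
  rw [h4] at h3
  exact h3.unique h2

lemma WSol.restr (e : HilbertBasis ι ℂ H₁) (f : HilbertBasis κ ℂ H₂) {σ : ι → κ}
    (hσ : Function.Injective σ) {B₁ : H₁ →L[ℂ] H₁} {B₂ : H₂ →L[ℂ] H₂} {w1 : ι → ℝ} {w2 : κ → ℝ}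
    (hc : ∀ x, restrOp e f hσ (B₂ x) = B₁ (restrOp e f hσ x)) (hw : ∀ i, w2 (σ i) = w1 i)
    {u v : ℝ → H₂} (h : WSol f w2 B₂ u v) :
    WSol e w1 B₁ (fun t => restrOp e f hσ (u t)) (fun t => restrOp e f hσ (v t)) where
  cv := (restrOp e f hσ).continuous.comp_continuousOn h.cv
  du := fun t ht => ((restrOp e f hσ).restrictScalars ℝ).hasFDerivAt.comp_hasDerivWithinAt t (h.du t ht)
  h1 := fun t ht => by
    simp only [restrOp_coord, ← hw]
    exact (h.h1 t ht).comp_injective hσ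
  dv := fun i t ht => by
    have := h.dv (σ i) t ht
    simp only [restrOp_coord, ← hc, ← hw]
    exact this

end restr

section lower

variable {ι : Type*} {H : Type*} [NormedAddCommGroup H] [InnerProductSpace ℂ H]

variable {e : HilbertBasis ι ℂ H} {w2 : ι → ℝ} {B : H →L[ℂ] H} {u v : ℝ → H}

/-- weak form against `V` in the domain of `A`. -/
lemma WSol.weak [CompleteSpace H] (h : WSol e w2 B u v)
    (hs : ∀ x y, ⟪B x, y⟫_ℂ = ⟪x, B y⟫_ℂ) {V W : H} (hW : ∀ i, ⟪e i, W⟫_ℂ = w2 i * ⟪e i, V⟫_ℂ)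
    {t : ℝ} (ht : 0 ≤ t) :
    HasDerivWithinAt (fun s => ⟪V, v s⟫_ℂ) (-⟪W, u t⟫_ℂ - ⟪B V, v t⟫_ℂ) (Ici 0) t := by
  -- integral form, coordinate by coordinate
  have icc : ∀ {t : ℝ}, 0 ≤ t → uIcc 0 t ⊆ Ici 0 := by
    intro t ht
    rw [uIcc_of_le ht]; exact fun x hx => hx.1
  have hci : ∀ i, ContinuousOn (fun t => -((w2 i : ℂ) * ⟪e i, u t⟫_ℂ) - ⟪e i, B (v t)⟫_ℂ) (Ici 0) := by
    intro i
    have h1 : ContinuousOn (fun r => ⟪e i, u r⟫_ℂ) (Ici 0) :=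
      (innerSL ℂ (e i)).continuous.comp_continuousOn h.cu
    have h2 : ContinuousOn (fun r => ⟪e i, B (v r)⟫_ℂ) (Ici 0) :=
      (innerSL ℂ (e i)).continuous.comp_continuousOn h.cBv
    exact ((h1.const_smul (w2 i : ℂ)).neg).sub h2
  have huI : ∀ t, 0 ≤ t → IntervalIntegrable u volume 0 t := fun t ht =>
    (h.cu.mono (icc ht)).intervalIntegrable
  have hBI : ∀ t, 0 ≤ t → IntervalIntegrable (fun t => B (v t)) volume 0 t := fun t ht =>
    (h.cBv.mono (icc ht)).intervalIntegrable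
  have hcoord : ∀ i t, 0 ≤ t → ⟪e i, v t⟫_ℂ - ⟪e i, v 0⟫_ℂ
      = -((w2 i : ℂ) * ⟪e i, ∫ s in (0:ℝ)..t, u s⟫_ℂ) - ⟪e i, ∫ s in (0:ℝ)..t, B (v s)⟫_ℂ := by
    intro i t ht
    rw [← ftc_Ici (h.dv i) (hci i) le_rfl ht]
    have e1 : ⟪e i, ∫ s in (0:ℝ)..t, u s⟫_ℂ = ∫ s in (0:ℝ)..t, ⟪e i, u s⟫_ℂ := by
      have := (innerSL ℂ (e i)).intervalIntegral_comp_comm (huI t ht)
      simpa using this.symm
    have e2 : ⟪e i, ∫ s in (0:ℝ)..t, B (v s)⟫_ℂ = ∫ s in (0:ℝ)..t, ⟪e i, B (v s)⟫_ℂ := by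
      have := (innerSL ℂ (e i)).intervalIntegral_comp_comm (hBI t ht)
      simpa using this.symm
    rw [e1, e2, ← intervalIntegral.integral_const_mul, ← intervalIntegral.integral_neg,
      ← intervalIntegral.integral_sub]
    · have h1 : ContinuousOn (fun r => ⟪e i, u r⟫_ℂ) (Ici 0) :=
        (innerSL ℂ (e i)).continuous.comp_continuousOn h.cu
      exact (((h1.const_smul (w2 i : ℂ)).neg).mono (icc ht)).intervalIntegrable
    · have h2 : ContinuousOn (fun r => ⟪e i, B (v r)⟫_ℂ) (Ici 0) :=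
        (innerSL ℂ (e i)).continuous.comp_continuousOn h.cBv
      exact (h2.mono (icc ht)).intervalIntegrable
  -- sum
  have hV : ∀ t, 0 ≤ t → ⟪V, v t⟫_ℂ = ⟪V, v 0⟫_ℂ - ⟪W, ∫ s in (0:ℝ)..t, u s⟫_ℂ
      - ⟪V, ∫ s in (0:ℝ)..t, B (v s)⟫_ℂ := by
    intro t ht
    have s1 := inner_hasSum e V (v t)
    have s2 := ((inner_hasSum e V (v 0)).sub (inner_hasSum e W (∫ s in (0:ℝ)..t, u s))).sub
      (inner_hasSum e V (∫ s in (0:ℝ)..t, B (v s)))
    have s3 : (fun i => conj ⟪e i, V⟫_ℂ * ⟪e i, v t⟫_ℂ) = fun i => conj ⟪e i, V⟫_ℂ * ⟪e i, v 0⟫_ℂ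
        - conj ⟪e i, W⟫_ℂ * ⟪e i, ∫ s in (0:ℝ)..t, u s⟫_ℂ
        - conj ⟪e i, V⟫_ℂ * ⟪e i, ∫ s in (0:ℝ)..t, B (v s)⟫_ℂ := by
      funext i
      have := hcoord i t ht
      rw [hW, map_mul, Complex.conj_ofReal]
      linear_combination (conj ⟪e i, V⟫_ℂ) * this
    rw [s3] at s1
    exact s1.unique s2
  -- differentiate
  have dU : HasDerivWithinAt (fun t => ∫ s in (0:ℝ)..t, u s) (u t) (Ici 0) t := by
    have hn : (fun s => u (max s 0)) t = u t := by simp [max_eq_left ht]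
    have hc : Continuous (fun s => u (max s 0)) := by
      rw [← continuousOn_univ]
      exact h.cu.comp (by fun_prop) (fun x _ => Set.mem_Ici.2 (le_max_right x 0))
    have h2 : HasDerivAt (fun t => ∫ s in (0:ℝ)..t, u (max s 0)) (u (max t 0)) t :=
      intervalIntegral.integral_hasDerivAt_right (hc.intervalIntegrable 0 t)
        (hc.stronglyMeasurableAtFilter _ _) hc.continuousAt
    rw [max_eq_left ht] at h2
    refine h2.hasDerivWithinAt.congr_of_mem ?_ ht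
    intro r hr
    apply intervalIntegral.integral_congr
    intro s hs
    have : 0 ≤ s := icc hr hs
    simp [max_eq_left this]
  have dB : HasDerivWithinAt (fun t => ∫ s in (0:ℝ)..t, B (v s)) (B (v t)) (Ici 0) t := by
    have hc : Continuous (fun s => B (v (max s 0))) := by
      rw [← continuousOn_univ]
      exact h.cBv.comp (f := fun s => max s 0) (by fun_prop) (fun x _ => Set.mem_Ici.2 (le_max_right x 0))
    have h2 : HasDerivAt (fun t => ∫ s in (0:ℝ)..t, B (v (max s 0))) (B (v (max t 0))) t :=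
      intervalIntegral.integral_hasDerivAt_right (hc.intervalIntegrable 0 t)
        (hc.stronglyMeasurableAtFilter _ _) hc.continuousAt
    rw [max_eq_left ht] at h2
    refine h2.hasDerivWithinAt.congr_of_mem ?_ ht
    intro r hr
    apply intervalIntegral.integral_congr
    intro s hs
    have : 0 ≤ s := icc hr hs
    simp [max_eq_left this]
  have d1 : HasDerivWithinAt (fun t => ⟪W, ∫ s in (0:ℝ)..t, u s⟫_ℂ) ⟪W, u t⟫_ℂ (Ici 0) t :=
    ((hasDerivWithinAt_const t _ W).inner ℂ dU).congr_deriv (by simp)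
  have d2 : HasDerivWithinAt (fun t => ⟪V, ∫ s in (0:ℝ)..t, B (v s)⟫_ℂ) ⟪V, B (v t)⟫_ℂ (Ici 0) t :=
    ((hasDerivWithinAt_const t _ V).inner ℂ dB).congr_deriv (by simp)
  have d3 := (d1.const_sub ⟪V, v 0⟫_ℂ).sub d2
  rw [hs]
  exact d3.congr_of_mem (fun r hr => hV r hr) ht

/-- **Lower bound for the energy of a solution issued from a quasimode.** -/
theorem lower_bound [Countable ι] [CompleteSpace H] (h : WSol e w2 B u v) (hw : ∀ i, 0 ≤ w2 i)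
    (hs : ∀ x y, ⟪B x, y⟫_ℂ = ⟪x, B y⟫_ℂ) (hB : ∀ x, 0 ≤ (⟪x, B x⟫_ℂ).re)
    {V g : H} {lam : ℝ} (hu0 : u 0 = V) (hv0 : v 0 = (Complex.I * lam) • V)
    (hrel : ∀ i, ((w2 i : ℂ) - (lam : ℂ) ^ 2) * ⟪e i, V⟫_ℂ - Complex.I * lam * ⟪e i, B V⟫_ℂ = ⟪e i, g⟫_ℂ)
    {Q : ℝ} (hQ0 : 0 ≤ Q) (hQ : ∀ x, ‖⟪g, x⟫_ℂ‖ ^ 2 ≤ Q * (⟪x, B x⟫_ℂ).re) {t : ℝ} (ht : 0 ≤ t)
    (hQt : 2 * Q * t ≤ En e w2 (u 0) (v 0)) :
    En e w2 (u 0) (v 0) / 4 ≤ En e w2 (u t) (v t) := by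
  set S := En e w2 (u 0) (v 0) with hS
  set W : H := (lam : ℂ) ^ 2 • V + (Complex.I * lam) • B V + g with hWdef
  have hW : ∀ i, ⟪e i, W⟫_ℂ = w2 i * ⟪e i, V⟫_ℂ := by
    intro i
    rw [hWdef, inner_add_right, inner_add_right, inner_smul_right, inner_smul_right, ← hrel i]
    ring
  have hI : Complex.I ^ 2 = -1 := Complex.I_sq
  -- the quantity z
  set y : ℝ → ℂ := fun s => ⟪W, u s⟫_ℂ - (Complex.I * lam) * ⟪V, v s⟫_ℂ with hy
  set z : ℝ → ℂ := fun s => Complex.exp (-(Complex.I * lam * s)) * y s with hz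
  have dy : ∀ s : ℝ, 0 ≤ s → HasDerivWithinAt y (⟪W, v s⟫_ℂ
      - (Complex.I * lam) * (-⟪W, u s⟫_ℂ - ⟪B V, v s⟫_ℂ)) (Ici 0) s := by
    intro s hs0
    have d1 : HasDerivWithinAt (fun t => ⟪W, u t⟫_ℂ) ⟪W, v s⟫_ℂ (Ici 0) s :=
      ((hasDerivWithinAt_const s _ W).inner ℂ (h.du s hs0)).congr_deriv (by simp)
    exact d1.sub ((h.weak hs hW hs0).const_mul (Complex.I * lam))
  have dexp : ∀ s : ℝ, HasDerivWithinAt (fun s : ℝ => Complex.exp (-(Complex.I * lam * s)))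
      (Complex.exp (-(Complex.I * lam * s)) * (-(Complex.I * lam))) (Ici 0) s := by
    intro s
    have h1 : HasDerivAt (fun s : ℝ => -(Complex.I * lam * (s : ℂ))) (-(Complex.I * lam)) s := by
      have := ((Complex.ofRealCLM.hasDerivAt (x := s)).const_mul (-(Complex.I * lam)))
      simpa using this
    exact h1.cexp.hasDerivWithinAt
  have dz : ∀ s : ℝ, 0 ≤ s → HasDerivWithinAt z
      (Complex.exp (-(Complex.I * lam * s)) * ⟪g, v s⟫_ℂ) (Ici 0) s := by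
    intro s hs0
    refine ((dexp s).mul (dy s hs0)).congr_deriv ?_
    have hg : ⟪g, v s⟫_ℂ = ⟪W, v s⟫_ℂ - (lam : ℂ) ^ 2 * ⟪V, v s⟫_ℂ
        + (Complex.I * lam) * ⟪B V, v s⟫_ℂ := by
      have : g = W - (lam : ℂ) ^ 2 • V - (Complex.I * lam) • B V := by
        rw [hWdef]; abel
      rw [this, inner_sub_left, inner_sub_left, inner_smul_left, inner_smul_left, map_pow,
        map_mul, Complex.conj_ofReal, Complex.conj_I]
      ring
    rw [hg, hy]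
    linear_combination (Complex.exp (-(Complex.I * lam * s)) * (lam : ℂ) ^ 2 * ⟪V, v s⟫_ℂ) * hI
  have hgc : ContinuousOn (fun s : ℝ => Complex.exp (-(Complex.I * lam * s)) * ⟪g, v s⟫_ℂ) (Ici 0) := by
    have h1 : Continuous (fun s : ℝ => Complex.exp (-(Complex.I * lam * s))) := by fun_prop
    exact h1.continuousOn.mul ((innerSL ℂ g).continuous.comp_continuousOn h.cv)
  have hzt := ftc_Ici dz hgc le_rfl ht
  have icc : uIcc 0 t ⊆ Ici 0 := by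
    rw [uIcc_of_le ht]; exact fun x hx => hx.1
  have hnexp : ∀ s : ℝ, ‖Complex.exp (-(Complex.I * lam * s))‖ = 1 := by
    intro s
    rw [Complex.norm_exp]
    simp
  have hDc : ContinuousOn (fun r => (⟪v r, B (v r)⟫_ℂ).re) (Ici 0) :=
    Complex.continuous_re.comp_continuousOn (h.cv.inner h.cBv)
  have hen := h.energy le_rfl ht
  have hEt : 0 ≤ En e w2 (u t) (v t) := En_nonneg hw _ _
  have hz1 : ‖z t - z 0‖ ≤ S / 2 := by
    rw [← hzt]
    have h1 : ‖∫ s in (0:ℝ)..t, Complex.exp (-(Complex.I * lam * s)) * ⟪g, v s⟫_ℂ‖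
        ≤ ∫ s in (0:ℝ)..t, (Q + (⟪v s, B (v s)⟫_ℂ).re) / 2 := by
      apply intervalIntegral.norm_integral_le_of_norm_le ht
      · refine Eventually.of_forall fun s hs' => ?_
        rw [norm_mul, hnexp, one_mul]
        have h2 := hQ (v s)
        have h3 := hB (v s)
        apply abs_le_of_sq_le_sq' _ (by positivity) |>.2
        nlinarith [sq_nonneg (Q - (⟪v s, B (v s)⟫_ℂ).re)]
      · exact (((continuousOn_const.add hDc).div_const 2).mono icc).intervalIntegrable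
    have h2 : ∫ s in (0:ℝ)..t, (Q + (⟪v s, B (v s)⟫_ℂ).re) / 2
        = (t * Q + ∫ s in (0:ℝ)..t, (⟪v s, B (v s)⟫_ℂ).re) / 2 := by
      rw [intervalIntegral.integral_div, intervalIntegral.integral_add
        intervalIntegrable_const (hDc.mono icc).intervalIntegrable]
      simp
    rw [h2] at h1
    refine h1.trans ?_
    linarith
  -- z 0 = S
  have hVW : HasSum (fun i => w2 i * ‖⟪e i, V⟫_ℂ‖ ^ 2) (∑' i, w2 i * ‖⟪e i, V⟫_ℂ‖ ^ 2) := by
    have := (h.h1 0 le_rfl).hasSum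
    rwa [hu0] at this
  have hlamV : ‖v 0‖ ^ 2 = lam ^ 2 * ‖V‖ ^ 2 := by
    rw [hv0, norm_smul, norm_mul, Complex.norm_I, one_mul, Complex.norm_real, mul_pow,
      Real.norm_eq_abs, sq_abs]
  have hSv : S = (∑' i, w2 i * ‖⟪e i, V⟫_ℂ‖ ^ 2) + lam ^ 2 * ‖V‖ ^ 2 := by
    rw [hS, En, hlamV, hu0]
  have hz0 : z 0 = (S : ℂ) := by
    have h1 : ⟪W, V⟫_ℂ = ((∑' i, w2 i * ‖⟪e i, V⟫_ℂ‖ ^ 2 : ℝ) : ℂ) := by
      have h2 := inner_hasSum e W V
      have h3 := Complex.hasSum_ofReal.2 hVW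
      refine h2.unique ?_
      convert h3 using 1
      funext i
      rw [hW, map_mul, Complex.conj_ofReal]
      have := Complex.conj_mul' ⟪e i, V⟫_ℂ
      rw [mul_assoc, this]
      push_cast
      ring
    have h4 : ⟪V, V⟫_ℂ = ((‖V‖ ^ 2 : ℝ) : ℂ) := by
      rw [inner_self_eq_norm_sq_to_K]; simp
    simp only [hz, hy, hu0, hv0, inner_smul_right, h1, h4, hSv]
    simp only [Complex.ofReal_zero, mul_zero, neg_zero, Complex.exp_zero, one_mul]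
    push_cast
    linear_combination (-(lam : ℂ) ^ 2 * (‖V‖ : ℂ) ^ 2) * hI
  -- upper bound of z t
  have hzt2 : ‖z t‖ ≤ S / 4 + En e w2 (u t) (v t) := by
    have h1 : ‖z t‖ = ‖y t‖ := by simp only [hz]; rw [norm_mul, hnexp, one_mul]
    rw [h1]
    have h2 : ‖⟪W, u t⟫_ℂ‖ ≤ (∑' i, w2 i * ‖⟪e i, V⟫_ℂ‖ ^ 2) / 4 + ∑' i, w2 i * ‖⟪e i, u t⟫_ℂ‖ ^ 2 := by
      have h3 := inner_hasSum e W (u t)
      have h4 : HasSum (fun i => w2 i * ‖⟪e i, V⟫_ℂ‖ ^ 2 / 4 + w2 i * ‖⟪e i, u t⟫_ℂ‖ ^ 2)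
        ((∑' i, w2 i * ‖⟪e i, V⟫_ℂ‖ ^ 2) / 4 + ∑' i, w2 i * ‖⟪e i, u t⟫_ℂ‖ ^ 2) :=
        (hVW.div_const 4).add (h.h1 t ht).hasSum
      refine h3.norm_le_of_bounded h4 ?_
      intro i
      rw [norm_mul, RCLike.norm_conj, hW, norm_mul, Complex.norm_real, Real.norm_eq_abs,
        abs_of_nonneg (hw i)]
      have := mul_nonneg (hw i) (sq_nonneg (‖⟪e i, V⟫_ℂ‖ / 2 - ‖⟪e i, u t⟫_ℂ‖))
      linarith
    have h5 : ‖(Complex.I * lam) * ⟪V, v t⟫_ℂ‖ ≤ lam ^ 2 * ‖V‖ ^ 2 / 4 + ‖v t‖ ^ 2 := by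
      rw [norm_mul, norm_mul, Complex.norm_I, one_mul, Complex.norm_real, Real.norm_eq_abs]
      have h6 := norm_inner_le_norm (𝕜 := ℂ) V (v t)
      have h7 : |lam| * ‖⟪V, v t⟫_ℂ‖ ≤ |lam| * (‖V‖ * ‖v t‖) :=
        mul_le_mul_of_nonneg_left h6 (abs_nonneg _)
      have h8 := sq_nonneg (|lam| * ‖V‖ / 2 - ‖v t‖)
      have h9 : |lam| ^ 2 = lam ^ 2 := sq_abs lam
      have h10 : (|lam| * ‖V‖ / 2 - ‖v t‖) ^ 2 = |lam| ^ 2 * ‖V‖ ^ 2 / 4
          - |lam| * (‖V‖ * ‖v t‖) + ‖v t‖ ^ 2 := by ring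
      rw [h10, h9] at h8
      linarith
    have h11 := norm_sub_le ⟪W, u t⟫_ℂ ((Complex.I * lam) * ⟪V, v t⟫_ℂ)
    have h12 : En e w2 (u t) (v t) = (∑' i, w2 i * ‖⟪e i, u t⟫_ℂ‖ ^ 2) + ‖v t‖ ^ 2 := rfl
    rw [hSv, h12]
    simp only [hy]
    linarith
  have hfin : S ≤ ‖z t‖ + S / 2 := by
    have h1 : ‖z 0‖ = S := by
      rw [hz0, Complex.norm_real, Real.norm_eq_abs, abs_of_nonneg]
      exact En_nonneg hw _ _
    have h2 : ‖z 0‖ ≤ ‖z t‖ + ‖z t - z 0‖ := by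
      have := norm_sub_norm_le (z 0) (z t)
      rw [norm_sub_rev] at this
      linarith
    linarith
  linarith

end lower

end Pool.Agent.Helper34
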