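import Mathlib

/-! # Damped waves on the flat two-dimensional torus: definitions.

The torus `ℝ²/(2πℤ)²` is parametrised by `x = 2πθ` with `θ` in Mathlib's `UnitAddTorus (Fin 2)`,
so that `mFourier n θ = e^{2πi n·θ} = e^{i n·x}` is an eigenfunction of `-Δ` with
eigenvalue `|n|²`. The measure is normalised to total mass one; this multiplies all squared norms
by the same constant. -/

namespace Pool.Agent.Helper34.DW

open MeasureTheory Set

/-- the two-dimensional torus -/
abbrev Torus : Type := UnitAddTorus (Fin 2)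

/-- normalised Haar measure on the torus -/
noncomputable def haar : Measure Torus := Measure.pi fun _ => AddCircle.haarAddCircle

/-- the Hilbert space `L²(𝕋²; ℂ)`, with Mathlib's norm -/
def L2 : Type := Lp ℂ 2 haar

/-- Mathlib's norm and additive group on `L²` -/
noncomputable instance instGroup : NormedAddCommGroup L2 := Lp.instNormedAddCommGroup

/-- Mathlib's real vector space structure on `L²` -/
noncomputable instance instSpace : NormedSpace ℝ L2 := Lp.instNormedSpace

/-- a function representing `g ∈ L²` -/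
noncomputable def fn : L2 → Torus → ℂ := fun (g : Lp ℂ 2 haar) => (g : Torus → ℂ)

/-- damping functions: bounded, non-negative, not vanishing identically -/
def IsDamping (b : Torus → ℝ) : Prop :=
  Measurable b ∧ (∀ θ, 0 ≤ b θ) ∧ (∃ C : ℝ, ∀ θ, b θ ≤ C) ∧ ¬ (b =ᵐ[haar] fun _ => 0)

/-- Fourier coefficients `∫ e^{-2πi n·θ} g(θ) dθ` -/
noncomputable def coef (g : Torus → ℂ) (n : Fin 2 → ℤ) : ℂ :=
  ∫ θ, UnitAddTorus.mFourier (-n) θ * g θ ∂haar

/-- `|n|²` -/
def lam (n : Fin 2 → ℤ) : ℝ := (n 0 : ℝ) ^ 2 + (n 1 : ℝ) ^ 2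

/-- `u` is a finite energy solution of `∂ₜ²u - Δu + b ∂ₜu = 0` for `t ≥ 0`, with `v = ∂ₜu`:
`u` is `C¹` in time with values in `L²`, `∇u(t) ∈ L²` for every `t`, and the equation holds
tested against every exponential. -/
structure IsSolution (b : Torus → ℝ) (u v : ℝ → L2) : Prop where
  cont : ContinuousOn v (Ici 0)
  deriv : ∀ t, 0 ≤ t → HasDerivWithinAt u (v t) (Ici 0) t
  finite : ∀ t, 0 ≤ t → Summable fun n => lam n * ‖coef (fn (u t)) n‖ ^ 2
  wave : ∀ n, ∀ t, 0 ≤ t → HasDerivWithinAt (fun s => coef (fn (v s)) n)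
    (-(lam n * coef (fn (u t)) n) - coef (fun θ => b θ * fn (v t) θ) n) (Ici 0) t

/-- the energy `½ (‖∇u‖² + ‖v‖²)` -/
noncomputable def energy (u v : L2) : ℝ :=
  ((∑' n, lam n * ‖coef (fn u) n‖ ^ 2) + ‖v‖ ^ 2) / 2

/-- `g` belongs to the Sobolev space `H^s` -/
def MemSob (s : ℕ) (g : L2) : Prop :=
  Summable fun n => (1 + lam n) ^ s * ‖coef (fn g) n‖ ^ 2

/-- the square of the `H^s` norm -/
noncomputable def sobSq (s : ℕ) (g : L2) : ℝ :=
  ∑' n, (1 + lam n) ^ s * ‖coef (fn g) n‖ ^ 2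

/-- the damped wave equation with damping `b` is stable at rate `f` -/
def StableAtRate (b : Torus → ℝ) (f : ℝ → ℝ) : Prop :=
  ∃ C : ℝ, 0 < C ∧ ∀ u v : ℝ → L2, IsSolution b u v → MemSob 2 (u 0) → MemSob 1 (v 0) →
    ∀ t : ℝ, 0 < t → energy (u t) (v t) ≤ C * f t ^ 2 * (sobSq 2 (u 0) + sobSq 1 (v 0))

end Pool.Agent.Helper34.DW
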