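import Mathlib

/-! # A Borel-hardness lemma for domination problems. -/

namespace Pool.Agent.Helper34.FB

open MeasureTheory Set Filter Topology

instance : PolishSpace Bool := inferInstance

/-- membership is decided by finitely many coordinates -/
lemma continuous_of_local {α : Type*} [TopologicalSpace α] [DiscreteTopology α] (F : (ℕ → Bool) → α)
    (k : ℕ) (h : ∀ x y : ℕ → Bool, (∀ i < k, x i = y i) → F x = F y) : Continuous F := by
  apply IsLocallyConstant.continuous
  rw [IsLocallyConstant.iff_exists_open]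
  intro x
  refine ⟨{y | ∀ i ∈ Finset.range k, y i = x i}, ?_, ?_, ?_⟩
  · have : {y : ℕ → Bool | ∀ i ∈ Finset.range k, y i = x i} = ⋂ i ∈ Finset.range k, {y | y i = x i} := by
      ext y; simp
    rw [this]
    apply isOpen_biInter_finset
    intro i _
    show IsOpen ((fun y : ℕ → Bool => y i) ⁻¹' {x i})
    exact (isOpen_discrete _).preimage (continuous_apply i)
  · intro i _; rfl
  · intro y hy
    apply h
    intro i hi
    exact hy i (Finset.mem_range.2 hi)

/-- the set of constraints which some function satisfies -/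
def Good (lst : ℕ → List ℕ) : Set (ℕ → Bool) :=
  {B | ∃ b : ℕ → ℕ, ∀ n, B n = true → ∃ j, ∃ hj : j < (lst n).length, (lst n)[j] < b j}

open Classical in
/-- the constraints attached to a point -/
noncomputable def Bd (lst : ℕ → List ℕ) (f : (ℕ → ℕ) → (ℕ → Bool)) (x : ℕ → Bool) (n : ℕ) : Bool :=
  decide (¬ ∃ z : ℕ → ℕ, (∀ j, ∀ hj : j < (lst n).length, z j ≤ (lst n)[j]) ∧
    ∀ i < (lst n).length, f z i = x i)

lemma Bd_continuous (lst : ℕ → List ℕ) (f : (ℕ → ℕ) → (ℕ → Bool)) : Continuous (Bd lst f) := by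
  apply continuous_pi
  intro n
  apply continuous_of_local _ (lst n).length
  intro x y hxy
  unfold Bd
  congr 1
  apply propext
  apply not_congr
  constructor
  · rintro ⟨z, h1, h2⟩
    exact ⟨z, h1, fun i hi => (h2 i hi).trans (hxy i hi)⟩
  · rintro ⟨z, h1, h2⟩
    exact ⟨z, h1, fun i hi => (h2 i hi).trans (hxy i hi).symm⟩

/-- compactness: approximate preimages bounded by `b` converge to a preimage -/
lemma limit_point {f : (ℕ → ℕ) → (ℕ → Bool)} (hf : Continuous f) (x : ℕ → Bool) (b : ℕ → ℕ)
    (z : ℕ → ℕ → ℕ) (h1 : ∀ k, ∀ j < k, z k j ≤ b j) (h2 : ∀ k, ∀ i < k, f (z k) i = x i) :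
    x ∈ range f := by
  set b' : ℕ → ℕ := fun j => b j + ∑ k ∈ Finset.range (j + 1), z k j with hb'
  have hK : IsCompact (Set.pi univ fun j => Set.Iic (b' j)) :=
    isCompact_univ_pi fun j => (Set.finite_Iic (b' j)).isCompact
  have hz : ∀ k, z k ∈ Set.pi univ fun j => Set.Iic (b' j) := by
    intro k j _
    simp only [Set.mem_Iic, hb']
    rcases lt_or_ge j k with h | h
    · exact (h1 k j h).trans (Nat.le_add_right _ _)
    · have : z k j ≤ ∑ k ∈ Finset.range (j + 1), z k j :=
        Finset.single_le_sum (f := fun k => z k j) (fun _ _ => Nat.zero_le _)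
          (Finset.mem_range.2 (by omega))
      omega
  obtain ⟨a, _, φ, hφ, ht⟩ := hK.tendsto_subseq hz
  refine ⟨a, ?_⟩
  have h3 : Tendsto (fun n => f (z (φ n))) atTop (𝓝 (f a)) := (hf.tendsto a).comp ht
  have h4 : Tendsto (fun n => f (z (φ n))) atTop (𝓝 x) := by
    rw [tendsto_pi_nhds]
    intro i
    apply tendsto_const_nhds.congr'
    filter_upwards [eventually_gt_atTop i] with n hn
    exact (h2 (φ n) i (lt_of_lt_of_le hn (hφ.id_le n))).symm
  exact tendsto_nhds_unique h3 h4

lemma mem_range_iff (lst : ℕ → List ℕ) (hlst : ∀ s : List ℕ, 2 ≤ s.length → ∃ n, lst n = s)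
    {f : (ℕ → ℕ) → (ℕ → Bool)} (hf : Continuous f) (x : ℕ → Bool) :
    Bd lst f x ∈ Good lst ↔ x ∈ range f := by
  constructor
  · rintro ⟨b, hb⟩
    have key : ∀ k : ℕ, ∃ z : ℕ → ℕ, (∀ j < k, z j ≤ b j) ∧ ∀ i < k, f z i = x i := by
      intro k
      obtain ⟨n, hn⟩ := hlst (List.ofFn fun i : Fin (k + 2) => b i) (by simp)
      have hlen : (lst n).length = k + 2 := by rw [hn]; simp
      have hget : ∀ j, ∀ hj : j < (lst n).length, (lst n)[j] = b j := by
        intro j hj
        simp only [hn, List.getElem_ofFn]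
      by_cases h : Bd lst f x n = true
      · obtain ⟨j, hj, hlt⟩ := hb n h
        rw [hget j hj] at hlt
        exact absurd hlt (lt_irrefl _)
      · unfold Bd at h
        simp only [decide_eq_true_eq, not_not] at h
        obtain ⟨z, hz1, hz2⟩ := h
        refine ⟨z, fun j hj => ?_, fun i hi => hz2 i (by omega)⟩
        have hj' : j < (lst n).length := by omega
        have := hz1 j hj'
        rwa [hget j hj'] at this
    choose z hz1 hz2 using key
    exact limit_point hf x b z hz1 hz2
  · rintro ⟨z, rfl⟩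
    refine ⟨z, fun n hn => ?_⟩
    by_contra hcon
    push Not at hcon
    unfold Bd at hn
    simp only [decide_eq_true_eq] at hn
    exact hn ⟨z, fun j hj => hcon j hj, fun i _ => rfl⟩

/-- initial segment -/
def seg {α : Type*} (x : ℕ → α) (n : ℕ) : List α := (List.range n).map x

lemma seg_length {α : Type*} (x : ℕ → α) (n : ℕ) : (seg x n).length = n := by simp [seg]

lemma seg_eq_iff {α : Type*} (x y : ℕ → α) (n : ℕ) : seg x n = seg y n ↔ ∀ i < n, x i = y i := by
  unfold seg
  rw [List.map_inj_left]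
  simp

/-- the code of a pair of initial segments -/
def cd (x : ℕ → Bool) (z : ℕ → ℕ) (n : ℕ) : ℕ := Encodable.encode (seg x n, seg z n)

/-- diagonal set -/
def Dg : Set (ℕ → Bool) := {x | ∃ z : ℕ → ℕ, ∀ n, x (cd x z n) = true}

lemma Dg_analytic : AnalyticSet Dg := by
  have h1 : Dg = Prod.fst '' {p : (ℕ → Bool) × (ℕ → ℕ) | ∀ n, p.1 (cd p.1 p.2 n) = true} := by
    ext x
    constructor
    · rintro ⟨z, hz⟩
      exact ⟨(x, z), hz, rfl⟩
    · rintro ⟨⟨x', z⟩, hz, rfl⟩
      exact ⟨z, hz⟩
  rw [h1]
  apply AnalyticSet.image_of_continuous _ continuous_fst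
  apply IsClosed.analyticSet
  have h2 : {p : (ℕ → Bool) × (ℕ → ℕ) | ∀ n, p.1 (cd p.1 p.2 n) = true}
      = ⋂ n, {p : (ℕ → Bool) × (ℕ → ℕ) | p.1 (cd p.1 p.2 n) = true} := by
    ext p; simp
  rw [h2]
  apply isClosed_iInter
  intro n
  have h3 : Continuous fun p : (ℕ → Bool) × (ℕ → ℕ) => p.1 (cd p.1 p.2 n) := by
    apply IsLocallyConstant.continuous
    rw [IsLocallyConstant.iff_exists_open]
    rintro ⟨x, z⟩
    refine ⟨{y | ∀ i ∈ Finset.range (n + cd x z n + 1), y i = x i} ×ˢ
      {y | ∀ i ∈ Finset.range n, y i = z i}, IsOpen.prod ?_ ?_, ⟨fun _ _ => rfl, fun _ _ => rfl⟩, ?_⟩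
    · have : {y : ℕ → Bool | ∀ i ∈ Finset.range (n + cd x z n + 1), y i = x i}
          = ⋂ i ∈ Finset.range (n + cd x z n + 1), {y | y i = x i} := by
        ext y; simp
      rw [this]
      apply isOpen_biInter_finset
      intro i _
      show IsOpen ((fun y : ℕ → Bool => y i) ⁻¹' {x i})
      exact (isOpen_discrete _).preimage (continuous_apply i)
    · have : {y : ℕ → ℕ | ∀ i ∈ Finset.range n, y i = z i}
          = ⋂ i ∈ Finset.range n, {y | y i = z i} := by
        ext y; simp
      rw [this]
      apply isOpen_biInter_finset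
      intro i _
      show IsOpen ((fun y : ℕ → ℕ => y i) ⁻¹' {z i})
      exact (isOpen_discrete _).preimage (continuous_apply i)
    · rintro ⟨y, w⟩ ⟨hy, hw⟩
      simp only [Set.mem_ofPred_eq, Finset.mem_range] at hy hw
      have e1 : seg y n = seg x n := (seg_eq_iff _ _ _).2 fun i hi => hy i (by omega)
      have e2 : seg w n = seg z n := (seg_eq_iff _ _ _).2 fun i hi => hw i hi
      have e3 : cd y w n = cd x z n := by unfold cd; rw [e1, e2]
      simp only [e3]
      exact hy _ (by omega)
  exact isClosed_eq h3 continuous_const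

/-- **Non-Borelness of the domination problem.** -/
theorem notBorel (lst : ℕ → List ℕ) (hlst : ∀ s : List ℕ, 2 ≤ s.length → ∃ n, lst n = s) :
    ¬ MeasurableSet {B : ℕ → Bool | ∃ b : ℕ → ℕ, ∀ n, B n = true →
      ∃ j, ∃ hj : j < (lst n).length, (lst n)[j] < b j} := by
  intro hmeas
  -- every analytic set is Borel
  have key : ∀ f : (ℕ → ℕ) → (ℕ → Bool), Continuous f → MeasurableSet (range f) := by
    intro f hf
    have h1 : range f = Bd lst f ⁻¹' Good lst := by
      ext x
      exact (mem_range_iff lst hlst hf x).symm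
    rw [h1]
    exact (Bd_continuous lst f).measurable hmeas
  have hD : MeasurableSet Dg := by
    have h1 := Dg_analytic
    rw [AnalyticSet] at h1
    rcases h1 with h1 | ⟨f, hf, h1⟩
    · rw [h1]; exact MeasurableSet.empty
    · rw [← h1]; exact key f hf
  have hDc := hD.compl.analyticSet
  rw [AnalyticSet] at hDc
  rcases hDc with h1 | ⟨g, hg, h1⟩
  · have h2 : (fun _ => false : ℕ → Bool) ∈ Dgᶜ := by
      rintro ⟨z, hz⟩
      exact absurd (hz 0) (by simp)
    rw [h1] at h2
    exact h2
  · classical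
    set x0 : ℕ → Bool := fun m => decide (∃ (z : ℕ → ℕ) (n : ℕ), m = cd (g z) z n) with hx0
    -- membership in the diagonal set
    have h2 : x0 ∈ Dg ↔ x0 ∈ range g := by
      constructor
      · rintro ⟨z, hz⟩
        have h3 : ∀ n, ∃ z' : ℕ → ℕ, (∀ j < n, z' j ≤ z j) ∧ (∀ i < n, g z' i = x0 i) := by
          intro n
          have h4 := hz n
          simp only [hx0, decide_eq_true_eq] at h4
          obtain ⟨z', m, hm⟩ := h4
          have h5 := Encodable.encode_injective hm
          rw [Prod.mk.injEq] at h5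
          obtain ⟨h6, h7⟩ := h5
          have hmn : m = n := by
            have := congrArg List.length h7
            rw [seg_length, seg_length] at this
            exact this.symm
          subst hmn
          rw [seg_eq_iff] at h6 h7
          exact ⟨z', fun j hj => (h7 j hj).ge, fun i hi => (h6 i hi).symm⟩
        choose z' hz1 hz2 using h3
        exact limit_point hg x0 z z' hz1 hz2
      · rintro ⟨z, hz⟩
        refine ⟨z, fun n => ?_⟩
        have h3 : x0 (cd (g z) z n) = true := by
          simp only [hx0, decide_eq_true_eq]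
          exact ⟨z, n, rfl⟩
        rwa [hz] at h3
    rw [h1] at h2
    have h3 : x0 ∈ Dg ↔ x0 ∉ Dg := h2
    exact (iff_not_self h3).elim

end Pool.Agent.Helper34.FB
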